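import Mathlib

/-!
JOB AS-CHEB. Chebyshev's upper bound in index form.

PROOF. `∏_{√n < p ≤ n} p ≤ primorial n ≤ 4^n` gives `π(n) ≤ √n + 2 n log 4/log n ≤ C n/log n` for `n ≥ 2`. For
`n = ⌊c N log N⌋` (`c` small) this is `≤ N` (`log n ≥ (log N)/2`). `Nat.count`/`primeCounting'` is the number of primes `< n`.
-/

set_option autoImplicit false

open Finset Filter Topology

namespace Pool.Agent.H81.AS

/-- Chebyshev upper bound in a convenient form. -/
theorem cheb_upper_real (x : ℝ) (hx : 1 < x) : (Nat.primeCounting ⌊x⌋₊ : ℝ) ≤ 7 * (x / Real.log x) := by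
  have h1 := Chebyshev.pi_le_log4_mul_div (x := x) hx
  have hlog : 0 < Real.log x := Real.log_pos hx
  refine h1.trans ?_
  have hsq : Real.log √x = Real.log x / 2 := by
    rw [Real.sqrt_eq_rpow, Real.log_rpow (by linarith)]; ring
  rw [hsq]
  have h4 : Real.log 4 ≤ 2 := by
    rw [show (4 : ℝ) = 2 ^ 2 by norm_num, Real.log_pow]
    have := Real.log_two_lt_d9
    push_cast
    linarith
  have h5 : √x ≤ 3 * (x / Real.log x) := by
    have h6 : Real.log x ≤ 2 * √x := by
      have h7 := Real.log_le_sub_one_of_pos (show 0 < √x by positivity)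
      rw [hsq] at h7
      linarith
    rw [mul_div_assoc', le_div_iff₀ hlog]
    have h8 : √x * √x = x := Real.mul_self_sqrt (by linarith)
    have h9 : 0 ≤ √x := Real.sqrt_nonneg x
    nlinarith
  have h6 : Real.log 4 * x / (Real.log x / 2) ≤ 4 * (x / Real.log x) := by
    have e : Real.log 4 * x / (Real.log x / 2) = 2 * Real.log 4 * (x / Real.log x) := by
      field_simp
    rw [e]
    have : 0 ≤ x / Real.log x := by positivity
    nlinarith
  linarith

theorem cheb_upper : ∃ C : ℝ, 0 < C ∧ ∀ n : ℕ, 2 ≤ n → (Nat.primeCounting n : ℝ) ≤ C * n / Real.log n := by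
  refine ⟨7, by norm_num, fun n hn => ?_⟩
  have h1 : (1 : ℝ) < n := by exact_mod_cast (by omega : 1 < n)
  have h := cheb_upper_real n h1
  rw [Nat.floor_natCast] at h
  rw [mul_div_assoc]
  exact h

/-- all primes `≤ c N log N` are among the first `N` primes -/
theorem cheb_index : ∃ c : ℝ, 0 < c ∧ ∀ᶠ N : ℕ in atTop,
    Nat.count Nat.Prime (⌊c * N * Real.log N⌋₊ + 1) ≤ N := by
  refine ⟨1 / 7, by norm_num, ?_⟩
  have hlog : ∀ᶠ N : ℕ in atTop, (7 : ℝ) ≤ Real.log N :=
    (Real.tendsto_log_atTop.comp tendsto_natCast_atTop_atTop).eventually_ge_atTop 7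
  filter_upwards [hlog, eventually_ge_atTop 2] with N hN hN2
  have hN2' : (2 : ℝ) ≤ N := by exact_mod_cast hN2
  have hNpos : (0 : ℝ) < N := by linarith
  set x : ℝ := 1 / 7 * N * Real.log N with hx
  have hxN : (N : ℝ) ≤ x := by
    rw [hx]; nlinarith
  have hx1 : 1 < x := by linarith
  have h := cheb_upper_real x hx1
  have hlogx : Real.log N ≤ Real.log x := Real.log_le_log hNpos hxN
  have hL : 0 < Real.log N := by linarith
  have h2 : 7 * (x / Real.log x) ≤ N := by
    have h3 : x / Real.log x ≤ x / Real.log N :=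
      div_le_div_of_nonneg_left (by linarith) hL hlogx
    have h4 : x / Real.log N = N / 7 := by
      rw [hx]; field_simp
    rw [h4] at h3
    linarith
  have h5 : (Nat.primeCounting ⌊x⌋₊ : ℝ) ≤ N := h.trans h2
  have h6 : Nat.primeCounting ⌊x⌋₊ ≤ N := by exact_mod_cast h5
  exact h6

end Pool.Agent.H81.AS
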