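import Pool.Agent.H81.AS.Defs
import Pool.Agent.H16.EP1

/-!
JOB AS-FLU. The fundamental lemma, uniform in the dimension `K`: relative error `2^{-s}` with level
`y^{4s+5}` as soon as `s ≥ C K`.

PROOF. Copy the proof of `Pool.Agent.H16.fundLemma` (file H16/FL.lean), replacing the bucket cost lemma
`bucketw_costk` by `bucketK_cost` of H16/EP1.lean: with `b j = 2 (j + s)` the cost of the bucket `j` is at
most `costK K (j+s) = exp(2K) K^{2(j+s)+1} / (2(j+s)+1)!`. For `s ≥ C K` the sum over `j` of the costs is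
at most `(1/2) 2^{-s}`: from `n! ≥ (n/e)^n` (or `K^n/n! ≤ (eK/n)^n`), with `n = 2(j+s)+1 ≥ 2 C K`, one gets
`K^n/n! ≤ (e/(2C))^n ≤ (1/8)^{n}` for `C ≥ 11`, so the cost is `≤ exp(2K) 8^{-(2(j+s)+1)}` and
`exp(2K) ≤ exp(2s/C) ≤ 2^s`. (See `exists_costk` and `wsieveK` for the same bookkeeping; `wsieveK` in
EP1.lean is already the `K`-dimensional version with fixed constants.) The two bounds of `fundLemma` (upper:
`(1+2η')`, `+ E`; lower: `(1-2η')`, `- 2 log y E`) give the absolute value statement `FLP`.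
-/

set_option autoImplicit false

open Finset Filter Topology

namespace Pool.Agent.H81.AS

open Pool.Agent.H16

/-- costs: `costK K (j+s) ≤ (1/16) (3/256)^s (1/256)^j` for `s ≥ 18 K` -/
lemma costK_le (K s j : ℕ) (hs : 18 * K ≤ s) :
    costK (K : ℝ) (j + s) ≤ 1 / 16 * ((3 / 256 : ℝ) ^ s * (1 / 256) ^ j) := by
  unfold costK
  set n := 2 * (j + s) + 1 with hn
  have h1 : ((16 * (K : ℝ)) ^ n) / (n.factorial : ℝ) ≤ Real.exp (16 * K) :=
    Real.pow_div_factorial_le_exp _ (by positivity) n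
  have h2 : (K : ℝ) ^ n / (n.factorial : ℝ) = (1 / 16 : ℝ) ^ n * (((16 * (K : ℝ)) ^ n) / (n.factorial : ℝ)) := by
    rw [mul_pow, ← mul_div_assoc, ← mul_assoc, ← mul_pow]
    norm_num
  have h3 : Real.exp (2 * K) * Real.exp (16 * K) ≤ (3 : ℝ) ^ s := by
    rw [← Real.exp_add]
    have h4 : 2 * (K : ℝ) + 16 * K ≤ s := by
      have : ((18 * K : ℕ) : ℝ) ≤ (s : ℝ) := by exact_mod_cast hs
      push_cast at this
      linarith
    calc Real.exp (2 * (K : ℝ) + 16 * K) ≤ Real.exp s := Real.exp_le_exp.mpr h4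
      _ = (Real.exp 1) ^ s := by rw [← Real.exp_nat_mul]; simp
      _ ≤ 3 ^ s := by
          have := Real.exp_one_lt_d9
          exact pow_le_pow_left₀ (Real.exp_pos 1).le (by linarith) s
  rw [h2]
  calc Real.exp (2 * K) * ((1 / 16 : ℝ) ^ n * (((16 * (K : ℝ)) ^ n) / (n.factorial : ℝ)))
      ≤ Real.exp (2 * K) * ((1 / 16 : ℝ) ^ n * Real.exp (16 * K)) := by gcongr
    _ = (1 / 16 : ℝ) ^ n * (Real.exp (2 * K) * Real.exp (16 * K)) := by ring
    _ ≤ (1 / 16 : ℝ) ^ n * 3 ^ s := by gcongr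
    _ = _ := by
        rw [hn, pow_succ, pow_mul, pow_add]
        have e1 : ((3 : ℝ) / 256) ^ s = 3 ^ s * ((1 / 16) ^ 2) ^ s := by
          rw [← mul_pow]; norm_num
        have e2 : ((1 : ℝ) / 256) ^ j = ((1 / 16) ^ 2) ^ j := by norm_num
        rw [e1, e2]; ring

lemma sum_costK_le (K s : ℕ) (hs : 18 * K ≤ s) (r : ℕ) :
    ∑ j ∈ range r, costK (K : ℝ) (j + s) ≤ 1 / 2 * (1 / 2) ^ s := by
  have h1 : ∑ j ∈ range r, costK (K : ℝ) (j + s) ≤
      ∑ j ∈ range r, 1 / 16 * ((3 / 256 : ℝ) ^ s * (1 / 256) ^ j) :=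
    Finset.sum_le_sum fun j _ => costK_le K s j hs
  have h2 : ∀ r : ℕ, ∑ j ∈ range r, (1 / 256 : ℝ) ^ j = 256 / 255 * (1 - (1 / 256) ^ r) := by
    intro r
    induction r with
    | zero => norm_num
    | succ r ih =>
      rw [Finset.sum_range_succ, pow_succ, ih]
      ring
  have h3 : ∑ j ∈ range r, 1 / 16 * ((3 / 256 : ℝ) ^ s * (1 / 256) ^ j) =
      1 / 16 * (3 / 256 : ℝ) ^ s * ∑ j ∈ range r, (1 / 256 : ℝ) ^ j := by
    rw [Finset.mul_sum]
    exact Finset.sum_congr rfl fun j _ => by ring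
  have h4 : ∑ j ∈ range r, (1 / 256 : ℝ) ^ j ≤ 2 := by
    have := h2 r
    have : (0 : ℝ) < (1 / 256) ^ r := by positivity
    linarith
  have h5 : (3 / 256 : ℝ) ^ s ≤ (1 / 2) ^ s := pow_le_pow_left₀ (by norm_num) (by norm_num) s
  rw [h3] at h1
  refine h1.trans ?_
  calc 1 / 16 * (3 / 256 : ℝ) ^ s * ∑ j ∈ range r, (1 / 256 : ℝ) ^ j
      ≤ 1 / 16 * (1 / 2 : ℝ) ^ s * 2 := by gcongr
    _ ≤ 1 / 2 * (1 / 2) ^ s := by
        have : (0 : ℝ) < (1 / 2) ^ s := by positivity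
        linarith

/-- **The fundamental lemma of dimension `K`**, under a bound for the costs. -/
theorem fundK (K : ℝ) (hK : 0 ≤ K) (k : ℕ) (η' : ℝ) (hη'pos : 0 < η') (hη'1 : η' ≤ 1 / 2)
    (hk : ∀ r : ℕ, ∑ j ∈ range r, costK K (j + k) ≤ η')
    {ι : Type} (S : Finset ι) (a : ι → ℝ)
    (c : ι → ℕ → ℝ) (X : ℝ) (z y : ℕ) (hz : 100 ≤ Real.log z) (hKz : 2 * K ≤ z) (hzy : z ≤ y)
    (P : Finset ℕ) (hP : ∀ p ∈ P, p.Prime) (hPz : ∀ p ∈ P, z < p) (hPy : ∀ p ∈ P, p ≤ y)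
    (g : ℕ → ℝ) (hg0 : ∀ p ∈ P, 0 ≤ g p) (hgK : ∀ p ∈ P, g p ≤ K / p)
    (ha : ∀ n ∈ S, 0 ≤ a n) (hc0 : ∀ n ∈ S, ∀ p ∈ P, 0 ≤ c n p)
    (hc1 : ∀ n ∈ S, ∀ p ∈ P, c n p ≤ 1) (hX : 0 ≤ X) :
    (∑ n ∈ S, a n * ∏ p ∈ P, (1 - c n p) ≤ (1 + 2 * η') * (X * ∏ p ∈ P, (1 - g p)) +
      ∑ D ∈ P.powerset.filter (fun D => (∏ p ∈ D, p) ≤ y ^ (4 * k + 5)), |RD S a c X g D|) ∧
    ((1 - 2 * η') * (X * ∏ p ∈ P, (1 - g p)) - 2 * Real.log y *
      ∑ D ∈ P.powerset.filter (fun D => (∏ p ∈ D, p) ≤ y ^ (4 * k + 5)), |RD S a c X g D| ≤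
      ∑ n ∈ S, a n * ∏ p ∈ P, (1 - c n p)) ∧
    (0 ≤ ∏ p ∈ P, (1 - g p)) ∧ 1 ≤ y := by
  classical
  have hz0 := zw_pos z hz
  have hy1 : 1 ≤ y := by
    have : 0 < z := by exact_mod_cast hz0
    omega
  have hy0 : (0 : ℝ) < y := hz0.trans_le (by exact_mod_cast hzy)
  have hlogzy : Real.log z ≤ Real.log y := Real.log_le_log hz0 (by exact_mod_cast hzy)
  obtain ⟨r, hr, hmin, hrle⟩ := exists_rw z y hz hzy
  set 𝒜 := P.powerset.filter (fun D => (∏ p ∈ D, p) ≤ y ^ (4 * k + 5)) with h𝒜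
  set E := ∑ D ∈ 𝒜, |RD S a c X g D| with hE
  have hE0 : 0 ≤ E := Finset.sum_nonneg (fun D _ => abs_nonneg _)
  let J := range r
  let B : ℕ → Finset ℕ := fun j => bucketw P z y j
  let b : ℕ → ℕ := fun j => 2 * (j + k)
  have hBP : ∀ j ∈ J, ∀ p ∈ B j, p ∈ P := by
    intro j _ p hp
    exact (Finset.mem_filter.mp hp).1
  have hdisj : ∀ i ∈ J, ∀ j ∈ J, i ≠ j → Disjoint (B i) (B j) :=
    fun i _ j _ hij => bucketw_disjoint P z y hy1 i j hij
  have hprod : ∀ h : ℕ → ℝ, ∏ j ∈ J, ∏ p ∈ B j, h p = ∏ p ∈ P, h p := by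
    intro h
    rw [← Finset.prod_biUnion (fun i hi j hj hij => hdisj i hi j hj hij)]
    congr 1
    ext p
    rw [Finset.mem_biUnion]
    constructor
    · rintro ⟨j, hj, hp⟩
      exact hBP j hj p hp
    · intro hp
      exact exists_bucketw P z y r hzy hr p hp (hPz p hp) (hPy p hp)
  have hb : ∀ j ∈ J, Even (b j) := fun j _ => ⟨j + k, by simp only [b]; ring⟩
  have hg1 : ∀ j ∈ J, ∀ p ∈ B j, g p < 1 := by
    intro j hj p hp
    have := gK_half z hz P hPz K hK hKz g hgK p (hBP j hj p hp)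
    linarith
  have hsumw : ∑ j ∈ J, ((b j : ℕ) : ℝ) * tw j ≤ 4 * k + 4 := by
    have h1 := sum_bk k r
    have h2 : 0 ≤ (4 * k + 4 + 4 * (r : ℝ)) * tw r := by have := tw_pos r; positivity
    have h3 : ∑ j ∈ J, ((b j : ℕ) : ℝ) * tw j = ∑ j ∈ range r, (2 * ((j : ℝ) + k)) * tw j := by
      apply Finset.sum_congr rfl
      intro j _
      simp only [b]; push_cast; ring
    rw [h3, h1]; linarith
  have hlev : ∀ (D : Finset ℕ), D ⊆ P → ((∏ p ∈ D, p : ℕ) : ℝ) ≤ (y : ℝ) ^ (4 * k + 5 : ℝ) → D ∈ 𝒜 := by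
    intro D hD hDp
    rw [h𝒜, Finset.mem_filter, Finset.mem_powerset]
    refine ⟨hD, ?_⟩
    have e : ((y : ℝ) ^ (4 * k + 5 : ℝ)) = ((y ^ (4 * k + 5) : ℕ) : ℝ) := by
      rw [Nat.cast_pow, ← Real.rpow_natCast]; push_cast; rfl
    rw [e] at hDp
    exact_mod_cast hDp
  have hlowcard : ∀ (Q : Finset ℕ) (m : ℕ) (d : Finset ℕ), d ∈ low Q m → #d ≤ m := by
    intro Q m d hd
    unfold low at hd
    obtain ⟨i, hi, hdi⟩ := Finset.mem_biUnion.mp hd
    rw [(Finset.mem_powersetCard.mp hdi).2]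
    have := Finset.mem_range.mp hi
    omega
  have hA1 : ∀ F ∈ J.pi (fun j => low (B j) (b j)), J.attach.biUnion (fun j => F j.1 j.2) ∈ 𝒜 := by
    intro F hF
    rw [Finset.mem_pi] at hF
    have h := level_aux z y hz hzy P hP hPz hPy r hr hmin b (4 * k + 5) (by linarith) F (fun j hj =>
      ⟨low_subset _ _ _ (hF j hj), hlowcard _ _ _ (hF j hj)⟩)
    exact hlev _ h.1 h.2
  have hA2 : ∀ j0 ∈ J, ∀ F ∈ J.pi (fun j => if j = j0 then (B j).powersetCard (b j + 1)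
      else low (B j) (b j)), J.attach.biUnion (fun j => F j.1 j.2) ∈ 𝒜 := by
    intro j0 hj0 F hF
    rw [Finset.mem_pi] at hF
    have hsum2 : ∑ j ∈ range r, (((if j = j0 then b j + 1 else b j : ℕ)) : ℝ) * tw j ≤
        4 * k + 5 := by
      have h1 : ∀ j ∈ range r, (((if j = j0 then b j + 1 else b j : ℕ)) : ℝ) * tw j
          = (b j : ℝ) * tw j + if j = j0 then tw j else 0 := by
        intro j _
        split_ifs
        · push_cast; ring
        · push_cast; ring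
      rw [Finset.sum_congr rfl h1, Finset.sum_add_distrib, Finset.sum_ite_eq' (range r) j0 tw,
        if_pos hj0]
      have h2 : tw j0 ≤ 1 := by
        have := tw_antitone (Nat.zero_le j0)
        rwa [tw_zero] at this
      linarith
    have h := level_aux z y hz hzy P hP hPz hPy r hr hmin
      (fun j => if j = j0 then b j + 1 else b j) (4 * k + 5) hsum2 F (fun j hj => by
        have := hF j hj
        by_cases hjj : j = j0
        · rw [if_pos hjj] at this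
          simp only [if_pos hjj]
          obtain ⟨h1, h2⟩ := Finset.mem_powersetCard.mp this
          exact ⟨h1, h2.le⟩
        · rw [if_neg hjj] at this
          simp only [if_neg hjj]
          exact ⟨low_subset _ _ _ this, hlowcard _ _ _ this⟩)
    exact hlev _ h.1 h.2
  have hV : ∀ j ∈ J, 0 < ∏ p ∈ B j, (1 - g p) := fun j hj =>
    Finset.prod_pos (fun p hp => by linarith [hg1 j hj p hp])
  have hcost : ∀ j ∈ J, es (B j) g (b j + 1) / ∏ p ∈ B j, (1 - g p) ≤ costK K (j + k) := fun j hj =>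
    bucketK_cost z y hz hzy P hP hPz K hK hKz g hg0 hgK k j (hmin j (Finset.mem_range.mp hj))
  have hsumcost : ∑ j ∈ J, es (B j) g (b j + 1) / ∏ p ∈ B j, (1 - g p) ≤ η' :=
    (Finset.sum_le_sum hcost).trans (hk r)
  have hPnn : 0 ≤ ∏ p ∈ P, (1 - g p) := by
    apply Finset.prod_nonneg
    intro p hp
    have := gK_half z hz P hPz K hK hKz g hgK p hp
    linarith
  have hXP : 0 ≤ X * ∏ p ∈ P, (1 - g p) := mul_nonneg hX hPnn
  refine ⟨?_, ?_, hPnn, hy1⟩
  · have h := upperW S a c X g J B b hb hdisj ha (fun n hn j hj p hp => hc0 n hn p (hBP j hj p hp))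
      (fun n hn j hj p hp => hc1 n hn p (hBP j hj p hp)) hX
      (fun j hj p hp => hg0 p (hBP j hj p hp)) hg1 𝒜 hA1
    simp_rw [hprod] at h
    refine h.trans ?_
    have h2 : ∏ j ∈ J, (∏ p ∈ B j, (1 - g p) + es (B j) g (b j + 1)) ≤
        (1 + 2 * η') * ∏ p ∈ P, (1 - g p) := by
      calc ∏ j ∈ J, (∏ p ∈ B j, (1 - g p) + es (B j) g (b j + 1))
          ≤ ∏ j ∈ J, ((∏ p ∈ B j, (1 - g p)) * Real.exp (costK K (j + k))) := by
            apply Finset.prod_le_prod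
            · intro j hj
              have := hV j hj
              have h3 := es_nonneg (B j) g (fun p hp => hg0 p (hBP j hj p hp)) (b j + 1)
              linarith
            · intro j hj
              have h3 := hcost j hj
              rw [div_le_iff₀ (hV j hj)] at h3
              have h4 := Real.add_one_le_exp (costK K (j + k))
              have h5 := hV j hj
              nlinarith
        _ = (∏ p ∈ P, (1 - g p)) * Real.exp (∑ j ∈ J, costK K (j + k)) := by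
            rw [Finset.prod_mul_distrib, hprod, Real.exp_sum]
        _ ≤ (∏ p ∈ P, (1 - g p)) * (1 + 2 * η') := by
            apply mul_le_mul_of_nonneg_left _ hPnn
            calc Real.exp (∑ j ∈ J, costK K (j + k)) ≤ Real.exp η' :=
                  Real.exp_le_exp.mpr (hk r)
              _ ≤ 1 + 2 * η' := exp_le_one_add_two _ hη'pos.le (by linarith)
        _ = _ := by ring
    have h3 := mul_le_mul_of_nonneg_left h2 hX
    have h4 : X * ((1 + 2 * η') * ∏ p ∈ P, (1 - g p)) = (1 + 2 * η') * (X * ∏ p ∈ P, (1 - g p)) := by ring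
    rw [h4] at h3
    linarith
  · have h := lowerW S a c X g J B b hb hdisj ha (fun n hn j hj p hp => hc0 n hn p (hBP j hj p hp))
      (fun n hn j hj p hp => hc1 n hn p (hBP j hj p hp)) hX
      (fun j hj p hp => hg0 p (hBP j hj p hp)) hg1 𝒜 hA1 hA2 (by linarith)
    simp_rw [hprod] at h
    refine le_trans ?_ h
    have hJ : (1 + (#J : ℝ)) ≤ 2 * Real.log y := by
      simp only [J, Finset.card_range]
      linarith
    have h6 : (1 + (#J : ℝ)) * E ≤ 2 * Real.log y * E := mul_le_mul_of_nonneg_right hJ hE0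
    have h7 : (1 - 2 * η') * (X * ∏ p ∈ P, (1 - g p)) ≤ X * (∏ p ∈ P, (1 - g p)) *
        (1 - ∑ j ∈ J, es (B j) g (b j + 1) / ∏ p ∈ B j, (1 - g p)) := by
      rw [mul_comm (1 - 2 * η')]
      exact mul_le_mul_of_nonneg_left (by linarith) hXP
    linarith

theorem flp_exists : ∃ C : ℕ, 0 < C ∧ ∀ K s : ℕ, 1 ≤ K → C * K ≤ s → FLP K s := by
  refine ⟨18, by norm_num, fun K s _ hs => ?_⟩
  intro S a c X z y hz hKz hzy P hP hPz hPy g hg0 hgK ha hc0 hc1 hX
  have hη : (1 / 2 : ℝ) * (1 / 2) ^ s ≤ 1 / 2 := by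
    have : (1 / 2 : ℝ) ^ s ≤ 1 := pow_le_one₀ (by norm_num) (by norm_num)
    linarith
  obtain ⟨h1, h2, h3, hy1⟩ := fundK (K : ℝ) (Nat.cast_nonneg K) s (1 / 2 * (1 / 2) ^ s)
    (by positivity) hη (sum_costK_le K s hs) S a c X z y hz hKz hzy P hP hPz hPy g hg0 hgK ha
    hc0 hc1 hX
  set E := ∑ D ∈ P.powerset.filter (fun D => (∏ p ∈ D, p) ≤ y ^ (4 * s + 5)), |RD S a c X g D|
    with hE
  have hE0 : 0 ≤ E := Finset.sum_nonneg (fun D _ => abs_nonneg _)
  have hy : 0 ≤ Real.log y := Real.log_nonneg (by exact_mod_cast hy1)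
  have hyE : 0 ≤ Real.log y * E := mul_nonneg hy hE0
  have e : 2 * (1 / 2 * (1 / 2 : ℝ) ^ s) = (1 / 2) ^ s := by ring
  rw [e] at h1 h2
  rw [abs_le]
  constructor
  · nlinarith
  · nlinarith

end Pool.Agent.H81.AS
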