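import Pool.Agent.H81.AS.Defs
import Pool.Agent.H16.MT17
import Pool.Agent.H16.CHFinal

/-!
JOB AS-XT. The total mass of the prime weights.
-/

set_option autoImplicit false

open Finset Filter Topology

namespace Pool.Agent.H81.AS

open Pool.Agent.H16

/-- the total mass of the prime weights; `X_asymp`, `tentCount_holds` in H16/CH2.lean, CHFinal.lean (for the
cut-off `yy ℓ`; `aw ℓ y` decreases in `y` and the terms with `n ≤ yy ℓ` vanish because `tent` does) -/
theorem xt_bounds : ∃ c₁ C₁ : ℝ, 0 < c₁ ∧ 0 < C₁ ∧ ∀ υ : ℝ, 0 < υ → υ ≤ 1 / 2 → ∀ᶠ ℓ : ℝ in atTop,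
    c₁ * Real.exp ℓ ≤ XT ℓ (zz υ ℓ) ∧ XT ℓ (zz υ ℓ) ≤ C₁ * Real.exp ℓ := by
  refine ⟨1 / 100, Real.log 4, by norm_num, Real.log_pos (by norm_num), fun υ hυ hυ2 => ?_⟩
  filter_upwards [X_ge, eventually_ge_atTop (200 : ℝ)] with ℓ hX hℓ
  constructor
  · apply hX
    have h1 : (zz υ ℓ : ℝ) ≤ Real.exp (υ * ℓ) := Nat.floor_le (Real.exp_pos _).le
    have h2 : Real.exp (υ * ℓ) ≤ Real.exp (ℓ / 2) := Real.exp_le_exp.2 (by nlinarith)
    have h3 : (100 : ℝ) ≤ Real.exp (ℓ / 2) := by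
      have := Real.add_one_le_exp (ℓ / 2); linarith
    have h4 : Real.exp ℓ = Real.exp (ℓ / 2) * Real.exp (ℓ / 2) := by
      rw [← Real.exp_add]; congr 1; ring
    rw [le_div_iff₀ (by norm_num), h4]
    calc (zz υ ℓ : ℝ) * 100 ≤ Real.exp (ℓ / 2) * 100 :=
          mul_le_mul_of_nonneg_right (h1.trans h2) (by norm_num)
      _ ≤ _ := mul_le_mul_of_nonneg_left h3 (Real.exp_pos _).le
  · have h1 := Chebyshev.theta_le_log4_mul_x (Real.exp_pos ℓ).le
    refine le_trans ?_ h1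
    rw [Chebyshev.theta, Finset.sum_filter]
    unfold XT
    apply Finset.sum_le_sum
    intro n hn
    rw [Finset.mem_Ioc] at hn
    unfold aw
    by_cases hp : n.Prime
    · rw [if_pos hp]
      have hlog : 0 ≤ Real.log n := Real.log_natCast_nonneg n
      split_ifs
      · have := tent_le_one (Real.exp ℓ / 3) n (by positivity) (by exact_mod_cast hn.1)
        nlinarith
      · exact hlog
    · rw [if_neg hp, if_neg (by tauto)]

end Pool.Agent.H81.AS
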