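import Pool.Agent.H81.AS.Env

/-!
JOB AS-ADM. For a `k`-set `H` of multiples of `k!`, many classes `b` mod `W` have `H ⊆ Po`.

PROOF. By CRT the number of `b ∈ range W` with `b + h` coprime to `W` for all `h ∈ H` is `∏_{p ∣ W} (p - ν_p)`, `ν_p` = number
of residues of `H` mod `p`: `ν_p = 1` for `p ≤ k`, `ν_p ≤ k` for `p > k`. So it is at least
`W ∏_{p ≤ k} (1-1/p) ∏_{k < p ∣ W} (1 - k/p)` and `(1-k/p) ≥ (1-1/p)^k (1 - C_k/p²) > 0` for `p > k`; the product of the
`(1 - C_k/p²)` over `p > 2 k²` (say) is bounded below, the finitely many `k < p ≤ 2k²` give a positive constant. Hence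
it is at least `c W ∏_{p∣W} (1-1/p)^k = c W (φ(W)/W)^k`. (`W` squarefree, `WW_squarefree`, `WW_totient_ratio`.)
-/

set_option autoImplicit false

open Finset Filter Topology

namespace Pool.Agent.H81.AS

open Pool.Agent.H16

namespace AdmAux

/-- The number of classes modulo `m` such that all shifts are coprime to `m`. -/
def cnt (H : Finset ℕ) (m : ℕ) : ℕ :=
  #((range m).filter (fun b => ∀ h ∈ H, Nat.Coprime (b + h) m))

lemma coprime_mod (b h m : ℕ) : Nat.Coprime (b % m + h) m ↔ Nat.Coprime (b + h) m := by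
  have h1 : b % m + h ≡ b + h [MOD m] := (Nat.mod_modEq b m).add_right h
  unfold Nat.Coprime
  rw [h1.gcd_eq]

lemma cnt_mul (H : Finset ℕ) {m n : ℕ} (hm : 0 < m) (hn : 0 < n) (hmn : Nat.Coprime m n) :
    cnt H (m * n) = cnt H m * cnt H n := by
  unfold cnt
  rw [← card_product]
  refine card_bij (fun b _ => (b % m, b % n)) ?_ ?_ ?_
  · intro b hb
    rw [mem_filter] at hb
    rw [mem_product, mem_filter, mem_filter, mem_range, mem_range]
    refine ⟨⟨Nat.mod_lt _ hm, fun h hh => ?_⟩, ⟨Nat.mod_lt _ hn, fun h hh => ?_⟩⟩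
    · rw [coprime_mod]
      exact (Nat.coprime_mul_iff_right.1 (hb.2 h hh)).1
    · rw [coprime_mod]
      exact (Nat.coprime_mul_iff_right.1 (hb.2 h hh)).2
  · intro b hb c hc hbc
    rw [mem_filter, mem_range] at hb hc
    rw [Prod.mk.injEq] at hbc
    have h1 : b ≡ c [MOD m * n] := (Nat.modEq_and_modEq_iff_modEq_mul hmn).1 ⟨hbc.1, hbc.2⟩
    have h2 : b % (m * n) = c % (m * n) := h1
    rwa [Nat.mod_eq_of_lt hb.1, Nat.mod_eq_of_lt hc.1] at h2
  · rintro ⟨b, c⟩ hbc
    rw [mem_product, mem_filter, mem_filter, mem_range, mem_range] at hbc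
    obtain ⟨⟨h1, h2⟩, h3, h4⟩ := hbc
    simp only at h1 h2 h3 h4
    have hx := (Nat.chineseRemainder hmn b c).2
    have hlt := Nat.chineseRemainder_lt_mul hmn b c hm.ne' hn.ne'
    set x : ℕ := (Nat.chineseRemainder hmn b c : ℕ) with hxd
    have e1 : x % m = b := by
      have : x % m = b % m := hx.1
      rwa [Nat.mod_eq_of_lt h1] at this
    have e2 : x % n = c := by
      have : x % n = c % n := hx.2
      rwa [Nat.mod_eq_of_lt h3] at this
    refine ⟨x, ?_, ?_⟩
    · rw [mem_filter, mem_range]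
      refine ⟨hlt, fun h hh => ?_⟩
      rw [Nat.coprime_mul_iff_right]
      refine ⟨?_, ?_⟩
      · rw [← coprime_mod, e1]
        exact h2 h hh
      · rw [← coprime_mod, e2]
        exact h4 h hh
    · rw [e1, e2]

lemma cnt_one (H : Finset ℕ) : cnt H 1 = 1 := by
  unfold cnt
  simp

lemma cnt_prod (H P : Finset ℕ) (hP : ∀ p ∈ P, p.Prime) :
    cnt H (∏ p ∈ P, p) = ∏ p ∈ P, cnt H p := by
  classical
  induction P using Finset.induction_on with
  | empty => simp [cnt_one]
  | insert q P hq ih =>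
    rw [prod_insert hq, prod_insert hq, cnt_mul H (hP q (mem_insert_self _ _)).pos
      (prod_pos fun p hp => (hP p (mem_insert_of_mem hp)).pos), ih fun p hp =>
      hP p (mem_insert_of_mem hp)]
    refine Nat.Coprime.prod_right fun p hp => ?_
    rw [Nat.coprime_primes (hP q (mem_insert_self _ _)) (hP p (mem_insert_of_mem hp))]
    rintro rfl
    exact hq hp

/-- at a prime: at least `p - ν` classes, where `ν` bounds the number of residues of `H` -/
lemma cnt_prime (H B : Finset ℕ) {p : ℕ} (hp : p.Prime)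
    (hB : ∀ b ∈ range p, (∃ h ∈ H, p ∣ b + h) → b ∈ B) : (p : ℝ) - #B ≤ cnt H p := by
  have h1 : (range p) ⊆ ((range p).filter (fun b => ∀ h ∈ H, Nat.Coprime (b + h) p)) ∪ B := by
    intro b hb
    rw [mem_union, mem_filter]
    by_cases h : ∃ h ∈ H, p ∣ b + h
    · exact Or.inr (hB b hb h)
    · push Not at h
      refine Or.inl ⟨hb, fun x hx => ?_⟩
      rw [Nat.coprime_comm, hp.coprime_iff_not_dvd]
      exact h x hx
  have h2 := (card_le_card h1).trans (card_union_le _ _)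
  rw [card_range] at h2
  have h3 : (p : ℝ) ≤ (cnt H p : ℝ) + #B := by
    unfold cnt
    exact_mod_cast h2
  linarith

lemma cnt_small {H : Finset ℕ} {k p : ℕ} (hp : p.Prime) (hpk : p ≤ k)
    (hH : ∀ h ∈ H, k.factorial ∣ h) : (p : ℝ) - 1 ≤ cnt H p := by
  have h1 := cnt_prime H {0} hp (by
    rintro b hb ⟨h, hh, hd⟩
    have h2 : p ∣ h := ((Nat.dvd_factorial hp.pos hpk).trans (hH h hh))
    have h3 : p ∣ b := (Nat.dvd_add_left h2).1 hd
    rw [mem_range] at hb
    rw [mem_singleton]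
    exact Nat.eq_zero_of_dvd_of_lt h3 hb)
  simpa using h1

lemma cnt_large (H : Finset ℕ) {p : ℕ} (hp : p.Prime) : (p : ℝ) - #H ≤ cnt H p := by
  classical
  have h1 := cnt_prime H (H.image fun h => (p - h % p) % p) hp (by
    rintro b hb ⟨h, hh, hd⟩
    rw [mem_image]
    refine ⟨h, hh, ?_⟩
    rw [mem_range] at hb
    have h2 : h % p < p := Nat.mod_lt _ hp.pos
    have h3 : (b + h % p) % p = 0 := by
      rw [Nat.add_mod_mod]
      exact Nat.mod_eq_zero_of_dvd hd
    rcases Nat.eq_zero_or_pos (h % p) with h0 | h0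
    · rw [h0, add_zero, Nat.mod_eq_of_lt hb] at h3
      rw [h0, Nat.sub_zero, Nat.mod_self, h3]
    · rw [Nat.mod_eq_of_lt (by omega)]
      have h4 : p ∣ b + h % p := Nat.dvd_of_mod_eq_zero h3
      obtain ⟨q, hq⟩ := h4
      have h5 : q = 1 := by
        have h6 : q < 2 := by
          by_contra hc
          push Not at hc
          have : p * 2 ≤ p * q := Nat.mul_le_mul_left _ hc
          omega
        have h7 : q ≠ 0 := by
          rintro rfl
          omega
        omega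
      rw [h5, mul_one] at hq
      omega)
  have h2 : (#(H.image fun h => (p - h % p) % p) : ℝ) ≤ #H := by
    exact_mod_cast card_image_le
  linarith

/-- the local factor -/
noncomputable def gf (k p : ℕ) : ℝ :=
  if p < 2 * k then 1 / ((k : ℝ) + 1) else Real.exp (-(2 * (k : ℝ) ^ 2 * (1 / (p : ℝ) ^ 2)))

lemma gf_nonneg (k p : ℕ) : 0 ≤ gf k p := by
  unfold gf
  split_ifs <;> positivity

lemma exp_le_one_sub {t : ℝ} (h0 : 0 ≤ t) (h1 : t ≤ 1 / 2) :
    Real.exp (-t - 2 * t ^ 2) ≤ 1 - t := by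
  have h2 : 0 < 1 - t := by linarith
  have h3 : -t - 2 * t ^ 2 ≤ Real.log (1 - t) := by
    have h4 := Real.one_sub_inv_le_log_of_pos h2
    have h5 : (1 - t)⁻¹ ≤ 1 + t + 2 * t ^ 2 := by
      rw [inv_le_iff_one_le_mul₀ h2]
      nlinarith [mul_nonneg (sq_nonneg t) (by linarith : 0 ≤ 1 - 2 * t)]
    linarith
  calc Real.exp (-t - 2 * t ^ 2) ≤ Real.exp (Real.log (1 - t)) := Real.exp_le_exp.2 h3
    _ = 1 - t := Real.exp_log h2

lemma gf_le {k p : ℕ} (hk : 1 ≤ k) (hp : p.Prime) {ν : ℝ}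
    (hν1 : p ≤ k → ν = 1) (hν2 : k < p → ν = k) :
    gf k p * (1 - 1 / (p : ℝ)) ^ k ≤ 1 - ν / p := by
  have hp2 : (2 : ℝ) ≤ p := by exact_mod_cast hp.two_le
  have hk1 : (1 : ℝ) ≤ k := by exact_mod_cast hk
  have hp0 : (0 : ℝ) < p := by linarith
  have hx0 : 0 < 1 / (p : ℝ) := by positivity
  have hx1 : 1 / (p : ℝ) ≤ 1 := by
    rw [div_le_one hp0]; linarith
  have hy0 : 0 ≤ 1 - 1 / (p : ℝ) := by linarith
  have hy1 : (1 - 1 / (p : ℝ)) ^ k ≤ 1 - 1 / (p : ℝ) := by
    calc (1 - 1 / (p : ℝ)) ^ k ≤ (1 - 1 / (p : ℝ)) ^ 1 :=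
          pow_le_pow_of_le_one hy0 (by linarith) hk
      _ = _ := pow_one _
  have hyk : 0 ≤ (1 - 1 / (p : ℝ)) ^ k := pow_nonneg hy0 k
  have hg1 : 1 / ((k : ℝ) + 1) ≤ 1 := by
    rw [div_le_one (by linarith)]; linarith
  rcases le_or_gt p k with h | h
  · rw [hν1 h]
    have h1 : gf k p = 1 / ((k : ℝ) + 1) := by
      unfold gf
      rw [if_pos (by omega)]
    rw [h1]
    have h2 := mul_le_mul_of_nonneg_right hg1 hyk
    linarith
  · rw [hν2 h]
    have hpk : (k : ℝ) + 1 ≤ p := by exact_mod_cast h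
    by_cases h2 : p < 2 * k
    · have h1 : gf k p = 1 / ((k : ℝ) + 1) := by
        unfold gf
        rw [if_pos h2]
      rw [h1]
      have h3 : 1 / ((k : ℝ) + 1) ≤ 1 - k / p := by
        rw [div_le_iff₀ (by linarith)]
        have : (1 - (k : ℝ) / p) * (k + 1) - 1 = k * (p - (k + 1)) / p := by
          field_simp
          ring
        have h4 : 0 ≤ (k : ℝ) * (p - (k + 1)) / p :=
          div_nonneg (mul_nonneg (by linarith) (by linarith)) hp0.le
        linarith
      have h4 : 1 / ((k : ℝ) + 1) * (1 - 1 / (p : ℝ)) ^ k ≤ 1 / ((k : ℝ) + 1) * 1 :=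
        mul_le_mul_of_nonneg_left (by linarith) (by positivity)
      linarith
    · have h1 : gf k p = Real.exp (-(2 * (k : ℝ) ^ 2 * (1 / (p : ℝ) ^ 2))) := by
        unfold gf
        rw [if_neg h2]
      rw [h1]
      push Not at h2
      have h2' : 2 * (k : ℝ) ≤ p := by exact_mod_cast h2
      have h3 := exp_le_one_sub (t := (k : ℝ) / p) (by positivity) (by
        rw [div_le_iff₀ hp0]; linarith)
      have h4 : (1 - 1 / (p : ℝ)) ^ k ≤ Real.exp (-((k : ℝ) / p)) := by
        have h5 : 1 - 1 / (p : ℝ) ≤ Real.exp (-(1 / (p : ℝ))) := by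
          have := Real.add_one_le_exp (-(1 / (p : ℝ)))
          linarith
        calc (1 - 1 / (p : ℝ)) ^ k ≤ (Real.exp (-(1 / (p : ℝ)))) ^ k :=
              pow_le_pow_left₀ hy0 h5 k
          _ = Real.exp (-((k : ℝ) / p)) := by
            rw [← Real.exp_nat_mul]
            congr 1
            ring
      calc Real.exp (-(2 * (k : ℝ) ^ 2 * (1 / (p : ℝ) ^ 2))) * (1 - 1 / (p : ℝ)) ^ k
          ≤ Real.exp (-(2 * (k : ℝ) ^ 2 * (1 / (p : ℝ) ^ 2))) * Real.exp (-((k : ℝ) / p)) :=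
            mul_le_mul_of_nonneg_left h4 (Real.exp_nonneg _)
        _ = Real.exp (-((k : ℝ) / p) - 2 * ((k : ℝ) / p) ^ 2) := by
            rw [← Real.exp_add]
            congr 1
            rw [div_pow]
            ring
        _ ≤ _ := h3

lemma summable_sq : Summable fun n : ℕ => 1 / (n : ℝ) ^ 2 :=
  Real.summable_one_div_nat_pow.2 (by norm_num)

/-- the product of the local factors is bounded below -/
lemma prod_gf (k : ℕ) (P : Finset ℕ) :
    (1 / ((k : ℝ) + 1)) ^ (2 * k) * Real.exp (-(2 * (k : ℝ) ^ 2 * ∑' n : ℕ, 1 / (n : ℝ) ^ 2)) ≤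
      ∏ p ∈ P, gf k p := by
  classical
  rw [← prod_filter_mul_prod_filter_not P (fun p => p < 2 * k)]
  have hg1 : 1 / ((k : ℝ) + 1) ≤ 1 := by
    rw [div_le_one (by positivity)]
    have : (0 : ℝ) ≤ k := Nat.cast_nonneg k
    linarith
  refine mul_le_mul ?_ ?_ (Real.exp_nonneg _) (prod_nonneg fun p _ => gf_nonneg k p)
  · have h1 : ∏ p ∈ P.filter (fun p => p < 2 * k), gf k p =
        (1 / ((k : ℝ) + 1)) ^ #(P.filter (fun p => p < 2 * k)) := by
      rw [← prod_const]
      apply prod_congr rfl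
      intro p hp
      rw [mem_filter] at hp
      unfold gf
      rw [if_pos hp.2]
    rw [h1]
    apply pow_le_pow_of_le_one (by positivity) hg1
    have h2 : P.filter (fun p => p < 2 * k) ⊆ range (2 * k) := by
      intro p hp
      rw [mem_filter] at hp
      rw [mem_range]
      exact hp.2
    have := card_le_card h2
    rwa [card_range] at this
  · have h1 : ∏ p ∈ P.filter (fun p => ¬ p < 2 * k), gf k p =
        Real.exp (∑ p ∈ P.filter (fun p => ¬ p < 2 * k), -(2 * (k : ℝ) ^ 2 * (1 / (p : ℝ) ^ 2))) := by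
      rw [Real.exp_sum]
      apply prod_congr rfl
      intro p hp
      rw [mem_filter] at hp
      unfold gf
      rw [if_neg hp.2]
    rw [h1, Real.exp_le_exp, sum_neg_distrib, ← mul_sum, neg_le_neg_iff]
    apply mul_le_mul_of_nonneg_left _ (by positivity)
    exact summable_sq.sum_le_tsum _ fun n _ => by positivity

end AdmAux

open AdmAux in
theorem adm_count (k : ℕ) (hk : 1 ≤ k) : ∃ c : ℝ, 0 < c ∧ ∀ (ℓ : ℝ) (e : ℕ) (H : Finset ℕ), #H = k →
    (∀ h ∈ H, k.factorial ∣ h) →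
    c * ((WW ℓ e : ℝ) * ((((WW ℓ e).totient : ℕ) : ℝ) / (WW ℓ e : ℝ)) ^ k) ≤
      (#((range (WW ℓ e)).filter (fun b => ∀ h ∈ H, Nat.Coprime (b + h) (WW ℓ e))) : ℝ) := by
  refine ⟨(1 / ((k : ℝ) + 1)) ^ (2 * k) *
    Real.exp (-(2 * (k : ℝ) ^ 2 * ∑' n : ℕ, 1 / (n : ℝ) ^ 2)), by positivity, ?_⟩
  intro ℓ e H hH hdiv
  have hP : ∀ p ∈ (Nat.primesLE (wz ℓ)).erase e, p.Prime := by
    intro p hp
    exact (Nat.mem_primesLE.1 (mem_of_mem_erase hp)).2
  rw [WW_totient_ratio]
  have h1 : (#((range (WW ℓ e)).filter (fun b => ∀ h ∈ H, Nat.Coprime (b + h) (WW ℓ e))) : ℝ) =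
      ∏ p ∈ (Nat.primesLE (wz ℓ)).erase e, (cnt H p : ℝ) := by
    have := cnt_prod H _ hP
    unfold WW
    unfold cnt at this
    rw [this]
    push_cast
    rfl
  have h2 : (WW ℓ e : ℝ) = ∏ p ∈ (Nat.primesLE (wz ℓ)).erase e, (p : ℝ) := by
    unfold WW
    push_cast
    rfl
  rw [h1, h2]
  set P := (Nat.primesLE (wz ℓ)).erase e with hPd
  have h3 : ∏ p ∈ P, (gf k p * ((p : ℝ) * (1 - 1 / (p : ℝ)) ^ k)) ≤ ∏ p ∈ P, (cnt H p : ℝ) := by
    apply Finset.prod_le_prod
    · intro p hp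
      have hp2 : (2 : ℝ) ≤ p := by exact_mod_cast (hP p hp).two_le
      have : 0 ≤ 1 - 1 / (p : ℝ) := by
        rw [sub_nonneg, div_le_one (by linarith)]; linarith
      exact mul_nonneg (gf_nonneg k p) (mul_nonneg (by linarith) (pow_nonneg this k))
    · intro p hp
      have hp' := hP p hp
      have hp0 : (0 : ℝ) < p := by exact_mod_cast hp'.pos
      have e1 : gf k p * ((p : ℝ) * (1 - 1 / (p : ℝ)) ^ k) =
          p * (gf k p * (1 - 1 / (p : ℝ)) ^ k) := by ring
      rw [e1]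
      rcases le_or_gt p k with h | h
      · have h4 := gf_le (ν := 1) hk hp' (fun _ => rfl) (fun h' => absurd h' (not_lt.2 h))
        have h5 := mul_le_mul_of_nonneg_left h4 hp0.le
        have h6 := cnt_small hp' h hdiv
        have h7 : (p : ℝ) * (1 - 1 / p) = p - 1 := by field_simp
        linarith
      · have h4 := gf_le (ν := k) hk hp' (fun h' => absurd h (not_lt.2 h')) (fun _ => rfl)
        have h5 := mul_le_mul_of_nonneg_left h4 hp0.le
        have h6 := cnt_large H hp'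
        rw [hH] at h6
        have h7 : (p : ℝ) * (1 - k / p) = p - k := by field_simp
        linarith
  rw [prod_mul_distrib, prod_mul_distrib, prod_pow] at h3
  refine le_trans ?_ h3
  apply mul_le_mul_of_nonneg_right (prod_gf k P)
  apply mul_nonneg
  · exact prod_nonneg fun p _ => Nat.cast_nonneg p
  · apply pow_nonneg
    apply prod_nonneg
    intro p hp
    have hp2 : (2 : ℝ) ≤ p := by exact_mod_cast (hP p hp).two_le
    rw [sub_nonneg, div_le_one (by linarith)]; linarith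

end Pool.Agent.H81.AS
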