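import Pool.Agent.H16.WSieveMain
import Pool.Agent.H16.Vprod

/-!
Definitions for the anti-sieve project (positive proportion of long gaps, `MP_6336a7_nt`).
-/

set_option autoImplicit false

open Finset Filter Topology

namespace Pool.Agent.H81.AS

open Pool.Agent.H16

/-! ### Terms: finite sets `E` of pairs (position `h`, prime `p`) -/

/-- `u_p(m)`: `-1` if `p ∣ m`, and `1/(p-1)` otherwise -/
noncomputable def uu (p m : ℕ) : ℝ := if p ∣ m then -1 else 1 / ((p : ℝ) - 1)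

/-- `g_E(n) = ∏_{(h,p) ∈ E} u_p(n+h)` -/
noncomputable def gE (E : Finset (ℕ × ℕ)) (n : ℕ) : ℝ := ∏ x ∈ E, uu x.2 (n + x.1)

/-- positions of `E` -/
def pos (E : Finset (ℕ × ℕ)) : Finset ℕ := E.image Prod.fst

/-- primes of `E` -/
def prs (E : Finset (ℕ × ℕ)) : Finset ℕ := E.image Prod.snd

/-- primes attached to the position `h` -/
def fib (E : Finset (ℕ × ℕ)) (h : ℕ) : Finset ℕ := (E.filter (fun x => x.1 = h)).image Prod.snd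

/-- positions attached to the prime `p` -/
def col (E : Finset (ℕ × ℕ)) (p : ℕ) : Finset ℕ := (E.filter (fun x => x.2 = p)).image Prod.fst

/-- product of all primes of `E`, with multiplicity -/
def nn (E : Finset (ℕ × ℕ)) : ℕ := ∏ x ∈ E, x.2

/-- product of a set of primes -/
def pd (D : Finset ℕ) : ℕ := ∏ p ∈ D, p

/-- `∏ 1/(p-1)` over `E` -/
noncomputable def ph (E : Finset (ℕ × ℕ)) : ℝ := ∏ x ∈ E, 1 / ((x.2 : ℝ) - 1)

/-- `∏ 1/(p-1)` over `D` -/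
noncomputable def pf (D : Finset ℕ) : ℝ := ∏ p ∈ D, 1 / ((p : ℝ) - 1)

/-- `1` if `p` divides some `n + h`, `h ∈ U` -/
noncomputable def hit (U : Finset ℕ) (n p : ℕ) : ℝ := if ∃ h ∈ U, p ∣ n + h then 1 else 0

/-- `1` if no prime of `P` divides any `n + h`, `h ∈ U`, otherwise `0` -/
noncomputable def ro (P U : Finset ℕ) (n : ℕ) : ℝ := ∏ p ∈ P, (1 - hit U n p)

/-- the residues mod `p` which do not make `c + z` divisible by `p`, `z ∈ Z` -/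
def al (Z : Finset ℕ) (p : ℕ) : Finset ℕ := (range p).filter (fun c => ∀ z ∈ Z, ¬ p ∣ c + z)

/-- the residues of `al Z p` which make some `c + h`, `h ∈ U`, divisible by `p` -/
def Rs (Z U : Finset ℕ) (p : ℕ) : Finset ℕ := (al Z p).filter (fun c => ∃ h ∈ U, p ∣ c + h)

/-- the density of one residue class -/
noncomputable def gd (Z : Finset ℕ) (p : ℕ) : ℝ := 1 / ((p : ℝ) - #Z)

/-- the sieve product -/
noncomputable def VV (P Z U : Finset ℕ) : ℝ := ∏ p ∈ P, (1 - (#(Rs Z U p) : ℝ) * gd Z p)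

/-- local expectation of `∏_{h ∈ A} u_p(c+h) ∏_{h ∈ B} u_p(c+h)` over `c ∈ al Z p` -/
noncomputable def eloc (Z : Finset ℕ) (p : ℕ) (A B : Finset ℕ) : ℝ :=
  (∑ c ∈ al Z p, (∏ h ∈ A, uu p (c + h)) * ∏ h ∈ B, uu p (c + h)) * gd Z p

/-- local expectation of the absolute value -/
noncomputable def aloc (Z : Finset ℕ) (p : ℕ) (A B : Finset ℕ) : ℝ :=
  (∑ c ∈ al Z p, (∏ h ∈ A, |uu p (c + h)|) * ∏ h ∈ B, |uu p (c + h)|) * gd Z p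

/-- the sieve sum with coefficients `C`, base set `Hb`, positions `Po`, small primes `P`, large primes `Q` -/
noncomputable def Psi (P Q Po Hb : Finset ℕ) (C : Finset (ℕ × ℕ) → ℝ) (n : ℕ) : ℝ :=
  ∑ E ∈ (Po ×ˢ Q).powerset, C E * (ro P (Hb ∪ pos E) n * gE E n)

/-- Distribution hypothesis: weights `a` on `S`, total mass `X`, residue classes mod primes of `P ∪ Q`
with the classes of `-z`, `z ∈ Z`, removed; level `Lv`, error bounds `M`. -/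
structure Dist (P Q Z S : Finset ℕ) (a : ℕ → ℝ) (X Lv : ℝ) (M : Finset ℕ → ℝ) : Prop where
  a0 : ∀ n ∈ S, 0 ≤ a n
  X0 : 0 ≤ X
  M0 : ∀ D, D ⊆ P ∪ Q → 0 ≤ M D
  cop : ∀ n ∈ S, ∀ z ∈ Z, ∀ p ∈ P ∪ Q, p ∣ n + z → a n = 0
  cnt : ∀ D, D ⊆ P ∪ Q → ((∏ p ∈ D, p : ℕ) : ℝ) ≤ Lv → ∀ b : ℕ → ℕ,
    (∀ p ∈ D, ∀ z ∈ Z, ¬ p ∣ b p + z) →
    |∑ n ∈ S.filter (fun n => ∀ p ∈ D, n ≡ b p [MOD p]), a n - X * ∏ p ∈ D, gd Z p| ≤ M D

/-- The fundamental lemma of dimension `K` with relative error `2^{-s}`, level `y^{4s+5}`. -/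
def FLP (K s : ℕ) : Prop := ∀ (S : Finset ℕ) (a : ℕ → ℝ) (c : ℕ → ℕ → ℝ) (X : ℝ) (z y : ℕ),
  100 ≤ Real.log z → 2 * (K : ℝ) ≤ z → z ≤ y →
  ∀ P : Finset ℕ, (∀ p ∈ P, p.Prime) → (∀ p ∈ P, z < p) → (∀ p ∈ P, p ≤ y) →
  ∀ g : ℕ → ℝ, (∀ p ∈ P, 0 ≤ g p) → (∀ p ∈ P, g p ≤ K / p) →
  (∀ n ∈ S, 0 ≤ a n) → (∀ n ∈ S, ∀ p ∈ P, 0 ≤ c n p) → (∀ n ∈ S, ∀ p ∈ P, c n p ≤ 1) → 0 ≤ X →
  |∑ n ∈ S, a n * ∏ p ∈ P, (1 - c n p) - X * ∏ p ∈ P, (1 - g p)| ≤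
    (1 / 2 : ℝ) ^ s * (X * ∏ p ∈ P, (1 - g p)) +
    (1 + 2 * Real.log y) * ∑ D ∈ P.powerset.filter (fun D => (∏ p ∈ D, p) ≤ y ^ (4 * s + 5)),
      |RD S a c X g D|

/-! ### The concrete environment -/

/-- `w = (log ℓ)^2` -/
noncomputable def wz (ℓ : ℝ) : ℕ := ⌊(Real.log ℓ) ^ 2⌋₊

/-- `x^δ`, `x = e^ℓ` -/
noncomputable def zz (δ ℓ : ℝ) : ℕ := ⌊Real.exp (δ * ℓ)⌋₊

/-- small sieving primes -/
noncomputable def PP (δ ℓ : ℝ) (e : ℕ) : Finset ℕ := (primesIoc (wz ℓ) (zz δ ℓ)).erase e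

/-- large primes -/
noncomputable def QQ (δ υ ℓ : ℝ) (e : ℕ) : Finset ℕ := (primesIoc (zz δ ℓ) (zz υ ℓ)).erase e

/-- the modulus -/
noncomputable def WW (ℓ : ℝ) (e : ℕ) : ℕ := ∏ p ∈ (Nat.primesLE (wz ℓ)).erase e, p

/-- the positions -/
noncomputable def Po (lam ℓ : ℝ) (e b : ℕ) : Finset ℕ :=
  (Icc 1 ⌊lam * ℓ⌋₊).filter (fun h => Nat.Coprime (b + h) (WW ℓ e))

/-- `∏_{p ∈ P} (1 - 1/p)` -/
noncomputable def V1 (δ ℓ : ℝ) (e : ℕ) : ℝ := ∏ p ∈ PP δ ℓ e, (1 - 1 / (p : ℝ))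

/-- the integers -/
noncomputable def Sb (ℓ : ℝ) (e b : ℕ) : Finset ℕ :=
  (Ioc 0 ⌊Real.exp ℓ⌋₊).filter (fun n => n ≡ b [MOD WW ℓ e])

/-- the coefficients: `g` on the positions of `H0`, `-α` on the others, products over `H0` at most `T1`,
products over the other positions at most `T` -/
noncomputable def Cf (H0 : Finset ℕ) (g α : ℕ → ℝ) (T1 T : ℝ) (E : Finset (ℕ × ℕ)) : ℝ :=
  (∏ h ∈ H0, g (pd (fib E h))) * (∏ h ∈ pos E \ H0, (-α (pd (fib E h)))) *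
    ((if (nn (E.filter (fun x => x.1 ∈ H0)) : ℝ) ≤ T1 then 1 else 0) *
      (if (nn (E.filter (fun x => x.1 ∉ H0)) : ℝ) ≤ T then 1 else 0))

/-- number of positions outside `H0` with `n + h` free of primes of `P ∪ Q` -/
noncomputable def Xo (P Q Po H0 : Finset ℕ) (n : ℕ) : ℝ :=
  ∑ h ∈ Po \ H0, (if ∀ p ∈ P ∪ Q, ¬ p ∣ n + h then (1 : ℝ) else 0)

/-- number of rough positions -/
noncomputable def Yr (P Po : Finset ℕ) (n : ℕ) : ℝ := ∑ h ∈ Po, ro P {h} n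

/-- the `n`-th gap (`n = 0`: `3 - 2`) -/
noncomputable def dd (n : ℕ) : ℕ := Nat.nth Nat.Prime (n + 1) - Nat.nth Nat.Prime n

end Pool.Agent.H81.AS
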