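import Pool.Agent.H81.AS.Env
import Pool.Agent.H16.MT17

/-!
JOB AS-DISTP. The distribution hypothesis for the primes (weights `aw ℓ y (n+i)`, `y = zz υ ℓ`), from
`RP_supK` (H16/MT4.lean), with the exceptional prime `e`.

PROOF. Given `K`, `A`: take `RP_supK (1/4) .. A .. (24K)` and `smallProp_exists` with the parameters it needs; for
large `ℓ` get `q₁ > 1` with the small-moduli property and put `e = q₁.minFac` (a prime dividing `q₁`). `W = WW ℓ e`;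
`P ∪ Q ⊆ primesIoc (wz ℓ) (zz υ ℓ)` does not contain `e`, so `e ∤ W ∏ D` and `¬ q₁ ∣ W ∏ D`. (Conditions of
`RP_supK`: `log W ≤ ℓ/(2 (log ℓ)^2)`: `ev_WW`; primes dividing `W` are `≤ wz ℓ ≤ zz υ ℓ =: y ≤ e^{ℓ/2}`; its `z` is
`wz ℓ`.) It gives `M` with `∑_{D' ∈ lev (P∪Q) (e^{ℓ/4})} (24K)^{#D'} M D' ≤ e^ℓ ℓ^{-A}/φ(W)`.
`dist`: `Z = {i}`, `gd {i} p = 1/(p-1)`; for `D`, residues `b'` with `¬ p ∣ b' p + i`: the substitution
`m = n + i` as in `AD_shift` / `shift_rem` (H16/MT5.lean) turns the sum into the one of `RP_supK` with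
`A0 = b + i` (coprime to `W`) and the residues `b' p + i` (not divisible by `p`). (`aw` vanishes for `n ≤ e^ℓ/9` and
for `n ≥ e^ℓ`, `i` is small.) `cop`: if `p ∣ n + i` with `p ≤ y` then `aw ℓ y (n+i) = 0`.
`M` outside `lev`: put `M D = 0` there is not allowed to break `cnt`: `cnt` only uses `∏ D ≤ Lv = e^{ℓ/4}`.
`rem`: `(Q', D) ↦ D ∪ Q'` is injective (`P`, `Q` disjoint), `∏ (D ∪ Q') ≤ z^{4s+5} T^2 ≤ e^{ℓ/4}` and
`(24K)^{#Q'} K^{#D} ≤ (24K)^{#(D ∪ Q')}`.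
-/

set_option autoImplicit false

open Finset Filter Topology

namespace Pool.Agent.H81.AS

open Pool.Agent.H16

/-- change of variable `m = n + i` in the sums over primes -/
lemma shiftSum {ℓ : ℝ} (y W A0 i : ℕ) (hi : (i : ℝ) ≤ Real.exp ℓ / 9) (F : ℕ → ℝ) :
    ∑ n ∈ (Ioc 0 ⌊Real.exp ℓ⌋₊).filter (fun n => n ≡ A0 [MOD W]), aw ℓ y (n + i) * F (n + i) =
      ∑ m ∈ (Ioc 0 ⌊Real.exp ℓ⌋₊).filter (fun n => n ≡ A0 + i [MOD W]), aw ℓ y m * F m := by
  classical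
  set N := ⌊Real.exp ℓ⌋₊ with hN
  rw [← Finset.sum_image (s := (Ioc 0 N).filter (fun n => n ≡ A0 [MOD W])) (g := fun n => n + i)
    (f := fun m => aw ℓ y m * F m)
    (fun a _ b _ hab => by simpa using hab)]
  have hval : ∀ m, aw ℓ y m ≠ 0 → i < m ∧ m ≤ N := by
    intro m hm
    obtain ⟨h1, h2, h3⟩ := aw_ne_zero hm
    constructor
    · have : (i : ℝ) < m := by linarith
      exact_mod_cast this
    · by_contra hcon
      apply hm
      apply aw_zero_of_big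
      have := Nat.lt_of_floor_lt (by omega : ⌊Real.exp ℓ⌋₊ < m)
      exact this.le
  apply Finset.sum_congr_of_eq_on_inter
  · intro m hm hm2
    rw [Finset.mem_image] at hm
    obtain ⟨n, hn, rfl⟩ := hm
    rw [Finset.mem_filter, Finset.mem_Ioc] at hn hm2
    by_cases h0 : aw ℓ y (n + i) = 0
    · rw [h0, zero_mul]
    · exfalso
      obtain ⟨h1, h2⟩ := hval _ h0
      exact hm2 ⟨⟨by omega, h2⟩, Nat.ModEq.add_right i hn.2⟩
  · intro m hm hm2
    rw [Finset.mem_filter, Finset.mem_Ioc] at hm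
    by_cases h0 : aw ℓ y m = 0
    · rw [h0, zero_mul]
    · exfalso
      obtain ⟨h1, h2⟩ := hval _ h0
      apply hm2
      rw [Finset.mem_image]
      refine ⟨m - i, ?_, by omega⟩
      rw [Finset.mem_filter, Finset.mem_Ioc]
      refine ⟨⟨by omega, by omega⟩, ?_⟩
      have h3 : m - i + i ≡ A0 + i [MOD W] := by
        rw [Nat.sub_add_cancel h1.le]; exact hm.2
      exact Nat.ModEq.add_right_cancel' i h3
  · intro m _ _
    rfl

lemma PPQQ_sub {δ υ ℓ : ℝ} {e : ℕ} (h1 : wz ℓ ≤ zz δ ℓ) (h2 : zz δ ℓ ≤ zz υ ℓ) :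
    PP δ ℓ e ∪ QQ δ υ ℓ e ⊆ primesIoc (wz ℓ) (zz υ ℓ) := by
  intro p hp
  rw [Finset.mem_union] at hp
  unfold PP QQ at hp
  rcases hp with hp | hp
  · have h3 := mem_primesIoc.mp (Finset.mem_erase.mp hp).2
    exact mem_primesIoc.mpr ⟨h3.1, h3.2.1.trans h2, h3.2.2⟩
  · have h3 := mem_primesIoc.mp (Finset.mem_erase.mp hp).2
    exact mem_primesIoc.mpr ⟨lt_of_le_of_lt h1 h3.1, h3.2.1, h3.2.2⟩

lemma PPQQ_ne {δ υ ℓ : ℝ} {e p : ℕ} (hp : p ∈ PP δ ℓ e ∪ QQ δ υ ℓ e) : p ≠ e := by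
  rw [Finset.mem_union] at hp
  unfold PP QQ at hp
  rcases hp with hp | hp
  · exact (Finset.mem_erase.mp hp).1
  · exact (Finset.mem_erase.mp hp).1

lemma PPQQ_disj {δ υ ℓ : ℝ} {e : ℕ} : Disjoint (PP δ ℓ e) (QQ δ υ ℓ e) := by
  rw [Finset.disjoint_left]
  intro p hp hp'
  unfold PP at hp
  unfold QQ at hp'
  have h1 := mem_primesIoc.mp (Finset.mem_erase.mp hp).2
  have h2 := mem_primesIoc.mp (Finset.mem_erase.mp hp').2
  omega

theorem dist_prime (K : ℕ) (hK : 1 ≤ K) (A : ℝ) (hA : 0 ≤ A) {lam υ : ℝ} (hlam : 0 < lam) (hυ0 : 0 < υ)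
    (hυ : υ ≤ 1 / 2) :
    ∀ᶠ ℓ : ℝ in atTop, ∃ e : ℕ, ∀ δ : ℝ, wz ℓ ≤ zz δ ℓ → zz δ ℓ ≤ zz υ ℓ → ∃ M : Finset ℕ → ℝ,
      (∀ b i : ℕ, i ∈ Po lam ℓ e b →
        Dist (PP δ ℓ e) (QQ δ υ ℓ e) {i} (Sb ℓ e b) (fun n => aw ℓ (zz υ ℓ) (n + i))
          (XT ℓ (zz υ ℓ) / (((WW ℓ e).totient : ℕ) : ℝ)) (Real.exp (ℓ / 4)) M) ∧
      ∀ (s : ℕ) (T : ℝ), (zz δ ℓ : ℝ) ^ (4 * s + 5) * T ^ 2 ≤ Real.exp (ℓ / 4) →
        ∑ Q' ∈ (QQ δ υ ℓ e).powerset.filter (fun Q' => ((∏ p ∈ Q', p : ℕ) : ℝ) ≤ T ^ 2),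
          (24 * (K : ℝ)) ^ #Q' *
            ∑ D ∈ (PP δ ℓ e).powerset.filter (fun D => (∏ p ∈ D, p) ≤ zz δ ℓ ^ (4 * s + 5)),
              (K : ℝ) ^ #D * M (D ∪ Q') ≤
          Real.exp ℓ * ℓ ^ (-A) / (((WW ℓ e).totient : ℕ) : ℝ) := by
  classical
  obtain ⟨L1, hL1⟩ := RP_supK (1 / 4) (by norm_num) le_rfl A hA (24 * K)
  obtain ⟨L3, hL3⟩ := smallProp_exists
    ((2 * A + 4 + ((24 * K : ℕ) : ℝ) ^ 2) + 1 + 4)
    ((2 * A + 4 + ((24 * K : ℕ) : ℝ) ^ 2) + 1 + 3 + 12) (by positivity) (by positivity) 1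
  have hsmall : ∀ᶠ ℓ : ℝ in atTop, lam * ℓ ≤ Real.exp ℓ / 9 := by
    have h1 : Tendsto (fun ℓ : ℝ => ℓ ^ 1 * Real.exp (-ℓ)) atTop (𝓝 0) :=
      Real.tendsto_pow_mul_exp_neg_atTop_nhds_zero 1
    have h2 := h1.eventually (gt_mem_nhds (show (0 : ℝ) < 1 / (9 * lam) by positivity))
    filter_upwards [h2] with ℓ hℓ
    rw [pow_one, Real.exp_neg, ← div_eq_mul_inv, div_lt_div_iff₀ (Real.exp_pos _) (by positivity)] at hℓ
    linarith
  filter_upwards [eventually_ge_atTop L1, eventually_ge_atTop L3, ev_wz 3, ev_WW (show (0 : ℝ) < 1 by norm_num),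
    hsmall, eventually_ge_atTop (1 : ℝ)] with ℓ l1 l3 hwz hWW hi9 hℓ1
  obtain ⟨q₁, hq₁, hSP⟩ := hL3 ℓ l3
  obtain ⟨hwz1, -⟩ := hwz
  set e := q₁.minFac with he
  have hep : e.Prime := Nat.minFac_prime (by omega)
  have heq : e ∣ q₁ := Nat.minFac_dvd q₁
  refine ⟨e, fun δ hδ1 hδ2 => ?_⟩
  set y := zz υ ℓ with hy
  have hyexp : (y : ℝ) ≤ Real.exp (ℓ / 2) := by
    have h1 : (y : ℝ) ≤ Real.exp (υ * ℓ) := by
      rw [hy]; unfold zz
      exact Nat.floor_le (Real.exp_pos _).le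
    refine h1.trans (Real.exp_le_exp.mpr ?_)
    nlinarith
  have hsub := PPQQ_sub (e := e) hδ1 hδ2
  have hPW : ∀ p ∈ PP δ ℓ e ∪ QQ δ υ ℓ e, ¬ p ∣ WW ℓ e := by
    intro p hp hpW
    have h1 := mem_primesIoc.mp (hsub hp)
    have h2 := (prime_dvd_WW h1.2.2).mp hpW
    omega
  have hq : ∀ D ⊆ PP δ ℓ e ∪ QQ δ υ ℓ e, ¬ q₁ ∣ WW ℓ e * ∏ p ∈ D, p := by
    intro D hD hdiv
    have h1 : e ∣ WW ℓ e * ∏ p ∈ D, p := heq.trans hdiv
    rcases hep.dvd_mul.mp h1 with h2 | h2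
    · exact ((prime_dvd_WW hep).mp h2).2 rfl
    · obtain ⟨p, hp, hpe⟩ := (Prime.dvd_finset_prod_iff hep.prime _).mp h2
      have h3 := mem_primesIoc.mp (hsub (hD hp))
      have h4 := (Nat.prime_dvd_prime_iff_eq hep h3.2.2).mp hpe
      exact PPQQ_ne (hD hp) h4.symm
  obtain ⟨M, hM0, hMsum, hM⟩ := hL1 ℓ l1 q₁ hSP (WW ℓ e) (WW_pos ℓ e) (hWW e).2 y hyexp
    (fun p hp hpW => by
      have := (prime_dvd_WW hp).mp hpW
      exact this.1.trans (hδ1.trans hδ2))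
    (wz ℓ) (by linarith) (hδ1.trans hδ2) (PP δ ℓ e ∪ QQ δ υ ℓ e) hsub hPW hq
  have hY : Real.exp ((1 / 2 - 1 / 4) * ℓ) = Real.exp (ℓ / 4) := by
    congr 1; ring
  rw [hY] at hMsum hM
  refine ⟨M, ?_, ?_⟩
  · intro b i hib
    have hib' := Finset.mem_filter.mp (show i ∈ Po lam ℓ e b from hib)
    have hiℓ : (i : ℝ) ≤ Real.exp ℓ / 9 := by
      have h1 : i ≤ ⌊lam * ℓ⌋₊ := (Finset.mem_Icc.mp hib'.1).2
      have h2 : (i : ℝ) ≤ (⌊lam * ℓ⌋₊ : ℝ) := by exact_mod_cast h1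
      have h3 : (⌊lam * ℓ⌋₊ : ℝ) ≤ lam * ℓ := Nat.floor_le (by positivity)
      linarith
    refine ⟨fun n _ => aw_nonneg _ _ _, ?_, hM0, ?_, ?_⟩
    · apply div_nonneg _ (Nat.cast_nonneg _)
      exact Finset.sum_nonneg (fun n _ => aw_nonneg _ _ _)
    · intro n _ z hz p hp hpn
      rw [Finset.mem_singleton] at hz
      subst hz
      by_contra h0
      obtain ⟨h1, h2, _⟩ := aw_ne_zero h0
      have h3 := mem_primesIoc.mp (hsub hp)
      have h4 := (Nat.prime_dvd_prime_iff_eq h3.2.2 h1).mp hpn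
      omega
    · intro D hD hDle b' hb'
      have h1 := hM (b + i) (fun p => b' p + i) hib'.2 D (mem_lev.mpr ⟨hD, hDle⟩)
        (fun p hp => hb' p hp i (Finset.mem_singleton_self i))
      have h2 : ∏ p ∈ D, gd {i} p = ∏ p ∈ D, 1 / ((p : ℝ) - 1) := by
        apply Finset.prod_congr rfl
        intro p _
        unfold gd
        rw [Finset.card_singleton]; norm_num
      have h3 : ∑ n ∈ (Sb ℓ e b).filter (fun n => ∀ p ∈ D, n ≡ b' p [MOD p]), aw ℓ y (n + i) =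
          AD ((Ioc 0 ⌊Real.exp ℓ⌋₊).filter (fun n => n ≡ b + i [MOD WW ℓ e])) (aw ℓ y)
            (cb (fun p => b' p + i)) D := by
        unfold AD
        rw [← shiftSum y (WW ℓ e) b i hiℓ (fun m => ∏ p ∈ D, cb (fun p => b' p + i) m p)]
        rw [Finset.sum_filter]
        unfold Sb
        apply Finset.sum_congr rfl
        intro n _
        by_cases hall : ∀ p ∈ D, n ≡ b' p [MOD p]
        · rw [if_pos hall, Finset.prod_eq_one, mul_one]
          intro p hp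
          unfold cb
          rw [if_pos (Nat.ModEq.add_right i (hall p hp))]
        · rw [if_neg hall]
          push Not at hall
          obtain ⟨p, hp, hpn⟩ := hall
          rw [Finset.prod_eq_zero hp, mul_zero]
          unfold cb
          rw [if_neg]
          intro h4
          exact hpn (Nat.ModEq.add_right_cancel' i h4)
      show |∑ n ∈ (Sb ℓ e b).filter (fun n => ∀ p ∈ D, n ≡ b' p [MOD p]), aw ℓ y (n + i) -
        XT ℓ y / (((WW ℓ e).totient : ℕ) : ℝ) * ∏ p ∈ D, gd {i} p| ≤ M D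
      rw [h3, h2]
      unfold RD at h1
      exact h1
  · intro s T hsT
    refine le_trans ?_ hMsum
    set A1 := (QQ δ υ ℓ e).powerset.filter (fun Q' => ((∏ p ∈ Q', p : ℕ) : ℝ) ≤ T ^ 2) with hA1
    set B1 := (PP δ ℓ e).powerset.filter (fun D => (∏ p ∈ D, p) ≤ zz δ ℓ ^ (4 * s + 5)) with hB1
    have hA1m : ∀ Q' ∈ A1, Q' ⊆ QQ δ υ ℓ e ∧ ((∏ p ∈ Q', p : ℕ) : ℝ) ≤ T ^ 2 := by
      intro Q' hQ'
      rw [hA1, Finset.mem_filter, Finset.mem_powerset] at hQ'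
      exact hQ'
    have hB1m : ∀ D ∈ B1, D ⊆ PP δ ℓ e ∧ (∏ p ∈ D, p) ≤ zz δ ℓ ^ (4 * s + 5) := by
      intro D hD
      rw [hB1, Finset.mem_filter, Finset.mem_powerset] at hD
      exact hD
    have hdisj : ∀ Q' ∈ A1, ∀ D ∈ B1, Disjoint D Q' := by
      intro Q' hQ' D hD
      exact Finset.disjoint_of_subset_left (hB1m D hD).1
        (Finset.disjoint_of_subset_right (hA1m Q' hQ').1 PPQQ_disj)
    have hK1 : (1 : ℝ) ≤ K := by exact_mod_cast hK
    have hterm : ∀ Q' ∈ A1, ∀ D ∈ B1, (24 * (K : ℝ)) ^ #Q' * ((K : ℝ) ^ #D * M (D ∪ Q')) ≤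
        ((24 * K : ℕ) : ℝ) ^ #(D ∪ Q') * M (D ∪ Q') := by
      intro Q' hQ' D hD
      rw [Finset.card_union_of_disjoint (hdisj Q' hQ' D hD), pow_add]
      have h0 : 0 ≤ M (D ∪ Q') := hM0 _ (Finset.union_subset
        ((hB1m D hD).1.trans Finset.subset_union_left) ((hA1m Q' hQ').1.trans Finset.subset_union_right))
      push_cast
      have h1 : (K : ℝ) ^ #D ≤ (24 * (K : ℝ)) ^ #D := pow_le_pow_left₀ (by positivity) (by linarith) _
      have h2 : 0 ≤ (24 * (K : ℝ)) ^ #Q' := by positivity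
      calc (24 * (K : ℝ)) ^ #Q' * ((K : ℝ) ^ #D * M (D ∪ Q')) =
          (24 * (K : ℝ)) ^ #Q' * M (D ∪ Q') * (K : ℝ) ^ #D := by ring
        _ ≤ (24 * (K : ℝ)) ^ #Q' * M (D ∪ Q') * (24 * (K : ℝ)) ^ #D :=
            mul_le_mul_of_nonneg_left h1 (mul_nonneg h2 h0)
        _ = _ := by ring
    calc ∑ Q' ∈ A1, (24 * (K : ℝ)) ^ #Q' * ∑ D ∈ B1, (K : ℝ) ^ #D * M (D ∪ Q')
        ≤ ∑ Q' ∈ A1, ∑ D ∈ B1, ((24 * K : ℕ) : ℝ) ^ #(D ∪ Q') * M (D ∪ Q') := by
          apply Finset.sum_le_sum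
          intro Q' hQ'
          rw [Finset.mul_sum]
          exact Finset.sum_le_sum (fun D hD => hterm Q' hQ' D hD)
      _ = ∑ x ∈ A1 ×ˢ B1, ((24 * K : ℕ) : ℝ) ^ #(x.2 ∪ x.1) * M (x.2 ∪ x.1) := by
          rw [Finset.sum_product]
      _ = ∑ E ∈ (A1 ×ˢ B1).image (fun x => x.2 ∪ x.1), ((24 * K : ℕ) : ℝ) ^ #E * M E := by
          rw [Finset.sum_image]
          rintro ⟨a, d⟩ h1 ⟨a', d'⟩ h2 h3
          simp only [Finset.coe_product, Set.mem_prod, Finset.mem_coe] at h1 h2 h3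
          have e1 : ∀ a ∈ A1, ∀ d ∈ B1, (d ∪ a) ∩ PP δ ℓ e = d := by
            intro a ha d hd
            rw [Finset.union_inter_distrib_right, Finset.inter_eq_left.mpr (hB1m d hd).1]
            have : a ∩ PP δ ℓ e = ∅ := by
              rw [← Finset.disjoint_iff_inter_eq_empty]
              exact Finset.disjoint_of_subset_left (hA1m a ha).1 PPQQ_disj.symm
            rw [this, Finset.union_empty]
          have e2 : ∀ a ∈ A1, ∀ d ∈ B1, (d ∪ a) ∩ QQ δ υ ℓ e = a := by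
            intro a ha d hd
            rw [Finset.union_inter_distrib_right, Finset.inter_eq_left.mpr (hA1m a ha).1]
            have : d ∩ QQ δ υ ℓ e = ∅ := by
              rw [← Finset.disjoint_iff_inter_eq_empty]
              exact Finset.disjoint_of_subset_left (hB1m d hd).1 PPQQ_disj
            rw [this, Finset.empty_union]
          have f1 := e1 a h1.1 d h1.2
          have f2 := e1 a' h2.1 d' h2.2
          have f3 := e2 a h1.1 d h1.2
          have f4 := e2 a' h2.1 d' h2.2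
          rw [h3] at f1 f3
          rw [Prod.mk.injEq]
          exact ⟨f3.symm.trans f4, f1.symm.trans f2⟩
      _ ≤ ∑ D ∈ lev (PP δ ℓ e ∪ QQ δ υ ℓ e) (Real.exp (ℓ / 4)), ((24 * K : ℕ) : ℝ) ^ #D * M D := by
          apply Finset.sum_le_sum_of_subset_of_nonneg
          · intro E hE
            rw [Finset.mem_image] at hE
            obtain ⟨⟨a, d⟩, h1, rfl⟩ := hE
            rw [Finset.mem_product] at h1
            rw [mem_lev]
            refine ⟨Finset.union_subset ((hB1m d h1.2).1.trans Finset.subset_union_left)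
              ((hA1m a h1.1).1.trans Finset.subset_union_right), ?_⟩
            rw [Finset.prod_union (hdisj a h1.1 d h1.2)]
            push_cast
            refine le_trans ?_ hsT
            have h2 : ((∏ p ∈ d, p : ℕ) : ℝ) ≤ (zz δ ℓ : ℝ) ^ (4 * s + 5) := by
              exact_mod_cast (hB1m d h1.2).2
            have h3 := (hA1m a h1.1).2
            push_cast at h2 h3
            apply mul_le_mul h2 h3 (Finset.prod_nonneg (fun p _ => Nat.cast_nonneg p)) (by positivity)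
          · intro D hD _
            exact mul_nonneg (by positivity) (hM0 D (mem_lev.mp hD).1)

end Pool.Agent.H81.AS
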