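import Pool.Agent.H81.AS.Defs
import Pool.Agent.H16.Mertens

/-!
JOB AS-ENV. Elementary facts about the environment, for all large `ℓ`, uniformly in the removed number `e`
(`e` is an arbitrary natural number; `erase` does nothing if it is not in the set).
`wz ℓ = ⌊(log ℓ)^2⌋`, `zz δ ℓ = ⌊e^{δℓ}⌋`, `WW ℓ e = ∏_{p ≤ wz ℓ, p ≠ e} p`.
-/

set_option autoImplicit false

open Finset Filter Topology

namespace Pool.Agent.H81.AS

open Pool.Agent.H16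

lemma tendsto_wz : Tendsto wz atTop atTop := by
  have h1 : Tendsto (fun ℓ : ℝ => Real.log ℓ ^ 2) atTop atTop :=
    (tendsto_pow_atTop two_ne_zero).comp Real.tendsto_log_atTop
  exact tendsto_nat_floor_atTop.comp h1

theorem ev_wz (K : ℝ) : ∀ᶠ ℓ : ℝ in atTop, 100 ≤ Real.log (wz ℓ) ∧ K ≤ wz ℓ := by
  have h1 : Tendsto (fun ℓ : ℝ => (wz ℓ : ℝ)) atTop atTop :=
    tendsto_natCast_atTop_atTop.comp tendsto_wz
  filter_upwards [h1.eventually_ge_atTop K, h1.eventually_ge_atTop (Real.exp 100)] with ℓ h2 h3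
  refine ⟨?_, h2⟩
  have h4 : (0:ℝ) < wz ℓ := (Real.exp_pos _).trans_le h3
  rwa [Real.le_log_iff_exp_le h4]

lemma ev_sq_le_exp {δ : ℝ} (hδ : 0 < δ) (A : ℝ) :
    ∀ᶠ ℓ : ℝ in atTop, A * ℓ < Real.exp (δ * ℓ) / 2 := by
  filter_upwards [eventually_gt_atTop 0, eventually_gt_atTop (4 * A / δ ^ 2)] with ℓ h0 h1
  have h2 := Real.pow_div_factorial_le_exp (δ * ℓ) (by positivity) 2
  rw [div_lt_iff₀ (by positivity)] at h1
  have h3 : ((Nat.factorial 2 : ℕ) : ℝ) = 2 := by norm_num [Nat.factorial]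
  rw [h3] at h2
  have h4 : 4 * A * ℓ < ℓ * δ ^ 2 * ℓ := mul_lt_mul_of_pos_right h1 h0
  nlinarith

theorem ev_zz {δ : ℝ} (hδ : 0 < δ) (K : ℝ) : ∀ᶠ ℓ : ℝ in atTop,
    wz ℓ ≤ zz δ ℓ ∧ K ≤ Real.log (zz δ ℓ) ∧ δ * ℓ / 2 ≤ Real.log (zz δ ℓ) ∧ Real.log (zz δ ℓ) ≤ δ * ℓ ∧
      (zz δ ℓ : ℝ) ≤ Real.exp (δ * ℓ) ∧ Real.exp (δ * ℓ) / 2 ≤ zz δ ℓ := by
  have hlo := (Real.isLittleO_pow_log_id_atTop (n := 2)).def one_pos
  filter_upwards [hlo, ev_sq_le_exp hδ 1, eventually_gt_atTop 0, eventually_ge_atTop (2 / δ),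
    eventually_ge_atTop (2 * K / δ)] with ℓ h1 h2 h3 h4 h5
  rw [div_le_iff₀ hδ] at h4 h5
  have hexp : (zz δ ℓ : ℝ) ≤ Real.exp (δ * ℓ) := Nat.floor_le (Real.exp_pos _).le
  have hge : Real.exp (δ * ℓ) / 2 ≤ zz δ ℓ := by
    have h6 := Nat.lt_floor_add_one (Real.exp (δ * ℓ))
    have h7 : (2:ℝ) ≤ Real.exp (δ * ℓ) := by
      have := Real.add_one_le_exp (δ * ℓ)
      linarith
    unfold zz
    linarith
  have hpos : (0:ℝ) < zz δ ℓ := lt_of_lt_of_le (by positivity) hge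
  have hlow : δ * ℓ / 2 ≤ Real.log (zz δ ℓ) := by
    have h6 : Real.log (Real.exp (δ * ℓ) / 2) ≤ Real.log (zz δ ℓ) :=
      Real.log_le_log (by positivity) hge
    rw [Real.log_div (Real.exp_pos _).ne' two_ne_zero, Real.log_exp] at h6
    have := Real.log_two_lt_d9
    linarith
  refine ⟨?_, ?_, hlow, ?_, hexp, hge⟩
  · apply Nat.floor_le_floor
    have h6 : ‖Real.log ℓ ^ 2‖ = Real.log ℓ ^ 2 := by
      rw [Real.norm_eq_abs, abs_of_nonneg (sq_nonneg _)]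
    rw [h6, id, Real.norm_eq_abs, abs_of_pos h3] at h1
    have := Real.exp_pos (δ * ℓ)
    linarith
  · linarith
  · have h6 := Real.log_le_log hpos hexp
    rwa [Real.log_exp] at h6

/-- the positions are smaller than every power of `x` -/
theorem ev_pos {δ lam : ℝ} (hδ : 0 < δ) (hlam : 0 < lam) : ∀ᶠ ℓ : ℝ in atTop,
    ∀ h ∈ Icc 1 ⌊lam * ℓ⌋₊, h < zz δ ℓ := by
  filter_upwards [ev_zz hδ 1, ev_sq_le_exp hδ lam, eventually_gt_atTop 0] with ℓ h1 h2 h3 h hh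
  have h4 : (h : ℝ) ≤ lam * ℓ :=
    le_trans (by exact_mod_cast (mem_Icc.1 hh).2) (Nat.floor_le (by positivity))
  have h5 : (h : ℝ) < zz δ ℓ := by linarith [h1.2.2.2.2.2]
  exact_mod_cast h5

theorem zz_mono {δ υ ℓ : ℝ} (hδ : δ ≤ υ) (hℓ : 0 ≤ ℓ) : zz δ ℓ ≤ zz υ ℓ :=
  Nat.floor_le_floor (Real.exp_le_exp.2 (mul_le_mul_of_nonneg_right hδ hℓ))

lemma prime_of_mem_era {N e p : ℕ} (hp : p ∈ (Nat.primesLE N).erase e) : p.Prime :=
  Nat.prime_of_mem_primesLE (mem_of_mem_erase hp)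

lemma WW_pos_aux (ℓ : ℝ) (e : ℕ) : 0 < WW ℓ e :=
  prod_pos fun _ hp => (prime_of_mem_era hp).pos

lemma WW_le_pow (ℓ : ℝ) (e : ℕ) : WW ℓ e ≤ 4 ^ wz ℓ := by
  refine le_trans ?_ (primorial_le_four_pow _)
  rw [primorial_eq_prod_primesLE]
  exact prod_le_prod_of_subset_of_one_le' (erase_subset _ _)
    fun p hp _ => (Nat.prime_of_mem_primesLE hp).one_le

/-- `WW ℓ e ≤ primorial (wz ℓ) ≤ 4 ^ wz ℓ` (`primorial_le_four_pow` / `primorial_le_4_pow` in Mathlib). -/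
theorem ev_WW {ε : ℝ} (hε : 0 < ε) : ∀ᶠ ℓ : ℝ in atTop, ∀ e : ℕ,
    (WW ℓ e : ℝ) ≤ Real.exp (ε * ℓ) ∧ Real.log (WW ℓ e) ≤ ℓ / (2 * (Real.log ℓ) ^ 2) := by
  have h2 := (Real.isLittleO_pow_log_id_atTop (n := 2)).def (show (0:ℝ) < ε / 2 by positivity)
  have h4 := (Real.isLittleO_pow_log_id_atTop (n := 4)).def (show (0:ℝ) < 1 / 4 by norm_num)
  filter_upwards [h2, h4, eventually_gt_atTop 1] with ℓ h2 h4 h1 e
  have h0 : 0 < ℓ := by linarith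
  have hlog : 0 < Real.log ℓ := Real.log_pos h1
  rw [id, Real.norm_eq_abs, Real.norm_eq_abs, abs_of_pos h0, abs_of_pos (by positivity)] at h2 h4
  have hW : (0:ℝ) < WW ℓ e := by exact_mod_cast WW_pos_aux ℓ e
  have h5 : Real.log (WW ℓ e) ≤ 2 * Real.log ℓ ^ 2 := by
    have h6 : (WW ℓ e : ℝ) ≤ 4 ^ wz ℓ := by exact_mod_cast WW_le_pow ℓ e
    have h7 := Real.log_le_log hW h6
    rw [Real.log_pow] at h7
    have h8 : (wz ℓ : ℝ) ≤ Real.log ℓ ^ 2 := Nat.floor_le (by positivity)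
    have h9 : Real.log 4 ≤ 2 := by
      have h10 : Real.log 4 = 2 * Real.log 2 := by
        rw [show (4:ℝ) = 2 ^ 2 by norm_num, Real.log_pow]; norm_num
      have := Real.log_two_lt_d9
      linarith
    have h11 : 0 ≤ Real.log 4 := Real.log_nonneg (by norm_num)
    calc Real.log (WW ℓ e) ≤ wz ℓ * Real.log 4 := h7
      _ ≤ Real.log ℓ ^ 2 * 2 := mul_le_mul h8 h9 h11 (by positivity)
      _ = _ := by ring
  constructor
  · rw [← Real.log_le_iff_le_exp hW]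
    linarith
  · rw [le_div_iff₀ (by positivity)]
    calc Real.log (WW ℓ e) * (2 * Real.log ℓ ^ 2) ≤ 2 * Real.log ℓ ^ 2 * (2 * Real.log ℓ ^ 2) := by
          gcongr
      _ = 4 * Real.log ℓ ^ 4 := by ring
      _ ≤ ℓ := by linarith

theorem WW_pos (ℓ : ℝ) (e : ℕ) : 0 < WW ℓ e := WW_pos_aux ℓ e

theorem WW_squarefree (ℓ : ℝ) (e : ℕ) : Squarefree (WW ℓ e) := by
  refine (Finset.squarefree_prod_of_pairwise_isCoprime (fun p hp q hq hpq => ?_)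
    (fun p hp => (prime_of_mem_era hp).squarefree))
  exact Nat.coprime_iff_isRelPrime.1
    ((Nat.coprime_primes (prime_of_mem_era hp) (prime_of_mem_era hq)).2 hpq)

theorem prime_dvd_WW {ℓ : ℝ} {e p : ℕ} (hp : p.Prime) : p ∣ WW ℓ e ↔ p ≤ wz ℓ ∧ p ≠ e := by
  unfold WW
  rw [Prime.dvd_finsetProd_iff hp.prime]
  constructor
  · rintro ⟨q, hq, hpq⟩
    have h1 : p = q := (Nat.prime_dvd_prime_iff_eq hp (prime_of_mem_era hq)).1 hpq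
    subst h1
    exact ⟨Nat.le_of_mem_primesLE (mem_of_mem_erase hq), ne_of_mem_erase hq⟩
  · rintro ⟨h1, h2⟩
    exact ⟨p, mem_erase.2 ⟨h2, Nat.mem_primesLE.2 ⟨h1, hp⟩⟩, dvd_rfl⟩

/-- primes of `PP` and `QQ` do not divide `WW` -/
theorem PQ_coprime {δ υ ℓ : ℝ} {e p : ℕ} (hδ : wz ℓ ≤ zz δ ℓ) (hp : p ∈ PP δ ℓ e ∪ QQ δ υ ℓ e) :
    p.Prime ∧ wz ℓ < p ∧ Nat.Coprime p (WW ℓ e) := by
  have h1 : p.Prime ∧ wz ℓ < p := by
    rcases mem_union.1 hp with h | h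
    · obtain ⟨h2, _, h3⟩ := mem_primesIoc.1 (mem_of_mem_erase h)
      exact ⟨h3, h2⟩
    · obtain ⟨h2, _, h3⟩ := mem_primesIoc.1 (mem_of_mem_erase h)
      exact ⟨h3, hδ.trans_lt h2⟩
  refine ⟨h1.1, h1.2, (Nat.Prime.coprime_iff_not_dvd h1.1).2 fun h2 => ?_⟩
  have h3 := ((prime_dvd_WW h1.1).1 h2).1
  omega

theorem WW_totient_ratio (ℓ : ℝ) (e : ℕ) :
    (((WW ℓ e).totient : ℕ) : ℝ) / (WW ℓ e : ℝ) = ∏ p ∈ (Nat.primesLE (wz ℓ)).erase e, (1 - 1 / (p : ℝ)) := by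
  have hW : (WW ℓ e : ℝ) ≠ 0 := by exact_mod_cast (WW_pos ℓ e).ne'
  have h1 := Nat.totient_eq_mul_prod_factors (WW ℓ e)
  have h2 : (WW ℓ e).primeFactors = (Nat.primesLE (wz ℓ)).erase e :=
    Nat.primeFactors_prod fun p hp => prime_of_mem_era hp
  rw [h2] at h1
  have h3 : (((WW ℓ e).totient : ℕ) : ℝ) =
      (WW ℓ e : ℝ) * ∏ p ∈ (Nat.primesLE (wz ℓ)).erase e, (1 - (p : ℝ)⁻¹) := by
    have h4 := congrArg (fun q : ℚ => (q : ℝ)) h1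
    push_cast at h4
    exact h4
  rw [h3, mul_div_cancel_left₀ _ hW]
  simp only [one_div]

lemma V1_aux {δ ℓ : ℝ} {e p : ℕ} (hp : p ∈ PP δ ℓ e) : 0 < 1 - 1 / (p : ℝ) ∧ 1 - 1 / (p : ℝ) ≤ 1 := by
  have h1 : (2:ℝ) ≤ p := by exact_mod_cast (mem_primesIoc.1 (mem_of_mem_erase hp)).2.2.two_le
  have h2 : 1 / (p : ℝ) ≤ 1 / 2 := one_div_le_one_div_of_le two_pos h1
  have h3 : 0 ≤ 1 / (p : ℝ) := by positivity
  constructor <;> linarith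

theorem V1_pos (δ ℓ : ℝ) (e : ℕ) : 0 < V1 δ ℓ e := prod_pos fun _ hp => (V1_aux hp).1

theorem V1_le_one (δ ℓ : ℝ) (e : ℕ) : V1 δ ℓ e ≤ 1 :=
  prod_le_one (fun _ hp => (V1_aux hp).1.le) fun _ hp => (V1_aux hp).2

end Pool.Agent.H81.AS
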