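import Pool.Agent.H81.AS.Env

/-!
JOB AS-ENV2. Mertens bounds for the environment (see `Vp_ge`, `Vp_le`, `Vp_mul` in H16/Vprod.lean).
-/

set_option autoImplicit false

open Finset Filter Topology

namespace Pool.Agent.H81.AS

open Pool.Agent.H16

lemma prod_erase_bounds {s : Finset ℕ} (hs : ∀ p ∈ s, p.Prime) (e : ℕ) :
    ∏ p ∈ s, (1 - 1 / (p : ℝ)) ≤ ∏ p ∈ s.erase e, (1 - 1 / (p : ℝ)) ∧
      ∏ p ∈ s.erase e, (1 - 1 / (p : ℝ)) ≤ 2 * ∏ p ∈ s, (1 - 1 / (p : ℝ)) := by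
  have hpos : 0 < ∏ p ∈ s.erase e, (1 - 1 / (p : ℝ)) :=
    Finset.prod_pos (fun p hp => one_sub_inv_pos (hs p (Finset.mem_of_mem_erase hp)))
  by_cases he : e ∈ s
  · rw [← Finset.mul_prod_erase s (fun p : ℕ => (1 - 1 / (p : ℝ))) he]
    have h2 : (2 : ℝ) ≤ e := by exact_mod_cast (hs e he).two_le
    have h3 : 1 / (e : ℝ) ≤ 1 / 2 := one_div_le_one_div_of_le (by norm_num) h2
    have h4 : 0 ≤ 1 / (e : ℝ) := by positivity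
    constructor <;> nlinarith
  · rw [Finset.erase_eq_of_notMem he] at hpos ⊢
    constructor <;> linarith

lemma V1_mul (δ ℓ : ℝ) (e : ℕ) (h : wz ℓ ≤ zz δ ℓ) :
    V1 δ ℓ e * ((((WW ℓ e).totient : ℕ) : ℝ) / (WW ℓ e : ℝ)) =
      ∏ p ∈ (Nat.primesLE (zz δ ℓ)).erase e, (1 - 1 / (p : ℝ)) := by
  rw [WW_totient_ratio, V1, PP, primesLE_eq_union _ _ h, Finset.erase_union_distrib,
    Finset.prod_union, mul_comm]
  exact Finset.disjoint_of_subset_left (Finset.erase_subset _ _)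
    (Finset.disjoint_of_subset_right (Finset.erase_subset _ _) (disj_primes _ _))

lemma two_le_of_log_pos {n : ℕ} (h : 0 < Real.log n) : 2 ≤ n := by
  by_contra h2
  have : n = 0 ∨ n = 1 := by omega
  rcases this with rfl | rfl <;> simp at h

/-- PROOF: `V1 * φ(W)/W = ∏_{p ≤ z, p ≠ e} (1-1/p)`, which is `Vp z` or `Vp z / (1-1/e)`, hence between `Vp z`
and `2 Vp z`; `c / log z ≤ Vp z ≤ 1 / log z` (`Vp_ge`, `Vp_le` in H16/Vprod.lean), `δℓ/2 ≤ log z ≤ δℓ`. -/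
theorem V1_bounds : ∃ c : ℝ, 0 < c ∧ ∀ δ : ℝ, 0 < δ → ∀ᶠ ℓ : ℝ in atTop, ∀ e : ℕ,
    c / (δ * ℓ) ≤ V1 δ ℓ e * ((((WW ℓ e).totient : ℕ) : ℝ) / (WW ℓ e : ℝ)) ∧
    V1 δ ℓ e * ((((WW ℓ e).totient : ℕ) : ℝ) / (WW ℓ e : ℝ)) ≤ 4 / (δ * ℓ) ∧
    c / (δ * ℓ) ≤ V1 δ ℓ e := by
  obtain ⟨c, hc, hV⟩ := Vp_ge
  refine ⟨c, hc, fun δ hδ => ?_⟩
  filter_upwards [ev_zz hδ 1, eventually_gt_atTop (0 : ℝ)] with ℓ hz hℓ e
  obtain ⟨h1, h2, h3, h4, -, -⟩ := hz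
  have hδℓ : 0 < δ * ℓ := mul_pos hδ hℓ
  have hlog : 0 < Real.log (zz δ ℓ) := by linarith
  have hz2 := two_le_of_log_pos hlog
  have hb := prod_erase_bounds (s := Nat.primesLE (zz δ ℓ)) (fun p hp => (Nat.mem_primesLE.1 hp).2) e
  have hm := V1_mul δ ℓ e h1
  have h5 : c / (δ * ℓ) ≤ V1 δ ℓ e * ((((WW ℓ e).totient : ℕ) : ℝ) / (WW ℓ e : ℝ)) := by
    rw [hm]
    refine le_trans ?_ ((hV _ hz2).trans hb.1)
    exact div_le_div_of_nonneg_left hc.le hlog h4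
  refine ⟨h5, ?_, ?_⟩
  · rw [hm]
    refine hb.2.trans ?_
    have h6 := Vp_le (zz δ ℓ) hz2
    have h7 : 1 / Real.log (zz δ ℓ) ≤ 1 / (δ * ℓ / 2) :=
      one_div_le_one_div_of_le (by positivity) h3
    have h8 : 2 * (1 / (δ * ℓ / 2)) = 4 / (δ * ℓ) := by field_simp; norm_num
    have h9 : ∏ p ∈ Nat.primesLE (zz δ ℓ), (1 - 1 / (p : ℝ)) = Vp (zz δ ℓ) := rfl
    rw [h9]
    linarith
  · refine h5.trans ?_
    have h6 : (((WW ℓ e).totient : ℕ) : ℝ) / (WW ℓ e : ℝ) ≤ 1 := by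
      apply div_le_one_of_le₀ _ (Nat.cast_nonneg _)
      exact_mod_cast Nat.totient_le _
    have := V1_pos δ ℓ e
    nlinarith

/-- PROOF: `1 + 1/(p-1) = (1-1/p)^{-1}`; the product over all primes in `(z,y]` is `Vp z / Vp y ≤ (1/log z)(log y/c)`
and dropping `e` only decreases it. -/
theorem QQ_prod : ∃ C : ℝ, 1 ≤ C ∧ ∀ δ υ : ℝ, 0 < δ → δ ≤ υ → ∀ᶠ ℓ : ℝ in atTop, ∀ e : ℕ,
    ∏ p ∈ QQ δ υ ℓ e, (1 + 1 / ((p : ℝ) - 1)) ≤ C * υ / δ := by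
  obtain ⟨c, hc, hV⟩ := Vp_ge
  refine ⟨max 1 (2 / c), le_max_left _ _, fun δ υ hδ hυ => ?_⟩
  have hυ0 : 0 < υ := hδ.trans_le hυ
  filter_upwards [ev_zz hδ 1, ev_zz hυ0 1, eventually_gt_atTop (0 : ℝ)] with ℓ hz hy hℓ e
  obtain ⟨-, h2, h3, h4, -, -⟩ := hz
  obtain ⟨-, h2', h3', h4', -, -⟩ := hy
  have hzy : zz δ ℓ ≤ zz υ ℓ := zz_mono hυ hℓ.le
  have hδℓ : 0 < δ * ℓ := mul_pos hδ hℓ
  have hlog : 0 < Real.log (zz δ ℓ) := by linarith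
  have hlog' : 0 < Real.log (zz υ ℓ) := by linarith
  have hz2 := two_le_of_log_pos hlog
  have hy2 := two_le_of_log_pos hlog'
  have hfac : ∀ p ∈ primesIoc (zz δ ℓ) (zz υ ℓ),
      1 + 1 / ((p : ℝ) - 1) = (1 - 1 / (p : ℝ))⁻¹ := by
    intro p hp
    rw [mem_primesIoc] at hp
    have hp2 : (2 : ℝ) ≤ p := by exact_mod_cast hp.2.2.two_le
    have : (p : ℝ) - 1 ≠ 0 := by linarith
    have h0 : (p : ℝ) ≠ 0 := by linarith
    field_simp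
    ring
  have hfull : ∏ p ∈ primesIoc (zz δ ℓ) (zz υ ℓ), (1 + 1 / ((p : ℝ) - 1)) =
      Vp (zz δ ℓ) / Vp (zz υ ℓ) := by
    rw [Finset.prod_congr rfl hfac, Finset.prod_inv_distrib, ← Vp_mul _ _ hzy,
      div_mul_cancel_left₀ (Vp_pos _).ne']
  have hsub : ∏ p ∈ QQ δ υ ℓ e, (1 + 1 / ((p : ℝ) - 1)) ≤
      ∏ p ∈ primesIoc (zz δ ℓ) (zz υ ℓ), (1 + 1 / ((p : ℝ) - 1)) := by
    have hpos : ∀ p ∈ primesIoc (zz δ ℓ) (zz υ ℓ), (1 : ℝ) ≤ 1 + 1 / ((p : ℝ) - 1) := by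
      intro p hp
      rw [mem_primesIoc] at hp
      have hp2 : (2 : ℝ) ≤ p := by exact_mod_cast hp.2.2.two_le
      have : 0 ≤ 1 / ((p : ℝ) - 1) := div_nonneg zero_le_one (by linarith)
      linarith
    unfold QQ
    by_cases he : e ∈ primesIoc (zz δ ℓ) (zz υ ℓ)
    · rw [← Finset.mul_prod_erase _ (fun p : ℕ => (1 + 1 / ((p : ℝ) - 1))) he]
      have h0 : 0 ≤ ∏ p ∈ (primesIoc (zz δ ℓ) (zz υ ℓ)).erase e, (1 + 1 / ((p : ℝ) - 1)) :=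
        Finset.prod_nonneg (fun p hp =>
          zero_le_one.trans (hpos p (Finset.mem_of_mem_erase hp)))
      exact le_mul_of_one_le_left h0 (hpos e he)
    · rw [Finset.erase_eq_of_notMem he]
  have h5 : Vp (zz δ ℓ) / Vp (zz υ ℓ) ≤ (1 / Real.log (zz δ ℓ)) / (c / Real.log (zz υ ℓ)) :=
    div_le_div₀ (by positivity) (Vp_le _ hz2) (by positivity) (hV _ hy2)
  have h6 : (1 / Real.log (zz δ ℓ)) / (c / Real.log (zz υ ℓ)) ≤ (1 / (δ * ℓ / 2)) / (c / (υ * ℓ)) := by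
    apply div_le_div₀ (by positivity) (one_div_le_one_div_of_le (by positivity) h3) (by positivity)
    exact div_le_div_of_nonneg_left hc.le hlog' h4'
  have h7 : (1 / (δ * ℓ / 2)) / (c / (υ * ℓ)) = 2 / c * υ / δ := by
    field_simp
  have h8 : 2 / c * υ / δ ≤ max 1 (2 / c) * υ / δ := by
    have := le_max_right 1 (2 / c)
    gcongr
  linarith

theorem QQ_sq {δ ε : ℝ} (hδ : 0 < δ) (hε : 0 < ε) (υ : ℝ) : ∀ᶠ ℓ : ℝ in atTop, ∀ e : ℕ,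
    ∑ p ∈ QQ δ υ ℓ e, 1 / ((p : ℝ) - 1) ^ 2 ≤ ε := by
  filter_upwards [ev_zz hδ (Real.log (4 / ε) + 1), ev_zz hδ 1, eventually_gt_atTop (0 : ℝ)]
    with ℓ hz hz' hℓ e
  obtain ⟨-, h2, -, -, -, -⟩ := hz
  obtain ⟨-, h2', -, -, -, -⟩ := hz'
  have hz2 := two_le_of_log_pos (by linarith : 0 < Real.log (zz δ ℓ))
  have hzr : (2 : ℝ) ≤ zz δ ℓ := by exact_mod_cast hz2
  have h3 : 4 / ε ≤ zz δ ℓ := by
    rw [← Real.log_le_log_iff (by positivity) (by linarith)]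
    linarith
  have h4 : ∑ p ∈ QQ δ υ ℓ e, 1 / ((p : ℝ) - 1) ^ 2 ≤ ∑ p ∈ QQ δ υ ℓ e, 4 * (1 / (p : ℝ) ^ 2) := by
    apply Finset.sum_le_sum
    intro p hp
    have hp' := mem_primesIoc.1 (Finset.mem_of_mem_erase hp)
    have hp2 : (2 : ℝ) ≤ p := by exact_mod_cast hp'.2.2.two_le
    rw [mul_one_div, div_le_div_iff₀ (by nlinarith) (by positivity)]
    nlinarith
  have h5 : ∑ p ∈ QQ δ υ ℓ e, 4 * (1 / (p : ℝ) ^ 2) ≤
      ∑ p ∈ Ioc (zz δ ℓ) (zz υ ℓ), 4 * (1 / (p : ℝ) ^ 2) := by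
    apply Finset.sum_le_sum_of_subset_of_nonneg
    · intro p hp
      have hp' := mem_primesIoc.1 (Finset.mem_of_mem_erase hp)
      exact Finset.mem_Ioc.2 ⟨hp'.1, hp'.2.1⟩
    · intro _ _ _; positivity
  rw [← Finset.mul_sum (Ioc (zz δ ℓ) (zz υ ℓ))] at h5
  have h6 := sum_inv_sq_Ioc (zz δ ℓ) (zz υ ℓ) (by omega)
  have h7 : 4 * (1 / (zz δ ℓ : ℝ)) ≤ ε := by
    rw [mul_one_div, div_le_iff₀ (by linarith)]
    rw [div_le_iff₀ hε] at h3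
    linarith
  linarith

end Pool.Agent.H81.AS
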