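import Pool.Agent.H81.AS.Master

/-!
JOB AS-EXACT. For every `lam > 0` and `m` a positive proportion of `n ≤ x` has exactly `m` primes in
`(n, n + lam log n]`.

PROOF. Let `M = max m 1`, `k` from `master M`. Let `κ = lam/4`, `lam' = 3 lam`, and let `F` be the family of the sets
`{h_1 < ... < h_k}` with `k! ∣ h_i`, `h_i ∈ (lam ℓ + (i-1) κ ℓ/k, lam ℓ + (i-1) κ ℓ/k + κ ℓ/(2k)]`, `i = 1..k`. Then
`#F ≥ (κ ℓ/(2k k!) - 1)^k ≥ c0 ℓ^k`, all elements are in `(lam ℓ, lam ℓ + κ ℓ]` and different elements differ by at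
least `κℓ/(2k)`. `master` with `lam'`, `ℓ = log x`: at least `c x` integers `n ≤ x` for which the primes in
`(n, n + lam' ℓ]` are in `n + H`, and there are `r ≥ M` of them, `q_1 < ... < q_r`. Keep only `n ≥ c x/2`; then
`log n' = ℓ - O(1)` for the `n'` below.
`m = 0`: `(n, n + lam log n]` contains no prime.
`m ≥ 1`: let `n' ∈ [q_{r-m+1} - κℓ/(2k), q_{r-m+1})`. Then `n' ≥ q_{r-m}` if `r > m` (spacing), `n' ≥ n` always, and the
primes in `(n', n' + lam log n']` are exactly the last `m`: `q_r ≤ n + lam ℓ + κ ℓ < n' + lam log n'` (as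
`n' ≥ n + lam ℓ - κℓ/(2k)` and `κ(1+1/(2k)) < lam`), `n' + lam ℓ ≤ n + lam' ℓ`. The number of these `n'` is at least `κℓ/(2k) - 1`,
and each `n'` comes from at most `lam' ℓ + 1` values `n`; so there are `≥ c' x` different `n'`, all `≤ x + lam' ℓ`; apply
with `x/2` in place of `x`.
-/

set_option autoImplicit false

open Finset Filter Topology

namespace Pool.Agent.H81.AS

open Pool.Agent.H16

namespace ExactAux

/-- The `m`-th largest element. -/
theorem exists_kth (m : ℕ) (hm : 1 ≤ m) : ∀ (N : ℕ) (R : Finset ℕ), #R = N → m ≤ #R →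
    ∃ a ∈ R, #(R.filter (fun s => a ≤ s)) = m := by
  intro N
  induction N with
  | zero => intro R h1 h2; omega
  | succ N ih =>
    intro R h1 h2
    have hne : R.Nonempty := by rw [← Finset.card_pos]; omega
    rcases Nat.lt_or_ge m #R with hlt | hge
    · have hmin := R.min'_mem hne
      have hc : #(R.erase (R.min' hne)) = N := by rw [Finset.card_erase_of_mem hmin]; omega
      obtain ⟨a, ha, h3⟩ := ih _ hc (by rw [hc]; omega)
      refine ⟨a, Finset.mem_of_mem_erase ha, ?_⟩
      rw [← h3]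
      congr 1
      ext s
      simp only [Finset.mem_filter, Finset.mem_erase]
      constructor
      · rintro ⟨h4, h5⟩
        refine ⟨⟨?_, h4⟩, h5⟩
        rintro rfl
        have h6 : R.min' hne ≤ a := R.min'_le _ (Finset.mem_of_mem_erase ha)
        exact (Finset.mem_erase.1 ha).1 (le_antisymm h5 h6)
      · rintro ⟨⟨_, h4⟩, h5⟩
        exact ⟨h4, h5⟩
    · refine ⟨R.min' hne, R.min'_mem hne, ?_⟩
      rw [Finset.filter_true_of_mem (fun s hs => R.min'_le _ hs)]
      omega

/-- multiples of `k!` in an interval -/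
theorem card_mult (d : ℕ) (hd : 1 ≤ d) (a b : ℝ) (ha : 0 ≤ a) (hab : a ≤ b) :
    ∃ I : Finset ℕ, (∀ h ∈ I, d ∣ h ∧ a < h ∧ (h : ℝ) ≤ b) ∧ (b - a) / d - 1 ≤ (#I : ℝ) := by
  have hd' : (0 : ℝ) < d := by exact_mod_cast hd
  refine ⟨(Ioc ⌊a / d⌋₊ ⌊b / d⌋₊).image (fun t => d * t), ?_, ?_⟩
  · intro h hh
    obtain ⟨t, ht, rfl⟩ := Finset.mem_image.1 hh
    obtain ⟨h1, h2⟩ := Finset.mem_Ioc.1 ht
    refine ⟨dvd_mul_right _ _, ?_, ?_⟩
    · have h3 : a / d < t := (Nat.floor_lt (by positivity)).1 h1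
      rw [div_lt_iff₀ hd'] at h3
      push_cast; linarith
    · have h3 : (t : ℝ) ≤ b / d := (Nat.le_floor_iff (div_nonneg (ha.trans hab) hd'.le)).1 h2
      rw [le_div_iff₀ hd'] at h3
      push_cast; linarith
  · rw [Finset.card_image_of_injective _ (fun x y hxy => Nat.eq_of_mul_eq_mul_left hd hxy),
      Nat.card_Ioc]
    have h1 : (⌊a / d⌋₊ : ℝ) ≤ a / d := Nat.floor_le (div_nonneg ha hd'.le)
    have h2 : b / d < (⌊b / d⌋₊ : ℝ) + 1 := Nat.lt_floor_add_one _
    have h3 : ⌊a / d⌋₊ ≤ ⌊b / d⌋₊ := Nat.floor_le_floor (by gcongr)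
    rw [Nat.cast_sub h3, sub_div]
    linarith

/-- The family. -/
theorem family (k : ℕ) (hk : 1 ≤ k) (lam κ : ℝ) (hlam : 0 < lam) (hκ : 0 < κ) :
    ∃ c0 : ℝ, 0 < c0 ∧ ∀ᶠ ℓ : ℝ in atTop, ∃ F : Finset (Finset ℕ),
      (∀ H ∈ F, #H = k ∧
        (∀ h ∈ H, k.factorial ∣ h ∧ lam * ℓ < h ∧ (h : ℝ) ≤ lam * ℓ + κ * ℓ) ∧
        (∀ h ∈ H, ∀ h' ∈ H, h < h' → κ * ℓ / (2 * k) ≤ (h' : ℝ) - h)) ∧
      c0 * ℓ ^ k ≤ (#F : ℝ) := by
  have hk' : (0 : ℝ) < k := by exact_mod_cast hk
  have hf : (0 : ℝ) < (k.factorial : ℝ) := by exact_mod_cast k.factorial_pos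
  refine ⟨(κ / (4 * k * k.factorial)) ^ k, by positivity, ?_⟩
  have hev : ∀ᶠ ℓ : ℝ in atTop, 4 * k * k.factorial / κ ≤ ℓ := eventually_ge_atTop _
  filter_upwards [hev, eventually_gt_atTop 0] with ℓ hℓ hℓ0
  have hex : ∀ i : Fin k, ∃ I : Finset ℕ, (∀ h ∈ I, k.factorial ∣ h ∧
      lam * ℓ + i * (κ * ℓ / k) < h ∧
      (h : ℝ) ≤ lam * ℓ + i * (κ * ℓ / k) + κ * ℓ / (2 * k)) ∧
      κ / (4 * k * k.factorial) * ℓ ≤ (#I : ℝ) := by
    intro i
    obtain ⟨I, h1, h2⟩ := card_mult k.factorial k.factorial_pos (lam * ℓ + i * (κ * ℓ / k))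
      (lam * ℓ + i * (κ * ℓ / k) + κ * ℓ / (2 * k)) (by positivity)
      (le_add_of_nonneg_right (by positivity))
    refine ⟨I, h1, le_trans ?_ h2⟩
    rw [add_sub_cancel_left]
    have h3 : 4 * k * k.factorial ≤ κ * ℓ := by
      rw [div_le_iff₀ hκ] at hℓ; linarith
    have h4 : κ * ℓ / (2 * k) / k.factorial = 2 * (κ / (4 * k * k.factorial) * ℓ) := by
      field_simp; ring
    have h5 : 1 ≤ κ / (4 * k * k.factorial) * ℓ := by
      rw [div_mul_eq_mul_div, le_div_iff₀ (by positivity)]; linarith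
    rw [h4]; linarith
  choose I hI1 hI2 using hex
  -- order
  have hord : ∀ i j : Fin k, i < j → ∀ a ∈ I i, ∀ b ∈ I j, κ * ℓ / (2 * k) ≤ (b : ℝ) - a := by
    intro i j hij a ha b hb
    have h1 := (hI1 i a ha).2.2
    have h2 := (hI1 j b hb).2.1
    have h3 : ((i : ℕ) : ℝ) + 1 ≤ (j : ℕ) := by exact_mod_cast hij
    have h4 : 0 ≤ κ * ℓ / k := by positivity
    have h5 : κ * ℓ / k = 2 * (κ * ℓ / (2 * k)) := by field_simp
    nlinarith
  have hpos : 0 < κ * ℓ / (2 * k) := by positivity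
  have hlt : ∀ i j : Fin k, i < j → ∀ a ∈ I i, ∀ b ∈ I j, a < b := by
    intro i j hij a ha b hb
    have := hord i j hij a ha b hb
    have h1 : (a : ℝ) < b := by linarith
    exact_mod_cast h1
  have heq : ∀ i j : Fin k, ∀ a, a ∈ I i → a ∈ I j → i = j := by
    intro i j a hi hj
    rcases lt_trichotomy i j with h | h | h
    · exact absurd (hlt i j h a hi a hj) (lt_irrefl _)
    · exact h
    · exact absurd (hlt j i h a hj a hi) (lt_irrefl _)
  refine ⟨(Fintype.piFinset I).image (fun f => Finset.univ.image f), ?_, ?_⟩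
  · intro H hH
    obtain ⟨f, hf1, rfl⟩ := Finset.mem_image.1 hH
    rw [Fintype.mem_piFinset] at hf1
    have hinj : Function.Injective f := fun i j hij => heq i j (f i) (hf1 i) (hij ▸ hf1 j)
    refine ⟨?_, ?_, ?_⟩
    · rw [Finset.card_image_of_injective _ hinj, Finset.card_univ, Fintype.card_fin]
    · intro h hh
      obtain ⟨i, _, rfl⟩ := Finset.mem_image.1 hh
      obtain ⟨h1, h2, h3⟩ := hI1 i _ (hf1 i)
      have h4 : 0 ≤ κ * ℓ / k := by positivity
      refine ⟨h1, ?_, ?_⟩
      · have : 0 ≤ ((i : ℕ) : ℝ) * (κ * ℓ / k) := by positivity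
        linarith
      · have h5 : ((i : ℕ) : ℝ) + 1 ≤ k := by exact_mod_cast i.2
        have h6 : κ * ℓ / k = 2 * (κ * ℓ / (2 * k)) := by field_simp
        have h7 : κ * ℓ = k * (κ * ℓ / k) := by field_simp
        nlinarith
    · intro h hh h' hh' hlt'
      obtain ⟨i, _, rfl⟩ := Finset.mem_image.1 hh
      obtain ⟨j, _, rfl⟩ := Finset.mem_image.1 hh'
      rcases lt_trichotomy i j with h | h | h
      · exact hord i j h _ (hf1 i) _ (hf1 j)
      · subst h; exact absurd hlt' (lt_irrefl _)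
      · exact absurd (hlt j i h _ (hf1 j) _ (hf1 i)) (not_lt.2 hlt'.le)
  · rw [Finset.card_image_of_injOn, Fintype.card_piFinset]
    · push_cast
      calc (κ / (4 * k * k.factorial)) ^ k * ℓ ^ k
          = ∏ _i : Fin k, (κ / (4 * k * k.factorial) * ℓ) := by
            rw [Finset.prod_const, Finset.card_univ, Fintype.card_fin, mul_pow]
        _ ≤ ∏ i : Fin k, (#(I i) : ℝ) :=
            Finset.prod_le_prod (fun i _ => by positivity) (fun i _ => hI2 i)
    · intro f hf1 g hg1 hfg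
      simp only [Finset.mem_coe, Fintype.mem_piFinset] at hf1 hg1
      funext i
      have h1 : f i ∈ Finset.univ.image g := by
        have : f i ∈ Finset.univ.image f := Finset.mem_image_of_mem _ (Finset.mem_univ _)
        have hfg' : Finset.univ.image f = Finset.univ.image g := hfg
        rwa [hfg'] at this
      obtain ⟨j, _, hj⟩ := Finset.mem_image.1 h1
      have h2 : i = j := heq i j (f i) (hf1 i) (hj ▸ hg1 j)
      rw [h2] at hj ⊢
      exact hj.symm

end ExactAux

open ExactAux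

theorem exact_count (m : ℕ) (lam : ℝ) (hlam : 0 < lam) : ∃ c : ℝ, 0 < c ∧ ∀ᶠ x : ℕ in atTop,
    c * x ≤ (#((Icc 1 x).filter (fun n =>
      #((Ioc n (n + ⌊lam * Real.log n⌋₊)).filter Nat.Prime) = m)) : ℝ) := by
  obtain ⟨k, hk, hmaster⟩ := master (max m 1) (le_max_right _ _)
  have hk1 : 1 ≤ k := by omega
  have hk' : (1 : ℝ) ≤ k := by exact_mod_cast hk1
  obtain ⟨c0, hc0, hfam⟩ := family k hk1 lam (lam / 4) hlam (by positivity)
  obtain ⟨c1, hc1, hmas⟩ := hmaster (3 * lam) c0 (by positivity) hc0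
  -- make `c1` at most one
  let c2 : ℝ := min c1 1
  have hc2 : 0 < c2 := lt_min hc1 one_pos
  have hc21 : c2 ≤ 1 := min_le_right _ _
  have hc2c : c2 ≤ c1 := min_le_left _ _
  -- `ℓ = log (x / 2)`
  have htend : Tendsto (fun x : ℕ => Real.log ((x : ℝ) / 2)) atTop atTop :=
    Real.tendsto_log_atTop.comp
      ((tendsto_natCast_atTop_atTop (R := ℝ)).atTop_div_const (by norm_num))
  have hσ : ∀ᶠ ℓ : ℝ in atTop, 64 * k / lam ≤ ℓ := eventually_ge_atTop _
  have hlarge : ∀ᶠ ℓ : ℝ in atTop, 8 * (lam * Real.log (2 / c2) + lam + 2) / lam ≤ ℓ :=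
    eventually_ge_atTop _
  have hexp : ∀ᶠ ℓ : ℝ in atTop, 2 * lam * ℓ ≤ Real.exp ℓ := by
    filter_upwards [(Real.tendsto_exp_div_pow_atTop 1).eventually_ge_atTop (2 * lam),
      eventually_gt_atTop 0] with ℓ h2 h3
    rw [pow_one, le_div_iff₀ h3] at h2
    exact h2
  refine ⟨c2 / (384 * k), by positivity, ?_⟩
  have hall := htend.eventually ((hfam.and hmas).and ((hσ.and hlarge).and
    (hexp.and (eventually_ge_atTop 2))))
  filter_upwards [hall, eventually_ge_atTop 4] with x hx hx4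
  obtain ⟨⟨⟨F, hF1, hF2⟩, hmas'⟩, ⟨hσ', hl⟩, hexp', hℓ2⟩ := hx
  set ℓ : ℝ := Real.log ((x : ℝ) / 2) with hℓ
  have hx0 : (0 : ℝ) < x := by
    have : 0 < x := by omega
    exact_mod_cast this
  have hexpℓ : Real.exp ℓ = (x : ℝ) / 2 := Real.exp_log (by positivity)
  have hℓ0 : 0 < ℓ := by linarith
  have hC0 : 0 ≤ Real.log (2 / c2) := Real.log_nonneg (by rw [le_div_iff₀ hc2]; linarith)
  have hlog2 : Real.log 2 ≤ 1 := by have := Real.log_two_lt_d9; linarith
  have hlogx : Real.log x = ℓ + Real.log 2 := by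
    rw [hℓ, Real.log_div hx0.ne' (by norm_num)]; ring
  have hlamℓ : 64 * k ≤ lam * ℓ := by rw [div_le_iff₀ hlam] at hσ'; linarith
  have hl' : 8 * (lam * Real.log (2 / c2) + lam + 2) ≤ lam * ℓ := by
    rw [div_le_iff₀ hlam] at hl; linarith
  have hmas2 := hmas' F (fun H hH => by
    obtain ⟨h1, h2, h3⟩ := hF1 H hH
    refine ⟨h1, fun h hh => ?_, fun h hh => (h2 h hh).1⟩
    obtain ⟨_, h4, h5⟩ := h2 h hh
    rw [Finset.mem_Icc]
    constructor
    · have : (0 : ℝ) < h := lt_trans (by positivity) h4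
      exact_mod_cast this
    · exact Nat.le_floor (by nlinarith)) hF2
  set G := (Ioc 0 ⌊Real.exp ℓ⌋₊).filter (fun n => ∃ H ∈ F,
        max m 1 ≤ #(H.filter (fun h => (n + h).Prime)) ∧
          ∀ h ∈ Icc 1 ⌊3 * lam * ℓ⌋₊, (n + h).Prime → h ∈ H) with hG
  -- discard small `n`
  set G' := G.filter (fun n : ℕ => c2 * x / 4 ≤ (n : ℝ)) with hG'
  have hcard : c2 * x / 4 ≤ (#G' : ℝ) := by
    have h1 : #G = #G' + #(G.filter (fun n : ℕ => ¬ c2 * x / 4 ≤ (n : ℝ))) :=
      (Finset.card_filter_add_card_filter_not _).symm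
    have h2 : (#(G.filter (fun n : ℕ => ¬ c2 * x / 4 ≤ (n : ℝ))) : ℝ) ≤ c2 * x / 4 := by
      have h3 : G.filter (fun n : ℕ => ¬ c2 * x / 4 ≤ (n : ℝ)) ⊆ Ioc 0 ⌊c2 * x / 4⌋₊ := by
        intro n hn
        rw [Finset.mem_filter, hG, Finset.mem_filter, Finset.mem_Ioc] at hn
        rw [Finset.mem_Ioc]
        exact ⟨hn.1.1.1, Nat.le_floor (not_le.1 hn.2).le⟩
      calc (#(G.filter (fun n : ℕ => ¬ c2 * x / 4 ≤ (n : ℝ))) : ℝ) ≤ (#(Ioc 0 ⌊c2 * x / 4⌋₊) : ℝ) := by
            exact_mod_cast Finset.card_le_card h3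
        _ = (⌊c2 * x / 4⌋₊ : ℝ) := by rw [Nat.card_Ioc, Nat.sub_zero]
        _ ≤ c2 * x / 4 := Nat.floor_le (by positivity)
    have h4 : c2 * (x / 2) ≤ (#G : ℝ) := by
      rw [← hexpℓ]
      exact (mul_le_mul_of_nonneg_right hc2c (Real.exp_pos _).le).trans hmas2
    rw [h1] at h4
    push_cast at h4
    linarith
  -- facts about `n ∈ G'`
  have hGn : ∀ n ∈ G', 1 ≤ n ∧ (n : ℝ) ≤ x / 2 ∧ ℓ - Real.log (2 / c2) ≤ Real.log n ∧
      ∃ H ∈ F, max m 1 ≤ #(H.filter (fun h => (n + h).Prime)) ∧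
          ∀ h ∈ Icc 1 ⌊3 * lam * ℓ⌋₊, (n + h).Prime → h ∈ H := by
    intro n hn
    rw [hG', Finset.mem_filter, hG, Finset.mem_filter, Finset.mem_Ioc] at hn
    obtain ⟨⟨⟨h1, h2⟩, h3⟩, h4⟩ := hn
    have h1' : (0 : ℝ) < n := by exact_mod_cast h1
    refine ⟨h1, ?_, ?_, h3⟩
    · rw [← hexpℓ]
      exact (Nat.le_floor_iff (Real.exp_pos _).le).1 h2
    · have h5 : ℓ - Real.log (2 / c2) = Real.log (c2 * x / 4) := by
        rw [hℓ, ← Real.log_div (by positivity) (by positivity)]
        congr 1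
        field_simp
        ring
      rw [h5]
      exact Real.log_le_log (by positivity) h4
  rcases Nat.eq_zero_or_pos m with hm0 | hm0
  · -- `m = 0`
    have hsub : G' ⊆ (Icc 1 x).filter (fun n =>
        #((Ioc n (n + ⌊lam * Real.log n⌋₊)).filter Nat.Prime) = m) := by
      intro n hn
      obtain ⟨h1, h2, h3, H, hH, h4, h5⟩ := hGn n hn
      have h1' : (1 : ℝ) ≤ n := by exact_mod_cast h1
      rw [Finset.mem_filter, Finset.mem_Icc, hm0, Finset.card_eq_zero, Finset.filter_eq_empty_iff]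
      refine ⟨⟨h1, ?_⟩, ?_⟩
      · have : (n : ℝ) ≤ x := by linarith
        exact_mod_cast this
      · intro q hq hqp
        rw [Finset.mem_Ioc] at hq
        obtain ⟨h, rfl⟩ := Nat.exists_eq_add_of_lt hq.1
        have h6 : (h + 1 : ℕ) ≤ ⌊lam * Real.log n⌋₊ := by omega
        have hlogn : Real.log n ≤ ℓ := Real.log_le_log (by linarith) h2
        have hlogn0 : 0 ≤ Real.log n := Real.log_nonneg h1'
        have h7 : ((h + 1 : ℕ) : ℝ) ≤ lam * ℓ :=
          ((Nat.le_floor_iff (by positivity)).1 h6).trans (by gcongr)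
        have h8 : h + 1 ∈ H := h5 (h + 1) (Finset.mem_Icc.2 ⟨by omega, Nat.le_floor (by
          have : lam * ℓ ≤ 3 * lam * ℓ := by nlinarith
          linarith)⟩) hqp
        have h9 := ((hF1 H hH).2.1 _ h8).2.1
        linarith
    have h1 : (#G' : ℝ) ≤ (#((Icc 1 x).filter (fun n =>
        #((Ioc n (n + ⌊lam * Real.log n⌋₊)).filter Nat.Prime) = m)) : ℝ) := by
      exact_mod_cast Finset.card_le_card hsub
    refine le_trans ?_ (hcard.trans h1)
    have h2 : c2 / (384 * k) ≤ c2 / 4 := by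
      apply div_le_div_of_nonneg_left hc2.le (by norm_num)
      linarith
    calc c2 / (384 * k) * x ≤ c2 / 4 * x := by gcongr
      _ = c2 * x / 4 := by ring
  · -- `m ≥ 1`
    have hmax : max m 1 = m := max_eq_left hm0
    set σ : ℝ := lam / 4 * ℓ / (2 * k) with hσdef
    have hσ8 : σ = lam * ℓ / (8 * k) := by rw [hσdef]; field_simp; ring
    have hσ2 : 8 ≤ σ := by
      rw [hσ8, le_div_iff₀ (by positivity)]; linarith
    have hσle : σ ≤ lam * ℓ / 8 := by
      rw [hσ8]
      apply div_le_div_of_nonneg_left (by positivity) (by norm_num)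
      linarith
    set s0 := ⌊σ⌋₊ with hs0
    have hs0' : (s0 : ℝ) ≤ σ := Nat.floor_le (by linarith)
    have hs0'' : σ / 2 ≤ s0 := by
      have := Nat.lt_floor_add_one σ
      rw [← hs0] at this
      linarith
    set L := ⌊3 * lam * ℓ⌋₊ with hL
    set T := (Icc 1 x).filter (fun n =>
        #((Ioc n (n + ⌊lam * Real.log n⌋₊)).filter Nat.Prime) = m) with hT
    have hdc : #G' * s0 ≤ #T * (L + 1) := by
      apply Finset.card_mul_le_card_mul (fun n n' => n ≤ n' ∧ n' ≤ n + L)
      · intro n hn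
        obtain ⟨h1, h2, h3, H, hH, h4, h5⟩ := hGn n hn
        have h1' : (1 : ℝ) ≤ n := by exact_mod_cast h1
        rw [hmax] at h4
        obtain ⟨h', hh', hcnt⟩ := exists_kth m hm0 _ _ rfl h4
        obtain ⟨hF3, hF4, hF5⟩ := hF1 H hH
        have hh'H : h' ∈ H := (Finset.mem_filter.1 hh').1
        obtain ⟨_, hlo, hhi⟩ := hF4 h' hh'H
        have hs0h : s0 ≤ h' := by
          have : (s0 : ℝ) ≤ h' := by linarith
          exact_mod_cast this
        have hsub : (Ico (h' - s0) h').image (fun t => n + t) ⊆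
            Finset.bipartiteAbove (fun n n' => n ≤ n' ∧ n' ≤ n + L) T n := by
          intro n' hn'
          obtain ⟨t, ht, rfl⟩ := Finset.mem_image.1 hn'
          rw [Finset.mem_Ico] at ht
          have ht1 : (h' : ℝ) - σ ≤ t := by
            have : ((h' - s0 : ℕ) : ℝ) ≤ t := by exact_mod_cast ht.1
            rw [Nat.cast_sub hs0h] at this
            linarith
          have ht2 : (t : ℝ) < h' := by exact_mod_cast ht.2
          have hnx : (((n + t : ℕ)) : ℝ) ≤ x := by
            push_cast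
            have : (t : ℝ) ≤ lam * ℓ + lam / 4 * ℓ := by linarith
            rw [hexpℓ] at hexp'
            nlinarith
          have hnt0 : (0 : ℝ) < ((n + t : ℕ) : ℝ) := by push_cast; positivity
          have hlogup : Real.log ((n + t : ℕ) : ℝ) ≤ ℓ + 1 := by
            have := Real.log_le_log hnt0 hnx
            linarith
          have hloglo : ℓ - Real.log (2 / c2) ≤ Real.log ((n + t : ℕ) : ℝ) := by
            refine h3.trans (Real.log_le_log (by linarith) ?_)
            push_cast; linarith [Nat.cast_nonneg (α := ℝ) t]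
          have hlog0 : 0 ≤ Real.log ((n + t : ℕ) : ℝ) := by
            apply Real.log_nonneg
            push_cast; linarith [Nat.cast_nonneg (α := ℝ) t]
          rw [Finset.mem_bipartiteAbove, hT, Finset.mem_filter, Finset.mem_Icc]
          refine ⟨⟨⟨by omega, by exact_mod_cast hnx⟩, ?_⟩, by omega, ?_⟩
          · -- the count
            rw [← hcnt]
            symm
            apply Finset.card_bij (fun s _ => n + s)
            · intro s hs
              rw [Finset.mem_filter, Finset.mem_filter] at hs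
              obtain ⟨⟨hsH, hsp⟩, hsh⟩ := hs
              rw [Finset.mem_filter, Finset.mem_Ioc]
              refine ⟨⟨by omega, ?_⟩, hsp⟩
              have hs1 := (hF4 s hsH).2.2
              have hfl := Nat.lt_floor_add_one (lam * Real.log ((n + t : ℕ) : ℝ))
              have hlo2 : lam * (ℓ - Real.log (2 / c2)) ≤ lam * Real.log ((n + t : ℕ) : ℝ) := by
                gcongr
              have : (s : ℝ) ≤ t + ⌊lam * Real.log ((n + t : ℕ) : ℝ)⌋₊ := by
                nlinarith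
              have h10 : s ≤ t + ⌊lam * Real.log ((n + t : ℕ) : ℝ)⌋₊ := by exact_mod_cast this
              omega
            · intro a _ b _ hab
              exact Nat.add_left_cancel hab
            · intro q hq
              rw [Finset.mem_filter, Finset.mem_Ioc] at hq
              obtain ⟨⟨hq1, hq2⟩, hqp⟩ := hq
              have hex : ∃ s, q = n + s ∧ t < s := ⟨q - n, by omega, by omega⟩
              obtain ⟨s, rfl, hts⟩ := hex
              have hs2 : s ≤ t + ⌊lam * Real.log ((n + t : ℕ) : ℝ)⌋₊ := by omega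
              have hs3 : (s : ℝ) ≤ t + lam * Real.log ((n + t : ℕ) : ℝ) := by
                have : (s : ℝ) ≤ t + ⌊lam * Real.log ((n + t : ℕ) : ℝ)⌋₊ := by exact_mod_cast hs2
                have := Nat.floor_le (a := lam * Real.log ((n + t : ℕ) : ℝ)) (by positivity)
                linarith
              have hs4 : (s : ℝ) ≤ 3 * lam * ℓ := by
                have : lam * Real.log ((n + t : ℕ) : ℝ) ≤ lam * (ℓ + 1) := by gcongr
                nlinarith
              have hsH : s ∈ H := h5 s (Finset.mem_Icc.2 ⟨by omega, Nat.le_floor hs4⟩) hqp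
              refine ⟨s, ?_, rfl⟩
              rw [Finset.mem_filter, Finset.mem_filter]
              refine ⟨⟨hsH, hqp⟩, ?_⟩
              by_contra hlt
              push Not at hlt
              have h11 := hF5 s hsH h' hh'H hlt
              have h12 : (t : ℝ) < s := by exact_mod_cast hts
              linarith
          · have : (t : ℝ) ≤ 3 * lam * ℓ := by nlinarith
            have := Nat.le_floor this
            omega
        calc s0 = #((Ico (h' - s0) h').image (fun t => n + t)) := by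
              rw [Finset.card_image_of_injective _ (fun a b hab => Nat.add_left_cancel hab),
                Nat.card_Ico]
              omega
          _ ≤ _ := Finset.card_le_card hsub
      · intro n' _
        have hsub : Finset.bipartiteBelow (fun n n' => n ≤ n' ∧ n' ≤ n + L) G' n' ⊆
            Icc (n' - L) n' := by
          intro n hn
          rw [Finset.mem_bipartiteBelow] at hn
          rw [Finset.mem_Icc]
          omega
        refine (Finset.card_le_card hsub).trans ?_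
        rw [Nat.card_Icc]
        omega
    have hdc' : (#G' : ℝ) * s0 ≤ #T * ((L : ℝ) + 1) := by exact_mod_cast hdc
    have hL1 : (L : ℝ) + 1 ≤ 4 * lam * ℓ := by
      have := Nat.floor_le (a := 3 * lam * ℓ) (by positivity)
      rw [← hL] at this
      nlinarith
    have h1 : c2 * x / 4 * (σ / 2) ≤ #T * (4 * lam * ℓ) := by
      calc c2 * x / 4 * (σ / 2) ≤ (#G' : ℝ) * s0 := by
            apply mul_le_mul hcard hs0'' (by positivity) (by positivity)
        _ ≤ #T * ((L : ℝ) + 1) := hdc'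
        _ ≤ #T * (4 * lam * ℓ) := by gcongr
    have h2 : c2 * x / 4 * (σ / 2) = (c2 / (256 * k) * x) * (4 * lam * ℓ) := by
      rw [hσ8]; field_simp; ring
    rw [h2] at h1
    have h3 := le_of_mul_le_mul_right h1 (by positivity)
    refine le_trans ?_ h3
    gcongr
    norm_num

end Pool.Agent.H81.AS
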