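import Pool.Agent.H81.AS.Defs

/-!
JOB AS-FIB. Sums over `E ⊆ A ×ˢ Q` as products over positions or over primes. Pure finite combinatorics.

PROOF IDEA. `E ↦ (h ↦ fib E h)` is a bijection from `(A ×ˢ Q).powerset` to `A.pi (fun _ => Q.powerset)`
(inverse: `F ↦ A.attach.biUnion (fun h => (F h.1 h.2).image (fun p => (h.1, p)))`), then `Finset.prod_sum`.
Alternatively induction on `A` with `Finset.insert` and `(insert a A) ×ˢ Q = {a} ×ˢ Q ∪ A ×ˢ Q` (disjoint;
`Finset.powerset` of a disjoint union = product of the powersets). Same for `col` (swap the coordinates).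
-/

set_option autoImplicit false

open Finset Filter Topology

namespace Pool.Agent.H81.AS

open Pool.Agent.H16

theorem mem_fib {E : Finset (ℕ × ℕ)} {h p : ℕ} : p ∈ fib E h ↔ (h, p) ∈ E := by
  simp only [fib, Finset.mem_image, Finset.mem_filter]
  constructor
  · rintro ⟨⟨a, b⟩, ⟨h1, h2⟩, h3⟩
    simp only at h2 h3
    subst h2; subst h3; exact h1
  · intro h1
    exact ⟨(h, p), ⟨h1, rfl⟩, rfl⟩

theorem mem_col {E : Finset (ℕ × ℕ)} {h p : ℕ} : h ∈ col E p ↔ (h, p) ∈ E := by
  simp only [col, Finset.mem_image, Finset.mem_filter]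
  constructor
  · rintro ⟨⟨a, b⟩, ⟨h1, h2⟩, h3⟩
    simp only at h2 h3
    subst h2; subst h3; exact h1
  · intro h1
    exact ⟨(h, p), ⟨h1, rfl⟩, rfl⟩

/-- sums over the powerset of a disjoint union -/
theorem fib_sum_powerset_union {α M : Type*} [DecidableEq α] [AddCommMonoid M] {S T : Finset α}
    (hST : Disjoint S T) (F : Finset α → M) :
    ∑ E ∈ (S ∪ T).powerset, F E = ∑ E₁ ∈ S.powerset, ∑ E₂ ∈ T.powerset, F (E₁ ∪ E₂) := by
  rw [← Finset.sum_product' (f := fun E₁ E₂ => F (E₁ ∪ E₂))]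
  refine Finset.sum_nbij' (fun E => (E ∩ S, E ∩ T)) (fun x => x.1 ∪ x.2) ?_ ?_ ?_ ?_ ?_
  · intro E _
    simp only [Finset.mem_product, Finset.mem_powerset]
    exact ⟨Finset.inter_subset_right, Finset.inter_subset_right⟩
  · intro x hx
    simp only [Finset.mem_product, Finset.mem_powerset] at hx ⊢
    exact Finset.union_subset_union hx.1 hx.2
  · intro E hE
    simp only [Finset.mem_powerset] at hE
    simp only
    rw [← Finset.inter_union_distrib_left]
    exact Finset.inter_eq_left.2 hE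
  · rintro ⟨x, y⟩ hx
    simp only [Finset.mem_product, Finset.mem_powerset] at hx
    have h1 : (x ∪ y) ∩ S = x := by
      ext a
      simp only [Finset.mem_inter, Finset.mem_union]
      constructor
      · rintro ⟨h1 | h1, h2⟩
        · exact h1
        · exact absurd (hx.2 h1) (Finset.disjoint_left.1 hST h2)
      · intro h1; exact ⟨Or.inl h1, hx.1 h1⟩
    have h2 : (x ∪ y) ∩ T = y := by
      ext a
      simp only [Finset.mem_inter, Finset.mem_union]
      constructor
      · rintro ⟨h1 | h1, h2⟩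
        · exact absurd h2 (Finset.disjoint_left.1 hST (hx.1 h1))
        · exact h1
      · intro h1; exact ⟨Or.inr h1, hx.2 h1⟩
    simp only [h1, h2]
  · intro E hE
    simp only [Finset.mem_powerset] at hE
    simp only
    rw [← Finset.inter_union_distrib_left, Finset.inter_eq_left.2 hE]

/-- sum over `E`, product over the positions -/
theorem sum_fib (A Q : Finset ℕ) (G : ℕ → Finset ℕ → ℝ) :
    ∑ E ∈ (A ×ˢ Q).powerset, ∏ h ∈ A, G h (fib E h) = ∏ h ∈ A, ∑ D ∈ Q.powerset, G h D := by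
  classical
  induction A using Finset.induction_on with
  | empty => simp
  | insert a A ha ih =>
    have h1 : (insert a A) ×ˢ Q = ({a} ×ˢ Q) ∪ (A ×ˢ Q) := by
      rw [Finset.insert_eq, Finset.union_product]
    have h2 : Disjoint (({a} : Finset ℕ) ×ˢ Q) (A ×ˢ Q) := by
      rw [Finset.disjoint_left]
      rintro ⟨x, y⟩ hx hy
      simp only [Finset.mem_product, Finset.mem_singleton] at hx hy
      exact ha (hx.1 ▸ hy.1)
    rw [h1, fib_sum_powerset_union h2]
    have h3 : ∀ E₁ ∈ (({a} : Finset ℕ) ×ˢ Q).powerset, ∀ E₂ ∈ (A ×ˢ Q).powerset,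
        ∏ h ∈ insert a A, G h (fib (E₁ ∪ E₂) h) = G a (fib E₁ a) * ∏ h ∈ A, G h (fib E₂ h) := by
      intro E₁ hE₁ E₂ hE₂
      simp only [Finset.mem_powerset] at hE₁ hE₂
      rw [Finset.prod_insert ha]
      congr 1
      · congr 1
        ext p
        simp only [mem_fib, Finset.mem_union]
        constructor
        · rintro (h4 | h4)
          · exact h4
          · exact absurd (Finset.mem_product.1 (hE₂ h4)).1 ha
        · exact Or.inl
      · refine Finset.prod_congr rfl fun h hh => ?_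
        congr 1
        ext p
        simp only [mem_fib, Finset.mem_union]
        constructor
        · rintro (h4 | h4)
          · have h5 := (Finset.mem_product.1 (hE₁ h4)).1
            simp only [Finset.mem_singleton] at h5
            exact absurd (h5 ▸ hh) ha
          · exact h4
        · exact Or.inr
    rw [Finset.sum_congr rfl fun E₁ hE₁ => Finset.sum_congr rfl fun E₂ hE₂ => h3 E₁ hE₁ E₂ hE₂]
    simp_rw [← Finset.mul_sum, ih]
    rw [← Finset.sum_mul, Finset.prod_insert ha]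
    congr 1
    refine Finset.sum_nbij' (fun E => fib E a) (fun D => {a} ×ˢ D) ?_ ?_ ?_ ?_ ?_
    · intro E hE
      simp only [Finset.mem_powerset] at hE ⊢
      intro p hp
      exact (Finset.mem_product.1 (hE (mem_fib.1 hp))).2
    · intro D hD
      simp only [Finset.mem_powerset] at hD ⊢
      exact Finset.product_subset_product_right hD
    · intro E hE
      simp only [Finset.mem_powerset] at hE
      ext ⟨x, y⟩
      simp only [Finset.mem_product, Finset.mem_singleton, mem_fib]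
      constructor
      · rintro ⟨rfl, h4⟩; exact h4
      · intro h4
        have h5 := (Finset.mem_product.1 (hE h4)).1
        simp only [Finset.mem_singleton] at h5
        exact ⟨h5, h5 ▸ h4⟩
    · intro D _
      ext p
      simp [mem_fib]
    · intro E _
      rfl

/-- sum over `E`, product over the primes -/
theorem fib_sum_col1 (A Q : Finset ℕ) (G : ℕ → Finset ℕ → ℝ) :
    ∑ E ∈ (A ×ˢ Q).powerset, ∏ p ∈ Q, G p (col E p) = ∏ p ∈ Q, ∑ B ∈ A.powerset, G p B := by
  classical
  rw [← sum_fib Q A G]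
  refine Finset.sum_nbij' (fun E => E.image Prod.swap) (fun E => E.image Prod.swap) ?_ ?_ ?_ ?_ ?_
  · intro E hE
    simp only [Finset.mem_powerset] at hE ⊢
    intro x hx
    obtain ⟨y, hy, rfl⟩ := Finset.mem_image.1 hx
    have := Finset.mem_product.1 (hE hy)
    exact Finset.mem_product.2 ⟨this.2, this.1⟩
  · intro E hE
    simp only [Finset.mem_powerset] at hE ⊢
    intro x hx
    obtain ⟨y, hy, rfl⟩ := Finset.mem_image.1 hx
    have := Finset.mem_product.1 (hE hy)
    exact Finset.mem_product.2 ⟨this.2, this.1⟩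
  · intro E _
    simp only [Finset.image_image]
    ext x; simp
  · intro E _
    simp only [Finset.image_image]
    ext x; simp
  · intro E _
    refine Finset.prod_congr rfl fun p _ => ?_
    congr 1
    ext h
    simp only [mem_fib, mem_col, Finset.mem_image, Prod.exists, Prod.swap_prod_mk, Prod.mk.injEq]
    constructor
    · intro h1; exact ⟨h, p, h1, rfl, rfl⟩
    · rintro ⟨a, b, h1, rfl, rfl⟩; exact h1

/-- sum over pairs `E, E'`, product over the primes -/
theorem sum_col2 (A Q : Finset ℕ) (G : ℕ → Finset ℕ → Finset ℕ → ℝ) :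
    ∑ E ∈ (A ×ˢ Q).powerset, ∑ E' ∈ (A ×ˢ Q).powerset, ∏ p ∈ Q, G p (col E p) (col E' p) =
      ∏ p ∈ Q, ∑ B ∈ A.powerset, ∑ B' ∈ A.powerset, G p B B' := by
  classical
  have h1 : ∀ E ∈ (A ×ˢ Q).powerset,
      ∑ E' ∈ (A ×ˢ Q).powerset, ∏ p ∈ Q, G p (col E p) (col E' p) =
      ∏ p ∈ Q, ∑ B' ∈ A.powerset, G p (col E p) B' := fun E _ =>
    fib_sum_col1 A Q (fun p B' => G p (col E p) B')
  rw [Finset.sum_congr rfl h1]
  exact fib_sum_col1 A Q (fun p B => ∑ B' ∈ A.powerset, G p B B')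

/-- splitting the positions into two disjoint parts -/
theorem sum_split (A B Q : Finset ℕ) (hAB : Disjoint A B) (F : Finset (ℕ × ℕ) → ℝ) :
    ∑ E ∈ ((A ∪ B) ×ˢ Q).powerset, F E =
      ∑ E₁ ∈ (A ×ˢ Q).powerset, ∑ E₂ ∈ (B ×ˢ Q).powerset, F (E₁ ∪ E₂) := by
  classical
  rw [Finset.union_product]
  refine fib_sum_powerset_union ?_ F
  rw [Finset.disjoint_left]
  rintro ⟨x, y⟩ hx hy
  exact Finset.disjoint_left.1 hAB (Finset.mem_product.1 hx).1 (Finset.mem_product.1 hy).1

/-- products over `E` through the fibres -/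
theorem prod_fib {M : Type*} [CommMonoid M] {A Q : Finset ℕ} {E : Finset (ℕ × ℕ)} (hE : E ⊆ A ×ˢ Q)
    (f : ℕ → ℕ → M) : ∏ x ∈ E, f x.1 x.2 = ∏ h ∈ A, ∏ p ∈ fib E h, f h p := by
  classical
  rw [← Finset.prod_fiberwise_of_maps_to (s := E) (t := A) (g := Prod.fst)
    (fun x hx => (Finset.mem_product.1 (hE hx)).1)]
  refine Finset.prod_congr rfl fun h _ => ?_
  refine Finset.prod_nbij' (fun x => x.2) (fun p => (h, p)) ?_ ?_ ?_ ?_ ?_
  · rintro ⟨a, b⟩ hx
    have h1 := Finset.mem_filter.1 hx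
    simp only at h1
    exact mem_fib.2 (h1.2 ▸ h1.1)
  · intro p hp
    exact Finset.mem_filter.2 ⟨mem_fib.1 hp, rfl⟩
  · rintro ⟨a, b⟩ hx
    have h1 := Finset.mem_filter.1 hx
    simp only at h1
    simp only [h1.2]
  · intro p _; rfl
  · rintro ⟨a, b⟩ hx
    have h1 := Finset.mem_filter.1 hx
    simp only at h1
    simp only [h1.2]

/-- products over `E` through the primes -/
theorem prod_col {M : Type*} [CommMonoid M] {E : Finset (ℕ × ℕ)} {R : Finset ℕ} (hR : prs E ⊆ R)
    (f : ℕ → ℕ → M) : ∏ x ∈ E, f x.1 x.2 = ∏ p ∈ R, ∏ h ∈ col E p, f h p := by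
  classical
  rw [← Finset.prod_fiberwise_of_maps_to (s := E) (t := R) (g := Prod.snd)
    (fun x hx => hR (Finset.mem_image_of_mem _ hx))]
  refine Finset.prod_congr rfl fun p _ => ?_
  refine Finset.prod_nbij' (fun x => x.1) (fun h => (h, p)) ?_ ?_ ?_ ?_ ?_
  · rintro ⟨a, b⟩ hx
    have h1 := Finset.mem_filter.1 hx
    simp only at h1
    exact mem_col.2 (h1.2 ▸ h1.1)
  · intro p hp
    exact Finset.mem_filter.2 ⟨mem_col.1 hp, rfl⟩
  · rintro ⟨a, b⟩ hx
    have h1 := Finset.mem_filter.1 hx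
    simp only at h1
    simp only [h1.2]
  · intro p _; rfl
  · rintro ⟨a, b⟩ hx
    have h1 := Finset.mem_filter.1 hx
    simp only at h1
    simp only [h1.2]

theorem fib_subset {A Q : Finset ℕ} {E : Finset (ℕ × ℕ)} (hE : E ⊆ A ×ˢ Q) (h : ℕ) : fib E h ⊆ Q :=
  fun _ hp => (Finset.mem_product.1 (hE (mem_fib.1 hp))).2

theorem col_subset {A Q : Finset ℕ} {E : Finset (ℕ × ℕ)} (hE : E ⊆ A ×ˢ Q) (p : ℕ) : col E p ⊆ A :=
  fun _ hp => (Finset.mem_product.1 (hE (mem_col.1 hp))).1

theorem fib_nonempty {E : Finset (ℕ × ℕ)} {h : ℕ} : (fib E h).Nonempty ↔ h ∈ pos E := by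
  constructor
  · rintro ⟨p, hp⟩
    exact Finset.mem_image.2 ⟨(h, p), mem_fib.1 hp, rfl⟩
  · intro h1
    obtain ⟨⟨a, b⟩, h2, h3⟩ := Finset.mem_image.1 h1
    simp only at h3
    subst h3
    exact ⟨b, mem_fib.2 h2⟩

/-- `E` is determined by its columns -/
theorem eq_of_col {E E' : Finset (ℕ × ℕ)} {R : Finset ℕ} (hE : prs E ⊆ R) (hE' : prs E' ⊆ R)
    (h : ∀ p ∈ R, col E p = col E' p) : E = E' := by
  ext ⟨a, p⟩
  constructor
  · intro h1
    have h2 : p ∈ R := hE (Finset.mem_image.2 ⟨(a, p), h1, rfl⟩)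
    have h3 := mem_col.2 h1
    rw [h p h2] at h3
    exact mem_col.1 h3
  · intro h1
    have h2 : p ∈ R := hE' (Finset.mem_image.2 ⟨(a, p), h1, rfl⟩)
    have h3 := mem_col.2 h1
    rw [← h p h2] at h3
    exact mem_col.1 h3

end Pool.Agent.H81.AS
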