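import Pool.Agent.H81.AS.Env2
import Pool.Agent.H16.MT7

/-!
The inner (Maynard-Tao) weights: `g = gst n₀ (η₁ ℓ)` (dyadic step function of
H16/MT7.lean: `gst n ρ r = (∑_{i<n} 2^{-i} [r ≤ e^{2^i ρ}]) / (∑_{i<n} 2^{-i})`).

PROOF of `inner_exists`. `Sfi Q Y = ∑_{pd D ≤ Y} pf D`. For `Y = e^{υ' ℓ}`, `υ' ≥ δ`: `Sfi_ge` (from `S1d_lower` and
`Vp_ge`) gives `Sfi ≥ (c/4) υ'/δ`, `Sfi_le_prod` and `QQ_prod` give `Sfi ≤ C υ'/δ`. With `A1 = ∑ g pf`, `A2 = ∑ g² pf`,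
`A3 = ∑ g² pf log`, `ρ = η₁ ℓ`, `L = δ ℓ` (`in_bounds`, summing over the scales): `A1 ≥ c n ρ/(2L)`, `c ρ/L ≤ A2 ≤ 8 C ρ/L`,
`A3 ≤ 4 C n ρ²/L`. `in_choice` chooses `n` and `k = ⌊c 2^n/(2 C n)⌋`, with `η₁ = 2^{-n}/512`.
-/

set_option autoImplicit false

open Finset Filter Topology

namespace Pool.Agent.H81.AS

open Pool.Agent.H16

/-- one-dimensional sum with the weights `pf` -/
noncomputable def Sfi (Q : Finset ℕ) (Y : ℝ) : ℝ :=
  ∑ D ∈ Q.powerset, (if (pd D : ℝ) ≤ Y then (1 : ℝ) else 0) * pf D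

lemma pf_nonneg_of_prime {Q : Finset ℕ} (hQ : ∀ p ∈ Q, p.Prime) {D : Finset ℕ} (hD : D ∈ Q.powerset) :
    0 ≤ pf D := by
  unfold pf
  apply Finset.prod_nonneg
  intro p hp
  have hp' := (hQ p (Finset.mem_powerset.mp hD hp)).two_le
  have : (2 : ℝ) ≤ p := by exact_mod_cast hp'
  have : (0 : ℝ) < (p : ℝ) - 1 := by linarith
  positivity

lemma Sfi_nonneg {Q : Finset ℕ} (hQ : ∀ p ∈ Q, p.Prime) (Y : ℝ) : 0 ≤ Sfi Q Y := by
  unfold Sfi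
  apply Finset.sum_nonneg
  intro D hD
  have := pf_nonneg_of_prime hQ hD
  split_ifs <;> simp [this]

section

variable {n : ℕ} {ρ : ℝ} {Q : Finset ℕ}

lemma inA1_eq : ∑ D ∈ Q.powerset, gst n ρ (pd D) * pf D =
    (∑ i ∈ range n, (1 / 2 : ℝ) ^ i * Sfi Q (gY ρ i)) / gG n := by
  unfold Sfi
  simp_rw [Finset.mul_sum]
  rw [Finset.sum_comm, Finset.sum_div]
  apply Finset.sum_congr rfl
  intro D _
  unfold gst
  rw [div_mul_eq_mul_div, Finset.sum_mul]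
  congr 1
  apply Finset.sum_congr rfl
  intro i _
  ring

lemma inA2_upper (hQ : ∀ p ∈ Q, p.Prime) (hn : 1 ≤ n) (hρ : 0 ≤ ρ) :
    ∑ D ∈ Q.powerset, gst n ρ (pd D) ^ 2 * pf D ≤ 4 * ∑ i ∈ range n, (1 / 4 : ℝ) ^ i * Sfi Q (gY ρ i) := by
  have h1 : ∑ D ∈ Q.powerset, gst n ρ (pd D) ^ 2 * pf D ≤
      ∑ D ∈ Q.powerset, (4 * ∑ i ∈ range n, (1 / 4 : ℝ) ^ i *
        (if (pd D : ℝ) ≤ gY ρ i then 1 else 0)) * pf D := by
    apply Finset.sum_le_sum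
    intro D hD
    exact mul_le_mul_of_nonneg_right (gst_sq hn hρ _) (pf_nonneg_of_prime hQ hD)
  refine h1.trans (le_of_eq ?_)
  unfold Sfi
  simp_rw [Finset.mul_sum]
  rw [Finset.sum_comm]
  apply Finset.sum_congr rfl
  intro D _
  rw [Finset.sum_mul]
  apply Finset.sum_congr rfl
  intro i _
  ring

lemma inA2_lower (hQ : ∀ p ∈ Q, p.Prime) (hn : 1 ≤ n) (hρ : 0 ≤ ρ) :
    Sfi Q (gY ρ 0) ≤ ∑ D ∈ Q.powerset, gst n ρ (pd D) ^ 2 * pf D := by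
  unfold Sfi
  apply Finset.sum_le_sum
  intro D hD
  apply mul_le_mul_of_nonneg_right _ (pf_nonneg_of_prime hQ hD)
  split_ifs with h
  · rw [gst_eq_one hn hρ h]; norm_num
  · positivity

lemma inA3_upper (hQ : ∀ p ∈ Q, p.Prime) (hn : 1 ≤ n) (hρ : 0 ≤ ρ) :
    ∑ D ∈ Q.powerset, gst n ρ (pd D) ^ 2 * pf D * Real.log (pd D) ≤
      4 * ∑ i ∈ range n, (1 / 4 : ℝ) ^ i * (2 ^ i * ρ) * Sfi Q (gY ρ i) := by
  have hpos : ∀ D ∈ Q.powerset, (1 : ℝ) ≤ (pd D : ℝ) := by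
    intro D hD
    have : 0 < pd D := Finset.prod_pos (fun p hp => (hQ p (Finset.mem_powerset.mp hD hp)).pos)
    exact_mod_cast this
  have h1 : ∑ D ∈ Q.powerset, gst n ρ (pd D) ^ 2 * pf D * Real.log (pd D) ≤
      ∑ D ∈ Q.powerset, (4 * ∑ i ∈ range n, (1 / 4 : ℝ) ^ i * (2 ^ i * ρ) *
        (if (pd D : ℝ) ≤ gY ρ i then 1 else 0)) * pf D := by
    apply Finset.sum_le_sum
    intro D hD
    have h2 := gst_sq hn hρ (pd D)
    have hlog : 0 ≤ Real.log (pd D : ℝ) := Real.log_nonneg (hpos D hD)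
    have hpf := pf_nonneg_of_prime hQ hD
    have h3 : gst n ρ (pd D) ^ 2 * Real.log (pd D) ≤ 4 * ∑ i ∈ range n, (1 / 4 : ℝ) ^ i * (2 ^ i * ρ) *
        (if (pd D : ℝ) ≤ gY ρ i then 1 else 0) := by
      refine (mul_le_mul_of_nonneg_right h2 hlog).trans ?_
      rw [mul_assoc, Finset.sum_mul]
      apply mul_le_mul_of_nonneg_left _ (by norm_num)
      apply Finset.sum_le_sum
      intro i _
      split_ifs with h3
      · rw [mul_one, mul_one]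
        apply mul_le_mul_of_nonneg_left _ (by positivity)
        have h4 : (0 : ℝ) < (pd D : ℝ) := by linarith [hpos D hD]
        rw [← log_gY ρ i]
        exact Real.log_le_log h4 h3
      · simp
    calc gst n ρ (pd D) ^ 2 * pf D * Real.log (pd D) = (gst n ρ (pd D) ^ 2 * Real.log (pd D)) * pf D := by ring
      _ ≤ _ := mul_le_mul_of_nonneg_right h3 hpf
  refine h1.trans (le_of_eq ?_)
  unfold Sfi
  simp_rw [Finset.mul_sum]
  rw [Finset.sum_comm]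
  apply Finset.sum_congr rfl
  intro D _
  rw [Finset.sum_mul]
  apply Finset.sum_congr rfl
  intro i _
  ring

end

/-- all bounds from bounds for the one-dimensional sums -/
lemma in_bounds {n : ℕ} {ρ c C L : ℝ} {Q : Finset ℕ} (hQ : ∀ p ∈ Q, p.Prime) (hn : 1 ≤ n) (hρ : 0 ≤ ρ)
    (hc : 0 ≤ c) (hC : 0 ≤ C) (hL : 0 < L)
    (HL : ∀ i < n, c * (2 ^ i * ρ) / L ≤ Sfi Q (gY ρ i))
    (HU : ∀ i < n, Sfi Q (gY ρ i) ≤ C * (2 ^ i * ρ) / L) :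
    c * n * ρ / (2 * L) ≤ ∑ D ∈ Q.powerset, gst n ρ (pd D) * pf D ∧
    c * ρ / L ≤ ∑ D ∈ Q.powerset, gst n ρ (pd D) ^ 2 * pf D ∧
    ∑ D ∈ Q.powerset, gst n ρ (pd D) ^ 2 * pf D ≤ 8 * C * ρ / L ∧
    ∑ D ∈ Q.powerset, gst n ρ (pd D) ^ 2 * pf D * Real.log (pd D) ≤ 4 * C * n * ρ ^ 2 / L := by
  have hG1 := gG_ge n hn
  have hG2 := gG_le n
  refine ⟨?_, ?_, ?_, ?_⟩
  · rw [inA1_eq]
    have h1 : ∑ i ∈ range n, (1 / 2 : ℝ) ^ i * (c * (2 ^ i * ρ) / L) ≤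
        ∑ i ∈ range n, (1 / 2 : ℝ) ^ i * Sfi Q (gY ρ i) := by
      apply Finset.sum_le_sum
      intro i hi
      exact mul_le_mul_of_nonneg_left (HL i (Finset.mem_range.mp hi)) (by positivity)
    have h2 : ∑ i ∈ range n, (1 / 2 : ℝ) ^ i * (c * (2 ^ i * ρ) / L) = n * (c * ρ / L) := by
      rw [← Finset.card_range n, ← nsmul_eq_mul, ← Finset.sum_const, Finset.card_range]
      apply Finset.sum_congr rfl
      intro i _
      have : (1 / 2 : ℝ) ^ i * 2 ^ i = 1 := by rw [← mul_pow]; norm_num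
      calc (1 / 2 : ℝ) ^ i * (c * (2 ^ i * ρ) / L) = ((1 / 2 : ℝ) ^ i * 2 ^ i) * (c * ρ / L) := by ring
        _ = _ := by rw [this, one_mul]
    rw [h2] at h1
    calc c * n * ρ / (2 * L) = n * (c * ρ / L) / 2 := by field_simp
      _ ≤ n * (c * ρ / L) / gG n := by
          apply div_le_div_of_nonneg_left _ (by linarith) hG2
          positivity
      _ ≤ _ := div_le_div_of_nonneg_right h1 (by linarith)
  · have h0 := HL 0 (by omega)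
    rw [pow_zero, one_mul] at h0
    exact h0.trans (inA2_lower hQ hn hρ)
  · refine (inA2_upper hQ hn hρ).trans ?_
    have h3 : ∑ i ∈ range n, (1 / 4 : ℝ) ^ i * Sfi Q (gY ρ i) ≤
        ∑ i ∈ range n, (1 / 4 : ℝ) ^ i * (C * (2 ^ i * ρ) / L) := by
      apply Finset.sum_le_sum
      intro i hi
      exact mul_le_mul_of_nonneg_left (HU i (Finset.mem_range.mp hi)) (by positivity)
    have h4 : ∑ i ∈ range n, (1 / 4 : ℝ) ^ i * (C * (2 ^ i * ρ) / L) = gG n * (C * ρ / L) := by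
      unfold gG
      rw [Finset.sum_mul]
      apply Finset.sum_congr rfl
      intro i _
      have : (1 / 4 : ℝ) ^ i * 2 ^ i = (1 / 2 : ℝ) ^ i := by rw [← mul_pow]; norm_num
      rw [← this]; ring
    rw [h4] at h3
    have h5 : gG n * (C * ρ / L) ≤ 2 * (C * ρ / L) :=
      mul_le_mul_of_nonneg_right (gG_le n) (by positivity)
    calc 4 * ∑ i ∈ range n, (1 / 4 : ℝ) ^ i * Sfi Q (gY ρ i) ≤ 4 * (2 * (C * ρ / L)) := by linarith
      _ = _ := by ring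
  · refine (inA3_upper hQ hn hρ).trans ?_
    have h3 : ∑ i ∈ range n, (1 / 4 : ℝ) ^ i * (2 ^ i * ρ) * Sfi Q (gY ρ i) ≤
        ∑ i ∈ range n, (C * ρ ^ 2 / L) := by
      apply Finset.sum_le_sum
      intro i hi
      have h4 := HU i (Finset.mem_range.mp hi)
      calc (1 / 4 : ℝ) ^ i * (2 ^ i * ρ) * Sfi Q (gY ρ i) ≤
          (1 / 4 : ℝ) ^ i * (2 ^ i * ρ) * (C * (2 ^ i * ρ) / L) :=
            mul_le_mul_of_nonneg_left h4 (by positivity)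
        _ = ((1 / 4 : ℝ) ^ i * (2 ^ i * 2 ^ i)) * (C * ρ ^ 2 / L) := by ring
        _ = C * ρ ^ 2 / L := by
            have : (1 / 4 : ℝ) ^ i * (2 ^ i * 2 ^ i) = 1 := by
              rw [← mul_pow, ← mul_pow]; norm_num
            rw [this, one_mul]
    rw [Finset.sum_const, Finset.card_range, nsmul_eq_mul] at h3
    calc 4 * ∑ i ∈ range n, (1 / 4 : ℝ) ^ i * (2 ^ i * ρ) * Sfi Q (gY ρ i) ≤
        4 * (n * (C * ρ ^ 2 / L)) := by linarith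
      _ = _ := by ring

lemma QQ_prime {δ υ ℓ : ℝ} {e : ℕ} : ∀ p ∈ QQ δ υ ℓ e, p.Prime := by
  intro p hp
  unfold QQ at hp
  exact (mem_primesIoc.mp (Finset.mem_of_mem_erase hp)).2.2

/-- upper bound by the Euler product -/
lemma Sfi_le_prod (δ υ υ' ℓ : ℝ) (e : ℕ) :
    Sfi (QQ δ υ ℓ e) (Real.exp (υ' * ℓ)) ≤ ∏ p ∈ QQ δ υ' ℓ e, (1 + 1 / ((p : ℝ) - 1)) := by
  classical
  have hprod : ∏ p ∈ QQ δ υ' ℓ e, (1 + 1 / ((p : ℝ) - 1)) = ∑ D ∈ (QQ δ υ' ℓ e).powerset, pf D := by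
    rw [Finset.prod_one_add]
    rfl
  rw [hprod]
  unfold Sfi
  have h1 : ∑ D ∈ (QQ δ υ ℓ e).powerset, (if (pd D : ℝ) ≤ Real.exp (υ' * ℓ) then (1 : ℝ) else 0) * pf D =
      ∑ D ∈ (QQ δ υ ℓ e).powerset.filter (fun D => (pd D : ℝ) ≤ Real.exp (υ' * ℓ)), pf D := by
    rw [Finset.sum_filter]
    apply Finset.sum_congr rfl
    intro D _
    split_ifs <;> simp
  rw [h1]
  apply Finset.sum_le_sum_of_subset_of_nonneg
  · intro D hD
    rw [Finset.mem_filter, Finset.mem_powerset] at hD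
    rw [Finset.mem_powerset]
    intro p hp
    have hpQ := hD.1 hp
    have hpdvd : p ∣ pd D := Finset.dvd_prod_of_mem _ hp
    have hpos : 0 < pd D := Finset.prod_pos (fun q hq => (QQ_prime q (hD.1 hq)).pos)
    have hple : (p : ℝ) ≤ Real.exp (υ' * ℓ) := by
      have : (p : ℝ) ≤ pd D := by exact_mod_cast Nat.le_of_dvd hpos hpdvd
      linarith [hD.2]
    unfold QQ at hpQ ⊢
    rw [Finset.mem_erase, mem_primesIoc] at hpQ ⊢
    exact ⟨hpQ.1, hpQ.2.1, Nat.le_floor hple, hpQ.2.2.2⟩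
  · intro D hD _
    exact pf_nonneg_of_prime QQ_prime hD

/-- lower bound -/
lemma Sfi_ge {δ υ υ' c ℓ : ℝ} {e : ℕ} (hcV : ∀ n : ℕ, 2 ≤ n → c / Real.log n ≤ Vp n) (hc : 0 < c)
    (hυ' : 0 ≤ υ') (hℓ : 0 ≤ ℓ) (hδ : 0 < δ) (hz : 2 ≤ zz δ ℓ) (hzl : Real.log (zz δ ℓ) ≤ δ * ℓ)
    (hy : Real.exp (υ' * ℓ) ≤ zz υ ℓ) :
    (c / 4) * υ' / δ ≤ Sfi (QQ δ υ ℓ e) (Real.exp (υ' * ℓ)) := by
  classical
  have hQE : QQ δ υ ℓ e = PE (zz δ ℓ) (zz υ ℓ) {e} := by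
    ext p
    unfold QQ PE
    rw [Finset.mem_erase, Finset.mem_filter, Finset.mem_singleton]
    tauto
  have hS := S1d_lower (zz δ ℓ) (zz υ ℓ) hz {e} (by simpa using hz) (Real.exp (υ' * ℓ))
    (Real.one_le_exp (by positivity)) hy
  rw [← hQE] at hS
  have hSle : S1d (QQ δ υ ℓ e) (Real.exp (υ' * ℓ)) ≤ Sfi (QQ δ υ ℓ e) (Real.exp (υ' * ℓ)) := by
    rw [S1d_eq]
    unfold Sfi
    apply Finset.sum_le_sum
    intro D hD
    have hpr : ∀ p ∈ D, p.Prime := fun p hp => QQ_prime p (Finset.mem_powerset.mp hD hp)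
    have hle : 1 / ((∏ p ∈ D, p : ℕ) : ℝ) ≤ pf D := by
      unfold pf
      rw [Nat.cast_prod, one_div, ← Finset.prod_inv_distrib]
      apply Finset.prod_le_prod
      · intro p _; positivity
      · intro p hp
        have h2 : (2 : ℝ) ≤ p := by exact_mod_cast (hpr p hp).two_le
        rw [← one_div]
        exact one_div_le_one_div_of_le (by linarith) (by linarith)
    change (if (pd D : ℝ) ≤ Real.exp (υ' * ℓ) then (1 : ℝ) else 0) / ((∏ p ∈ D, p : ℕ) : ℝ) ≤ _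
    split_ifs
    · rw [one_mul]; exact hle
    · simp
  refine le_trans ?_ hSle
  refine le_trans ?_ hS
  rw [Real.log_exp]
  have hlz : 0 < Real.log (zz δ ℓ) := Real.log_pos (by exact_mod_cast hz)
  have hδℓ : 0 < δ * ℓ := lt_of_lt_of_le hlz hzl
  have hℓ' : 0 < ℓ := by
    rcases hℓ.lt_or_eq with h | h
    · exact h
    · rw [← h] at hδℓ; simp at hδℓ
  have h1 : c / (δ * ℓ) ≤ Vp (zz δ ℓ) := by
    refine le_trans ?_ (hcV _ hz)
    exact div_le_div_of_nonneg_left hc.le hlz hzl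
  calc (c / 4) * υ' / δ = υ' * ℓ * (c / (δ * ℓ) / 4) := by field_simp
    _ ≤ υ' * ℓ * (Vp (zz δ ℓ) / 4) := by
        apply mul_le_mul_of_nonneg_left _ (by positivity)
        linarith

/-- choice of the number of scales -/
lemma in_choice (m : ℕ) {cT c C : ℝ} (hcT : 0 < cT) (hc : 0 < c) (hC : 0 < C) :
    ∃ (n k : ℕ), 1 ≤ n ∧ m + 1 ≤ k ∧
      1024 * ((k : ℝ) - 1) * C * n * ((1 / 2 : ℝ) ^ n / 512) ≤ c ∧
      512 * ((m : ℝ) + 1) * C ≤ cT * k * c ^ 2 * n ^ 2 * ((1 / 2 : ℝ) ^ n / 512) := by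
  have hX := tendsto_pow_const_div_const_pow_of_one_lt 1 (show (1 : ℝ) < 2 by norm_num)
  have hε : (0 : ℝ) < c / (2 * C * (m + 2)) := by positivity
  have hev1 := hX.eventually (Iic_mem_nhds hε)
  have hev2 : ∀ᶠ n : ℕ in atTop, 4 * 512 ^ 2 * ((m : ℝ) + 1) * C ^ 2 / (cT * c ^ 3) ≤ (n : ℝ) :=
    tendsto_natCast_atTop_atTop.eventually_ge_atTop _
  obtain ⟨n, hn1, hn2, hn3⟩ := (hev1.and (hev2.and (eventually_ge_atTop 1))).exists
  rw [pow_one] at hn1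
  have hnpos : (0 : ℝ) < n := by exact_mod_cast hn3
  have h2n : (0 : ℝ) < 2 ^ n := by positivity
  set X : ℝ := c * 2 ^ n / (2 * C * n) with hXdef
  have hXge : (m : ℝ) + 2 ≤ X := by
    rw [div_le_div_iff₀ h2n (by positivity)] at hn1
    rw [hXdef, le_div_iff₀ (by positivity)]
    linarith
  have hXpos : 0 < X := by have : (0 : ℝ) ≤ m := Nat.cast_nonneg m; linarith
  have hk1 : ((⌊X⌋₊ : ℕ) : ℝ) ≤ X := Nat.floor_le hXpos.le
  have hk2 : X < (⌊X⌋₊ : ℕ) + 1 := Nat.lt_floor_add_one X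
  have hm0 : (0 : ℝ) ≤ m := Nat.cast_nonneg m
  have hhalf : (1 / 2 : ℝ) ^ n * 2 ^ n = 1 := by rw [← mul_pow]; norm_num
  have hh0 : (0 : ℝ) < (1 / 2 : ℝ) ^ n := by positivity
  refine ⟨n, ⌊X⌋₊, hn3, ?_, ?_, ?_⟩
  · apply Nat.le_floor
    push_cast
    linarith
  · have h1 : X * (2 * C * n) = c * 2 ^ n := by
      rw [hXdef]; field_simp
    have h2 : ((⌊X⌋₊ : ℕ) : ℝ) - 1 ≤ X := by linarith
    calc 1024 * (((⌊X⌋₊ : ℕ) : ℝ) - 1) * C * n * ((1 / 2 : ℝ) ^ n / 512) =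
        (((⌊X⌋₊ : ℕ) : ℝ) - 1) * (2 * C * n * (1 / 2 : ℝ) ^ n) := by ring
      _ ≤ X * (2 * C * n * (1 / 2 : ℝ) ^ n) := mul_le_mul_of_nonneg_right h2 (by positivity)
      _ = (X * (2 * C * n)) * (1 / 2 : ℝ) ^ n := by ring
      _ = c * ((1 / 2 : ℝ) ^ n * 2 ^ n) := by rw [h1]; ring
      _ = c := by rw [hhalf, mul_one]
  · have h3 : X / 2 ≤ ((⌊X⌋₊ : ℕ) : ℝ) := by linarith
    have h4 : 4 * 512 ^ 2 * ((m : ℝ) + 1) * C ^ 2 ≤ n * (cT * c ^ 3) := by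
      rwa [div_le_iff₀ (by positivity)] at hn2
    have h5 : cT * (X / 2) * c ^ 2 * n ^ 2 * ((1 / 2 : ℝ) ^ n / 512) = cT * c ^ 3 * n / (2048 * C) := by
      have e1 : cT * (X / 2) * c ^ 2 * n ^ 2 * ((1 / 2 : ℝ) ^ n / 512) =
          cT * c ^ 3 * n / (2048 * C) * ((1 / 2 : ℝ) ^ n * 2 ^ n) := by
        rw [hXdef]; field_simp; ring
      rw [e1, hhalf, mul_one]
    have h6 : 512 * ((m : ℝ) + 1) * C ≤ cT * c ^ 3 * n / (2048 * C) := by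
      rw [le_div_iff₀ (by positivity)]
      nlinarith
    refine h6.trans (h5.symm.le.trans ?_)
    apply mul_le_mul_of_nonneg_right _ (by positivity)
    apply mul_le_mul_of_nonneg_right _ (by positivity)
    apply mul_le_mul_of_nonneg_right _ (by positivity)
    exact mul_le_mul_of_nonneg_left h3 hcT.le

theorem inner_exists (m : ℕ) {cT : ℝ} (hcT : 0 < cT) : ∃ (k n₀ : ℕ) (η₁ δ₁ : ℝ), m + 1 ≤ k ∧ 1 ≤ n₀ ∧ 0 < η₁ ∧
    2 ^ (n₀ - 1) * η₁ ≤ 1 / 1024 ∧ 0 < δ₁ ∧ ∀ δ υ : ℝ, 0 < δ → δ ≤ δ₁ → 1 / 1024 < υ → υ ≤ 1 / 2 →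
    ∀ᶠ ℓ : ℝ in atTop, ∀ e : ℕ,
      16 * ((m : ℝ) + 1) * ∑ D ∈ (QQ δ υ ℓ e).powerset, gst n₀ (η₁ * ℓ) (pd D) ^ 2 * pf D ≤
        cT * δ * k * (∑ D ∈ (QQ δ υ ℓ e).powerset, gst n₀ (η₁ * ℓ) (pd D) * pf D) ^ 2 ∧
      2 * ((k : ℝ) - 1) * ∑ D ∈ (QQ δ υ ℓ e).powerset, gst n₀ (η₁ * ℓ) (pd D) ^ 2 * pf D * Real.log (pd D) ≤
        (∑ D ∈ (QQ δ υ ℓ e).powerset, gst n₀ (η₁ * ℓ) (pd D) ^ 2 * pf D) * (ℓ / 128) := by
  obtain ⟨c, hc, hcV⟩ := Vp_ge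
  obtain ⟨C, hC1, hQprod⟩ := QQ_prod
  have hC : 0 < C := by linarith
  obtain ⟨n, k, hn, hmk, hk1, hk2⟩ := in_choice m hcT (show 0 < c / 4 by positivity) hC
  set η : ℝ := (1 / 2 : ℝ) ^ n / 512 with hη
  have hηpos : 0 < η := by positivity
  have hηn : 2 ^ (n - 1) * η = 1 / 1024 := by
    obtain ⟨j, rfl⟩ : ∃ j, n = j + 1 := ⟨n - 1, by omega⟩
    rw [hη, Nat.add_sub_cancel, pow_succ]
    have : (2 : ℝ) ^ j * (1 / 2 : ℝ) ^ j = 1 := by rw [← mul_pow]; norm_num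
    calc (2 : ℝ) ^ j * ((1 / 2 : ℝ) ^ j * (1 / 2) / 512) = ((2 : ℝ) ^ j * (1 / 2 : ℝ) ^ j) / 1024 := by ring
      _ = _ := by rw [this]
  refine ⟨k, n, η, η, hmk, hn, hηpos, hηn.le, hηpos, ?_⟩
  intro δ υ hδ hδη hυ hυ2
  have hscale : ∀ i < n, (2 : ℝ) ^ i * η ≤ 1 / 1024 := by
    intro i hi
    rw [← hηn]
    apply mul_le_mul_of_nonneg_right _ hηpos.le
    exact pow_le_pow_right₀ (by norm_num) (by omega)
  have hscale1 : ∀ i : ℕ, η ≤ (2 : ℝ) ^ i * η := by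
    intro i
    have : (1 : ℝ) ≤ 2 ^ i := one_le_pow₀ (by norm_num)
    nlinarith
  have hev1 : ∀ᶠ ℓ : ℝ in atTop, ∀ i ∈ Finset.range n, ∀ e : ℕ,
      ∏ p ∈ QQ δ (2 ^ i * η) ℓ e, (1 + 1 / ((p : ℝ) - 1)) ≤ C * (2 ^ i * η) / δ := by
    rw [Filter.eventually_all_finset]
    intro i _
    exact hQprod δ (2 ^ i * η) hδ (hδη.trans (hscale1 i))
  have hev2 := ev_zz hδ (Real.log 2)
  have hev3 := ev_zz (show 0 < υ by linarith) 1
  have hev4 : ∀ᶠ ℓ : ℝ in atTop, Real.exp (1 / 1024 * ℓ) ≤ Real.exp (υ * ℓ) / 2 := by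
    filter_upwards [eventually_ge_atTop (Real.log 2 / (υ - 1 / 1024))] with ℓ hℓ
    have h1 : Real.log 2 ≤ (υ - 1 / 1024) * ℓ := by
      rw [div_le_iff₀ (by linarith)] at hℓ
      linarith
    have h2 : Real.exp (υ * ℓ) = Real.exp (1 / 1024 * ℓ) * Real.exp ((υ - 1 / 1024) * ℓ) := by
      rw [← Real.exp_add]; ring_nf
    have h3 : 2 ≤ Real.exp ((υ - 1 / 1024) * ℓ) := by
      rw [← Real.exp_log (show (0 : ℝ) < 2 by norm_num)]
      exact Real.exp_le_exp.mpr h1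
    rw [h2]
    nlinarith [Real.exp_pos (1 / 1024 * ℓ)]
  filter_upwards [hev1, hev2, hev3, hev4, eventually_gt_atTop (0 : ℝ)] with ℓ h1 h2 h3 h4 hℓ e
  have hz2 : 2 ≤ zz δ ℓ := by
    by_contra hlt
    have h01 : zz δ ℓ = 0 ∨ zz δ ℓ = 1 := by omega
    have hl := h2.2.1
    have hpos := Real.log_pos (show (1 : ℝ) < 2 by norm_num)
    rcases h01 with h | h <;> rw [h] at hl <;> simp at hl <;> linarith
  have hy : ∀ i < n, Real.exp (2 ^ i * η * ℓ) ≤ zz υ ℓ := by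
    intro i hi
    calc Real.exp (2 ^ i * η * ℓ) ≤ Real.exp (1 / 1024 * ℓ) := by
          apply Real.exp_le_exp.mpr
          exact mul_le_mul_of_nonneg_right (hscale i hi) hℓ.le
      _ ≤ Real.exp (υ * ℓ) / 2 := h4
      _ ≤ _ := h3.2.2.2.2.2
  have hgY : ∀ i : ℕ, gY (η * ℓ) i = Real.exp (2 ^ i * η * ℓ) := by
    intro i; unfold gY; ring_nf
  set Q := QQ δ υ ℓ e with hQ
  have hδℓ : 0 < δ * ℓ := by positivity
  obtain ⟨a1, a2, a3, a4⟩ := in_bounds (n := n) (ρ := η * ℓ) (c := c / 4) (C := C) (L := δ * ℓ) (Q := Q)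
    QQ_prime hn (by positivity) (by positivity) hC.le hδℓ
    (by
      intro i hi
      rw [hgY]
      have := Sfi_ge (e := e) hcV hc (υ' := 2 ^ i * η) (by positivity) hℓ.le hδ hz2 h2.2.2.2.1 (hy i hi)
      refine le_trans (le_of_eq ?_) this
      field_simp)
    (by
      intro i hi
      rw [hgY]
      refine (Sfi_le_prod δ υ (2 ^ i * η) ℓ e).trans ((h1 i (Finset.mem_range.mpr hi) e).trans (le_of_eq ?_))
      field_simp)
  set A1 := ∑ D ∈ Q.powerset, gst n (η * ℓ) (pd D) * pf D with hA1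
  set A2 := ∑ D ∈ Q.powerset, gst n (η * ℓ) (pd D) ^ 2 * pf D with hA2
  set A3 := ∑ D ∈ Q.powerset, gst n (η * ℓ) (pd D) ^ 2 * pf D * Real.log (pd D) with hA3
  have e1 : c / 4 * n * (η * ℓ) / (2 * (δ * ℓ)) = (c / 4) * n * η / (2 * δ) := by field_simp
  have e2 : c / 4 * (η * ℓ) / (δ * ℓ) = (c / 4) * η / δ := by field_simp
  have e3 : 8 * C * (η * ℓ) / (δ * ℓ) = 8 * C * η / δ := by field_simp
  have e4 : 4 * C * n * (η * ℓ) ^ 2 / (δ * ℓ) = 4 * C * n * η ^ 2 * ℓ / δ := by field_simp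
  rw [e1] at a1
  rw [e2] at a2
  rw [e3] at a3
  rw [e4] at a4
  have hk : (1 : ℝ) ≤ k := by
    have : 1 ≤ k := by omega
    exact_mod_cast this
  constructor
  · have hA1sq : ((c / 4) * n * η / (2 * δ)) ^ 2 ≤ A1 ^ 2 := pow_le_pow_left₀ (by positivity) a1 2
    calc 16 * ((m : ℝ) + 1) * A2 ≤ 16 * ((m : ℝ) + 1) * (8 * C * η / δ) := by
          apply mul_le_mul_of_nonneg_left a3 (by positivity)
      _ = (512 * ((m : ℝ) + 1) * C) * (η / (4 * δ)) := by ring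
      _ ≤ (cT * k * (c / 4) ^ 2 * n ^ 2 * η) * (η / (4 * δ)) := by
          apply mul_le_mul_of_nonneg_right hk2 (by positivity)
      _ = cT * δ * k * ((c / 4) * n * η / (2 * δ)) ^ 2 := by field_simp; ring
      _ ≤ cT * δ * k * A1 ^ 2 := by
          apply mul_le_mul_of_nonneg_left hA1sq (by positivity)
  · calc 2 * ((k : ℝ) - 1) * A3 ≤ 2 * ((k : ℝ) - 1) * (4 * C * n * η ^ 2 * ℓ / δ) := by
          apply mul_le_mul_of_nonneg_left a4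
          linarith
      _ = (1024 * ((k : ℝ) - 1) * C * n * η) * (η * ℓ / (128 * δ)) := by ring
      _ ≤ (c / 4) * (η * ℓ / (128 * δ)) := by
          apply mul_le_mul_of_nonneg_right hk1 (by positivity)
      _ = ((c / 4) * η / δ) * (ℓ / 128) := by ring
      _ ≤ A2 * (ℓ / 128) := by
          apply mul_le_mul_of_nonneg_right a2 (by positivity)

end Pool.Agent.H81.AS
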