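import Pool.Agent.H81.AS.MDefs

/-!
JOB AS-INNER2. Bounds for the inner diagonal sum. (`A2 = ∑ g² pf`, `A3 = ∑ g² pf log`.)

PROOF of `di_lower`. `DI` over `k-1` positions: the full sum (no condition on `nn E`) is `A2^{k-1}` (`sum_fib`,
`ph E = ∏_h pf (fib E h)`); by Markov the part with `nn E > Tl` is at most
`∑_E (log nn E/log Tl) ∏ g² ph = (k-1) A3 A2^{k-2}/log Tl ≤ A2^{k-1}/2`, `log nn E = ∑_h log pd (fib E h)`.
PROOF of `di_upper`: drop the condition. PROOF of `one_le_di`: the term `E = ∅` (`pd ∅ = 1`).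
-/

set_option autoImplicit false

open Finset Filter Topology

namespace Pool.Agent.H81.AS

open Pool.Agent.H16

theorem idd_mem_prime {H Q : Finset ℕ} (hQ : ∀ q ∈ Q, q.Prime) {E : Finset (ℕ × ℕ)}
    (hE : E ∈ (H ×ˢ Q).powerset) {x : ℕ × ℕ} (hx : x ∈ E) : x.2.Prime :=
  hQ _ (mem_product.1 (mem_powerset.1 hE hx)).2

theorem idd_inv_nonneg {p : ℕ} (hp : p.Prime) : (0 : ℝ) ≤ 1 / ((p : ℝ) - 1) := by
  have h2 : (2 : ℝ) ≤ p := by exact_mod_cast hp.two_le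
  exact div_nonneg zero_le_one (by linarith)

theorem idd_ph_nonneg {H Q : Finset ℕ} (hQ : ∀ q ∈ Q, q.Prime) {E : Finset (ℕ × ℕ)}
    (hE : E ∈ (H ×ˢ Q).powerset) : 0 ≤ ph E :=
  prod_nonneg fun _ hx => idd_inv_nonneg (idd_mem_prime hQ hE hx)

theorem idd_pf_nonneg {Q : Finset ℕ} (hQ : ∀ q ∈ Q, q.Prime) {D : Finset ℕ} (hD : D ∈ Q.powerset) :
    0 ≤ pf D :=
  prod_nonneg fun p hp => idd_inv_nonneg (hQ p (mem_powerset.1 hD hp))

theorem idd_pd_pos {Q : Finset ℕ} (hQ : ∀ q ∈ Q, q.Prime) {D : Finset ℕ} (hD : D ⊆ Q) :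
    0 < pd D :=
  prod_pos fun p hp => (hQ p (hD hp)).pos

theorem idd_nn_pos {H Q : Finset ℕ} (hQ : ∀ q ∈ Q, q.Prime) {E : Finset (ℕ × ℕ)}
    (hE : E ∈ (H ×ˢ Q).powerset) : 0 < nn E :=
  prod_pos fun _ hx => (idd_mem_prime hQ hE hx).pos

/-- the term of the inner diagonal sum as a product over the positions -/
theorem idd_term {H Q : Finset ℕ} (g : ℕ → ℝ) {E : Finset (ℕ × ℕ)} (hE : E ∈ (H ×ˢ Q).powerset) :
    (∏ h ∈ H, g (pd (fib E h)) ^ 2) * ph E = ∏ h ∈ H, (g (pd (fib E h)) ^ 2 * pf (fib E h)) := by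
  rw [prod_mul_distrib]
  congr 1
  exact prod_fib (mem_powerset.1 hE) (fun _ p => 1 / ((p : ℝ) - 1))

/-- the full sum -/
theorem idd_full (H Q : Finset ℕ) (g : ℕ → ℝ) :
    ∑ E ∈ (H ×ˢ Q).powerset, (∏ h ∈ H, g (pd (fib E h)) ^ 2) * ph E =
      (∑ D ∈ Q.powerset, g (pd D) ^ 2 * pf D) ^ #H := by
  rw [sum_congr rfl fun E hE => idd_term g hE]
  rw [sum_fib H Q (fun _ D => g (pd D) ^ 2 * pf D), prod_const]

/-- `nn` through the fibres -/
theorem idd_nn_eq_fib {H Q : Finset ℕ} {E : Finset (ℕ × ℕ)} (hE : E ∈ (H ×ˢ Q).powerset) :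
    nn E = ∏ h ∈ H, pd (fib E h) :=
  prod_fib (mem_powerset.1 hE) (fun _ p => p)

theorem idd_log_nn_eq {H Q : Finset ℕ} (hQ : ∀ q ∈ Q, q.Prime) {E : Finset (ℕ × ℕ)}
    (hE : E ∈ (H ×ˢ Q).powerset) : Real.log (nn E) = ∑ h ∈ H, Real.log (pd (fib E h)) := by
  rw [idd_nn_eq_fib hE, Nat.cast_prod, Real.log_prod]
  intro h _
  exact_mod_cast (idd_pd_pos hQ (fib_subset (mem_powerset.1 hE) h)).ne'

/-- the full sum with the logarithm -/
theorem idd_log (H Q : Finset ℕ) (hQ : ∀ q ∈ Q, q.Prime) (g : ℕ → ℝ) :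
    ∑ E ∈ (H ×ˢ Q).powerset, Real.log (nn E) * ((∏ h ∈ H, g (pd (fib E h)) ^ 2) * ph E) =
      #H * ((∑ D ∈ Q.powerset, g (pd D) ^ 2 * pf D * Real.log (pd D)) *
        (∑ D ∈ Q.powerset, g (pd D) ^ 2 * pf D) ^ (#H - 1)) := by
  have h1 : ∀ E ∈ (H ×ˢ Q).powerset,
      Real.log (nn E) * ((∏ h ∈ H, g (pd (fib E h)) ^ 2) * ph E) =
      ∑ h0 ∈ H, ∏ h ∈ H, ((if h = h0 then Real.log (pd (fib E h)) else 1) *
        (g (pd (fib E h)) ^ 2 * pf (fib E h))) := by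
    intro E hE
    rw [idd_log_nn_eq hQ hE, idd_term g hE, sum_mul]
    refine sum_congr rfl fun h0 hh0 => ?_
    rw [prod_mul_distrib (f := fun h => if h = h0 then Real.log (pd (fib E h)) else 1)]
    congr 1
    rw [prod_ite_eq' H h0 (fun h => Real.log (pd (fib E h))), if_pos hh0]
  rw [sum_congr rfl h1, sum_comm]
  have h2 : ∀ h0 ∈ H, ∑ E ∈ (H ×ˢ Q).powerset,
      ∏ h ∈ H, ((if h = h0 then Real.log (pd (fib E h)) else 1) *
        (g (pd (fib E h)) ^ 2 * pf (fib E h))) =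
      (∑ D ∈ Q.powerset, g (pd D) ^ 2 * pf D * Real.log (pd D)) *
        (∑ D ∈ Q.powerset, g (pd D) ^ 2 * pf D) ^ (#H - 1) := by
    intro h0 hh0
    rw [sum_fib H Q (fun h D => (if h = h0 then Real.log (pd D) else 1) * (g (pd D) ^ 2 * pf D))]
    rw [← mul_prod_erase H _ hh0]
    congr 1
    · refine sum_congr rfl fun D _ => ?_
      rw [if_pos rfl]; ring
    · rw [← card_erase_of_mem hh0, ← prod_const]
      refine prod_congr rfl fun h hh => ?_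
      refine sum_congr rfl fun D _ => ?_
      rw [if_neg (ne_of_mem_erase hh), one_mul]
  rw [sum_congr rfl h2, sum_const, nsmul_eq_mul]

theorem di_lower {Q H : Finset ℕ} (hQ : ∀ q ∈ Q, q.Prime) {g : ℕ → ℝ} (hg : ∀ r, 0 ≤ g r) {Tl : ℝ}
    (hTl : 1 < Tl)
    (hmean : 2 * (#H : ℝ) * ∑ D ∈ Q.powerset, g (pd D) ^ 2 * pf D * Real.log (pd D) ≤
      (∑ D ∈ Q.powerset, g (pd D) ^ 2 * pf D) * Real.log Tl) :
    (∑ D ∈ Q.powerset, g (pd D) ^ 2 * pf D) ^ #H / 2 ≤ DI Q H g Tl := by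
  have hA2 : 0 ≤ ∑ D ∈ Q.powerset, g (pd D) ^ 2 * pf D :=
    sum_nonneg fun D hD => mul_nonneg (sq_nonneg _) (idd_pf_nonneg hQ hD)
  have hl : 0 < Real.log Tl := Real.log_pos hTl
  have hsplit := sum_filter_add_sum_filter_not (H ×ˢ Q).powerset (fun E => (nn E : ℝ) ≤ Tl)
    (fun E => (∏ h ∈ H, g (pd (fib E h)) ^ 2) * ph E)
  rw [idd_full] at hsplit
  have hterm : ∀ E ∈ (H ×ˢ Q).powerset, 0 ≤ (∏ h ∈ H, g (pd (fib E h)) ^ 2) * ph E := fun E hE =>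
    mul_nonneg (prod_nonneg fun _ _ => sq_nonneg _) (idd_ph_nonneg hQ hE)
  have hbad : ∑ E ∈ (H ×ˢ Q).powerset.filter (fun E => ¬ (nn E : ℝ) ≤ Tl),
      (∏ h ∈ H, g (pd (fib E h)) ^ 2) * ph E ≤
      (Real.log Tl)⁻¹ * ∑ E ∈ (H ×ˢ Q).powerset,
        Real.log (nn E) * ((∏ h ∈ H, g (pd (fib E h)) ^ 2) * ph E) := by
    rw [mul_sum]
    calc ∑ E ∈ (H ×ˢ Q).powerset.filter (fun E => ¬ (nn E : ℝ) ≤ Tl),
          (∏ h ∈ H, g (pd (fib E h)) ^ 2) * ph E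
        ≤ ∑ E ∈ (H ×ˢ Q).powerset.filter (fun E => ¬ (nn E : ℝ) ≤ Tl),
          (Real.log Tl)⁻¹ * (Real.log (nn E) * ((∏ h ∈ H, g (pd (fib E h)) ^ 2) * ph E)) := by
          refine sum_le_sum fun E hE => ?_
          rw [mem_filter] at hE
          obtain ⟨hE1, hE2⟩ := hE
          push Not at hE2
          rw [← mul_assoc]
          refine le_mul_of_one_le_left (hterm E hE1) ?_
          rw [inv_mul_eq_div, one_le_div hl]
          exact Real.log_le_log (by linarith) hE2.le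
      _ ≤ _ := by
          refine sum_le_sum_of_subset_of_nonneg (filter_subset _ _) fun E hE _ => ?_
          refine mul_nonneg (inv_nonneg.2 hl.le) (mul_nonneg (Real.log_nonneg ?_) (hterm E hE))
          exact_mod_cast idd_nn_pos hQ hE
  rw [idd_log H Q hQ g] at hbad
  have hfin : (Real.log Tl)⁻¹ * (#H * ((∑ D ∈ Q.powerset, g (pd D) ^ 2 * pf D * Real.log (pd D)) *
        (∑ D ∈ Q.powerset, g (pd D) ^ 2 * pf D) ^ (#H - 1))) ≤
      (∑ D ∈ Q.powerset, g (pd D) ^ 2 * pf D) ^ #H / 2 := by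
    rcases Nat.eq_zero_or_pos #H with h0 | h0
    · rw [h0]; simp
    · set A2 := ∑ D ∈ Q.powerset, g (pd D) ^ 2 * pf D
      set A3 := ∑ D ∈ Q.powerset, g (pd D) ^ 2 * pf D * Real.log (pd D)
      have h3 : (#H : ℝ) * A3 ≤ A2 * Real.log Tl / 2 := by linarith
      have h4 : A2 ^ #H = A2 ^ (#H - 1) * A2 := by
        rw [← pow_succ, Nat.sub_add_cancel h0]
      calc (Real.log Tl)⁻¹ * (#H * (A3 * A2 ^ (#H - 1)))
          = (Real.log Tl)⁻¹ * A2 ^ (#H - 1) * (#H * A3) := by ring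
        _ ≤ (Real.log Tl)⁻¹ * A2 ^ (#H - 1) * (A2 * Real.log Tl / 2) := by
            apply mul_le_mul_of_nonneg_left h3
            positivity
        _ = A2 ^ #H / 2 := by
            rw [h4]; field_simp
  unfold DI
  linarith

theorem di_upper {Q H : Finset ℕ} (hQ : ∀ q ∈ Q, q.Prime) {g : ℕ → ℝ} (hg : ∀ r, 0 ≤ g r) (T : ℝ) :
    DI Q H g T ≤ (∑ D ∈ Q.powerset, g (pd D) ^ 2 * pf D) ^ #H := by
  rw [← idd_full]
  refine sum_le_sum_of_subset_of_nonneg (filter_subset _ _) fun E hE _ => ?_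
  exact mul_nonneg (prod_nonneg fun _ _ => sq_nonneg _) (idd_ph_nonneg hQ hE)

theorem one_le_di {Q H : Finset ℕ} (hQ : ∀ q ∈ Q, q.Prime) {g : ℕ → ℝ} (hg1 : g 1 = 1) {T : ℝ}
    (hT : 1 ≤ T) : 1 ≤ DI Q H g T := by
  have hmem : (∅ : Finset (ℕ × ℕ)) ∈ (H ×ˢ Q).powerset.filter (fun E => (nn E : ℝ) ≤ T) := by
    rw [mem_filter]
    refine ⟨empty_mem_powerset _, ?_⟩
    simpa [nn] using hT
  have h1 := single_le_sum (f := fun E => (∏ h ∈ H, g (pd (fib E h)) ^ 2) * ph E)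
    (fun E hE => mul_nonneg (prod_nonneg fun _ _ => sq_nonneg _)
      (idd_ph_nonneg hQ (mem_filter.1 hE).1)) hmem
  refine le_trans (le_of_eq ?_) h1
  simp [fib, pd, ph, hg1]

end Pool.Agent.H81.AS
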