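import Pool.Agent.H81.AS.MDefs

/-!
JOB AS-MAIN2. The restricted coefficients at a position `h0` outside `H0`.

PROOF of `dg_out`. For `E ⊆ (Po.erase h0) ×ˢ Q`, `h0 ∈ Po \ H0`, split `E = E₁ ∪ E₂` with `E₁ ⊆ H0 ×ˢ Q`,
`E₂ ⊆ ((Po \ H0).erase h0) ×ˢ Q` (`sum_split`): the term `D = ∅` of
`Cr` is `Cf E` and a term `D ≠ ∅` has the additional factor `-α (pd D) pf D` and the condition
`nn E₂ * pd D ≤ T`. So `Cr = (inner factor) ∏ (-α) * w`, with `w = [nn E₂ ≤ T] - ∑_{D ≠ ∅, nn E₂ * pd D ≤ T} α(pd D) pf D`,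
`0 ≤ w ≤ 1` because `∑ α pf = 1`, and `w = 0` unless `Tl < nn E₂ ≤ T`: if `nn E₂ ≤ Tl` then all `D` with
`α ≠ 0` satisfy `nn E₂ * pd D ≤ Tl * Te ≤ T`; if `nn E₂ > T` both terms vanish (`pd D ≥ 1`).
`#(insert h0 H0 ∪ pos E) = #H0 + 1 + #(pos E₂)`. The inner factor squared is the one of `DI`.
PROOF of `cr_abs_out`. The same formula.
-/

set_option autoImplicit false

open Finset Filter Topology

namespace Pool.Agent.H81.AS

open Pool.Agent.H16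

namespace M2

/-! ### The weight `w` -/

/-- the sum over the set `D` attached to `h0` -/
noncomputable def wgt (Q : Finset ℕ) (α : ℕ → ℝ) (T : ℝ) (m : ℕ) : ℝ :=
  ∑ D ∈ Q.powerset, ((if D = ∅ then 1 else -α (pd D)) * (if ((m * pd D : ℕ) : ℝ) ≤ T then 1 else 0)) * pf D

theorem pd_pos {Q D : Finset ℕ} (hQ : ∀ q ∈ Q, q.Prime) (hD : D ⊆ Q) : 0 < pd D :=
  Finset.prod_pos fun p hp => (hQ p (hD hp)).pos

theorem pf_nonneg {Q D : Finset ℕ} (hQ : ∀ q ∈ Q, q.Prime) (hD : D ⊆ Q) : 0 ≤ pf D := by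
  refine Finset.prod_nonneg fun p hp => ?_
  have h1 : (1 : ℝ) ≤ p := by exact_mod_cast (hQ p (hD hp)).one_le
  exact div_nonneg zero_le_one (by linarith)

theorem ph_nonneg {Q A : Finset ℕ} {E : Finset (ℕ × ℕ)} (hQ : ∀ q ∈ Q, q.Prime) (hE : E ⊆ A ×ˢ Q) :
    0 ≤ ph E := by
  refine Finset.prod_nonneg fun x hx => ?_
  have h1 : (1 : ℝ) ≤ x.2 := by exact_mod_cast (hQ x.2 (Finset.mem_product.1 (hE hx)).2).one_le
  exact div_nonneg zero_le_one (by linarith)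

theorem wgt_eq {Q : Finset ℕ} (α : ℕ → ℝ) (hα1 : α 1 = 0) (T : ℝ) (m : ℕ) :
    wgt Q α T m = (if (m : ℝ) ≤ T then 1 else 0) -
      ∑ D ∈ Q.powerset, α (pd D) * (if ((m * pd D : ℕ) : ℝ) ≤ T then 1 else 0) * pf D := by
  have key : ∀ D ∈ Q.powerset,
      ((if D = ∅ then 1 else -α (pd D)) * (if ((m * pd D : ℕ) : ℝ) ≤ T then 1 else 0)) * pf D =
        (if D = ∅ then (if (m : ℝ) ≤ T then (1 : ℝ) else 0) else 0) -
          α (pd D) * (if ((m * pd D : ℕ) : ℝ) ≤ T then 1 else 0) * pf D := by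
    intro D _
    by_cases hD : D = ∅
    · subst hD
      simp [pd, pf, hα1]
    · rw [if_neg hD, if_neg hD]
      ring
  unfold wgt
  rw [Finset.sum_congr rfl key, Finset.sum_sub_distrib]
  congr 1
  rw [Finset.sum_ite_eq' Q.powerset ∅ (fun _ => if (m : ℝ) ≤ T then (1 : ℝ) else 0)]
  simp

theorem wgt_le_one {Q : Finset ℕ} (hQ : ∀ q ∈ Q, q.Prime) (α : ℕ → ℝ) (hα : ∀ r, 0 ≤ α r) (hα1 : α 1 = 0)
    (T : ℝ) (m : ℕ) : wgt Q α T m ≤ 1 := by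
  rw [wgt_eq α hα1]
  have h1 : (if (m : ℝ) ≤ T then (1 : ℝ) else 0) ≤ 1 := by split_ifs <;> norm_num
  have h2 : 0 ≤ ∑ D ∈ Q.powerset, α (pd D) * (if ((m * pd D : ℕ) : ℝ) ≤ T then (1 : ℝ) else 0) * pf D := by
    refine Finset.sum_nonneg fun D hD => ?_
    refine mul_nonneg (mul_nonneg (hα _) (by split_ifs <;> norm_num)) ?_
    exact pf_nonneg hQ (Finset.mem_powerset.1 hD)
  linarith

theorem wgt_eq_zero_of_lt {Q : Finset ℕ} (hQ : ∀ q ∈ Q, q.Prime) (α : ℕ → ℝ) (hα1 : α 1 = 0)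
    {T : ℝ} {m : ℕ} (hm : T < m) : wgt Q α T m = 0 := by
  rw [wgt_eq α hα1, if_neg (not_le.2 hm), zero_sub, neg_eq_zero]
  refine Finset.sum_eq_zero fun D hD => ?_
  have h1 : 1 ≤ pd D := pd_pos hQ (Finset.mem_powerset.1 hD)
  have h2 : (m : ℝ) ≤ ((m * pd D : ℕ) : ℝ) := by
    exact_mod_cast Nat.le_mul_of_pos_right m h1
  rw [if_neg (not_le.2 (lt_of_lt_of_le hm h2))]
  ring

theorem wgt_nonneg {Q : Finset ℕ} (hQ : ∀ q ∈ Q, q.Prime) (α : ℕ → ℝ) (hα : ∀ r, 0 ≤ α r) (hα1 : α 1 = 0)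
    (hsum : ∑ D ∈ Q.powerset, α (pd D) * pf D = 1)
    (T : ℝ) (m : ℕ) : 0 ≤ wgt Q α T m := by
  by_cases hm : (m : ℝ) ≤ T
  · rw [wgt_eq α hα1, if_pos hm]
    have h2 : ∑ D ∈ Q.powerset, α (pd D) * (if ((m * pd D : ℕ) : ℝ) ≤ T then (1 : ℝ) else 0) * pf D ≤
        ∑ D ∈ Q.powerset, α (pd D) * pf D := by
      refine Finset.sum_le_sum fun D hD => ?_
      refine mul_le_mul_of_nonneg_right ?_ (pf_nonneg hQ (Finset.mem_powerset.1 hD))
      have h3 : (if ((m * pd D : ℕ) : ℝ) ≤ T then (1 : ℝ) else 0) ≤ 1 := by split_ifs <;> norm_num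
      calc α (pd D) * (if ((m * pd D : ℕ) : ℝ) ≤ T then (1 : ℝ) else 0) ≤ α (pd D) * 1 :=
            mul_le_mul_of_nonneg_left h3 (hα _)
        _ = α (pd D) := mul_one _
    linarith
  · exact (wgt_eq_zero_of_lt hQ α hα1 (not_le.1 hm)).ge

theorem wgt_eq_zero_of_le {Q : Finset ℕ} (hQ : ∀ q ∈ Q, q.Prime) (α : ℕ → ℝ) (hα : ∀ r, 0 ≤ α r)
    (hα1 : α 1 = 0)
    (hsum : ∑ D ∈ Q.powerset, α (pd D) * pf D = 1) {T Tl Te : ℝ}
    (hTe : ∀ r, α r ≠ 0 → (r : ℝ) ≤ Te) (hT : Tl * Te ≤ T) (hTl : 0 ≤ Tl) {m : ℕ} (hm : (m : ℝ) ≤ Tl) :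
    wgt Q α T m = 0 := by
  refine le_antisymm ?_ (wgt_nonneg hQ α hα hα1 hsum T m)
  rw [wgt_eq α hα1]
  have h1 : (if (m : ℝ) ≤ T then (1 : ℝ) else 0) ≤ 1 := by split_ifs <;> norm_num
  have h2 : ∑ D ∈ Q.powerset, α (pd D) * (if ((m * pd D : ℕ) : ℝ) ≤ T then (1 : ℝ) else 0) * pf D =
      ∑ D ∈ Q.powerset, α (pd D) * pf D := by
    refine Finset.sum_congr rfl fun D hD => ?_
    by_cases h0 : α (pd D) = 0
    · rw [h0]; ring
    · have h3 : ((pd D : ℕ) : ℝ) ≤ Te := hTe _ h0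
      have h4 : ((m * pd D : ℕ) : ℝ) ≤ T := by
        push_cast
        calc (m : ℝ) * (pd D : ℝ) ≤ Tl * Te :=
              mul_le_mul hm h3 (Nat.cast_nonneg _) hTl
          _ ≤ T := hT
      rw [if_pos h4, mul_one]
  linarith

/-! ### The formula for the restricted coefficients -/

theorem fib_add_ne {E : Finset (ℕ × ℕ)} {D : Finset ℕ} {h0 h : ℕ} (hh : h ≠ h0) :
    fib (E ∪ D.image (fun p => (h0, p))) h = fib E h := by
  ext p
  rw [mem_fib, mem_fib, Finset.mem_union, Finset.mem_image]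
  constructor
  · rintro (h1 | ⟨q, _, h2⟩)
    · exact h1
    · exact absurd (congrArg Prod.fst h2).symm hh
  · exact Or.inl

theorem fib_add_eq {E : Finset (ℕ × ℕ)} {D : Finset ℕ} {h0 : ℕ} (hh : ∀ x ∈ E, x.1 ≠ h0) :
    fib (E ∪ D.image (fun p => (h0, p))) h0 = D := by
  ext p
  rw [mem_fib, Finset.mem_union, Finset.mem_image]
  constructor
  · rintro (h1 | ⟨q, hq, h2⟩)
    · exact absurd rfl (hh _ h1)
    · have := congrArg Prod.snd h2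
      simp only at this
      exact this ▸ hq
  · intro hp
    exact Or.inr ⟨p, hp, rfl⟩

theorem pos_add {E : Finset (ℕ × ℕ)} {D : Finset ℕ} {h0 : ℕ} (hD : D ≠ ∅) :
    pos (E ∪ D.image (fun p => (h0, p))) = insert h0 (pos E) := by
  obtain ⟨d, hd⟩ := Finset.nonempty_iff_ne_empty.2 hD
  ext h
  simp only [pos, Finset.mem_image, Finset.mem_union, Finset.mem_insert]
  constructor
  · rintro ⟨x, h1 | ⟨q, _, h2⟩, h3⟩
    · exact Or.inr ⟨x, h1, h3⟩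
    · left
      rw [← h3, ← h2]
  · rintro (h1 | ⟨x, h1, h3⟩)
    · exact ⟨(h0, d), Or.inr ⟨d, hd, rfl⟩, h1.symm⟩
    · exact ⟨x, Or.inl h1, h3⟩

theorem nn_add {E : Finset (ℕ × ℕ)} {D : Finset ℕ} {h0 : ℕ} (hh : ∀ x ∈ E, x.1 ≠ h0) :
    nn (E ∪ D.image (fun p => (h0, p))) = nn E * pd D := by
  unfold nn pd
  rw [Finset.prod_union, Finset.prod_image]
  · intro a _ b _ h
    exact (congrArg Prod.snd h)
  · rw [Finset.disjoint_left]
    intro x hx hx'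
    obtain ⟨q, _, h2⟩ := Finset.mem_image.1 hx'
    exact hh x hx (by rw [← h2])

theorem filt_in {E : Finset (ℕ × ℕ)} {D H0 : Finset ℕ} {h0 : ℕ} (hh : h0 ∉ H0) :
    (E ∪ D.image (fun p => (h0, p))).filter (fun x => x.1 ∈ H0) = E.filter (fun x => x.1 ∈ H0) := by
  ext x
  simp only [Finset.mem_filter, Finset.mem_union, Finset.mem_image]
  constructor
  · rintro ⟨h1 | ⟨q, _, h2⟩, h3⟩
    · exact ⟨h1, h3⟩
    · exact absurd (by rw [← h2] at h3; exact h3) hh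
  · rintro ⟨h1, h3⟩
    exact ⟨Or.inl h1, h3⟩

theorem filt_out {E : Finset (ℕ × ℕ)} {D H0 : Finset ℕ} {h0 : ℕ} (hh : h0 ∉ H0) :
    (E ∪ D.image (fun p => (h0, p))).filter (fun x => x.1 ∉ H0) =
      E.filter (fun x => x.1 ∉ H0) ∪ D.image (fun p => (h0, p)) := by
  ext x
  simp only [Finset.mem_filter, Finset.mem_union, Finset.mem_image]
  constructor
  · rintro ⟨h1 | h2, h3⟩
    · exact Or.inl ⟨h1, h3⟩
    · exact Or.inr h2
  · rintro (⟨h1, h3⟩ | ⟨q, hq, h2⟩)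
    · exact ⟨Or.inl h1, h3⟩
    · exact ⟨Or.inr ⟨q, hq, h2⟩, by rw [← h2]; exact hh⟩

theorem cf_add {H0 : Finset ℕ} (g α : ℕ → ℝ) (T1 T : ℝ) {h0 : ℕ} (hh0 : h0 ∉ H0)
    {E : Finset (ℕ × ℕ)} (hE : ∀ x ∈ E, x.1 ≠ h0) (D : Finset ℕ) :
    Cf H0 g α T1 T (E ∪ D.image (fun p => (h0, p))) =
      ((∏ h ∈ H0, g (pd (fib E h))) * (∏ h ∈ pos E \ H0, (-α (pd (fib E h)))) *
        (if (nn (E.filter (fun x => x.1 ∈ H0)) : ℝ) ≤ T1 then 1 else 0)) *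
      ((if D = ∅ then 1 else -α (pd D)) *
        (if ((nn (E.filter (fun x => x.1 ∉ H0)) * pd D : ℕ) : ℝ) ≤ T then 1 else 0)) := by
  have hE' : ∀ x ∈ E.filter (fun x => x.1 ∉ H0), x.1 ≠ h0 := fun x hx => hE x (Finset.mem_filter.1 hx).1
  have hpos : h0 ∉ pos E := by
    intro h
    obtain ⟨x, hx, hx'⟩ := Finset.mem_image.1 h
    exact hE x hx hx'
  unfold Cf
  rw [filt_in hh0, filt_out hh0, nn_add hE']
  have e1 : ∏ h ∈ H0, g (pd (fib (E ∪ D.image (fun p => (h0, p))) h)) = ∏ h ∈ H0, g (pd (fib E h)) := by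
    refine Finset.prod_congr rfl fun h hh => ?_
    rw [fib_add_ne]
    rintro rfl
    exact hh0 hh
  have e2 : ∏ h ∈ pos (E ∪ D.image (fun p => (h0, p))) \ H0,
      (-α (pd (fib (E ∪ D.image (fun p => (h0, p))) h))) =
      (if D = ∅ then 1 else -α (pd D)) * ∏ h ∈ pos E \ H0, (-α (pd (fib E h))) := by
    have e3 : ∏ h ∈ pos E \ H0, (-α (pd (fib (E ∪ D.image (fun p => (h0, p))) h))) =
        ∏ h ∈ pos E \ H0, (-α (pd (fib E h))) := by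
      refine Finset.prod_congr rfl fun h hh => ?_
      rw [fib_add_ne]
      rintro rfl
      exact hpos (Finset.mem_sdiff.1 hh).1
    by_cases hD : D = ∅
    · subst hD
      simp
    · rw [if_neg hD, pos_add hD, Finset.insert_sdiff_of_notMem _ hh0, Finset.prod_insert, e3,
        fib_add_eq hE]
      intro h
      exact hpos (Finset.mem_sdiff.1 h).1
  rw [e1, e2]
  ring

theorem cr_out {H0 : Finset ℕ} (Q : Finset ℕ) (g α : ℕ → ℝ) (T1 T : ℝ) {h0 : ℕ} (hh0 : h0 ∉ H0)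
    {E : Finset (ℕ × ℕ)} (hE : ∀ x ∈ E, x.1 ≠ h0) :
    Cr (Cf H0 g α T1 T) Q h0 E =
      ((∏ h ∈ H0, g (pd (fib E h))) * (∏ h ∈ pos E \ H0, (-α (pd (fib E h)))) *
        (if (nn (E.filter (fun x => x.1 ∈ H0)) : ℝ) ≤ T1 then 1 else 0)) *
      wgt Q α T (nn (E.filter (fun x => x.1 ∉ H0))) := by
  unfold Cr wgt
  rw [Finset.mul_sum]
  refine Finset.sum_congr rfl fun D _ => ?_
  rw [cf_add g α T1 T hh0 hE D]
  ring

/-! ### Unions of an inner and an outer part -/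

theorem fib_union_left {E₁ E₂ : Finset (ℕ × ℕ)} {h : ℕ} (hE : ∀ x ∈ E₂, x.1 ≠ h) :
    fib (E₁ ∪ E₂) h = fib E₁ h := by
  ext p
  rw [mem_fib, mem_fib, Finset.mem_union]
  constructor
  · rintro (h1 | h1)
    · exact h1
    · exact absurd rfl (hE _ h1)
  · exact Or.inl

theorem fib_union_right {E₁ E₂ : Finset (ℕ × ℕ)} {h : ℕ} (hE : ∀ x ∈ E₁, x.1 ≠ h) :
    fib (E₁ ∪ E₂) h = fib E₂ h := by
  rw [Finset.union_comm]
  exact fib_union_left hE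

theorem pos_union (E₁ E₂ : Finset (ℕ × ℕ)) : pos (E₁ ∪ E₂) = pos E₁ ∪ pos E₂ :=
  Finset.image_union _ _

theorem pos_sub {A Q : Finset ℕ} {E : Finset (ℕ × ℕ)} (hE : E ⊆ A ×ˢ Q) : pos E ⊆ A := by
  intro h hh
  obtain ⟨x, hx, rfl⟩ := Finset.mem_image.1 hh
  exact (Finset.mem_product.1 (hE hx)).1

end M2

open M2

theorem dg_out {Q Po H0 : Finset ℕ} (hQ : ∀ q ∈ Q, q.Prime) (hH : H0 ⊆ Po) (g α : ℕ → ℝ)
    {T1 T Tl Te V : ℝ} (hV : 0 ≤ V) (hα : ∀ r, 0 ≤ α r) (hα1 : α 1 = 0)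
    (hsum : ∑ D ∈ Q.powerset, α (pd D) * pf D = 1)
    (hTe : ∀ r, α r ≠ 0 → (r : ℝ) ≤ Te) (hT : Tl * Te ≤ T) (hTl : 0 ≤ Tl) {h0 : ℕ} (h0P : h0 ∈ Po \ H0) :
    Dg Q (Po.erase h0) (insert h0 H0) V (Cr (Cf H0 g α T1 T) Q h0) ≤
      V ^ (#H0 + 1) * (DI Q H0 g T1 * DO Q (Po \ H0) α V Tl T) := by
  obtain ⟨h0P', hh0⟩ := Finset.mem_sdiff.1 h0P
  have hPo : Po.erase h0 = H0 ∪ (Po \ H0).erase h0 := by
    ext h
    simp only [Finset.mem_erase, Finset.mem_union, Finset.mem_sdiff]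
    constructor
    · rintro ⟨h1, h2⟩
      by_cases h3 : h ∈ H0
      · exact Or.inl h3
      · exact Or.inr ⟨h1, h2, h3⟩
    · rintro (h1 | ⟨h1, h2, _⟩)
      · exact ⟨fun h2 => hh0 (h2 ▸ h1), hH h1⟩
      · exact ⟨h1, h2⟩
  have hdisj : Disjoint H0 ((Po \ H0).erase h0) := by
    rw [Finset.disjoint_left]
    intro h h1 h2
    exact (Finset.mem_sdiff.1 (Finset.mem_of_mem_erase h2)).2 h1
  -- the terms
  have hterm : ∀ E₁ ∈ (H0 ×ˢ Q).powerset, ∀ E₂ ∈ (((Po \ H0).erase h0) ×ˢ Q).powerset,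
      Cr (Cf H0 g α T1 T) Q h0 (E₁ ∪ E₂) ^ 2 * (V ^ #(insert h0 H0 ∪ pos (E₁ ∪ E₂)) * ph (E₁ ∪ E₂)) ≤
        V ^ (#H0 + 1) *
          ((if (nn E₁ : ℝ) ≤ T1 then (∏ h ∈ H0, g (pd (fib E₁ h)) ^ 2) * ph E₁ else 0) *
          (if Tl < (nn E₂ : ℝ) ∧ (nn E₂ : ℝ) ≤ T then
            (∏ h ∈ pos E₂, (V * α (pd (fib E₂ h)) ^ 2)) * ph E₂ else 0)) := by
    intro E₁ hE₁ E₂ hE₂
    rw [Finset.mem_powerset] at hE₁ hE₂
    have a1 : ∀ x ∈ E₁, x.1 ∈ H0 := fun x hx => (Finset.mem_product.1 (hE₁ hx)).1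
    have a2 : ∀ x ∈ E₂, x.1 ∈ (Po \ H0).erase h0 := fun x hx => (Finset.mem_product.1 (hE₂ hx)).1
    have a3 : ∀ x ∈ E₂, x.1 ∉ H0 := fun x hx => (Finset.mem_sdiff.1 (Finset.mem_of_mem_erase (a2 x hx))).2
    have a4 : ∀ x ∈ E₁ ∪ E₂, x.1 ≠ h0 := by
      intro x hx
      rcases Finset.mem_union.1 hx with hx | hx
      · intro h
        exact hh0 (h ▸ a1 x hx)
      · exact Finset.ne_of_mem_erase (a2 x hx)
    have p1 : pos E₁ ⊆ H0 := pos_sub hE₁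
    have p2 : pos E₂ ⊆ (Po \ H0).erase h0 := pos_sub hE₂
    have p3 : Disjoint (insert h0 H0) (pos E₂) := by
      rw [Finset.disjoint_left]
      intro h h1 h2
      rcases Finset.mem_insert.1 h1 with h3 | h3
      · exact Finset.ne_of_mem_erase (p2 h2) h3
      · exact (Finset.mem_sdiff.1 (Finset.mem_of_mem_erase (p2 h2))).2 h3
    have f1 : (E₁ ∪ E₂).filter (fun x => x.1 ∈ H0) = E₁ := by
      ext x
      simp only [Finset.mem_filter, Finset.mem_union]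
      constructor
      · rintro ⟨h1 | h1, h2⟩
        · exact h1
        · exact absurd h2 (a3 x h1)
      · intro h1
        exact ⟨Or.inl h1, a1 x h1⟩
    have f2 : (E₁ ∪ E₂).filter (fun x => x.1 ∉ H0) = E₂ := by
      ext x
      simp only [Finset.mem_filter, Finset.mem_union]
      constructor
      · rintro ⟨h1 | h1, h2⟩
        · exact absurd (a1 x h1) h2
        · exact h1
      · intro h1
        exact ⟨Or.inr h1, a3 x h1⟩
    have g1 : ∏ h ∈ H0, g (pd (fib (E₁ ∪ E₂) h)) = ∏ h ∈ H0, g (pd (fib E₁ h)) := by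
      refine Finset.prod_congr rfl fun h hh => ?_
      rw [fib_union_left]
      intro x hx hx'
      exact a3 x hx (hx' ▸ hh)
    have g2 : pos (E₁ ∪ E₂) \ H0 = pos E₂ := by
      rw [pos_union, Finset.union_sdiff_distrib, Finset.sdiff_eq_empty_iff_subset.2 p1, Finset.empty_union]
      refine Finset.sdiff_eq_self_of_disjoint ?_
      rw [Finset.disjoint_left]
      intro h h1 h2
      exact (Finset.disjoint_left.1 p3) (Finset.mem_insert_of_mem h2) h1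
    have g3 : ∏ h ∈ pos E₂, (-α (pd (fib (E₁ ∪ E₂) h))) = ∏ h ∈ pos E₂, (-α (pd (fib E₂ h))) := by
      refine Finset.prod_congr rfl fun h hh => ?_
      rw [fib_union_right]
      intro x hx hx'
      exact (Finset.disjoint_left.1 p3) (Finset.mem_insert_of_mem (a1 x hx)) (hx' ▸ hh)
    have g4 : #(insert h0 H0 ∪ pos (E₁ ∪ E₂)) = #H0 + 1 + #(pos E₂) := by
      have : insert h0 H0 ∪ pos (E₁ ∪ E₂) = insert h0 H0 ∪ pos E₂ := by
        rw [pos_union, ← Finset.union_assoc]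
        congr 1
        exact Finset.union_eq_left.2 (p1.trans (Finset.subset_insert _ _))
      rw [this, Finset.card_union_of_disjoint p3, Finset.card_insert_of_notMem hh0]
    have g5 : ph (E₁ ∪ E₂) = ph E₁ * ph E₂ := by
      unfold ph
      rw [Finset.prod_union]
      rw [Finset.disjoint_left]
      intro x h1 h2
      exact a3 x h2 (a1 x h1)
    have hph1 : 0 ≤ ph E₁ := ph_nonneg hQ hE₁
    have hph2 : 0 ≤ ph E₂ := ph_nonneg hQ hE₂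
    rw [cr_out Q g α T1 T hh0 a4, f1, f2, g1, g2, g3, g4, g5]
    have hw0 := wgt_nonneg hQ α hα hα1 hsum T (nn E₂)
    have hw1 := wgt_le_one hQ α hα hα1 T (nn E₂)
    -- square of the weight
    have hw : wgt Q α T (nn E₂) ^ 2 ≤ if Tl < (nn E₂ : ℝ) ∧ (nn E₂ : ℝ) ≤ T then 1 else 0 := by
      split_ifs with hc
      · exact pow_le_one₀ hw0 hw1
      · have hz : wgt Q α T (nn E₂) = 0 := by
          by_cases h1 : Tl < (nn E₂ : ℝ)
          · have h2 : T < (nn E₂ : ℝ) := by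
              by_contra h2
              exact hc ⟨h1, not_lt.1 h2⟩
            exact wgt_eq_zero_of_lt hQ α hα1 h2
          · exact wgt_eq_zero_of_le hQ α hα hα1 hsum hTe hT hTl (not_lt.1 h1)
        rw [hz]
        norm_num
    have hA : 0 ≤ (∏ h ∈ pos E₂, (V * α (pd (fib E₂ h)) ^ 2)) * ph E₂ :=
      mul_nonneg (Finset.prod_nonneg fun h _ => mul_nonneg hV (sq_nonneg _)) hph2
    have hB : 0 ≤ (if (nn E₁ : ℝ) ≤ T1 then (∏ h ∈ H0, g (pd (fib E₁ h)) ^ 2) * ph E₁ else 0) := by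
      split_ifs
      · exact mul_nonneg (Finset.prod_nonneg fun h _ => sq_nonneg _) hph1
      · exact le_rfl
    have e0 : (if (nn E₁ : ℝ) ≤ T1 then (1 : ℝ) else 0) ^ 2 * ((∏ h ∈ H0, g (pd (fib E₁ h)) ^ 2) * ph E₁) =
        (if (nn E₁ : ℝ) ≤ T1 then (∏ h ∈ H0, g (pd (fib E₁ h)) ^ 2) * ph E₁ else 0) := by
      split_ifs <;> ring
    have e1 : (∏ h ∈ pos E₂, (V * α (pd (fib E₂ h)) ^ 2)) =
        V ^ #(pos E₂) * (∏ h ∈ pos E₂, (-α (pd (fib E₂ h)))) ^ 2 := by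
      rw [Finset.prod_mul_distrib, Finset.prod_const, ← Finset.prod_pow]
      congr 1
      refine Finset.prod_congr rfl fun h _ => ?_
      ring
    have e2 : (if Tl < (nn E₂ : ℝ) ∧ (nn E₂ : ℝ) ≤ T then
            (∏ h ∈ pos E₂, (V * α (pd (fib E₂ h)) ^ 2)) * ph E₂ else 0) =
        ((∏ h ∈ pos E₂, (V * α (pd (fib E₂ h)) ^ 2)) * ph E₂) *
          (if Tl < (nn E₂ : ℝ) ∧ (nn E₂ : ℝ) ≤ T then 1 else 0) := by
      split_ifs <;> ring
    rw [e2, ← e0]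
    rw [← e0] at hB
    calc _ = V ^ (#H0 + 1) * (((if (nn E₁ : ℝ) ≤ T1 then (1 : ℝ) else 0) ^ 2 *
            ((∏ h ∈ H0, g (pd (fib E₁ h)) ^ 2) * ph E₁)) *
            (((∏ h ∈ pos E₂, (V * α (pd (fib E₂ h)) ^ 2)) * ph E₂) * wgt Q α T (nn E₂) ^ 2)) := by
          have e3 : ∏ h ∈ H0, g (pd (fib E₁ h)) ^ 2 = (∏ h ∈ H0, g (pd (fib E₁ h))) ^ 2 :=
            Finset.prod_pow _ _ _
          rw [e1, e3, pow_add V (#H0 + 1) (#(pos E₂))]
          ring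
      _ ≤ _ := by
          refine mul_le_mul_of_nonneg_left ?_ (pow_nonneg hV _)
          refine mul_le_mul_of_nonneg_left ?_ hB
          exact mul_le_mul_of_nonneg_left hw hA
  have hsub : (((Po \ H0).erase h0) ×ˢ Q).powerset ⊆ ((Po \ H0) ×ˢ Q).powerset := by
    refine Finset.powerset_mono.2 ?_
    exact Finset.product_subset_product (Finset.erase_subset _ _) (Finset.Subset.refl _)
  have hDI : DI Q H0 g T1 = ∑ E ∈ (H0 ×ˢ Q).powerset,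
      (if (nn E : ℝ) ≤ T1 then (∏ h ∈ H0, g (pd (fib E h)) ^ 2) * ph E else 0) := by
    unfold DI
    rw [Finset.sum_filter]
  have hDI0 : 0 ≤ DI Q H0 g T1 := by
    unfold DI
    refine Finset.sum_nonneg fun E hE => ?_
    exact mul_nonneg (Finset.prod_nonneg fun h _ => sq_nonneg _)
      (ph_nonneg hQ (Finset.mem_powerset.1 (Finset.mem_filter.1 hE).1))
  have hDO : ∑ E ∈ (((Po \ H0).erase h0) ×ˢ Q).powerset,
      (if Tl < (nn E : ℝ) ∧ (nn E : ℝ) ≤ T then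
        (∏ h ∈ pos E, (V * α (pd (fib E h)) ^ 2)) * ph E else 0) ≤ DO Q (Po \ H0) α V Tl T := by
    unfold DO
    rw [Finset.sum_filter]
    refine Finset.sum_le_sum_of_subset_of_nonneg hsub fun E hE _ => ?_
    split_ifs
    · exact mul_nonneg (Finset.prod_nonneg fun h _ => mul_nonneg hV (sq_nonneg _))
        (ph_nonneg hQ (Finset.mem_powerset.1 hE))
    · exact le_rfl
  unfold Dg
  rw [hPo, sum_split _ _ _ hdisj]
  calc _ ≤ ∑ E₁ ∈ (H0 ×ˢ Q).powerset, ∑ E₂ ∈ (((Po \ H0).erase h0) ×ˢ Q).powerset,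
        V ^ (#H0 + 1) *
          ((if (nn E₁ : ℝ) ≤ T1 then (∏ h ∈ H0, g (pd (fib E₁ h)) ^ 2) * ph E₁ else 0) *
          (if Tl < (nn E₂ : ℝ) ∧ (nn E₂ : ℝ) ≤ T then
            (∏ h ∈ pos E₂, (V * α (pd (fib E₂ h)) ^ 2)) * ph E₂ else 0)) :=
        Finset.sum_le_sum fun E₁ h₁ => Finset.sum_le_sum fun E₂ h₂ => hterm E₁ h₁ E₂ h₂
    _ = V ^ (#H0 + 1) * (DI Q H0 g T1 * ∑ E ∈ (((Po \ H0).erase h0) ×ˢ Q).powerset,
          (if Tl < (nn E : ℝ) ∧ (nn E : ℝ) ≤ T then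
            (∏ h ∈ pos E, (V * α (pd (fib E h)) ^ 2)) * ph E else 0)) := by
        rw [hDI, Finset.sum_mul_sum, Finset.mul_sum]
        refine Finset.sum_congr rfl fun E₁ _ => ?_
        rw [Finset.mul_sum]
    _ ≤ _ := by
        refine mul_le_mul_of_nonneg_left ?_ (pow_nonneg hV _)
        exact mul_le_mul_of_nonneg_left hDO hDI0

theorem cr_abs_out {Q Po H0 : Finset ℕ} (hQ : ∀ q ∈ Q, q.Prime) (hH : H0 ⊆ Po) {g α : ℕ → ℝ}
    (hg : ∀ r, 0 ≤ g r) (hg1 : ∀ r, g r ≤ 1) (hα : ∀ r, 0 ≤ α r) (hα1 : ∀ r, α r ≤ 1) (hα0 : α 1 = 0)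
    (hsum : ∑ D ∈ Q.powerset, α (pd D) * pf D = 1) (T1 T : ℝ) {h0 : ℕ} (h0P : h0 ∈ Po \ H0)
    (E : Finset (ℕ × ℕ)) (hE : E ∈ ((Po.erase h0) ×ˢ Q).powerset) : |Cr (Cf H0 g α T1 T) Q h0 E| ≤ 1 := by
  obtain ⟨h0P', hh0⟩ := Finset.mem_sdiff.1 h0P
  have hE' : ∀ x ∈ E, x.1 ≠ h0 := fun x hx =>
    Finset.ne_of_mem_erase (Finset.mem_product.1 (Finset.mem_powerset.1 hE hx)).1
  rw [cr_out Q g α T1 T hh0 hE', abs_mul, abs_mul, abs_mul, Finset.abs_prod, Finset.abs_prod]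
  have h1 : ∏ h ∈ H0, |g (pd (fib E h))| ≤ 1 :=
    Finset.prod_le_one (fun _ _ => abs_nonneg _) fun h _ => by rw [abs_of_nonneg (hg _)]; exact hg1 _
  have h2 : ∏ h ∈ pos E \ H0, |(-α (pd (fib E h)))| ≤ 1 :=
    Finset.prod_le_one (fun _ _ => abs_nonneg _) fun h _ => by
      rw [abs_neg, abs_of_nonneg (hα _)]; exact hα1 _
  have h3 : |(if (nn (E.filter (fun x => x.1 ∈ H0)) : ℝ) ≤ T1 then (1 : ℝ) else 0)| ≤ 1 := by
    split_ifs <;> simp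
  have h4 : |wgt Q α T (nn (E.filter (fun x => x.1 ∉ H0)))| ≤ 1 := by
    rw [abs_of_nonneg (wgt_nonneg hQ α hα hα0 hsum _ _)]
    exact wgt_le_one hQ α hα hα0 _ _
  have p1 : 0 ≤ ∏ h ∈ H0, |g (pd (fib E h))| := Finset.prod_nonneg fun _ _ => abs_nonneg _
  have p2 : 0 ≤ ∏ h ∈ pos E \ H0, |(-α (pd (fib E h)))| := Finset.prod_nonneg fun _ _ => abs_nonneg _
  exact mul_le_one₀ (mul_le_one₀ (mul_le_one₀ h1 p2 h2) (abs_nonneg _) h3) (abs_nonneg _) h4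

end Pool.Agent.H81.AS
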