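import Pool.Agent.H81.AS.MDefs

/-!
JOB AS-MAIN3. The restricted coefficients at a position `i` of `H0`.

PROOF of `dg_in`. For `i ∈ H0`, `E ⊆ (Po.erase i) ×ˢ Q`, `E = E₁ ∪ E₂` with `E₁ ⊆ (H0.erase i) ×ˢ Q`,
`E₂ ⊆ (Po \ H0) ×ˢ Q`:
`Cr = (∏_{H0.erase i} g) ∏(-α) [nn E₂ ≤ T] ∑_D g(pd D) pf D [nn E₁ * pd D ≤ T1]`, and if `nn E₁ ≤ T1l` the last sum is
the full sum `B` (`g (pd D) = 0` unless `pd D ≤ Tg`, `T1l * Tg ≤ T1`); otherwise it is `≥ 0`.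
`#(H0.erase i ∪ pos E) = #H0 - 1 + #(pos E₂)`.
PROOF of `cr_abs_in`. The same formula.
-/

set_option autoImplicit false

open Finset Filter Topology

namespace Pool.Agent.H81.AS

open Pool.Agent.H16

theorem m3_mem {Q A : Finset ℕ} {E : Finset (ℕ × ℕ)} (hE : E ⊆ A ×ˢ Q) {h p : ℕ} (hx : (h, p) ∈ E) :
    h ∈ A ∧ p ∈ Q := by
  have := hE hx
  simpa [Finset.mem_product] using this

theorem m3_pos {E : Finset (ℕ × ℕ)} {h : ℕ} : h ∈ pos E ↔ ∃ p, (h, p) ∈ E := by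
  simp [pos]

theorem m3_pos_subset {Q A : Finset ℕ} {E : Finset (ℕ × ℕ)} (hE : E ⊆ A ×ˢ Q) : pos E ⊆ A := by
  intro h hh
  obtain ⟨p, hp⟩ := m3_pos.1 hh
  exact (m3_mem hE hp).1

theorem m3_cf {Q Po H0 : Finset ℕ} (g α : ℕ → ℝ) (T1 T : ℝ) {i : ℕ} (hi : i ∈ H0)
    {E₁ E₂ : Finset (ℕ × ℕ)} (h1 : E₁ ⊆ (H0.erase i) ×ˢ Q) (h2 : E₂ ⊆ (Po \ H0) ×ˢ Q)
    (D : Finset ℕ) :
    Cf H0 g α T1 T ((E₁ ∪ E₂) ∪ D.image (fun p => (i, p))) =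
      ((∏ h ∈ H0.erase i, g (pd (fib E₁ h))) * (∏ h ∈ pos E₂, (-α (pd (fib E₂ h)))) *
        (if (nn E₂ : ℝ) ≤ T then 1 else 0)) *
      (g (pd D) * (if (nn E₁ : ℝ) * (pd D : ℝ) ≤ T1 then 1 else 0)) := by
  classical
  set E := (E₁ ∪ E₂) ∪ D.image (fun p => (i, p)) with hEdef
  have mE : ∀ h p, (h, p) ∈ E ↔ ((h, p) ∈ E₁ ∨ (h, p) ∈ E₂) ∨ (p ∈ D ∧ i = h) := by
    intro h p
    simp only [hEdef, Finset.mem_union, Finset.mem_image, Prod.mk.injEq]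
    constructor
    · rintro (h | ⟨q, hq, rfl, rfl⟩)
      · exact Or.inl h
      · exact Or.inr ⟨hq, rfl⟩
    · rintro (h | ⟨hq, rfl⟩)
      · exact Or.inl h
      · exact Or.inr ⟨p, hq, rfl, rfl⟩
  have f1 : ∀ h ∈ H0.erase i, fib E h = fib E₁ h := by
    intro h hh
    ext p
    rw [mem_fib, mem_fib, mE]
    constructor
    · rintro ((h3 | h3) | ⟨-, h3⟩)
      · exact h3
      · exact absurd (Finset.mem_of_mem_erase hh) (Finset.mem_sdiff.1 (m3_mem h2 h3).1).2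
      · exact absurd h3.symm (Finset.ne_of_mem_erase hh)
    · intro h3
      exact Or.inl (Or.inl h3)
  have f2 : fib E i = D := by
    ext p
    rw [mem_fib, mE]
    constructor
    · rintro ((h3 | h3) | ⟨h3, -⟩)
      · exact absurd rfl (Finset.ne_of_mem_erase (m3_mem h1 h3).1)
      · exact absurd hi (Finset.mem_sdiff.1 (m3_mem h2 h3).1).2
      · exact h3
    · intro h3
      exact Or.inr ⟨h3, rfl⟩
  have f3 : pos E \ H0 = pos E₂ := by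
    ext h
    rw [Finset.mem_sdiff, m3_pos, m3_pos]
    constructor
    · rintro ⟨⟨p, hp⟩, hn⟩
      rcases (mE h p).1 hp with (h3 | h3) | ⟨-, h3⟩
      · exact absurd (Finset.mem_of_mem_erase (m3_mem h1 h3).1) hn
      · exact ⟨p, h3⟩
      · subst h3
        exact absurd hi hn
    · rintro ⟨p, hp⟩
      exact ⟨⟨p, (mE h p).2 (Or.inl (Or.inr hp))⟩, (Finset.mem_sdiff.1 (m3_mem h2 hp).1).2⟩
  have f4 : ∀ h ∈ pos E₂, fib E h = fib E₂ h := by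
    intro h hh
    obtain ⟨q, hq⟩ := m3_pos.1 hh
    have hn := (Finset.mem_sdiff.1 (m3_mem h2 hq).1).2
    ext p
    rw [mem_fib, mem_fib, mE]
    constructor
    · rintro ((h3 | h3) | ⟨-, h3⟩)
      · exact absurd (Finset.mem_of_mem_erase (m3_mem h1 h3).1) hn
      · exact h3
      · subst h3
        exact absurd hi hn
    · intro h3
      exact Or.inl (Or.inr h3)
  have f5 : E.filter (fun x => x.1 ∈ H0) = E₁ ∪ D.image (fun p => (i, p)) := by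
    ext ⟨h, p⟩
    rw [Finset.mem_filter, mE, Finset.mem_union, Finset.mem_image]
    constructor
    · rintro ⟨(h3 | h3) | ⟨h3, h4⟩, h5⟩
      · exact Or.inl h3
      · exact absurd h5 (Finset.mem_sdiff.1 (m3_mem h2 h3).1).2
      · exact Or.inr ⟨p, h3, by rw [h4]⟩
    · rintro (h3 | ⟨q, hq, h3⟩)
      · exact ⟨Or.inl (Or.inl h3), Finset.mem_of_mem_erase (m3_mem h1 h3).1⟩
      · obtain ⟨rfl, rfl⟩ := Prod.mk.inj h3
        exact ⟨Or.inr ⟨hq, rfl⟩, hi⟩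
  have f6 : E.filter (fun x => x.1 ∉ H0) = E₂ := by
    ext ⟨h, p⟩
    rw [Finset.mem_filter, mE]
    constructor
    · rintro ⟨(h3 | h3) | ⟨-, h4⟩, h5⟩
      · exact absurd (Finset.mem_of_mem_erase (m3_mem h1 h3).1) h5
      · exact h3
      · subst h4
        exact absurd hi h5
    · intro h3
      exact ⟨Or.inl (Or.inr h3), (Finset.mem_sdiff.1 (m3_mem h2 h3).1).2⟩
  have f7 : nn (E₁ ∪ D.image (fun p => (i, p))) = nn E₁ * pd D := by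
    rw [nn, Finset.prod_union, Finset.prod_image]
    · rfl
    · intro a _ b _ hab
      exact (Prod.mk.inj hab).2
    · rw [Finset.disjoint_left]
      rintro ⟨h, p⟩ h3 h4
      obtain ⟨q, -, h5⟩ := Finset.mem_image.1 h4
      obtain ⟨rfl, rfl⟩ := Prod.mk.inj h5
      exact absurd rfl (Finset.ne_of_mem_erase (m3_mem h1 h3).1)
  rw [Cf, f3, f5, f6, f7, ← Finset.mul_prod_erase H0 _ hi, f2,
    Finset.prod_congr rfl (fun h hh => by rw [f1 h hh]),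
    Finset.prod_congr (rfl : pos E₂ = pos E₂) (fun h hh => by rw [f4 h hh]), Nat.cast_mul]
  ring

theorem m3_cr {Q Po H0 : Finset ℕ} (g α : ℕ → ℝ) (T1 T : ℝ) {i : ℕ} (hi : i ∈ H0)
    {E₁ E₂ : Finset (ℕ × ℕ)} (h1 : E₁ ⊆ (H0.erase i) ×ˢ Q) (h2 : E₂ ⊆ (Po \ H0) ×ˢ Q) :
    Cr (Cf H0 g α T1 T) Q i (E₁ ∪ E₂) =
      ((∏ h ∈ H0.erase i, g (pd (fib E₁ h))) * (∏ h ∈ pos E₂, (-α (pd (fib E₂ h)))) *
        (if (nn E₂ : ℝ) ≤ T then 1 else 0)) *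
      ∑ D ∈ Q.powerset, (g (pd D) * pf D) *
        (if (nn E₁ : ℝ) * (pd D : ℝ) ≤ T1 then 1 else 0) := by
  rw [Cr, Finset.mul_sum]
  refine Finset.sum_congr rfl fun D _ => ?_
  rw [m3_cf g α T1 T hi h1 h2 D]
  ring

theorem m3_pf_nonneg {Q D : Finset ℕ} (hQ : ∀ q ∈ Q, q.Prime) (hD : D ⊆ Q) : 0 ≤ pf D := by
  refine Finset.prod_nonneg fun p hp => ?_
  have h1 : (1 : ℝ) ≤ p := by exact_mod_cast (hQ p (hD hp)).one_lt.le
  exact div_nonneg zero_le_one (by linarith)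

theorem m3_ph_nonneg {Q A : Finset ℕ} {E : Finset (ℕ × ℕ)} (hQ : ∀ q ∈ Q, q.Prime)
    (hE : E ⊆ A ×ˢ Q) : 0 ≤ ph E := by
  refine Finset.prod_nonneg fun x hx => ?_
  have h1 : (1 : ℝ) ≤ x.2 := by
    exact_mod_cast (hQ x.2 (m3_mem hE (h := x.1) (p := x.2) hx).2).one_lt.le
  exact div_nonneg zero_le_one (by linarith)

theorem m3_nn_pos {Q A : Finset ℕ} {E : Finset (ℕ × ℕ)} (hQ : ∀ q ∈ Q, q.Prime)
    (hE : E ⊆ A ×ˢ Q) : 0 < nn E := by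
  refine Finset.prod_pos fun x hx => ?_
  exact (hQ x.2 (m3_mem hE (h := x.1) (p := x.2) hx).2).pos

theorem m3_split {Po H0 : Finset ℕ} (hH : H0 ⊆ Po) {i : ℕ} (hi : i ∈ H0) :
    Po.erase i = (H0.erase i) ∪ (Po \ H0) := by
  ext h
  simp only [Finset.mem_erase, Finset.mem_union, Finset.mem_sdiff]
  constructor
  · rintro ⟨h1, h2⟩
    by_cases h3 : h ∈ H0
    · exact Or.inl ⟨h1, h3⟩
    · exact Or.inr ⟨h2, h3⟩
  · rintro (⟨h1, h2⟩ | ⟨h1, h2⟩)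
    · exact ⟨h1, hH h2⟩
    · exact ⟨fun h3 => h2 (h3 ▸ hi), h1⟩

theorem m3_disj {Po H0 : Finset ℕ} (i : ℕ) : Disjoint (H0.erase i) (Po \ H0) := by
  rw [Finset.disjoint_left]
  intro h h1 h2
  exact (Finset.mem_sdiff.1 h2).2 (Finset.mem_of_mem_erase h1)

theorem m3_ph_union {Q Po H0 : Finset ℕ} {i : ℕ}
    {E₁ E₂ : Finset (ℕ × ℕ)} (h1 : E₁ ⊆ (H0.erase i) ×ˢ Q) (h2 : E₂ ⊆ (Po \ H0) ×ˢ Q) :
    ph (E₁ ∪ E₂) = ph E₁ * ph E₂ := by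
  rw [ph, Finset.prod_union]
  · rfl
  · rw [Finset.disjoint_left]
    rintro ⟨h, p⟩ h3 h4
    exact (Finset.disjoint_left.1 (m3_disj i)) (m3_mem h1 h3).1 (m3_mem h2 h4).1

theorem m3_card {Q Po H0 : Finset ℕ} {i : ℕ} (hi : i ∈ H0)
    {E₁ E₂ : Finset (ℕ × ℕ)} (h1 : E₁ ⊆ (H0.erase i) ×ˢ Q) (h2 : E₂ ⊆ (Po \ H0) ×ˢ Q) :
    #(H0.erase i ∪ pos (E₁ ∪ E₂)) = (#H0 - 1) + #(pos E₂) := by
  have h3 : H0.erase i ∪ pos (E₁ ∪ E₂) = H0.erase i ∪ pos E₂ := by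
    ext h
    simp only [Finset.mem_union, m3_pos]
    constructor
    · rintro (h4 | ⟨p, h4 | h4⟩)
      · exact Or.inl h4
      · exact Or.inl (m3_mem h1 h4).1
      · exact Or.inr ⟨p, h4⟩
    · rintro (h4 | ⟨p, h4⟩)
      · exact Or.inl h4
      · exact Or.inr ⟨p, Or.inr h4⟩
  rw [h3, Finset.card_union_of_disjoint, Finset.card_erase_of_mem hi]
  exact (m3_disj i).mono_right (m3_pos_subset h2)

theorem dg_in {Q Po H0 : Finset ℕ} (hQ : ∀ q ∈ Q, q.Prime) (hH : H0 ⊆ Po) (g α : ℕ → ℝ)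
    {T1 T T1l Tg V : ℝ} (hV : 0 ≤ V) (hg : ∀ r, 0 ≤ g r) (hTg : ∀ r, g r ≠ 0 → (r : ℝ) ≤ Tg)
    (hT1 : T1l * Tg ≤ T1) (hT1l : 0 ≤ T1l) {i : ℕ} (hi : i ∈ H0) :
    V ^ (#H0 - 1) * ((∑ D ∈ Q.powerset, g (pd D) * pf D) ^ 2 *
        (DI Q (H0.erase i) g T1l * DO Q (Po \ H0) α V 0 T)) ≤
      Dg Q (Po.erase i) (H0.erase i) V (Cr (Cf H0 g α T1 T) Q i) := by
  classical
  set B := ∑ D ∈ Q.powerset, g (pd D) * pf D with hB
  rw [Dg, m3_split hH hi, sum_split _ _ _ (m3_disj i), DI, DO, Finset.sum_mul_sum, Finset.mul_sum,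
    Finset.mul_sum, Finset.sum_filter]
  refine Finset.sum_le_sum fun E₁ hE₁ => ?_
  have h1 : E₁ ⊆ (H0.erase i) ×ˢ Q := Finset.mem_powerset.1 hE₁
  have hRHS : ∀ E₂ ∈ ((Po \ H0) ×ˢ Q).powerset,
      0 ≤ Cr (Cf H0 g α T1 T) Q i (E₁ ∪ E₂) ^ 2 *
        (V ^ #(H0.erase i ∪ pos (E₁ ∪ E₂)) * ph (E₁ ∪ E₂)) := by
    intro E₂ hE₂
    have h2 : E₂ ⊆ (Po \ H0) ×ˢ Q := Finset.mem_powerset.1 hE₂
    rw [m3_ph_union h1 h2]
    exact mul_nonneg (sq_nonneg _) (mul_nonneg (pow_nonneg hV _)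
      (mul_nonneg (m3_ph_nonneg hQ h1) (m3_ph_nonneg hQ h2)))
  split_ifs with hl
  swap
  · exact Finset.sum_nonneg hRHS
  rw [Finset.sum_filter, Finset.mul_sum, Finset.mul_sum]
  refine Finset.sum_le_sum fun E₂ hE₂ => ?_
  have h2 : E₂ ⊆ (Po \ H0) ×ˢ Q := Finset.mem_powerset.1 hE₂
  split_ifs with hT
  swap
  · rw [mul_zero, mul_zero]
    exact hRHS E₂ hE₂
  have hsum : ∑ D ∈ Q.powerset, (g (pd D) * pf D) *
      (if (nn E₁ : ℝ) * (pd D : ℝ) ≤ T1 then (1 : ℝ) else 0) = B := by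
    rw [hB]
    refine Finset.sum_congr rfl fun D _ => ?_
    by_cases h0 : g (pd D) = 0
    · rw [h0]
      ring
    · have h4 : (pd D : ℝ) ≤ Tg := hTg _ h0
      have h5 : (nn E₁ : ℝ) * (pd D : ℝ) ≤ T1 :=
        (mul_le_mul hl h4 (Nat.cast_nonneg _) hT1l).trans hT1
      rw [if_pos h5, mul_one]
  rw [m3_cr g α T1 T hi h1 h2, hsum, m3_ph_union h1 h2, m3_card hi h1 h2, if_pos hT.2]
  have hα2 : ∏ h ∈ pos E₂, V * α (pd (fib E₂ h)) ^ 2 =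
      V ^ #(pos E₂) * (∏ h ∈ pos E₂, (-α (pd (fib E₂ h)))) ^ 2 := by
    rw [← Finset.prod_pow, ← Finset.prod_const, ← Finset.prod_mul_distrib]
    refine Finset.prod_congr rfl fun h _ => ?_
    ring
  have hg2 : ∏ h ∈ H0.erase i, g (pd (fib E₁ h)) ^ 2 = (∏ h ∈ H0.erase i, g (pd (fib E₁ h))) ^ 2 := by
    rw [Finset.prod_pow]
  rw [hα2, hg2]
  refine le_of_eq ?_
  ring

theorem cr_abs_in {Q Po H0 : Finset ℕ} (hQ : ∀ q ∈ Q, q.Prime) (hH : H0 ⊆ Po) {g α : ℕ → ℝ}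
    (hg : ∀ r, 0 ≤ g r) (hg1 : ∀ r, g r ≤ 1) (hα : ∀ r, 0 ≤ α r) (hα1 : ∀ r, α r ≤ 1)
    (T1 T : ℝ) {i : ℕ} (hi : i ∈ H0) (E : Finset (ℕ × ℕ)) (hE : E ∈ ((Po.erase i) ×ˢ Q).powerset) :
    |Cr (Cf H0 g α T1 T) Q i E| ≤ ∑ D ∈ Q.powerset, g (pd D) * pf D := by
  classical
  have hE' : E ⊆ (Po.erase i) ×ˢ Q := Finset.mem_powerset.1 hE
  set E₁ := E.filter (fun x => x.1 ∈ H0) with hE₁
  set E₂ := E.filter (fun x => x.1 ∉ H0) with hE₂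
  have h1 : E₁ ⊆ (H0.erase i) ×ˢ Q := by
    rintro ⟨h, p⟩ hx
    rw [hE₁, Finset.mem_filter] at hx
    have := m3_mem hE' hx.1
    exact Finset.mem_product.2 ⟨Finset.mem_erase.2 ⟨Finset.ne_of_mem_erase this.1, hx.2⟩, this.2⟩
  have h2 : E₂ ⊆ (Po \ H0) ×ˢ Q := by
    rintro ⟨h, p⟩ hx
    rw [hE₂, Finset.mem_filter] at hx
    have := m3_mem hE' hx.1
    exact Finset.mem_product.2 ⟨Finset.mem_sdiff.2 ⟨Finset.mem_of_mem_erase this.1, hx.2⟩, this.2⟩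
  have h3 : E = E₁ ∪ E₂ := by
    rw [hE₁, hE₂, Finset.filter_union_filter_not_eq]
  have hterm : ∀ D ∈ Q.powerset, 0 ≤ g (pd D) * pf D := fun D hD =>
    mul_nonneg (hg _) (m3_pf_nonneg hQ (Finset.mem_powerset.1 hD))
  have hS : |∑ D ∈ Q.powerset, (g (pd D) * pf D) *
      (if (nn E₁ : ℝ) * (pd D : ℝ) ≤ T1 then (1 : ℝ) else 0)| ≤ ∑ D ∈ Q.powerset, g (pd D) * pf D := by
    rw [abs_of_nonneg]
    · refine Finset.sum_le_sum fun D hD => ?_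
      refine mul_le_of_le_one_right (hterm D hD) ?_
      split_ifs
      · exact le_refl _
      · exact zero_le_one
    · refine Finset.sum_nonneg fun D hD => mul_nonneg (hterm D hD) ?_
      split_ifs
      · exact zero_le_one
      · exact le_refl _
  have hA : |∏ h ∈ H0.erase i, g (pd (fib E₁ h))| ≤ 1 := by
    rw [Finset.abs_prod]
    refine Finset.prod_le_one (fun h _ => abs_nonneg _) fun h _ => ?_
    rw [abs_of_nonneg (hg _)]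
    exact hg1 _
  have hC : |∏ h ∈ pos E₂, (-α (pd (fib E₂ h)))| ≤ 1 := by
    rw [Finset.abs_prod]
    refine Finset.prod_le_one (fun h _ => abs_nonneg _) fun h _ => ?_
    rw [abs_neg, abs_of_nonneg (hα _)]
    exact hα1 _
  have hI : |(if (nn E₂ : ℝ) ≤ T then (1 : ℝ) else 0)| ≤ 1 := by
    split_ifs <;> simp
  have hK : |((∏ h ∈ H0.erase i, g (pd (fib E₁ h))) * (∏ h ∈ pos E₂, (-α (pd (fib E₂ h)))) *
        (if (nn E₂ : ℝ) ≤ T then (1 : ℝ) else 0))| ≤ 1 := by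
    rw [abs_mul, abs_mul]
    exact mul_le_one₀ (mul_le_one₀ hA (abs_nonneg _) hC) (abs_nonneg _) hI
  rw [h3, m3_cr g α T1 T hi h1 h2, abs_mul]
  calc _ ≤ 1 * ∑ D ∈ Q.powerset, g (pd D) * pf D :=
        mul_le_mul hK hS (abs_nonneg _) zero_le_one
    _ = _ := one_mul _

end Pool.Agent.H81.AS
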