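import Pool.Agent.H81.AS.MDefs

/-!
AS-TAIL. Chernoff bound for the outer diagonal sum.

PROOF. Write `F(E) = ∏_{h∈pos E} (V α(pd (fib E h))^2) ph E ≥ 0`, so `F(E) = ∏_{h ∈ Po} G(fib E h)` with `G(∅) = 1`,
`G(D) = V α(pd D)^2 pf D` (`prod_fib` for `ph`, and `fib E h = ∅` for `h ∉ pos E`). By `sum_fib`, for every real `c ≥ 0`
`∑_{E} F(E) (nn E)^c = ∏_{h∈Po} (1 + ∑_{D≠∅} V α^2 pf D (pd D)^c)`. Let `m = ∏_{h ∈ Po} (1 + ∑_{D ≠ ∅} V α^2 pf)` be the case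
`c = 0`. With `c = 2/(ε ℓ)`: for `α(pd D) ≠ 0`, `1 ≤ pd D ≤ e^{εℓ}`, so `(pd D)^c - 1 ≤ (e^2-1) log(pd D)/(εℓ)` (convexity of
`exp` on `[0,2]`), so the product is at most `m exp(#Po V (e^2-1)/(εℓ) ∑ α^2 pf log) ≤ m exp(7/(εℓ) * τℓ/14) = m exp(τ/(2ε))`.
Hence the part with `nn E > e^{(τ-ε)ℓ}` is at most `m exp(τ/(2ε) - 2(τ-ε)/ε) = m exp(2 - 3τ/(2ε)) ≤ m exp(-τ/ε)` since
`τ/(2ε) ≥ 2`. And `DO .. 0 e^{τℓ} = m - (part with nn E > e^{τℓ}) ≥ m (1 - e^{-4}) ≥ m/2`.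
-/

set_option autoImplicit false

open Finset Filter Topology

namespace Pool.Agent.H81.AS

open Pool.Agent.H16

private theorem pd_ge {Q D : Finset ℕ} (hQ : ∀ q ∈ Q, q.Prime) (hD : D ⊆ Q) : 1 ≤ pd D :=
  Finset.one_le_prod' fun p hp => (hQ p (hD hp)).one_le

private theorem pf_nn {Q D : Finset ℕ} (hQ : ∀ q ∈ Q, q.Prime) (hD : D ⊆ Q) : 0 ≤ pf D := by
  refine Finset.prod_nonneg fun p hp => ?_
  have : (2 : ℝ) ≤ (p : ℝ) := by exact_mod_cast (hQ p (hD hp)).two_le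
  exact div_nonneg zero_le_one (by linarith)

private theorem F_eq {Q Po : Finset ℕ} (α : ℕ → ℝ) (V : ℝ) {E : Finset (ℕ × ℕ)}
    (hE : E ⊆ Po ×ˢ Q) :
    (∏ h ∈ pos E, (V * α (pd (fib E h)) ^ 2)) * ph E =
      ∏ h ∈ Po, ((if fib E h = ∅ then 1 else V * α (pd (fib E h)) ^ 2) * pf (fib E h)) := by
  have h1 : pos E ⊆ Po := by
    intro h hh
    obtain ⟨x, hx, rfl⟩ := Finset.mem_image.1 hh
    exact (Finset.mem_product.1 (hE hx)).1
  have h2 : ph E = ∏ h ∈ Po, pf (fib E h) := prod_fib hE (fun _ p => 1 / ((p : ℝ) - 1))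
  have h3 : ∏ h ∈ pos E, (V * α (pd (fib E h)) ^ 2) =
      ∏ h ∈ Po, (if fib E h = ∅ then 1 else V * α (pd (fib E h)) ^ 2) := by
    rw [← Finset.prod_subset h1]
    · refine Finset.prod_congr rfl fun h hh => ?_
      rw [if_neg]
      exact (fib_nonempty.2 hh).ne_empty
    · intro h _ hn
      rw [if_pos]
      by_contra hne
      exact hn (fib_nonempty.1 (Finset.nonempty_iff_ne_empty.2 hne))
  rw [h2, h3, ← Finset.prod_mul_distrib]

private theorem nn_eq {Q Po : Finset ℕ} {E : Finset (ℕ × ℕ)} (hE : E ⊆ Po ×ˢ Q) :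
    nn E = ∏ h ∈ Po, pd (fib E h) :=
  prod_fib hE (fun _ p => p)

private theorem F_nn {Q Po : Finset ℕ} (hQ : ∀ q ∈ Q, q.Prime) (α : ℕ → ℝ) {V : ℝ} (hV : 0 ≤ V)
    {E : Finset (ℕ × ℕ)} (hE : E ⊆ Po ×ˢ Q) :
    0 ≤ (∏ h ∈ pos E, (V * α (pd (fib E h)) ^ 2)) * ph E := by
  refine mul_nonneg (Finset.prod_nonneg fun h _ => mul_nonneg hV (sq_nonneg _)) ?_
  refine Finset.prod_nonneg fun x hx => ?_
  have h1 := (Finset.mem_product.1 (hE hx)).2
  have : (2 : ℝ) ≤ (x.2 : ℝ) := by exact_mod_cast (hQ _ h1).two_le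
  exact div_nonneg zero_le_one (by linarith)

/-- the generating function -/
private theorem gen_eq {Q Po : Finset ℕ} (hQ : ∀ q ∈ Q, q.Prime) {α : ℕ → ℝ} (hα1 : α 1 = 0)
    (V c : ℝ) :
    ∑ E ∈ (Po ×ˢ Q).powerset, (∏ h ∈ pos E, (V * α (pd (fib E h)) ^ 2)) * ph E * (nn E : ℝ) ^ c =
      (1 + ∑ D ∈ Q.powerset, V * α (pd D) ^ 2 * pf D * (pd D : ℝ) ^ c) ^ #Po := by
  have h1 : ∀ E ∈ (Po ×ˢ Q).powerset,
      (∏ h ∈ pos E, (V * α (pd (fib E h)) ^ 2)) * ph E * (nn E : ℝ) ^ c =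
      ∏ h ∈ Po, (fun (_ : ℕ) (D : Finset ℕ) =>
        ((if D = ∅ then 1 else V * α (pd D) ^ 2) * pf D) * (pd D : ℝ) ^ c) h (fib E h) := by
    intro E hE
    have hE' := Finset.mem_powerset.1 hE
    rw [F_eq α V hE', nn_eq hE', Nat.cast_prod, ← Real.finsetProd_rpow, ← Finset.prod_mul_distrib]
    intro i _
    positivity
  rw [Finset.sum_congr rfl h1, sum_fib Po Q (fun (_ : ℕ) (D : Finset ℕ) =>
        ((if D = ∅ then 1 else V * α (pd D) ^ 2) * pf D) * (pd D : ℝ) ^ c)]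
  rw [Finset.prod_const]
  congr 1
  have h2 : ∀ D ∈ Q.powerset, ((if D = ∅ then 1 else V * α (pd D) ^ 2) * pf D) * (pd D : ℝ) ^ c =
      (if D = ∅ then 1 else 0) + V * α (pd D) ^ 2 * pf D * (pd D : ℝ) ^ c := by
    intro D _
    by_cases hD : D = ∅
    · subst hD
      simp [pd, pf, hα1]
    · simp [hD]
  rw [Finset.sum_congr rfl h2, Finset.sum_add_distrib]
  congr 1
  rw [Finset.sum_ite_eq' , if_pos (Finset.empty_mem_powerset _)]

private theorem exp_cvx {x : ℝ} (h0 : 0 ≤ x) (h2 : x ≤ 2) : Real.exp x ≤ 1 + 7 / 2 * x := by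
  have h := convexOn_exp.2 (Set.mem_univ (0 : ℝ)) (Set.mem_univ (2 : ℝ))
    (show (0 : ℝ) ≤ 1 - x / 2 by linarith) (show (0 : ℝ) ≤ x / 2 by linarith)
    (show (1 - x / 2) + x / 2 = 1 by ring)
  simp only [smul_eq_mul, mul_zero, zero_add, Real.exp_zero, mul_one] at h
  have h3 : x / 2 * 2 = x := by ring
  rw [h3] at h
  have h4 : Real.exp 2 ≤ 8 := by
    have : Real.exp 2 = Real.exp 1 ^ 2 := by
      rw [← Real.exp_nat_mul]; norm_num
    rw [this]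
    have h5 := Real.exp_one_lt_d9
    have h6 := Real.exp_pos 1
    nlinarith
  nlinarith

private theorem tail_le {Q Po : Finset ℕ} (hQ : ∀ q ∈ Q, q.Prime) {α : ℕ → ℝ}
    (hα1 : α 1 = 0) {V ε ℓ τ : ℝ} (hV : 0 ≤ V) (hε : 0 < ε) (hℓ : 0 < ℓ)
    (hsupp : ∀ r, α r ≠ 0 → (r : ℝ) ≤ Real.exp (ε * ℓ))
    (hmean : (#Po : ℝ) * V * ∑ D ∈ Q.powerset, α (pd D) ^ 2 * pf D * Real.log (pd D) ≤ τ * ℓ / 14)
    (σ : ℝ) :
    ∑ E ∈ (Po ×ˢ Q).powerset.filter (fun E => Real.exp (σ * ℓ) < (nn E : ℝ)),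
      (∏ h ∈ pos E, (V * α (pd (fib E h)) ^ 2)) * ph E ≤
    (1 + ∑ D ∈ Q.powerset, V * α (pd D) ^ 2 * pf D) ^ #Po *
      Real.exp (τ / (2 * ε) - 2 * σ / ε) := by
  set c : ℝ := 2 / (ε * ℓ) with hc
  have hεℓ : 0 < ε * ℓ := mul_pos hε hℓ
  have hc0 : 0 < c := div_pos two_pos hεℓ
  set S : ℝ := ∑ D ∈ Q.powerset, V * α (pd D) ^ 2 * pf D with hS
  set S' : ℝ := ∑ D ∈ Q.powerset, V * α (pd D) ^ 2 * pf D * (pd D : ℝ) ^ c with hS'
  set L : ℝ := ∑ D ∈ Q.powerset, α (pd D) ^ 2 * pf D * Real.log (pd D) with hL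
  have hS0 : 0 ≤ S := Finset.sum_nonneg fun D hD =>
    mul_nonneg (mul_nonneg hV (sq_nonneg _)) (pf_nn hQ (Finset.mem_powerset.1 hD))
  have hSS : S' ≤ S + 7 / 2 * c * V * L := by
    rw [hS, hS', hL, Finset.mul_sum, ← Finset.sum_add_distrib]
    refine Finset.sum_le_sum fun D hD => ?_
    have hD' := Finset.mem_powerset.1 hD
    have hpf := pf_nn hQ hD'
    have hpd : (1 : ℝ) ≤ (pd D : ℝ) := by exact_mod_cast pd_ge hQ hD'
    by_cases h0 : α (pd D) = 0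
    · rw [h0]; simp
    · have h1 := hsupp _ h0
      have hlog : Real.log (pd D) ≤ ε * ℓ := by
        rw [← Real.log_exp (ε * ℓ)]
        exact Real.log_le_log (by linarith) h1
      have hlog0 : 0 ≤ Real.log (pd D) := Real.log_nonneg hpd
      have h2 : (pd D : ℝ) ^ c ≤ 1 + 7 / 2 * (c * Real.log (pd D)) := by
        rw [Real.rpow_def_of_pos (by linarith), mul_comm]
        refine exp_cvx (by positivity) ?_
        calc c * Real.log (pd D) ≤ c * (ε * ℓ) := by gcongr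
          _ = 2 := by rw [hc]; field_simp
      calc V * α (pd D) ^ 2 * pf D * (pd D : ℝ) ^ c
          ≤ V * α (pd D) ^ 2 * pf D * (1 + 7 / 2 * (c * Real.log (pd D))) := by
            gcongr
        _ = _ := by ring
  have hL0 : 0 ≤ L := Finset.sum_nonneg fun D hD => by
    have hD' := Finset.mem_powerset.1 hD
    have hpf := pf_nn hQ hD'
    have hpd : (1 : ℝ) ≤ (pd D : ℝ) := by exact_mod_cast pd_ge hQ hD'
    have := Real.log_nonneg hpd
    positivity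
  set δ : ℝ := 7 / 2 * c * V * L with hδ
  have hδ0 : 0 ≤ δ := by positivity
  have hNδ : (#Po : ℝ) * δ ≤ τ / (2 * ε) := by
    have h1 : (#Po : ℝ) * δ = 7 / 2 * c * ((#Po : ℝ) * V * L) := by rw [hδ]; ring
    rw [h1]
    calc 7 / 2 * c * ((#Po : ℝ) * V * L) ≤ 7 / 2 * c * (τ * ℓ / 14) := by gcongr
      _ = τ / (2 * ε) := by rw [hc]; field_simp; ring
  have hpow : (1 + S') ^ #Po ≤ (1 + S) ^ #Po * Real.exp (τ / (2 * ε)) := by
    have hS'0 : 0 ≤ S' := Finset.sum_nonneg fun D hD => by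
      have hD' := Finset.mem_powerset.1 hD
      have hpf := pf_nn hQ hD'
      positivity
    have h1 : 1 + S' ≤ (1 + S) * Real.exp δ := by
      have h2 : 1 + δ ≤ Real.exp δ := by linarith [Real.add_one_le_exp δ]
      calc 1 + S' ≤ 1 + S + δ := by linarith
        _ ≤ (1 + S) * (1 + δ) := by nlinarith [mul_nonneg hS0 hδ0]
        _ ≤ _ := by gcongr
    calc (1 + S') ^ #Po ≤ ((1 + S) * Real.exp δ) ^ #Po := by gcongr
      _ = (1 + S) ^ #Po * Real.exp (#Po * δ) := by rw [mul_pow, ← Real.exp_nat_mul]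
      _ ≤ _ := by gcongr
  -- Markov
  have hmarkov : ∑ E ∈ (Po ×ˢ Q).powerset.filter (fun E => Real.exp (σ * ℓ) < (nn E : ℝ)),
      (∏ h ∈ pos E, (V * α (pd (fib E h)) ^ 2)) * ph E ≤
      Real.exp (-(2 * σ / ε)) * (1 + S') ^ #Po := by
    rw [hS', ← gen_eq hQ hα1 V c, Finset.mul_sum]
    calc _ ≤ ∑ E ∈ (Po ×ˢ Q).powerset.filter (fun E => Real.exp (σ * ℓ) < (nn E : ℝ)),
          Real.exp (-(2 * σ / ε)) *
            ((∏ h ∈ pos E, (V * α (pd (fib E h)) ^ 2)) * ph E * (nn E : ℝ) ^ c) := by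
            refine Finset.sum_le_sum fun E hE => ?_
            obtain ⟨hE1, hE2⟩ := Finset.mem_filter.1 hE
            have hF := F_nn hQ α hV (Finset.mem_powerset.1 hE1)
            have h1 : Real.exp (2 * σ / ε) ≤ (nn E : ℝ) ^ c := by
              calc Real.exp (2 * σ / ε) = Real.exp (σ * ℓ) ^ c := by
                    rw [← Real.exp_mul, hc]
                    congr 1
                    field_simp
                _ ≤ _ := Real.rpow_le_rpow (Real.exp_pos _).le hE2.le hc0.le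
            have h2 : 1 ≤ Real.exp (-(2 * σ / ε)) * (nn E : ℝ) ^ c := by
              calc 1 = Real.exp (-(2 * σ / ε)) * Real.exp (2 * σ / ε) := by
                    rw [← Real.exp_add]; simp
                _ ≤ _ := by gcongr
            calc _ = ((∏ h ∈ pos E, (V * α (pd (fib E h)) ^ 2)) * ph E) * 1 := by rw [mul_one]
              _ ≤ ((∏ h ∈ pos E, (V * α (pd (fib E h)) ^ 2)) * ph E) *
                  (Real.exp (-(2 * σ / ε)) * (nn E : ℝ) ^ c) := by gcongr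
              _ = _ := by ring
      _ ≤ _ := by
          refine Finset.sum_le_sum_of_subset_of_nonneg (Finset.filter_subset _ _) ?_
          intro E hE _
          have hF := F_nn hQ α hV (Finset.mem_powerset.1 hE)
          positivity
  calc _ ≤ _ := hmarkov
    _ ≤ Real.exp (-(2 * σ / ε)) * ((1 + S) ^ #Po * Real.exp (τ / (2 * ε))) := by gcongr
    _ = _ := by
        rw [show τ / (2 * ε) - 2 * σ / ε = -(2 * σ / ε) + τ / (2 * ε) by ring, Real.exp_add]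
        ring

theorem do_tail {Q Po : Finset ℕ} (hQ : ∀ q ∈ Q, q.Prime) {α : ℕ → ℝ} (hα : ∀ r, 0 ≤ α r)
    (hα1 : α 1 = 0) {V ε ℓ τ : ℝ} (hV : 0 ≤ V) (hε : 0 < ε) (hℓ : 0 < ℓ) (hετ : ε ≤ τ / 4)
    (hsupp : ∀ r, α r ≠ 0 → (r : ℝ) ≤ Real.exp (ε * ℓ))
    (hmean : (#Po : ℝ) * V * ∑ D ∈ Q.powerset, α (pd D) ^ 2 * pf D * Real.log (pd D) ≤ τ * ℓ / 14) :
    DO Q Po α V (Real.exp ((τ - ε) * ℓ)) (Real.exp (τ * ℓ)) ≤
      2 * Real.exp (-(τ / ε)) * DO Q Po α V 0 (Real.exp (τ * ℓ)) := by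
  set m : ℝ := (1 + ∑ D ∈ Q.powerset, V * α (pd D) ^ 2 * pf D) ^ #Po with hm
  have hm0 : 0 ≤ m := by
    refine pow_nonneg (add_nonneg zero_le_one (Finset.sum_nonneg fun D hD => ?_)) _
    exact mul_nonneg (mul_nonneg hV (sq_nonneg _)) (pf_nn hQ (Finset.mem_powerset.1 hD))
  have hquot : 4 ≤ τ / ε := by
    rw [le_div_iff₀ hε]; linarith
  have hhalf : τ / (2 * ε) = (τ / ε) / 2 := by field_simp
  have h1 : DO Q Po α V (Real.exp ((τ - ε) * ℓ)) (Real.exp (τ * ℓ)) ≤ m * Real.exp (-(τ / ε)) := by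
    calc DO Q Po α V (Real.exp ((τ - ε) * ℓ)) (Real.exp (τ * ℓ))
        ≤ ∑ E ∈ (Po ×ˢ Q).powerset.filter (fun E => Real.exp ((τ - ε) * ℓ) < (nn E : ℝ)),
          (∏ h ∈ pos E, (V * α (pd (fib E h)) ^ 2)) * ph E := by
          unfold DO
          refine Finset.sum_le_sum_of_subset_of_nonneg ?_ ?_
          · intro E hE
            obtain ⟨hE1, hE2⟩ := Finset.mem_filter.1 hE
            exact Finset.mem_filter.2 ⟨hE1, hE2.1⟩
          · intro E hE _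
            exact F_nn hQ α hV (Finset.mem_powerset.1 (Finset.mem_filter.1 hE).1)
      _ ≤ m * Real.exp (τ / (2 * ε) - 2 * (τ - ε) / ε) :=
          tail_le hQ hα1 hV hε hℓ hsupp hmean (τ - ε)
      _ ≤ _ := by
          gcongr
          have : 2 * (τ - ε) / ε = 2 * (τ / ε) - 2 := by field_simp
          rw [this, hhalf]
          linarith
  have h2 : m / 2 ≤ DO Q Po α V 0 (Real.exp (τ * ℓ)) := by
    have hg := gen_eq (Po := Po) hQ hα1 V 0
    simp only [Real.rpow_zero, mul_one] at hg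
    have hsplit := Finset.sum_filter_add_sum_filter_not (Po ×ˢ Q).powerset
      (fun E => Real.exp (τ * ℓ) < (nn E : ℝ))
      (fun E => (∏ h ∈ pos E, (V * α (pd (fib E h)) ^ 2)) * ph E)
    rw [hg] at hsplit
    have hA := tail_le hQ hα1 hV hε hℓ hsupp hmean τ
    have hB : ∑ E ∈ (Po ×ˢ Q).powerset.filter (fun E => ¬ Real.exp (τ * ℓ) < (nn E : ℝ)),
        (∏ h ∈ pos E, (V * α (pd (fib E h)) ^ 2)) * ph E = DO Q Po α V 0 (Real.exp (τ * ℓ)) := by
      unfold DO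
      refine Finset.sum_congr ?_ fun _ _ => rfl
      refine Finset.filter_congr fun E hE => ?_
      have hE' := Finset.mem_powerset.1 hE
      have : 0 < (nn E : ℝ) := by
        have : 0 < nn E := Finset.prod_pos fun x hx => (hQ _ (Finset.mem_product.1 (hE' hx)).2).pos
        exact_mod_cast this
      simp [this]
    have hC : Real.exp (τ / (2 * ε) - 2 * τ / ε) ≤ 1 / 2 := by
      have h3 : τ / (2 * ε) - 2 * τ / ε ≤ -1 := by
        have : 2 * τ / ε = 2 * (τ / ε) := by ring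
        rw [this, hhalf]
        linarith
      calc Real.exp (τ / (2 * ε) - 2 * τ / ε) ≤ Real.exp (-1) := Real.exp_le_exp.2 h3
        _ ≤ 1 / 2 := by
          rw [Real.exp_neg, inv_eq_one_div]
          have := Real.add_one_le_exp (1 : ℝ)
          gcongr
          linarith
    rw [hB] at hsplit
    have hD : m * Real.exp (τ / (2 * ε) - 2 * τ / ε) ≤ m * (1 / 2) := by gcongr
    linarith
  calc _ ≤ m * Real.exp (-(τ / ε)) := h1
    _ = 2 * Real.exp (-(τ / ε)) * (m / 2) := by ring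
    _ ≤ _ := by gcongr

/-- the term `E = ∅` -/
theorem one_le_do {Q Po : Finset ℕ} (hQ : ∀ q ∈ Q, q.Prime) (α : ℕ → ℝ) {V T : ℝ} (hV : 0 ≤ V)
    (hT : 1 ≤ T) : 1 ≤ DO Q Po α V 0 T := by
  unfold DO
  have h1 : (∅ : Finset (ℕ × ℕ)) ∈ (Po ×ˢ Q).powerset.filter
      (fun E => 0 < (nn E : ℝ) ∧ (nn E : ℝ) ≤ T) := by
    refine Finset.mem_filter.2 ⟨Finset.empty_mem_powerset _, ?_⟩
    simp [nn, hT]
  have h2 := Finset.single_le_sum (f := fun E => (∏ h ∈ pos E, (V * α (pd (fib E h)) ^ 2)) * ph E)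
    (fun E hE => F_nn hQ α hV (Finset.mem_powerset.1 (Finset.mem_filter.1 hE).1)) h1
  simpa [pos, ph] using h2

end Pool.Agent.H81.AS
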