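import Pool.Agent.H81.AS.M1
import Pool.Agent.H81.AS.M2
import Pool.Agent.H81.AS.M3
import Pool.Agent.H81.AS.Tail
import Pool.Agent.H81.AS.InnerD

/-!
The three sums of the key proposition, from the abstract transfer principle.
-/

set_option autoImplicit false

open Finset Filter Topology

namespace Pool.Agent.H81.AS

open Pool.Agent.H16


lemma psi_div (P Q Po Hb : Finset ℕ) (C : Finset (ℕ × ℕ) → ℝ) (B : ℝ) (n : ℕ) :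
    Psi P Q Po Hb (fun E => C E / B) n = Psi P Q Po Hb C n / B := by
  unfold Psi
  rw [Finset.sum_div]
  exact Finset.sum_congr rfl fun E _ => by ring

lemma dg_div (Q Po Hb : Finset ℕ) (V : ℝ) (C : Finset (ℕ × ℕ) → ℝ) (B : ℝ) :
    Dg Q Po Hb V (fun E => C E / B) = Dg Q Po Hb V C / B ^ 2 := by
  unfold Dg
  rw [Finset.sum_div]
  exact Finset.sum_congr rfl fun E _ => by ring

lemma sum_gpf_ge {Q : Finset ℕ} (hQ : ∀ q ∈ Q, q.Prime) {g : ℕ → ℝ} (hg : ∀ r, 0 ≤ g r) (hg1 : g 1 = 1) :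
    1 ≤ ∑ D ∈ Q.powerset, g (pd D) * pf D := by
  have h0 : ∀ D ∈ Q.powerset, 0 ≤ g (pd D) * pf D := by
    intro D hD
    apply mul_nonneg (hg _)
    unfold pf
    apply Finset.prod_nonneg
    intro p hp
    have : (1 : ℝ) ≤ p := by exact_mod_cast (hQ p (Finset.mem_powerset.1 hD hp)).one_lt.le
    exact div_nonneg zero_le_one (by linarith)
  calc (1 : ℝ) = g (pd ∅) * pf ∅ := by simp [pd, pf, hg1]
    _ ≤ _ := Finset.single_le_sum h0 (Finset.empty_mem_powerset _)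

/-- the interface: transfer principle with exact parameters -/
def TPH (P Q Po S : Finset ℕ) (κ : ℕ) (T2 V Ξ ε₁ : ℝ) (a : ℕ → ℝ) (X : ℝ) (ok : Finset ℕ → Prop) : Prop :=
  ∀ Po' Hb : Finset ℕ, Po' ⊆ Po → Hb ⊆ Po → ok (Hb ∪ Po') →
    ∀ C : Finset (ℕ × ℕ) → ℝ, (∀ E ∈ (Po' ×ˢ Q).powerset, |C E| ≤ 1) →
    (∀ E ∈ (Po' ×ˢ Q).powerset, C E ≠ 0 → #(Hb ∪ pos E) ≤ κ ∧ (nn E : ℝ) ≤ T2) →
    |∑ n ∈ S, a n * Psi P Q Po' Hb C n ^ 2 - X * Dg Q Po' Hb V C| ≤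
      X * (V ^ #Hb * (Ξ + ε₁) + ε₁ * Dg Q Po' Hb V C)

section
variable {P Q Po H0 S : Finset ℕ} {κ κ₁ : ℕ} {g α : ℕ → ℝ} {T1 T T2 V Ξ ε₁ X ρ : ℝ}

lemma s1_le (hQ : ∀ q ∈ Q, q.Prime) (hH : H0 ⊆ Po) (hg : ∀ r, 0 ≤ g r) (hg1 : ∀ r, g r ≤ 1)
    (hα : ∀ r, 0 ≤ α r) (hα1 : ∀ r, α r ≤ 1) (hρ : 1 < ρ) (hαρ : ∀ r, α r ≠ 0 → ρ ≤ (r : ℝ))
    (hT : T < ρ ^ (κ₁ + 1)) (hκ : #H0 + κ₁ ≤ κ) (hT2 : T1 * T ≤ T2)
    (h : TPH P Q Po S κ T2 V Ξ ε₁ (fun _ => 1) X (fun _ => True)) :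
    ∑ n ∈ S, Psi P Q Po H0 (Cf H0 g α T1 T) n ^ 2 ≤
      X * (V ^ #H0 * ((1 + ε₁) * (DI Q H0 g T1 * DO Q (Po \ H0) α V 0 T) + Ξ + ε₁)) := by
  have h1 := h Po H0 subset_rfl hH trivial (Cf H0 g α T1 T)
    (fun E _ => cf_abs hg hg1 hα hα1 T1 T E)
    (fun E hE hC => by
      obtain ⟨h1, h2⟩ := cf_supp hQ hH hρ hαρ hT hE hC
      exact ⟨h1.trans hκ, h2.trans hT2⟩)
  rw [dg_main hQ hH] at h1
  have h2 := (abs_le.1 h1).2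
  simp only [one_mul] at h2
  nlinarith [h2]

lemma s2_ge (hQ : ∀ q ∈ Q, q.Prime) (hH : H0 ⊆ Po) (hg : ∀ r, 0 ≤ g r) (hg1 : ∀ r, g r ≤ 1)
    (hg11 : g 1 = 1)
    (hα : ∀ r, 0 ≤ α r) (hα1 : ∀ r, α r ≤ 1) (hρ : 1 < ρ) (hαρ : ∀ r, α r ≠ 0 → ρ ≤ (r : ℝ))
    (hT : T < ρ ^ (κ₁ + 1)) (hκ : #H0 + κ₁ ≤ κ) (hT2 : T1 * T ≤ T2) {T1l Tg : ℝ} (hV : 0 ≤ V)
    (hTg : ∀ r, g r ≠ 0 → (r : ℝ) ≤ Tg) (hT1 : T1l * Tg ≤ T1) (hT1l : 0 ≤ T1l)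
    (hε1 : ε₁ ≤ 1) (hX : 0 ≤ X)
    {i : ℕ} (hi : i ∈ H0) {a : ℕ → ℝ}
    (hap : ∀ n ∈ S, a n ≠ 0 → ∀ p ∈ P ∪ Q, ¬ p ∣ n + i)
    (h : TPH P Q Po S κ T2 V Ξ ε₁ a X (fun U => i ∉ U)) :
    X * (V ^ (#H0 - 1) * (∑ D ∈ Q.powerset, g (pd D) * pf D) ^ 2 *
      ((1 - ε₁) * (DI Q (H0.erase i) g T1l * DO Q (Po \ H0) α V 0 T) - Ξ - ε₁)) ≤
      ∑ n ∈ S, a n * Psi P Q Po H0 (Cf H0 g α T1 T) n ^ 2 := by
  set B : ℝ := ∑ D ∈ Q.powerset, g (pd D) * pf D with hB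
  have hB1 : 1 ≤ B := sum_gpf_ge hQ hg hg11
  have hB0 : 0 < B := by linarith
  have hiPo : i ∈ Po := hH hi
  have h1 := h (Po.erase i) (H0.erase i) (Finset.erase_subset _ _)
    ((Finset.erase_subset _ _).trans hH) (by simp) (fun E => Cr (Cf H0 g α T1 T) Q i E / B)
    (fun E hE => by
      rw [abs_div, abs_of_pos hB0]
      exact div_le_one_of_le₀ (cr_abs_in hQ hH hg hg1 hα hα1 T1 T hi E hE) hB0.le)
    (fun E hE hC => by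
      have hC' : Cr (Cf H0 g α T1 T) Q i E ≠ 0 := by
        intro h0
        apply hC
        simp [h0]
      obtain ⟨_, h1, h2⟩ := cr_supp hQ hH hρ hαρ hT hiPo hE hC'
      exact ⟨h1.trans hκ, h2.trans hT2⟩)
  rw [dg_div] at h1
  have h2 := dg_in (Q := Q) (Po := Po) hQ hH g α (T1 := T1) (T := T) (V := V) hV hg hTg hT1 hT1l hi
  have h3 : ∑ n ∈ S, a n * Psi P Q Po H0 (Cf H0 g α T1 T) n ^ 2 =
      B ^ 2 * ∑ n ∈ S, a n * Psi P Q (Po.erase i) (H0.erase i)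
        (fun E => Cr (Cf H0 g α T1 T) Q i E / B) n ^ 2 := by
    rw [Finset.mul_sum]
    apply Finset.sum_congr rfl
    intro n hn
    by_cases h0 : a n = 0
    · simp [h0]
    · rw [psi_erase (Cf H0 g α T1 T) hiPo (hap n hn h0), psi_div]
      field_simp
  rw [h3]
  have hcard : #(H0.erase i) = #H0 - 1 := Finset.card_erase_of_mem hi
  rw [hcard] at h1
  set D' := Dg Q (Po.erase i) (H0.erase i) V (Cr (Cf H0 g α T1 T) Q i) with hD'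
  set Y := ∑ n ∈ S, a n * Psi P Q (Po.erase i) (H0.erase i)
        (fun E => Cr (Cf H0 g α T1 T) Q i E / B) n ^ 2 with hY
  have h4 := (abs_le.1 h1).1
  have h5 : X * (D' / B ^ 2) - X * (V ^ (#H0 - 1) * (Ξ + ε₁) + ε₁ * (D' / B ^ 2)) ≤ Y := by linarith
  have hB2 : 0 < B ^ 2 := by positivity
  calc X * (V ^ (#H0 - 1) * B ^ 2 *
      ((1 - ε₁) * (DI Q (H0.erase i) g T1l * DO Q (Po \ H0) α V 0 T) - Ξ - ε₁))
      = X * ((1 - ε₁) * (V ^ (#H0 - 1) * (B ^ 2 * (DI Q (H0.erase i) g T1l * DO Q (Po \ H0) α V 0 T)))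
          - V ^ (#H0 - 1) * B ^ 2 * (Ξ + ε₁)) := by ring
    _ ≤ X * ((1 - ε₁) * D' - V ^ (#H0 - 1) * B ^ 2 * (Ξ + ε₁)) := by
        apply mul_le_mul_of_nonneg_left _ hX
        have := mul_le_mul_of_nonneg_left h2 (by linarith : 0 ≤ 1 - ε₁)
        linarith
    _ = B ^ 2 * (X * (D' / B ^ 2) - X * (V ^ (#H0 - 1) * (Ξ + ε₁) + ε₁ * (D' / B ^ 2))) := by
        field_simp
        ring
    _ ≤ B ^ 2 * Y := mul_le_mul_of_nonneg_left h5 hB2.le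

lemma s3_le (hQ : ∀ q ∈ Q, q.Prime) (hH : H0 ⊆ Po) (hg : ∀ r, 0 ≤ g r) (hg1 : ∀ r, g r ≤ 1)
    (hα : ∀ r, 0 ≤ α r) (hα1 : ∀ r, α r ≤ 1) (hρ : 1 < ρ) (hαρ : ∀ r, α r ≠ 0 → ρ ≤ (r : ℝ))
    (hT : T < ρ ^ (κ₁ + 1)) (hκ : #H0 + κ₁ + 1 ≤ κ) (hT2 : T1 * T ≤ T2) {Tl Te η Λ : ℝ} (hV : 0 ≤ V)
    (hsum : ∑ D ∈ Q.powerset, α (pd D) * pf D = 1)
    (hTe : ∀ r, α r ≠ 0 → (r : ℝ) ≤ Te) (hTT : Tl * Te ≤ T) (hTl : 0 ≤ Tl)
    (htail : DO Q (Po \ H0) α V Tl T ≤ η * DO Q (Po \ H0) α V 0 T)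
    (hε : 0 ≤ ε₁) (hX : 0 ≤ X) (hΞ : 0 ≤ Ξ) (hη : 0 ≤ η)
    (hΛ : (#Po : ℝ) * V ≤ Λ) (hDI : 0 ≤ DI Q H0 g T1) (hDO : 0 ≤ DO Q (Po \ H0) α V 0 T)
    (h : TPH P Q Po S κ T2 V Ξ ε₁ (fun _ => 1) X (fun _ => True)) :
    ∑ n ∈ S, Psi P Q Po H0 (Cf H0 g α T1 T) n ^ 2 * Xo P Q Po H0 n ≤
      X * (V ^ #H0 * (Λ * ((1 + ε₁) * (η * (DI Q H0 g T1 * DO Q (Po \ H0) α V 0 T)) + Ξ + ε₁))) := by
  have hα11 : α 1 = 0 := by
    by_contra h0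
    have := hαρ 1 h0
    push_cast at this
    linarith
  have key : ∀ h0 ∈ Po \ H0,
      ∑ n ∈ S, Psi P Q (Po.erase h0) (insert h0 H0) (Cr (Cf H0 g α T1 T) Q h0) n ^ 2 ≤
      X * (V ^ (#H0 + 1) * ((1 + ε₁) * (η * (DI Q H0 g T1 * DO Q (Po \ H0) α V 0 T)) + Ξ + ε₁)) := by
    intro h0 hh0
    have hPo : h0 ∈ Po := (Finset.mem_sdiff.1 hh0).1
    have hnH : h0 ∉ H0 := (Finset.mem_sdiff.1 hh0).2
    have h1 := h (Po.erase h0) (insert h0 H0) (Finset.erase_subset _ _)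
      (Finset.insert_subset hPo hH) trivial (Cr (Cf H0 g α T1 T) Q h0)
      (fun E hE => cr_abs_out hQ hH hg hg1 hα hα1 hα11 hsum T1 T hh0 E hE)
      (fun E hE hC => by
        obtain ⟨h1, _, h2⟩ := cr_supp hQ hH hρ hαρ hT hPo hE hC
        exact ⟨h1.trans hκ, h2.trans hT2⟩)
    have h2 := dg_out (Q := Q) (Po := Po) hQ hH g α (T1 := T1) (T := T) (Tl := Tl) (Te := Te) hV hα
      hα11 hsum hTe hTT hTl hh0
    rw [Finset.card_insert_of_notMem hnH] at h1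
    have h3 := (abs_le.1 h1).2
    simp only [one_mul] at h3
    set D' := Dg Q (Po.erase h0) (insert h0 H0) V (Cr (Cf H0 g α T1 T) Q h0) with hD'
    have h4 : D' ≤ V ^ (#H0 + 1) * (DI Q H0 g T1 * (η * DO Q (Po \ H0) α V 0 T)) := by
      refine h2.trans ?_
      apply mul_le_mul_of_nonneg_left _ (by positivity)
      exact mul_le_mul_of_nonneg_left htail hDI
    have h5 : X * (1 + ε₁) * D' ≤ X * (1 + ε₁) * (V ^ (#H0 + 1) * (DI Q H0 g T1 * (η * DO Q (Po \ H0) α V 0 T))) :=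
      mul_le_mul_of_nonneg_left h4 (by positivity)
    nlinarith [h3, h5]
  have hpt : ∀ n ∈ S, Psi P Q Po H0 (Cf H0 g α T1 T) n ^ 2 * Xo P Q Po H0 n ≤
      ∑ h0 ∈ Po \ H0, Psi P Q (Po.erase h0) (insert h0 H0) (Cr (Cf H0 g α T1 T) Q h0) n ^ 2 := by
    intro n _
    unfold Xo
    rw [Finset.mul_sum]
    apply Finset.sum_le_sum
    intro h0 hh0
    have hPo : h0 ∈ Po := (Finset.mem_sdiff.1 hh0).1
    split_ifs with hf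
    · rw [mul_one, psi_insert (Cf H0 g α T1 T) hPo hf]
    · rw [mul_zero]
      positivity
  calc _ ≤ ∑ n ∈ S, ∑ h0 ∈ Po \ H0,
        Psi P Q (Po.erase h0) (insert h0 H0) (Cr (Cf H0 g α T1 T) Q h0) n ^ 2 := Finset.sum_le_sum hpt
    _ = ∑ h0 ∈ Po \ H0, ∑ n ∈ S,
        Psi P Q (Po.erase h0) (insert h0 H0) (Cr (Cf H0 g α T1 T) Q h0) n ^ 2 := Finset.sum_comm
    _ ≤ ∑ h0 ∈ Po \ H0, X * (V ^ (#H0 + 1) *
          ((1 + ε₁) * (η * (DI Q H0 g T1 * DO Q (Po \ H0) α V 0 T)) + Ξ + ε₁)) :=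
        Finset.sum_le_sum key
    _ = (#(Po \ H0) : ℝ) * V * (X * V ^ #H0 *
          ((1 + ε₁) * (η * (DI Q H0 g T1 * DO Q (Po \ H0) α V 0 T)) + Ξ + ε₁)) := by
        rw [Finset.sum_const, nsmul_eq_mul]
        ring
    _ ≤ Λ * (X * V ^ #H0 *
          ((1 + ε₁) * (η * (DI Q H0 g T1 * DO Q (Po \ H0) α V 0 T)) + Ξ + ε₁)) := by
        apply mul_le_mul_of_nonneg_right _ (by positivity)
        refine le_trans ?_ hΛ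
        apply mul_le_mul_of_nonneg_right _ hV
        exact_mod_cast Finset.card_le_card Finset.sdiff_subset
    _ = _ := by ring

end


end Pool.Agent.H81.AS
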