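import Mathlib

/-!
The final combination of the key proposition (real numbers only).
-/

set_option autoImplicit false

open Finset Filter Topology

namespace Pool.Agent.H81.AS


/-- the final combination -/
lemma kp_real {k m : ℕ} (hm : 1 ≤ m) {X V ε₁ Ξ Λ η A2 B DIv DOv DI' c₁ δ ℓ XP S1 S3 : ℝ}
    {S2 : ℕ → ℝ} {H0 : Finset ℕ} (hH0 : #H0 = k) (hk : 1 ≤ k)
    (hX : 0 < X) (hV : 0 < V) (hε : 0 < ε₁) (hΞ : 0 ≤ Ξ) (hΛ : 0 ≤ Λ) (hη : 0 ≤ η)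
    (hA2 : 1 ≤ A2) (hDI1 : 1 ≤ DIv) (hDI2 : DIv ≤ A2 ^ k) (hDO : 1 ≤ DOv)
    (hDI'1 : 1 ≤ DI') (hDI'2 : A2 ^ (k - 1) / 2 ≤ DI')
    (hXi : (Ξ + ε₁) * (((k : ℝ) + 1) * Λ + 1) ≤ 1 / 8)
    (hη2 : 2 * (((k : ℝ) + 1) * Λ * η) ≤ 1 / 8) (hε2 : ε₁ ≤ 1 / 16)
    (hc : 16 * ((m : ℝ) + 1) * A2 ≤ c₁ * δ * k * B ^ 2)
    (hXP : c₁ * δ * V * X / 4 ≤ XP / ℓ) (hXP0 : 0 ≤ XP) (hℓ : 0 < ℓ)
    (hS1 : S1 ≤ X * (V ^ k * ((1 + ε₁) * (DIv * DOv) + Ξ + ε₁)))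
    (hS2 : ∀ i ∈ H0, XP * (V ^ (k - 1) * B ^ 2 * ((1 - ε₁) * (DI' * DOv) - Ξ - ε₁)) ≤ S2 i)
    (hS3 : S3 ≤ X * (V ^ k * (Λ * ((1 + ε₁) * (η * (DIv * DOv)) + Ξ + ε₁)))) :
    (1 / 2) * X * V ^ k ≤ (∑ i ∈ H0, S2 i) / ℓ - ((m : ℝ) - 1) * S1 - ((k : ℝ) + 1) * S3 := by
  have hm' : (1 : ℝ) ≤ m := by exact_mod_cast hm
  have hk' : (1 : ℝ) ≤ k := by exact_mod_cast hk
  set a : ℝ := X * V ^ k with ha
  have ha0 : 0 < a := by positivity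
  set M : ℝ := A2 ^ k * DOv with hM
  have hA2k : 1 ≤ A2 ^ k := one_le_pow₀ hA2
  have hA2k1 : 1 ≤ A2 ^ (k - 1) := one_le_pow₀ hA2
  have hM1 : 1 ≤ M := by
    calc (1 : ℝ) = 1 * 1 := by norm_num
      _ ≤ A2 ^ k * DOv := mul_le_mul hA2k hDO zero_le_one (by linarith)
  have hDD : DIv * DOv ≤ M := mul_le_mul_of_nonneg_right hDI2 (by linarith)
  have hDD0 : 0 ≤ DIv * DOv := by positivity
  have hkΛ : 0 ≤ ((k : ℝ) + 1) * Λ := by positivity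
  have hΞε : 0 ≤ Ξ + ε₁ := by linarith
  have hX1 : Ξ + ε₁ ≤ 1 / 8 := by nlinarith
  have hX2 : (((k : ℝ) + 1) * Λ) * (Ξ + ε₁) ≤ 1 / 8 := by nlinarith
  -- S1
  have h1 : S1 ≤ a * ((5 / 4) * M) := by
    refine hS1.trans ?_
    rw [ha, mul_assoc]
    apply mul_le_mul_of_nonneg_left _ hX.le
    apply mul_le_mul_of_nonneg_left _ (by positivity)
    have : (1 + ε₁) * (DIv * DOv) ≤ (1 + 1 / 16) * M :=
      mul_le_mul (by linarith) hDD hDD0 (by norm_num)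
    linarith
  -- S3
  have h3 : ((k : ℝ) + 1) * S3 ≤ a * (M / 8 + 1 / 8) := by
    calc ((k : ℝ) + 1) * S3 ≤ ((k : ℝ) + 1) *
          (X * (V ^ k * (Λ * ((1 + ε₁) * (η * (DIv * DOv)) + Ξ + ε₁)))) :=
          mul_le_mul_of_nonneg_left hS3 (by positivity)
      _ = a * ((1 + ε₁) * (((k : ℝ) + 1) * Λ * η) * (DIv * DOv) + (((k : ℝ) + 1) * Λ) * (Ξ + ε₁)) := by
          rw [ha]; ring
      _ ≤ a * (M / 8 + 1 / 8) := by
          apply mul_le_mul_of_nonneg_left _ ha0.le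
          have h4 : (1 + ε₁) * (((k : ℝ) + 1) * Λ * η) ≤ 1 / 8 := by
            have h5 : 0 ≤ ((k : ℝ) + 1) * Λ * η := by positivity
            nlinarith
          have h6 : (1 + ε₁) * (((k : ℝ) + 1) * Λ * η) * (DIv * DOv) ≤ 1 / 8 * M :=
            mul_le_mul h4 hDD hDD0 (by norm_num)
          linarith
  -- S2
  have hDD' : 1 ≤ DI' * DOv := by
    calc (1 : ℝ) = 1 * 1 := by norm_num
      _ ≤ DI' * DOv := mul_le_mul hDI'1 hDO zero_le_one (by linarith)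
  have h2i : ∀ i ∈ H0, a * ((c₁ * δ * B ^ 2) * ((3 / 32) * (A2 ^ (k - 1) * DOv))) ≤ S2 i / ℓ := by
    intro i hi
    have h5 : (3 / 8) * (A2 ^ (k - 1) * DOv) ≤ (1 - ε₁) * (DI' * DOv) - Ξ - ε₁ := by
      have h6 : (1 - 1 / 16) * (DI' * DOv) ≤ (1 - ε₁) * (DI' * DOv) :=
        mul_le_mul_of_nonneg_right (by linarith) (by linarith)
      have h7 : A2 ^ (k - 1) / 2 * DOv ≤ DI' * DOv := mul_le_mul_of_nonneg_right hDI'2 (by linarith)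
      linarith
    have h8 : XP * (V ^ (k - 1) * B ^ 2 * ((3 / 8) * (A2 ^ (k - 1) * DOv))) ≤ S2 i := by
      refine le_trans ?_ (hS2 i hi)
      apply mul_le_mul_of_nonneg_left _ hXP0
      exact mul_le_mul_of_nonneg_left h5 (by positivity)
    have hVk : V ^ k = V ^ (k - 1) * V := by
      rw [← pow_succ]
      congr 1
      omega
    calc a * ((c₁ * δ * B ^ 2) * ((3 / 32) * (A2 ^ (k - 1) * DOv)))
        = (c₁ * δ * V * X / 4) * (V ^ (k - 1) * B ^ 2 * ((3 / 8) * (A2 ^ (k - 1) * DOv))) := by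
          rw [ha, hVk]; ring
      _ ≤ (XP / ℓ) * (V ^ (k - 1) * B ^ 2 * ((3 / 8) * (A2 ^ (k - 1) * DOv))) :=
          mul_le_mul_of_nonneg_right hXP (by positivity)
      _ = XP * (V ^ (k - 1) * B ^ 2 * ((3 / 8) * (A2 ^ (k - 1) * DOv))) / ℓ := by ring
      _ ≤ S2 i / ℓ := div_le_div_of_nonneg_right h8 hℓ.le
  have h2 : a * ((3 / 2) * ((m : ℝ) + 1) * M) ≤ (∑ i ∈ H0, S2 i) / ℓ := by
    rw [Finset.sum_div]
    have h9 : (∑ _i ∈ H0, a * ((c₁ * δ * B ^ 2) * ((3 / 32) * (A2 ^ (k - 1) * DOv)))) ≤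
        ∑ i ∈ H0, S2 i / ℓ := Finset.sum_le_sum h2i
    refine le_trans ?_ h9
    rw [Finset.sum_const, nsmul_eq_mul, hH0]
    have hA : A2 ^ k = A2 * A2 ^ (k - 1) := by
      rw [← pow_succ']
      congr 1
      omega
    have h10 : 16 * ((m : ℝ) + 1) * A2 * (A2 ^ (k - 1) * DOv) ≤ c₁ * δ * k * B ^ 2 * (A2 ^ (k - 1) * DOv) :=
      mul_le_mul_of_nonneg_right hc (by positivity)
    calc a * ((3 / 2) * ((m : ℝ) + 1) * M)
        = a * ((3 / 32) * (16 * ((m : ℝ) + 1) * A2 * (A2 ^ (k - 1) * DOv))) := by rw [hM, hA]; ring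
      _ ≤ a * ((3 / 32) * (c₁ * δ * k * B ^ 2 * (A2 ^ (k - 1) * DOv))) := by
          apply mul_le_mul_of_nonneg_left _ ha0.le
          exact mul_le_mul_of_nonneg_left h10 (by norm_num)
      _ = _ := by ring
  have h11 : ((m : ℝ) - 1) * S1 ≤ ((m : ℝ) - 1) * (a * ((5 / 4) * M)) :=
    mul_le_mul_of_nonneg_left h1 (by linarith)
  have h12 : (1 / 2) * X * V ^ k = a * (1 / 2) := by rw [ha]; ring
  rw [h12]
  have h13 : a * (1 / 2) ≤ a * ((3 / 2) * ((m : ℝ) + 1) * M) - ((m : ℝ) - 1) * (a * ((5 / 4) * M)) -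
      a * (M / 8 + 1 / 8) := by
    have : a * ((3 / 2) * ((m : ℝ) + 1) * M) - ((m : ℝ) - 1) * (a * ((5 / 4) * M)) - a * (M / 8 + 1 / 8) =
      a * (M * ((m : ℝ) / 4 + 21 / 8) - 1 / 8) := by ring
    rw [this]
    apply mul_le_mul_of_nonneg_left _ ha0.le
    have h14 : 1 * (21 / 8) ≤ M * ((m : ℝ) / 4 + 21 / 8) :=
      mul_le_mul hM1 (by linarith) (by norm_num) (by linarith)
    linarith
  linarith

end Pool.Agent.H81.AS
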