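import Pool.Agent.H81.AS.MDefs

/-!
JOB AS-MAIN1. Evaluation of the diagonal sum for the coefficients `Cf`, bounds and supports.

PROOF of `dg_main` (exact identity). `Po = H0 ∪ (Po \ H0)` disjoint; `sum_split`. For `E₁ ⊆ H0 ×ˢ Q`,
`E₂ ⊆ (Po \ H0) ×ˢ Q`: `fib (E₁ ∪ E₂) h = fib E₁ h` for `h ∈ H0`, `pos (E₁ ∪ E₂) \ H0 = pos E₂`, the two filters are `E₁`
and `E₂`, `ph (E₁ ∪ E₂) = ph E₁ * ph E₂`, `#(H0 ∪ pos E) = #H0 + #(pos E₂)`. The square of a product of indicator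
functions is the product. So the sum factorises.
PROOF of `cf_supp`. `nn (E.filter (x.1 ∉ H0)) = ∏_{h ∈ pos E \ H0} pd (fib E h) ≥ ρ^{#(pos E \ H0)}` and it is `≤ T`.
-/

set_option autoImplicit false

open Finset Filter Topology

namespace Pool.Agent.H81.AS

open Pool.Agent.H16

lemma m1_mem_pos {E : Finset (ℕ × ℕ)} {h : ℕ} : h ∈ pos E ↔ ∃ p, (h, p) ∈ E := by
  unfold pos
  constructor
  · intro hh
    obtain ⟨⟨a, b⟩, hab, rfl⟩ := Finset.mem_image.mp hh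
    exact ⟨b, hab⟩
  · rintro ⟨p, hp⟩
    exact Finset.mem_image.mpr ⟨(h, p), hp, rfl⟩

lemma m1_fib_left {Q H0 A : Finset ℕ} (hd : Disjoint H0 A) {E₁ E₂ : Finset (ℕ × ℕ)}
    (h2 : E₂ ⊆ A ×ˢ Q) {h : ℕ} (hh : h ∈ H0) :
    fib (E₁ ∪ E₂) h = fib E₁ h := by
  ext p
  rw [mem_fib, mem_fib, Finset.mem_union]
  constructor
  · rintro (h | h')
    · exact h
    · exact absurd (Finset.mem_product.mp (h2 h')).1 (Finset.disjoint_left.mp hd hh)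
  · exact fun h => Or.inl h

lemma m1_fib_right {Q H0 A : Finset ℕ} (hd : Disjoint H0 A) {E₁ E₂ : Finset (ℕ × ℕ)}
    (h1 : E₁ ⊆ H0 ×ˢ Q) {h : ℕ} (hh : h ∈ A) :
    fib (E₁ ∪ E₂) h = fib E₂ h := by
  rw [Finset.union_comm]
  exact m1_fib_left hd.symm h1 hh

lemma m1_pos_right {Q H0 A : Finset ℕ} (hd : Disjoint H0 A) {E₁ E₂ : Finset (ℕ × ℕ)}
    (h1 : E₁ ⊆ H0 ×ˢ Q) (h2 : E₂ ⊆ A ×ˢ Q) :
    pos (E₁ ∪ E₂) \ H0 = pos E₂ := by
  ext h
  rw [Finset.mem_sdiff, m1_mem_pos, m1_mem_pos]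
  constructor
  · rintro ⟨⟨p, hp⟩, hn⟩
    rcases Finset.mem_union.mp hp with h' | h'
    · exact absurd (Finset.mem_product.mp (h1 h')).1 hn
    · exact ⟨p, h'⟩
  · rintro ⟨p, hp⟩
    refine ⟨⟨p, Finset.mem_union_right _ hp⟩, ?_⟩
    intro h0
    exact Finset.disjoint_left.mp hd h0 (Finset.mem_product.mp (h2 hp)).1

lemma m1_filter_left {Q H0 A : Finset ℕ} (hd : Disjoint H0 A) {E₁ E₂ : Finset (ℕ × ℕ)}
    (h1 : E₁ ⊆ H0 ×ˢ Q) (h2 : E₂ ⊆ A ×ˢ Q) :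
    (E₁ ∪ E₂).filter (fun x => x.1 ∈ H0) = E₁ := by
  ext x
  rw [Finset.mem_filter, Finset.mem_union]
  constructor
  · rintro ⟨h | h, h'⟩
    · exact h
    · exact absurd (Finset.mem_product.mp (h2 h)).1 (Finset.disjoint_left.mp hd h')
  · intro h
    exact ⟨Or.inl h, (Finset.mem_product.mp (h1 h)).1⟩

lemma m1_filter_right {Q H0 A : Finset ℕ} (hd : Disjoint H0 A) {E₁ E₂ : Finset (ℕ × ℕ)}
    (h1 : E₁ ⊆ H0 ×ˢ Q) (h2 : E₂ ⊆ A ×ˢ Q) :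
    (E₁ ∪ E₂).filter (fun x => x.1 ∉ H0) = E₂ := by
  ext x
  rw [Finset.mem_filter, Finset.mem_union]
  constructor
  · rintro ⟨h | h, h'⟩
    · exact absurd (Finset.mem_product.mp (h1 h)).1 h'
    · exact h
  · intro h
    exact ⟨Or.inr h, fun h0 => Finset.disjoint_left.mp hd h0 (Finset.mem_product.mp (h2 h)).1⟩

lemma m1_disj {Q H0 A : Finset ℕ} (hd : Disjoint H0 A) {E₁ E₂ : Finset (ℕ × ℕ)}
    (h1 : E₁ ⊆ H0 ×ˢ Q) (h2 : E₂ ⊆ A ×ˢ Q) : Disjoint E₁ E₂ := by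
  rw [Finset.disjoint_left]
  intro x hx hx'
  exact Finset.disjoint_left.mp hd (Finset.mem_product.mp (h1 hx)).1 (Finset.mem_product.mp (h2 hx')).1

lemma m1_card (H0 : Finset ℕ) (E : Finset (ℕ × ℕ)) : #(H0 ∪ pos E) = #H0 + #(pos E \ H0) := by
  rw [← Finset.union_sdiff_self_eq_union, Finset.card_union_of_disjoint Finset.disjoint_sdiff]

lemma m1_nn_pos {Q A : Finset ℕ} (hQ : ∀ q ∈ Q, q.Prime) {E : Finset (ℕ × ℕ)} (hE : E ⊆ A ×ˢ Q) :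
    0 < nn E := by
  unfold nn
  apply Finset.prod_pos
  intro x hx
  exact (hQ _ (Finset.mem_product.mp (hE hx)).2).pos

theorem dg_main {Q Po H0 : Finset ℕ} (hQ : ∀ q ∈ Q, q.Prime) (hH : H0 ⊆ Po) (g α : ℕ → ℝ) (T1 T V : ℝ) :
    Dg Q Po H0 V (Cf H0 g α T1 T) = V ^ #H0 * (DI Q H0 g T1 * DO Q (Po \ H0) α V 0 T) := by
  have hd : Disjoint H0 (Po \ H0) := Finset.disjoint_sdiff
  unfold Dg
  have hPo : Po = H0 ∪ (Po \ H0) := (Finset.union_sdiff_of_subset hH).symm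
  have e1 : ∑ E ∈ (Po ×ˢ Q).powerset, Cf H0 g α T1 T E ^ 2 * (V ^ #(H0 ∪ pos E) * ph E) =
      ∑ E ∈ ((H0 ∪ (Po \ H0)) ×ˢ Q).powerset, Cf H0 g α T1 T E ^ 2 * (V ^ #(H0 ∪ pos E) * ph E) := by
    rw [← hPo]
  rw [e1, sum_split _ _ _ hd]
  unfold DI DO
  rw [Finset.sum_filter, Finset.sum_filter, Finset.sum_mul_sum, Finset.mul_sum]
  refine Finset.sum_congr rfl (fun E₁ h1 => ?_)
  rw [Finset.mul_sum]
  refine Finset.sum_congr rfl (fun E₂ h2 => ?_)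
  rw [Finset.mem_powerset] at h1 h2
  have hn : (0:ℝ) < (nn E₂ : ℝ) := by exact_mod_cast m1_nn_pos hQ h2
  rw [m1_card, m1_pos_right hd h1 h2]
  have hph : ph (E₁ ∪ E₂) = ph E₁ * ph E₂ := by
    unfold ph
    exact Finset.prod_union (m1_disj hd h1 h2)
  rw [hph]
  have hC : Cf H0 g α T1 T (E₁ ∪ E₂) = (∏ h ∈ H0, g (pd (fib E₁ h))) *
      (∏ h ∈ pos E₂, (-α (pd (fib E₂ h)))) *
      ((if (nn E₁ : ℝ) ≤ T1 then 1 else 0) * (if (nn E₂ : ℝ) ≤ T then 1 else 0)) := by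
    unfold Cf
    rw [m1_filter_left hd h1 h2, m1_filter_right hd h1 h2, m1_pos_right hd h1 h2]
    congr 1
    congr 1
    · refine Finset.prod_congr rfl (fun h hh => ?_)
      rw [m1_fib_left hd h2 hh]
    · refine Finset.prod_congr rfl (fun h hh => ?_)
      obtain ⟨p, hp⟩ := m1_mem_pos.mp hh
      rw [m1_fib_right hd h1 (Finset.mem_product.mp (h2 hp)).1]
  rw [hC]
  simp only [hn, true_and]
  rw [Finset.prod_mul_distrib, Finset.prod_const, Finset.prod_pow, Finset.prod_pow, Finset.prod_neg]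
  have hsq : ((-1 : ℝ) ^ #(pos E₂)) ^ 2 = 1 := by
    rw [← pow_mul, mul_comm, pow_mul]; norm_num
  obtain ⟨s, hs⟩ : ∃ s, s = (-1 : ℝ) ^ #(pos E₂) := ⟨_, rfl⟩
  rw [← hs] at hsq ⊢
  by_cases c1 : (nn E₁ : ℝ) ≤ T1 <;> by_cases c2 : (nn E₂ : ℝ) ≤ T <;>
    simp only [c1, c2, if_true, if_false]
  · rw [pow_add]
    linear_combination (V ^ #H0 * V ^ #(pos E₂) * ph E₁ * ph E₂ * (∏ h ∈ H0, g (pd (fib E₁ h))) ^ 2 *
      (∏ h ∈ pos E₂, α (pd (fib E₂ h))) ^ 2) * hsq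
  · ring
  · ring
  · ring

/-- bounds and supports of the restricted coefficients, needed for `tpi` and `tpp`. PROOF: all factors are at most `1` in absolute value. -/
theorem cf_abs {H0 : Finset ℕ} {g α : ℕ → ℝ} (hg : ∀ r, 0 ≤ g r) (hg1 : ∀ r, g r ≤ 1) (hα : ∀ r, 0 ≤ α r)
    (hα1 : ∀ r, α r ≤ 1) (T1 T : ℝ) (E : Finset (ℕ × ℕ)) : |Cf H0 g α T1 T E| ≤ 1 := by
  unfold Cf
  have a1 : |∏ h ∈ H0, g (pd (fib E h))| ≤ 1 := by
    rw [Finset.abs_prod]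
    apply Finset.prod_le_one (fun _ _ => abs_nonneg _)
    intro h _
    rw [abs_of_nonneg (hg _)]
    exact hg1 _
  have a2 : |∏ h ∈ pos E \ H0, (-α (pd (fib E h)))| ≤ 1 := by
    rw [Finset.abs_prod]
    apply Finset.prod_le_one (fun _ _ => abs_nonneg _)
    intro h _
    rw [abs_neg, abs_of_nonneg (hα _)]
    exact hα1 _
  have a3 : |((if (nn (E.filter (fun x => x.1 ∈ H0)) : ℝ) ≤ T1 then 1 else 0) *
      (if (nn (E.filter (fun x => x.1 ∉ H0)) : ℝ) ≤ T then 1 else 0) : ℝ)| ≤ 1 := by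
    split_ifs <;> norm_num
  rw [abs_mul, abs_mul]
  exact mul_le_one₀ (mul_le_one₀ a1 (abs_nonneg _) a2) (abs_nonneg _) a3

theorem cf_supp {Q Po H0 : Finset ℕ} (hQ : ∀ q ∈ Q, q.Prime) (hH : H0 ⊆ Po) {g α : ℕ → ℝ} {T1 T : ℝ}
    {ρ : ℝ} (hρ : 1 < ρ) (hαρ : ∀ r, α r ≠ 0 → ρ ≤ (r : ℝ)) {κ₁ : ℕ} (hT : T < ρ ^ (κ₁ + 1))
    {E : Finset (ℕ × ℕ)}
    (hE : E ∈ (Po ×ˢ Q).powerset) (hC : Cf H0 g α T1 T E ≠ 0) :
    #(H0 ∪ pos E) ≤ #H0 + κ₁ ∧ (nn E : ℝ) ≤ T1 * T := by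
  rw [Finset.mem_powerset] at hE
  unfold Cf at hC
  have hC1 := left_ne_zero_of_mul hC
  have hC2 := right_ne_zero_of_mul hC
  have hα := right_ne_zero_of_mul hC1
  have c1 : (nn (E.filter (fun x => x.1 ∈ H0)) : ℝ) ≤ T1 := by
    by_contra hcon
    rw [if_neg hcon] at hC2
    simp at hC2
  have c2 : (nn (E.filter (fun x => x.1 ∉ H0)) : ℝ) ≤ T := by
    by_contra hcon
    rw [if_neg hcon] at hC2
    simp at hC2
  rw [Finset.prod_ne_zero_iff] at hα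
  have hnn : nn (E.filter (fun x => x.1 ∉ H0)) = ∏ h ∈ pos E \ H0, pd (fib E h) := by
    have hsub : E.filter (fun x => x.1 ∉ H0) ⊆ (pos E \ H0) ×ˢ Q := by
      intro x hx
      rw [Finset.mem_filter] at hx
      rw [Finset.mem_product, Finset.mem_sdiff]
      exact ⟨⟨m1_mem_pos.mpr ⟨x.2, hx.1⟩, hx.2⟩, (Finset.mem_product.mp (hE hx.1)).2⟩
    unfold nn
    rw [prod_fib hsub (fun _ p => p)]
    refine Finset.prod_congr rfl (fun h hh => ?_)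
    unfold pd
    refine Finset.prod_congr ?_ (fun _ _ => rfl)
    ext p
    rw [mem_fib, mem_fib, Finset.mem_filter]
    exact ⟨fun h => h.1, fun h' => ⟨h', (Finset.mem_sdiff.mp hh).2⟩⟩
  have hpow : ρ ^ #(pos E \ H0) ≤ T := by
    refine le_trans ?_ c2
    rw [hnn]
    push_cast
    rw [← Finset.prod_const]
    apply Finset.prod_le_prod
    · intro _ _; linarith
    · intro h hh
      apply hαρ
      intro h0
      apply hα h hh
      rw [h0, neg_zero]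
  have hlt : #(pos E \ H0) < κ₁ + 1 := by
    by_contra hcon
    push Not at hcon
    have := pow_le_pow_right₀ hρ.le hcon
    linarith
  refine ⟨?_, ?_⟩
  · rw [m1_card]; omega
  · have e : nn E = nn (E.filter (fun x => x.1 ∈ H0)) * nn (E.filter (fun x => x.1 ∉ H0)) := by
      unfold nn
      rw [Finset.prod_filter_mul_prod_filter_not]
    rw [e]
    push_cast
    have h0 : (0:ℝ) ≤ (nn (E.filter (fun x => x.1 ∈ H0)) : ℝ) := Nat.cast_nonneg _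
    exact mul_le_mul c1 c2 (Nat.cast_nonneg _) (h0.trans c1)

/-- PROOF: if `Cr .. E ≠ 0` then some `Cf (E ∪ ..) ≠ 0`; `cf_supp` for it, `pos E ⊆ pos (E ∪ ..)`, `nn E ≤ nn (E ∪ ..)`. -/
theorem cr_supp {Q Po H0 : Finset ℕ} (hQ : ∀ q ∈ Q, q.Prime) (hH : H0 ⊆ Po) {g α : ℕ → ℝ} {T1 T : ℝ}
    {ρ : ℝ} (hρ : 1 < ρ) (hαρ : ∀ r, α r ≠ 0 → ρ ≤ (r : ℝ)) {κ₁ : ℕ} (hT : T < ρ ^ (κ₁ + 1)) {h0 : ℕ}
    (h0P : h0 ∈ Po) {E : Finset (ℕ × ℕ)} (hE : E ∈ ((Po.erase h0) ×ˢ Q).powerset)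
    (hC : Cr (Cf H0 g α T1 T) Q h0 E ≠ 0) :
    #(insert h0 H0 ∪ pos E) ≤ #H0 + κ₁ + 1 ∧ #(H0.erase h0 ∪ pos E) ≤ #H0 + κ₁ ∧ (nn E : ℝ) ≤ T1 * T := by
  rw [Finset.mem_powerset] at hE
  unfold Cr at hC
  obtain ⟨D, hD, hne⟩ := Finset.exists_ne_zero_of_sum_ne_zero hC
  have hC' := left_ne_zero_of_mul hne
  obtain ⟨E', hE'⟩ : ∃ E', E' = E ∪ D.image (fun p => (h0, p)) := ⟨_, rfl⟩
  rw [← hE'] at hC'
  have hsub : E ⊆ E' := by rw [hE']; exact Finset.subset_union_left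
  have hE'Q : E' ⊆ Po ×ˢ Q := by
    rw [hE']
    apply Finset.union_subset
    · refine hE.trans ?_
      exact Finset.product_subset_product_left (Finset.erase_subset _ _)
    · intro x hx
      obtain ⟨p, hp, rfl⟩ := Finset.mem_image.mp hx
      exact Finset.mem_product.mpr ⟨h0P, Finset.mem_powerset.mp hD hp⟩
  obtain ⟨b1, b2⟩ := cf_supp hQ hH hρ hαρ hT (Finset.mem_powerset.mpr hE'Q) hC'
  have hpos : pos E ⊆ pos E' := Finset.image_subset_image hsub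
  have hu : H0 ∪ pos E ⊆ H0 ∪ pos E' := Finset.union_subset_union_right hpos
  refine ⟨?_, ?_, ?_⟩
  · have h1 : insert h0 H0 ∪ pos E ⊆ insert h0 (H0 ∪ pos E') := by
      rw [Finset.insert_union]
      exact Finset.insert_subset_insert _ hu
    have h2 := Finset.card_le_card h1
    have h3 := Finset.card_insert_le h0 (H0 ∪ pos E')
    omega
  · have h1 : H0.erase h0 ∪ pos E ⊆ H0 ∪ pos E' :=
      Finset.union_subset_union (Finset.erase_subset _ _) hpos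
    exact (Finset.card_le_card h1).trans b1
  · refine le_trans ?_ b2
    have : nn E ≤ nn E' := by
      unfold nn
      apply Finset.prod_le_prod_of_subset_of_one_le' hsub
      intro x hx _
      exact (hQ _ (Finset.mem_product.mp (hE'Q hx)).2).one_lt.le
    exact_mod_cast this

end Pool.Agent.H81.AS
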