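import Pool.Agent.H81.AS.Env2
import Pool.Agent.H16.MT7

/-!
JOB AS-OUTER. Existence of the outer weights `α` (multi-scale).

PROOF. Scales `y_j = exp(ε A^{j-J} ℓ)`, `j = 0..J`; `S(y) = ∑_{D ⊆ Q, pd D ≤ y} pf D`. For `z ≤ y ≤ e^{υℓ}`:
`S(y) ≤ ∏_{z<p≤y} (1+1/(p-1)) = Vp z/Vp y ≤ C log y/log z` and `S(y) ≥ S1d Q y ≥ c log y/log z` (`S1d_lower` in
H16/MT6.lean with `E = {e}`: `log y Vp z/4`; `Vp_ge`; `1/(p-1) ≥ 1/p`). So with `A` a large absolute constant
(`A ≥ 2C/c`, `A ≥ 2`) `R_j := S(y_{j+1}) - S(y_j) ≥ (cA/2) log y_j/log z ≥ (c A/2) (ε A^{j-J})/δ` (`log z ≤ δℓ`), which is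
`≥ 1` if `δ ≤ c₀ ε/A^J`. Put `α r = 1/(J R_j)` for `y_j < r ≤ y_{j+1}`, `0` otherwise. Then `∑ α pf = 1`, `0 ≤ α ≤ 1`,
`∑ α² pf log ≤ ∑_j (1/(J² R_j)) log y_{j+1} ≤ ∑_j (1/J²) (2δ/(c A ε A^{j-J})) ε A^{j+1-J} ℓ = (2/c) δℓ/J`.
(`y_0 = exp(ε ℓ/A^J) ≥ z` since `δ ≤ ε/A^J`.)
-/

set_option autoImplicit false

open Finset Filter Topology

namespace Pool.Agent.H81.AS

open Pool.Agent.H16

/-- abstract form -/
lemma outer_abs (F : Finset (Finset ℕ)) (f : Finset ℕ → ℝ) (n : Finset ℕ → ℕ) (hf : ∀ D ∈ F, 0 ≤ f D)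
    (y : ℕ → ℝ) (hy : Monotone y) (hy0 : 1 ≤ y 0) (J : ℕ) (hJ : 1 ≤ J) (K : ℝ) (R : ℕ → ℝ)
    (hRd : ∀ j, R j = ∑ D ∈ F.filter (fun D => y j < (n D : ℝ) ∧ (n D : ℝ) ≤ y (j + 1)), f D)
    (hR : ∀ j, j < J → 1 ≤ R j) (hK : ∀ j, j < J → Real.log (y (j + 1)) ≤ K * R j) :
    ∃ α : ℕ → ℝ, (∀ r, 0 ≤ α r) ∧ (∀ r, α r ≤ 1) ∧ (∀ r, α r ≠ 0 → y 0 < (r : ℝ) ∧ (r : ℝ) ≤ y J) ∧
      ∑ D ∈ F, α (n D) * f D = 1 ∧ ∑ D ∈ F, α (n D) ^ 2 * f D * Real.log (n D) ≤ K / J := by
  classical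
  have hJ0 : (0 : ℝ) < J := by exact_mod_cast (show 0 < J by omega)
  have hJ1 : (1 : ℝ) ≤ J := by exact_mod_cast hJ
  -- uniqueness of the scale
  have huniq : ∀ (r : ℕ) (i j : ℕ), y i < (r : ℝ) → (r : ℝ) ≤ y (i + 1) → y j < (r : ℝ) →
      (r : ℝ) ≤ y (j + 1) → i = j := by
    intro r i j h1 h2 h3 h4
    rcases lt_trichotomy i j with h | h | h
    · have := hy (show i + 1 ≤ j by omega)
      linarith
    · exact h
    · have := hy (show j + 1 ≤ i by omega)
      linarith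
  set a : ℕ → ℝ := fun j => 1 / (J * R j) with ha
  have ha0 : ∀ j, j < J → 0 ≤ a j := fun j hj => by
    have := hR j hj
    have : 0 < R j := by linarith
    rw [ha]; positivity
  have ha1 : ∀ j, j < J → a j ≤ 1 := fun j hj => by
    have h1 := hR j hj
    rw [ha]
    show 1 / (↑J * R j) ≤ 1
    rw [div_le_one (by nlinarith)]
    nlinarith
  set α : ℕ → ℝ := fun r => ∑ j ∈ range J, if y j < (r : ℝ) ∧ (r : ℝ) ≤ y (j + 1) then a j else 0 with hα
  have hcase : ∀ r : ℕ, (∃ j, j < J ∧ y j < (r : ℝ) ∧ (r : ℝ) ≤ y (j + 1) ∧ α r = a j ∧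
      ∀ b : ℕ → ℝ, (∑ i ∈ range J, if y i < (r : ℝ) ∧ (r : ℝ) ≤ y (i + 1) then b i else 0) = b j) ∨
      (α r = 0 ∧ ∀ b : ℕ → ℝ, (∑ i ∈ range J, if y i < (r : ℝ) ∧ (r : ℝ) ≤ y (i + 1) then b i else 0) = 0) := by
    intro r
    by_cases h : ∃ j, j < J ∧ y j < (r : ℝ) ∧ (r : ℝ) ≤ y (j + 1)
    · obtain ⟨j, hj, h1, h2⟩ := h
      have key : ∀ b : ℕ → ℝ,
          (∑ i ∈ range J, if y i < (r : ℝ) ∧ (r : ℝ) ≤ y (i + 1) then b i else 0) = b j := by
        intro b
        rw [Finset.sum_eq_single j]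
        · rw [if_pos ⟨h1, h2⟩]
        · intro i hi hij
          rw [if_neg]
          rintro ⟨h3, h4⟩
          exact hij (huniq r i j h3 h4 h1 h2)
        · intro hj'
          exact absurd (Finset.mem_range.mpr hj) hj'
      exact Or.inl ⟨j, hj, h1, h2, key a, key⟩
    · push Not at h
      have key : ∀ b : ℕ → ℝ,
          (∑ i ∈ range J, if y i < (r : ℝ) ∧ (r : ℝ) ≤ y (i + 1) then b i else 0) = 0 := by
        intro b
        apply Finset.sum_eq_zero
        intro i hi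
        rw [if_neg]
        rintro ⟨h3, h4⟩
        exact absurd h4 (not_le.mpr (h i (Finset.mem_range.mp hi) h3))
      exact Or.inr ⟨key a, key⟩
  refine ⟨α, ?_, ?_, ?_, ?_, ?_⟩
  · intro r
    rcases hcase r with ⟨j, hj, -, -, h, -⟩ | ⟨h, -⟩
    · rw [h]; exact ha0 j hj
    · rw [h]
  · intro r
    rcases hcase r with ⟨j, hj, -, -, h, -⟩ | ⟨h, -⟩
    · rw [h]; exact ha1 j hj
    · rw [h]; norm_num
  · intro r hr
    rcases hcase r with ⟨j, hj, h1, h2, h, -⟩ | ⟨h, -⟩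
    · exact ⟨lt_of_le_of_lt (hy (Nat.zero_le j)) h1, h2.trans (hy (show j + 1 ≤ J by omega))⟩
    · exact absurd h hr
  · have e1 : ∀ D ∈ F, α (n D) * f D = ∑ j ∈ range J,
        (if y j < (n D : ℝ) ∧ (n D : ℝ) ≤ y (j + 1) then a j * f D else 0) := by
      intro D _
      rw [hα]
      show (∑ j ∈ range J, _) * f D = _
      rw [Finset.sum_mul]
      apply Finset.sum_congr rfl
      intro j _
      split_ifs <;> simp
    rw [Finset.sum_congr rfl e1, Finset.sum_comm]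
    have e2 : ∀ j ∈ range J, (∑ D ∈ F, if y j < (n D : ℝ) ∧ (n D : ℝ) ≤ y (j + 1) then a j * f D else 0)
        = 1 / J := by
      intro j hj
      have h1 := hR j (Finset.mem_range.mp hj)
      rw [← Finset.sum_filter, ← Finset.mul_sum, ← hRd j, ha]
      show 1 / (↑J * R j) * R j = 1 / ↑J
      have : R j ≠ 0 := by linarith
      field_simp
    rw [Finset.sum_congr rfl e2, Finset.sum_const, Finset.card_range, nsmul_eq_mul]
    field_simp
  · have e1 : ∀ D ∈ F, α (n D) ^ 2 * f D * Real.log (n D) ≤ ∑ j ∈ range J,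
        (if y j < (n D : ℝ) ∧ (n D : ℝ) ≤ y (j + 1) then a j ^ 2 * Real.log (y (j + 1)) * f D else 0) := by
      intro D hD
      rcases hcase (n D) with ⟨j, hj, h1, h2, h, h3⟩ | ⟨h, h3⟩
      · rw [h, h3 (fun j => a j ^ 2 * Real.log (y (j + 1)) * f D)]
        have h4 : 0 < (n D : ℝ) := by
          have := hy (Nat.zero_le j)
          linarith
        have h5 : Real.log (n D) ≤ Real.log (y (j + 1)) := Real.log_le_log h4 h2
        have h6 : 0 ≤ a j ^ 2 * f D := mul_nonneg (sq_nonneg _) (hf D hD)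
        nlinarith
      · rw [h, h3 (fun j => a j ^ 2 * Real.log (y (j + 1)) * f D)]
        simp
    refine (Finset.sum_le_sum e1).trans ?_
    rw [Finset.sum_comm]
    have e2 : ∀ j ∈ range J, (∑ D ∈ F, if y j < (n D : ℝ) ∧ (n D : ℝ) ≤ y (j + 1) then
        a j ^ 2 * Real.log (y (j + 1)) * f D else 0) ≤ K / J ^ 2 := by
      intro j hj
      have h1 := hR j (Finset.mem_range.mp hj)
      have h2 := hK j (Finset.mem_range.mp hj)
      rw [← Finset.sum_filter, ← Finset.mul_sum, ← hRd j, ha]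
      show (1 / (↑J * R j)) ^ 2 * Real.log (y (j + 1)) * R j ≤ K / ↑J ^ 2
      have h3 : 0 < R j := by linarith
      have h4 : (1 / (↑J * R j)) ^ 2 * Real.log (y (j + 1)) * R j = Real.log (y (j + 1)) / (J ^ 2 * R j) := by
        field_simp
      rw [h4, div_le_div_iff₀ (by positivity) (by positivity)]
      nlinarith [sq_nonneg (J : ℝ), mul_le_mul_of_nonneg_right h2 (sq_nonneg (J : ℝ))]
    refine (Finset.sum_le_sum e2).trans ?_
    rw [Finset.sum_const, Finset.card_range, nsmul_eq_mul]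
    apply le_of_eq
    field_simp

/-- upper bound for the one-dimensional sum with `1/(p-1)` -/
lemma Sp_upper {c : ℝ} (hc : 0 < c) (hcV : ∀ n : ℕ, 2 ≤ n → c / Real.log n ≤ Vp n) (z y : ℕ)
    (hz : 2 ≤ z) (P : Finset ℕ) (hP : P ⊆ primesIoc z y) (Y : ℝ) (hzY : (z : ℝ) ≤ Y) :
    ∑ D ∈ P.powerset.filter (fun D => (pd D : ℝ) ≤ Y), pf D ≤ Real.log Y / (c * Real.log z) := by
  classical
  have hz1 : (1 : ℝ) < z := by exact_mod_cast (show 1 < z by omega)
  have hlz : 0 < Real.log z := Real.log_pos hz1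
  set m := ⌊Y⌋₊ with hm
  have hzm : z ≤ m := Nat.le_floor hzY
  have hY0 : 0 ≤ Y := by linarith
  have hmY : (m : ℝ) ≤ Y := Nat.floor_le hY0
  have hpr : ∀ p ∈ P, p.Prime := fun p hp => (mem_primesIoc.mp (hP hp)).2.2
  have hsub : P.powerset.filter (fun D => (pd D : ℝ) ≤ Y) ⊆ (primesIoc z m).powerset := by
    intro D hD
    obtain ⟨h1, h2⟩ := Finset.mem_filter.mp hD
    rw [Finset.mem_powerset] at h1 ⊢
    intro p hp
    have h3 := mem_primesIoc.mp (hP (h1 hp))
    rw [mem_primesIoc]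
    refine ⟨h3.1, ?_, h3.2.2⟩
    apply Nat.le_floor
    refine le_trans ?_ h2
    have h4 : p ≤ pd D :=
      Nat.le_of_dvd (Finset.prod_pos (fun q hq => (hpr q (h1 hq)).pos)) (Finset.dvd_prod_of_mem (fun q => q) hp)
    exact_mod_cast h4
  have hpos : ∀ p ∈ primesIoc z m, 0 < (p : ℝ) - 1 := by
    intro p hp
    have h1 : (2 : ℝ) ≤ p := by exact_mod_cast (mem_primesIoc.mp hp).2.2.two_le
    linarith
  refine (Finset.sum_le_sum_of_subset_of_nonneg hsub ?_).trans ?_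
  · intro D hD _
    unfold pf
    apply Finset.prod_nonneg
    intro p hp
    have := hpos p (Finset.mem_powerset.mp hD hp)
    positivity
  · have e1 : ∑ D ∈ (primesIoc z m).powerset, pf D = ∏ p ∈ primesIoc z m, (1 + 1 / ((p : ℝ) - 1)) := by
      rw [Finset.prod_one_add]
      rfl
    have e2 : ∏ p ∈ primesIoc z m, (1 + 1 / ((p : ℝ) - 1)) = (∏ p ∈ primesIoc z m, (1 - 1 / (p : ℝ)))⁻¹ := by
      rw [← Finset.prod_inv_distrib]
      apply Finset.prod_congr rfl
      intro p hp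
      have h1 := hpos p hp
      have h2 : (p : ℝ) ≠ 0 := by linarith
      have h3 : (p : ℝ) - 1 ≠ 0 := h1.ne'
      have h4 : 1 - 1 / (p : ℝ) = ((p : ℝ) - 1) / p := by field_simp
      have h5 : 1 + 1 / ((p : ℝ) - 1) = p / ((p : ℝ) - 1) := by field_simp; ring
      rw [h4, h5, inv_div]
    have e3 := Vp_mul z m hzm
    have hVz := Vp_pos z
    have hVm := Vp_pos m
    have e4 : (∏ p ∈ primesIoc z m, (1 - 1 / (p : ℝ)))⁻¹ = Vp z / Vp m := by
      rw [← e3]
      have : ∏ p ∈ primesIoc z m, (1 - 1 / (p : ℝ)) ≠ 0 := by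
        intro h
        rw [h, mul_zero] at e3
        linarith
      field_simp
    rw [e1, e2, e4]
    have h1 := Vp_le z hz
    have h2 := hcV m (by omega)
    have hm1 : (1 : ℝ) < m := by exact_mod_cast (show 1 < m by omega)
    have hlm : 0 < Real.log m := Real.log_pos hm1
    have h3 : Real.log m ≤ Real.log Y := Real.log_le_log (by linarith) hmY
    calc Vp z / Vp m ≤ (1 / Real.log z) / (c / Real.log m) := by
          apply div_le_div₀ (by positivity) h1 (by positivity) h2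
      _ = Real.log m / (c * Real.log z) := by field_simp
      _ ≤ Real.log Y / (c * Real.log z) := by
          apply div_le_div_of_nonneg_right h3 (by positivity)

lemma Sp_lower {c : ℝ} (hc : 0 < c) (hcV : ∀ n : ℕ, 2 ≤ n → c / Real.log n ≤ Vp n) (z y e : ℕ)
    (hz : 2 ≤ z) (Y : ℝ) (hY : 1 ≤ Y) (hYy : Y ≤ y) :
    c / 4 * (Real.log Y / Real.log z) ≤
      ∑ D ∈ ((primesIoc z y).erase e).powerset.filter (fun D => (pd D : ℝ) ≤ Y), pf D := by
  classical
  have hz1 : (1 : ℝ) < z := by exact_mod_cast (show 1 < z by omega)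
  have hlz : 0 < Real.log z := Real.log_pos hz1
  have h1 := S1d_lower z y hz {e} (by simpa using hz) Y hY hYy
  have h2 := hcV z hz
  have h3 : 0 ≤ Real.log Y := Real.log_nonneg hY
  have hPE : PE z y {e} = (primesIoc z y).erase e := by
    ext p
    rw [mem_PE, Finset.mem_erase, mem_primesIoc, Finset.mem_singleton]
    tauto
  rw [hPE] at h1
  calc c / 4 * (Real.log Y / Real.log z) = Real.log Y * (c / Real.log z / 4) := by ring
    _ ≤ Real.log Y * (Vp z / 4) := by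
        apply mul_le_mul_of_nonneg_left _ h3
        linarith
    _ ≤ _ := h1
    _ ≤ _ := by
        unfold S1d lev pd
        apply Finset.sum_le_sum
        intro D hD
        have hD' := Finset.mem_powerset.mp (Finset.mem_filter.mp hD).1
        unfold pf
        rw [Nat.cast_prod, one_div, ← Finset.prod_inv_distrib]
        apply Finset.prod_le_prod
        · intro p _
          positivity
        · intro p hp
          have h4 : (2 : ℝ) ≤ p := by
            exact_mod_cast (mem_primesIoc.mp (Finset.mem_of_mem_erase (hD' hp))).2.2.two_le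
          rw [← one_div]
          apply one_div_le_one_div_of_le <;> linarith

theorem outer_exists : ∃ (A : ℕ) (CA c₀ : ℝ), 2 ≤ A ∧ 0 < CA ∧ 0 < c₀ ∧ ∀ (J : ℕ) (ε υ δ : ℝ), 1 ≤ J → 0 < ε →
    ε < υ → 0 < δ → δ ≤ c₀ * ε / (A : ℝ) ^ J → ∀ᶠ ℓ : ℝ in atTop, ∀ e : ℕ, ∃ α : ℕ → ℝ,
      (∀ r, 0 ≤ α r) ∧ (∀ r, α r ≤ 1) ∧
      (∀ r, α r ≠ 0 → Real.exp (ε / (A : ℝ) ^ J * ℓ) < (r : ℝ) ∧ (r : ℝ) ≤ Real.exp (ε * ℓ)) ∧
      ∑ D ∈ (QQ δ υ ℓ e).powerset, α (pd D) * pf D = 1 ∧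
      ∑ D ∈ (QQ δ υ ℓ e).powerset, α (pd D) ^ 2 * pf D * Real.log (pd D) ≤ CA * δ * ℓ / J := by
  classical
  obtain ⟨c, hc, hcV⟩ := Vp_ge
  set A : ℕ := max 2 ⌈8 / c ^ 2⌉₊ with hA
  have hA2 : 2 ≤ A := le_max_left _ _
  have hA2' : (2 : ℝ) ≤ A := by exact_mod_cast hA2
  have hA8 : 8 / c ^ 2 ≤ (A : ℝ) := (Nat.le_ceil _).trans (by exact_mod_cast le_max_right _ _)
  have hA8' : 1 / c ≤ c * A / 8 := by
    rw [div_le_iff₀ (by positivity)] at hA8
    rw [div_le_div_iff₀ hc (by norm_num)]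
    nlinarith
  have hA0 : (0 : ℝ) < A := by linarith
  refine ⟨A, 8 / c, min 1 (c * A / 8), hA2, by positivity, by positivity, ?_⟩
  intro J ε υ δ hJ hε hευ hδ hδ1
  have hAJ : (1 : ℝ) ≤ (A : ℝ) ^ J := one_le_pow₀ (by linarith)
  have hAJ0 : (0 : ℝ) < (A : ℝ) ^ J := by linarith
  have hδ2 : δ ≤ ε / (A : ℝ) ^ J := by
    refine hδ1.trans ?_
    apply div_le_div_of_nonneg_right _ hAJ0.le
    have := min_le_left 1 (c * A / 8)
    nlinarith
  have hδ3 : δ ≤ c * A / 8 * (ε / (A : ℝ) ^ J) := by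
    refine hδ1.trans ?_
    rw [mul_div_assoc]
    apply mul_le_mul_of_nonneg_right (min_le_right _ _)
    positivity
  have hυ : 0 < υ := by linarith
  filter_upwards [ev_zz hδ 2, ev_zz hυ 2, eventually_gt_atTop (0 : ℝ),
    eventually_ge_atTop (Real.log 2 / (υ - ε))] with ℓ h1 h2 h3 h4 e
  obtain ⟨-, h1a, -, h1b, -, -⟩ := h1
  obtain ⟨-, -, -, -, -, h2a⟩ := h2
  set z := zz δ ℓ with hz
  set y' := zz υ ℓ with hy'
  have hz2 : 2 ≤ z := by
    by_contra h
    have h5 : z ≤ 1 := by omega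
    have h6 : (z : ℝ) ≤ 1 := by exact_mod_cast h5
    have h7 : Real.log z ≤ 0 := Real.log_nonpos (Nat.cast_nonneg _) h6
    linarith
  have hz0 : (0 : ℝ) < z := by exact_mod_cast (show 0 < z by omega)
  have hlz : 0 < Real.log z := by linarith
  have hεy : Real.exp (ε * ℓ) ≤ y' := by
    refine le_trans ?_ h2a
    rw [le_div_iff₀ (by norm_num)]
    have h5 : Real.log 2 ≤ ℓ * (υ - ε) := by
      rw [div_le_iff₀ (by linarith)] at h4
      exact h4
    calc Real.exp (ε * ℓ) * 2 = Real.exp (ε * ℓ) * Real.exp (Real.log 2) := by rw [Real.exp_log (by norm_num)]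
      _ = Real.exp (ε * ℓ + Real.log 2) := (Real.exp_add _ _).symm
      _ ≤ Real.exp (υ * ℓ) := by
          apply Real.exp_le_exp.mpr
          nlinarith
  set y : ℕ → ℝ := fun j => Real.exp (ε * ((A : ℝ) ^ j / (A : ℝ) ^ J) * ℓ) with hy
  have hylog : ∀ j, Real.log (y j) = ε * ((A : ℝ) ^ j / (A : ℝ) ^ J) * ℓ := fun j => Real.log_exp _
  have hymono : Monotone y := by
    intro i j hij
    apply Real.exp_le_exp.mpr
    apply mul_le_mul_of_nonneg_right _ h3.le
    apply mul_le_mul_of_nonneg_left _ hε.le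
    apply div_le_div_of_nonneg_right _ hAJ0.le
    exact pow_le_pow_right₀ (by linarith) hij
  have hy0 : y 0 = Real.exp (ε / (A : ℝ) ^ J * ℓ) := by
    simp only [hy, pow_zero]
    congr 1
    ring
  have hyJ : y J = Real.exp (ε * ℓ) := by
    simp only [hy]
    rw [div_self hAJ0.ne', mul_one]
  have hy1 : 1 ≤ y 0 := by
    rw [hy0]
    apply Real.one_le_exp
    positivity
  have hzy0 : (z : ℝ) ≤ y 0 := by
    rw [hy0, ← Real.log_le_iff_le_exp hz0]
    refine h1b.trans ?_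
    apply mul_le_mul_of_nonneg_right hδ2 h3.le
  have hzy : ∀ j, (z : ℝ) ≤ y j := fun j => hzy0.trans (hymono (Nat.zero_le j))
  have hy1' : ∀ j, 1 ≤ y j := fun j => hy1.trans (hymono (Nat.zero_le j))
  have hyy : ∀ j, j ≤ J → y j ≤ y' := fun j hj => (hymono hj).trans (by rw [hyJ]; exact hεy)
  set Q := QQ δ υ ℓ e with hQ
  have hQe : Q = (primesIoc z y').erase e := rfl
  have hpf : ∀ D ∈ Q.powerset, 0 ≤ pf D := by
    intro D hD
    unfold pf
    apply Finset.prod_nonneg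
    intro p hp
    have h5 := Finset.mem_powerset.mp hD hp
    rw [hQe] at h5
    have h6 : (2 : ℝ) ≤ p := by exact_mod_cast (mem_primesIoc.mp (Finset.mem_of_mem_erase h5)).2.2.two_le
    have h7 : 0 < (p : ℝ) - 1 := by linarith
    positivity
  set R : ℕ → ℝ := fun j => ∑ D ∈ Q.powerset.filter
    (fun D => y j < (pd D : ℝ) ∧ (pd D : ℝ) ≤ y (j + 1)), pf D with hR
  -- lower bound for R
  have hRlow : ∀ j, j < J → c * A / 8 * (Real.log (y j) / Real.log z) ≤ R j := by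
    intro j hj
    have h5 := Sp_lower hc hcV z y' e hz2 (y (j + 1)) (hy1' _) (hyy _ (by omega))
    have h6 := Sp_upper hc hcV z y' hz2 Q (by rw [hQe]; exact Finset.erase_subset _ _) (y j) (hzy j)
    have h7 : ∑ D ∈ Q.powerset.filter (fun D => (pd D : ℝ) ≤ y (j + 1)), pf D =
        R j + ∑ D ∈ Q.powerset.filter (fun D => (pd D : ℝ) ≤ y j), pf D := by
      rw [hR]
      show _ = ∑ D ∈ _, pf D + ∑ D ∈ _, pf D
      rw [← Finset.sum_union]
      · apply Finset.sum_congr _ (fun _ _ => rfl)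
        ext D
        simp only [Finset.mem_union, Finset.mem_filter]
        have h8 := hymono (Nat.le_succ j)
        constructor
        · rintro ⟨h9, h10⟩
          by_cases h11 : y j < (pd D : ℝ)
          · exact Or.inl ⟨h9, h11, h10⟩
          · exact Or.inr ⟨h9, not_lt.mp h11⟩
        · rintro (⟨h9, -, h10⟩ | ⟨h9, h10⟩)
          · exact ⟨h9, h10⟩
          · exact ⟨h9, h10.trans h8⟩
      · rw [Finset.disjoint_left]
        intro D h8 h9
        have h10 := (Finset.mem_filter.mp h8).2.1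
        have h11 := (Finset.mem_filter.mp h9).2
        linarith
    rw [← hQe] at h5
    have h8 : Real.log (y (j + 1)) = A * Real.log (y j) := by
      rw [hylog, hylog, pow_succ]
      ring
    have h9 : 0 ≤ Real.log (y j) / Real.log z := by
      have := Real.log_nonneg (hy1' j)
      positivity
    rw [h8, h7] at h5
    have h10 : Real.log (y j) / (c * Real.log z) = 1 / c * (Real.log (y j) / Real.log z) := by
      field_simp
    rw [h10] at h6
    have h11 : c / 4 * (A * Real.log (y j) / Real.log z) = c * A / 4 * (Real.log (y j) / Real.log z) := by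
      ring
    rw [h11] at h5
    nlinarith [mul_le_mul_of_nonneg_right hA8' h9]
  have hRlow2 : ∀ j, j < J → c * A / 8 * (ε * ((A : ℝ) ^ j / (A : ℝ) ^ J)) / δ ≤ R j := by
    intro j hj
    refine le_trans ?_ (hRlow j hj)
    rw [hylog, mul_div_assoc]
    apply mul_le_mul_of_nonneg_left _ (by positivity)
    rw [div_le_div_iff₀ hδ hlz]
    have h5 : 0 ≤ ε * ((A : ℝ) ^ j / (A : ℝ) ^ J) := by positivity
    nlinarith [mul_le_mul_of_nonneg_left h1b h5]
  obtain ⟨α, g1, g2, g3, g4, g5⟩ := outer_abs Q.powerset pf pd hpf y hymono hy1 J hJ (8 / c * δ * ℓ) R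
    (fun j => rfl) (by
      intro j hj
      refine le_trans ?_ (hRlow2 j hj)
      rw [le_div_iff₀ hδ, one_mul]
      refine hδ3.trans ?_
      apply mul_le_mul_of_nonneg_left _ (by positivity)
      rw [div_eq_mul_one_div]
      apply mul_le_mul_of_nonneg_left _ hε.le
      apply div_le_div_of_nonneg_right _ hAJ0.le
      exact one_le_pow₀ (by linarith)) (by
      intro j hj
      have h5 := hRlow2 j hj
      have h6 : 0 ≤ 8 / c * δ * ℓ := by positivity
      refine le_trans ?_ (mul_le_mul_of_nonneg_left h5 h6)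
      rw [hylog, pow_succ]
      apply le_of_eq
      field_simp)
  refine ⟨α, g1, g2, ?_, g4, ?_⟩
  · intro r hr
    have := g3 r hr
    rw [hy0, hyJ] at this
    exact this
  · exact g5

end Pool.Agent.H81.AS
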