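import Pool.Agent.H81.AS.Env2

/-!
JOB AS-POCARD. The number of positions: `#Po * V1 ≤ Cp lam / δ`, uniformly in `e`, `b`.

PROOF. Put `w0 = ⌊log ℓ / 2⌋` (or any `w0 → ∞` with `primorial w0 ≤ lam ℓ` and `log w0 ≥ (1/4) log (wz ℓ)`; note
`log (wz ℓ) ≤ 2 log log ℓ` and `4^{w0} ≤ ℓ^{0.7}`). `W0 = ∏_{p ≤ w0, p ≠ e} p` divides `WW ℓ e`, `W0 ≤ 4^{w0} ≤ lam ℓ`
for large `ℓ`. Every `h ∈ Po` has `b + h` coprime to `W0`; in each interval of `W0` consecutive integers there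
are `φ(W0)` such numbers (`Nat.filter_coprime_Ico_eq_totient` and variants), so
`#Po ≤ (lam ℓ / W0 + 1) φ(W0) ≤ 2 lam ℓ φ(W0)/W0`. By Mertens (`Vp_le`, `Vp_ge`)
`φ(W0)/W0 ≤ 2 Vp w0 ≤ 2/log w0` and `φ(W)/W ≥ Vp (wz ℓ) ≥ c/log (wz ℓ)`, so `φ(W0)/W0 ≤ C φ(W)/W`. Hence
`#Po * V1 ≤ 2 C lam ℓ V1 φ(W)/W ≤ 8 C lam/δ` by `V1_bounds`.
-/

set_option autoImplicit false

open Finset Filter Topology

namespace Pool.Agent.H81.AS

open Pool.Agent.H16

lemma pc_tot_prod (S : Finset ℕ) (hS : ∀ p ∈ S, p.Prime) :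
    (((∏ p ∈ S, p).totient : ℕ) : ℝ) / ((∏ p ∈ S, p : ℕ) : ℝ) = ∏ p ∈ S, (1 - 1 / (p : ℝ)) := by
  classical
  induction S using Finset.induction_on with
  | empty => simp
  | insert a S ha ih =>
    have hS' : ∀ p ∈ S, p.Prime := fun p hp => hS p (Finset.mem_insert_of_mem hp)
    have hap : a.Prime := hS a (Finset.mem_insert_self _ _)
    have hcop : Nat.Coprime a (∏ p ∈ S, p) := Nat.Coprime.prod_right (fun p hp => by
      rw [Nat.coprime_primes hap (hS' p hp)]; rintro rfl; exact ha hp)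
    rw [Finset.prod_insert ha, Finset.prod_insert ha, Nat.totient_mul hcop, Nat.totient_prime hap,
      ← ih hS', Nat.cast_mul, Nat.cast_mul, Nat.cast_sub hap.one_le, Nat.cast_one, mul_div_mul_comm]
    have h1 : (a : ℝ) ≠ 0 := by exact_mod_cast hap.ne_zero
    congr 1
    field_simp

/-- product of the primes up to `w` other than `e` -/
def pcW (w e : ℕ) : ℕ := ∏ p ∈ (Nat.primesLE w).erase e, p

lemma pcW_ratio (w e : ℕ) :
    (((pcW w e).totient : ℕ) : ℝ) / (pcW w e : ℝ) = ∏ p ∈ (Nat.primesLE w).erase e, (1 - 1 / (p : ℝ)) :=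
  pc_tot_prod _ (fun _ hp => (Nat.mem_primesLE.mp (Finset.mem_of_mem_erase hp)).2)

lemma pcW_pos (w e : ℕ) : 0 < pcW w e :=
  Finset.prod_pos (fun _ hp => (Nat.mem_primesLE.mp (Finset.mem_of_mem_erase hp)).2.pos)

lemma pcW_le (w e : ℕ) : pcW w e ≤ 4 ^ w := by
  refine le_trans ?_ (primorial_le_four_pow w)
  unfold pcW primorial
  apply Nat.le_of_dvd
  · apply Finset.prod_pos
    intro p hp
    rw [Finset.mem_filter] at hp
    exact hp.2.pos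
  · apply Finset.prod_dvd_prod_of_subset
    intro p hp
    have h := Nat.mem_primesLE.mp (Finset.mem_of_mem_erase hp)
    rw [Finset.mem_filter, Finset.mem_range]
    exact ⟨by omega, h.2⟩

lemma pcW_dvd {w : ℕ} {ℓ : ℝ} (hw : w ≤ wz ℓ) (e : ℕ) : pcW w e ∣ WW ℓ e := by
  unfold pcW WW
  apply Finset.prod_dvd_prod_of_subset
  intro p hp
  rw [Finset.mem_erase, Nat.mem_primesLE] at hp ⊢
  exact ⟨hp.1, hp.2.1.trans hw, hp.2.2⟩

lemma pc_erase_le (w e : ℕ) :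
    ∏ p ∈ (Nat.primesLE w).erase e, (1 - 1 / (p : ℝ)) ≤ 2 * Vp w := by
  have hV := Vp_pos w
  by_cases he : e ∈ Nat.primesLE w
  · have h1 : (1 - 1 / (e : ℝ)) * ∏ p ∈ (Nat.primesLE w).erase e, (1 - 1 / (p : ℝ)) = Vp w :=
      Finset.mul_prod_erase _ (fun p : ℕ => (1 - 1 / (p : ℝ))) he
    have h2 : (2 : ℝ) ≤ e := by exact_mod_cast (Nat.mem_primesLE.mp he).2.two_le
    have h3 : 1 / (e : ℝ) ≤ 1 / 2 := one_div_le_one_div_of_le (by norm_num) h2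
    have h4 : 0 ≤ ∏ p ∈ (Nat.primesLE w).erase e, (1 - 1 / (p : ℝ)) :=
      Finset.prod_nonneg (fun p hp =>
        (one_sub_inv_pos (Nat.mem_primesLE.mp (Finset.mem_of_mem_erase hp)).2).le)
    nlinarith
  · rw [Finset.erase_eq_of_notMem he]
    unfold Vp at hV ⊢
    linarith

lemma pc_erase_ge (w e : ℕ) :
    Vp w ≤ ∏ p ∈ (Nat.primesLE w).erase e, (1 - 1 / (p : ℝ)) := by
  by_cases he : e ∈ Nat.primesLE w
  · have h1 : (1 - 1 / (e : ℝ)) * ∏ p ∈ (Nat.primesLE w).erase e, (1 - 1 / (p : ℝ)) = Vp w :=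
      Finset.mul_prod_erase _ (fun p : ℕ => (1 - 1 / (p : ℝ))) he
    have h4 : 0 ≤ ∏ p ∈ (Nat.primesLE w).erase e, (1 - 1 / (p : ℝ)) :=
      Finset.prod_nonneg (fun p hp =>
        (one_sub_inv_pos (Nat.mem_primesLE.mp (Finset.mem_of_mem_erase hp)).2).le)
    have h5 : 0 ≤ 1 / (e : ℝ) := by positivity
    nlinarith
  · rw [Finset.erase_eq_of_notMem he]
    exact le_rfl

lemma pc_card_nat (lam ℓ : ℝ) (e b w : ℕ) (hw : w ≤ wz ℓ) :
    #(Po lam ℓ e b) ≤ (pcW w e).totient * (⌊lam * ℓ⌋₊ / pcW w e + 1) := by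
  have h1 := Nat.Ico_filter_coprime_le (a := pcW w e) (b + 1) ⌊lam * ℓ⌋₊ (pcW_pos w e).ne'
  refine le_trans ?_ h1
  apply Finset.card_le_card_of_injOn (fun h => b + h)
  · intro h hh
    rw [Finset.mem_coe] at hh
    unfold Po at hh
    rw [Finset.mem_filter, Finset.mem_Icc] at hh
    rw [Finset.mem_coe, Finset.mem_filter, Finset.mem_Ico]
    refine ⟨⟨?_, ?_⟩, ?_⟩
    · have := hh.1.1
      show b + 1 ≤ b + h
      omega
    · have := hh.1.2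
      show b + h < b + 1 + ⌊lam * ℓ⌋₊
      omega
    · exact (Nat.Coprime.coprime_dvd_right (pcW_dvd hw e) hh.2).symm
  · intro x _ y _ hxy
    simp only at hxy
    omega

lemma pc_card_real (lam ℓ : ℝ) (hlam : 0 < lam) (hℓ : 0 < ℓ) (e b w : ℕ) (hw2 : 2 ≤ w) (hw : w ≤ wz ℓ)
    (h4 : (4 : ℝ) ^ w ≤ lam * ℓ) :
    (#(Po lam ℓ e b) : ℝ) ≤ 4 * (lam * ℓ) / Real.log w := by
  have h1 : (#(Po lam ℓ e b) : ℝ) ≤
      ((pcW w e).totient : ℝ) * (((⌊lam * ℓ⌋₊ / pcW w e : ℕ) : ℝ) + 1) := by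
    exact_mod_cast pc_card_nat lam ℓ e b w hw
  have hW0 : (0 : ℝ) < pcW w e := by exact_mod_cast pcW_pos w e
  have hW4 : (pcW w e : ℝ) ≤ lam * ℓ := by
    refine le_trans ?_ h4
    exact_mod_cast pcW_le w e
  have hll : 0 < lam * ℓ := mul_pos hlam hℓ
  have h2 : ((⌊lam * ℓ⌋₊ / pcW w e : ℕ) : ℝ) ≤ lam * ℓ / pcW w e := by
    refine (Nat.cast_div_le).trans ?_
    apply div_le_div_of_nonneg_right (Nat.floor_le hll.le) hW0.le
  have h3 : (1 : ℝ) ≤ lam * ℓ / pcW w e := by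
    rw [le_div_iff₀ hW0]; linarith
  have h5 : (((⌊lam * ℓ⌋₊ / pcW w e : ℕ) : ℝ) + 1) ≤ 2 * (lam * ℓ / pcW w e) := by linarith
  have hr := pcW_ratio w e
  have hr2 := pc_erase_le w e
  rw [← hr] at hr2
  have hV := Vp_le w hw2
  have hlog : 0 < Real.log w := Real.log_pos (by exact_mod_cast (show 1 < w by omega))
  calc (#(Po lam ℓ e b) : ℝ) ≤ ((pcW w e).totient : ℝ) * (((⌊lam * ℓ⌋₊ / pcW w e : ℕ) : ℝ) + 1) := h1
    _ ≤ ((pcW w e).totient : ℝ) * (2 * (lam * ℓ / pcW w e)) :=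
        mul_le_mul_of_nonneg_left h5 (Nat.cast_nonneg _)
    _ = 2 * (lam * ℓ) * (((pcW w e).totient : ℝ) / pcW w e) := by ring
    _ ≤ 2 * (lam * ℓ) * (2 * (1 / Real.log w)) := by
        apply mul_le_mul_of_nonneg_left _ (by positivity)
        linarith
    _ = 4 * (lam * ℓ) / Real.log w := by ring

/-- the choice `w = ⌊log ℓ / 2⌋` -/
lemma pc_ev (lam : ℝ) (hlam : 0 < lam) : ∀ᶠ ℓ : ℝ in atTop,
    0 < ℓ ∧ 2 ≤ ⌊Real.log ℓ / 2⌋₊ ∧ ⌊Real.log ℓ / 2⌋₊ ≤ wz ℓ ∧ (4 : ℝ) ^ ⌊Real.log ℓ / 2⌋₊ ≤ lam * ℓ ∧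
      2 ≤ wz ℓ ∧ Real.log (wz ℓ) ≤ 4 * Real.log (⌊Real.log ℓ / 2⌋₊ : ℕ) := by
  have hlim := Real.tendsto_log_atTop
  filter_upwards [eventually_gt_atTop 0, hlim.eventually_ge_atTop 16,
    hlim.eventually_ge_atTop (-(4 * Real.log lam))] with ℓ hℓ hL16 hLlam
  set L := Real.log ℓ with hL
  have hL0 : 0 < L := by linarith
  have hf1 : (⌊L / 2⌋₊ : ℝ) ≤ L / 2 := Nat.floor_le (by linarith)
  have hf2 : L / 2 - 1 < (⌊L / 2⌋₊ : ℝ) := by
    have := Nat.lt_floor_add_one (L / 2)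
    linarith
  have hf3 : L / 4 ≤ (⌊L / 2⌋₊ : ℝ) := by linarith
  have h2 : 2 ≤ ⌊L / 2⌋₊ := by
    rw [Nat.le_floor_iff (by linarith)]
    push_cast; linarith
  have h3 : ⌊L / 2⌋₊ ≤ wz ℓ := by
    unfold wz
    apply Nat.floor_mono
    rw [← hL]
    nlinarith
  refine ⟨hℓ, h2, h3, ?_, h2.trans h3, ?_⟩
  · have e1 : (4 : ℝ) ^ ⌊L / 2⌋₊ = Real.exp ((⌊L / 2⌋₊ : ℝ) * Real.log 4) := by
      rw [← Real.log_pow, Real.exp_log (by positivity)]
    have e2 : Real.log 4 = 2 * Real.log 2 := by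
      rw [show (4 : ℝ) = 2 ^ 2 by norm_num, Real.log_pow]; push_cast; ring
    have e3 := Real.log_two_lt_d9
    have e4 : 0 < Real.log 2 := Real.log_pos (by norm_num)
    have e5 : lam * ℓ = Real.exp (Real.log lam + L) := by
      rw [Real.exp_add, Real.exp_log hlam, hL, Real.exp_log hℓ]
    rw [e1, e5, Real.exp_le_exp, e2]
    have e6 : (⌊L / 2⌋₊ : ℝ) * (2 * Real.log 2) ≤ (L / 2) * (2 * Real.log 2) :=
      mul_le_mul_of_nonneg_right hf1 (by positivity)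
    have e7 : (L / 2) * (2 * Real.log 2) ≤ (L / 2) * (1.4) :=
      mul_le_mul_of_nonneg_left (by linarith) (by linarith)
    linarith
  · have g1 : Real.log (wz ℓ) ≤ 2 * Real.log L := by
      have g2 : (wz ℓ : ℝ) ≤ L ^ 2 := by
        unfold wz
        rw [← hL]
        exact Nat.floor_le (by positivity)
      have g3 : (0 : ℝ) < wz ℓ := by exact_mod_cast (show 0 < wz ℓ by omega)
      have g4 := Real.log_le_log g3 g2
      rw [Real.log_pow] at g4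
      push_cast at g4
      exact g4
    have g5 : 1 / 2 * Real.log L ≤ Real.log (⌊L / 2⌋₊ : ℕ) := by
      have g6 : Real.log (Real.sqrt L) ≤ Real.log (⌊L / 2⌋₊ : ℕ) := by
        apply Real.log_le_log (Real.sqrt_pos.mpr hL0)
        refine le_trans ?_ hf3
        rw [Real.sqrt_le_left (by linarith)]
        nlinarith
      rw [Real.log_sqrt hL0.le] at g6
      linarith
    linarith

theorem po_card : ∃ Cp : ℝ, 0 < Cp ∧ ∀ lam δ : ℝ, 0 < lam → 0 < δ → ∀ᶠ ℓ : ℝ in atTop, ∀ e b : ℕ,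
    (#(Po lam ℓ e b) : ℝ) * V1 δ ℓ e ≤ Cp * lam / δ := by
  obtain ⟨c, hc, hVc⟩ := Vp_ge
  obtain ⟨c', hc', hV1⟩ := V1_bounds
  refine ⟨64 / c, by positivity, fun lam δ hlam hδ => ?_⟩
  filter_upwards [pc_ev lam hlam, hV1 δ hδ] with ℓ hev hV e b
  obtain ⟨hℓ, hw2, hww, h4, hwz2, hlog⟩ := hev
  set w := ⌊Real.log ℓ / 2⌋₊ with hw
  have hcard := pc_card_real lam ℓ hlam hℓ e b w hw2 hww h4
  have hlw : 0 < Real.log w := Real.log_pos (by exact_mod_cast (show 1 < w by omega))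
  have hlwz : 0 < Real.log (wz ℓ) := Real.log_pos (by exact_mod_cast (show 1 < wz ℓ by omega))
  have hVV := (hV e).2.1
  rw [WW_totient_ratio] at hVV
  have hge := (hVc (wz ℓ) hwz2).trans (pc_erase_ge (wz ℓ) e)
  have hV1p := V1_pos δ ℓ e
  have h1 : V1 δ ℓ e * (c / Real.log (wz ℓ)) ≤ 4 / (δ * ℓ) :=
    (mul_le_mul_of_nonneg_left hge hV1p.le).trans hVV
  have h2 : V1 δ ℓ e ≤ 4 / (δ * ℓ) * (Real.log (wz ℓ) / c) := by
    have h3 : V1 δ ℓ e = V1 δ ℓ e * (c / Real.log (wz ℓ)) * (Real.log (wz ℓ) / c) := by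
      field_simp
    rw [h3]
    exact mul_le_mul_of_nonneg_right h1 (by positivity)
  have h5 : 4 / (δ * ℓ) * (Real.log (wz ℓ) / c) ≤ 4 / (δ * ℓ) * (4 * Real.log w / c) := by
    apply mul_le_mul_of_nonneg_left _ (by positivity)
    exact div_le_div_of_nonneg_right hlog hc.le
  calc (#(Po lam ℓ e b) : ℝ) * V1 δ ℓ e ≤
      (4 * (lam * ℓ) / Real.log w) * (4 / (δ * ℓ) * (4 * Real.log w / c)) :=
        mul_le_mul hcard (h2.trans h5) hV1p.le (by positivity)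
    _ = 64 / c * lam / δ := by
        field_simp
        ring

end Pool.Agent.H81.AS
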