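import Pool.Agent.H81.AS.TPI
import Pool.Agent.H81.AS.DistP
import Pool.Agent.H81.AS.XTB

/-!
JOB AS-TPP. The transfer principle for the primes, final form: the weights are `aw ℓ y (n+i)`, `y = zz υ ℓ`, and the
position `i` does not occur among the positions of `Psi`.

PROOF. As in TPI.lean, with `Z = {i}`, `X = XT/φ(W)`, the `M` of `dist_prime` (with `A = 4κ+10`, and
`K` as here), `Lv = e^{ℓ/4}`, `T = e^{τℓ}`. The remainder is at most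
`C ℓ^{2κ} (1+2δℓ) e^ℓ ℓ^{-A}/φ(W) ≤ ε₁ X V1^{#Hb}/4`, since `X ≥ c₁ e^ℓ/φ(W)` (`xt_bounds`) and `V1 ≥ c/(δℓ)`, `#Hb ≤ κ`.
-/

set_option autoImplicit false

open Finset Filter Topology

namespace Pool.Agent.H81.AS

open Pool.Agent.H16

theorem tpp {K s κ : ℕ} (hK : 1 ≤ K) (hκ : 2 * κ ≤ K) (hFL : FLP (2 * K) s) {lam δ υ τ Λ r : ℝ}
    (hlam : 0 < lam) (hδ : 0 < δ) (hυ : δ ≤ υ) (hυ2 : υ ≤ 1 / 2) (hτ : 0 < τ)
    (hlev : 2 * τ + δ * (4 * (s : ℝ) + 5) < 1 / 4) (hΛ : 0 ≤ Λ) (hr : 1 ≤ r)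
    (hcard : ∀ᶠ ℓ : ℝ in atTop, ∀ e b : ℕ, (#(Po lam ℓ e b) : ℝ) * V1 δ ℓ e ≤ Λ)
    (hprod : ∀ᶠ ℓ : ℝ in atTop, ∀ e : ℕ, ∏ p ∈ QQ δ υ ℓ e, (1 + 1 / ((p : ℝ) - 1)) ≤ r)
    {ε₁ : ℝ} (hε : 0 < ε₁) :
    ∀ᶠ ℓ : ℝ in atTop, ∃ e : ℕ, ∀ b i : ℕ, ∀ Po' Hb : Finset ℕ, i ∈ Po lam ℓ e b → Po' ⊆ Po lam ℓ e b →
      Hb ⊆ Po lam ℓ e b → i ∉ Hb ∪ Po' →
      ∀ C : Finset (ℕ × ℕ) → ℝ, (∀ E ∈ (Po' ×ˢ QQ δ υ ℓ e).powerset, |C E| ≤ 1) →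
      (∀ E ∈ (Po' ×ˢ QQ δ υ ℓ e).powerset, C E ≠ 0 → #(Hb ∪ pos E) ≤ κ ∧ (nn E : ℝ) ≤ Real.exp (τ * ℓ)) →
      |∑ n ∈ Sb ℓ e b, aw ℓ (zz υ ℓ) (n + i) * Psi (PP δ ℓ e) (QQ δ υ ℓ e) Po' Hb C n ^ 2 -
          XT ℓ (zz υ ℓ) / (((WW ℓ e).totient : ℕ) : ℝ) * Dg (QQ δ υ ℓ e) Po' Hb (V1 δ ℓ e) C| ≤
        XT ℓ (zz υ ℓ) / (((WW ℓ e).totient : ℕ) : ℝ) *
          (V1 δ ℓ e ^ #Hb * (Xi K s κ Λ r + ε₁) + ε₁ * Dg (QQ δ υ ℓ e) Po' Hb (V1 δ ℓ e) C) := by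
  obtain ⟨c, hc, hV1⟩ := V1_bounds
  obtain ⟨c₁, C₁, hc₁, hC₁, hXT⟩ := xt_bounds
  obtain ⟨Ch, hCh, hHH⟩ := hh_card κ hlam
  have hK0 : (0 : ℝ) ≤ (K : ℝ) := Nat.cast_nonneg _
  have hυ0 : 0 < υ := by linarith
  set B : ℝ := 2 * 4 ^ κ * (2 * (κ : ℝ) + 1) * (3 * Λ + 1) ^ (2 * κ) with hBdef
  have hB : 0 ≤ B := by positivity
  have hr0 : (0 : ℝ) < r := by linarith
  obtain ⟨ε', hε', hexp⟩ := small_exp (B' := B * r ^ K) (A := 4 ^ K * ((K : ℝ) + 2)) (ε₁ := ε₁)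
    (by positivity) (by positivity) hε
  filter_upwards [ev_wz (4 * (K : ℝ)), ev_zz hδ (12 * (K : ℝ) + 2), ev_pos hδ hlam,
    hXT υ hυ0 hυ2, hV1 δ hδ, QQ_sq hδ hε' υ, vv_comp κ hlam hδ hε,
    vs_bound κ hlam hδ hΛ hcard, hHH, hprod, dist_prime K hK (4 * (κ : ℝ) + 10) (by positivity) hlam hυ0 hυ2,
    eventually_ge_atTop 1,
    eventually_ge_atTop (Ch ^ 2 * (1 + 2 * δ) * (δ ^ κ / c ^ κ) * (2 / ε₁) / c₁)]
    with ℓ h1 h2 h3 h4 h5 h6 h7 h8 h9 h10 h11 hℓ hp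
  obtain ⟨e, he⟩ := h11
  refine ⟨e, ?_⟩
  have hℓ0 : 0 < ℓ := by linarith
  obtain ⟨M, hM1, hM2⟩ := he δ h2.1 (zz_mono hυ hℓ0.le)
  intro b i Po' Hb hi hPo' hHb hiU C hC hC2
  have hPoIcc : ∀ U : Finset ℕ, U ⊆ Po lam ℓ e b → U ⊆ Icc 1 ⌊lam * ℓ⌋₊ := by
    intro U hU
    exact hU.trans (Finset.filter_subset _ _)
  have hiIcc : i ∈ Icc 1 ⌊lam * ℓ⌋₊ := (Finset.mem_filter.mp hi).1
  have hlogz : Real.log (zz δ ℓ) ≤ (zz δ ℓ : ℝ) := by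
    have := Real.log_le_sub_one_of_pos (x := (zz δ ℓ : ℝ)) (by
      by_contra hneg
      have h0 : (zz δ ℓ : ℝ) = 0 := le_antisymm (not_lt.mp hneg) (Nat.cast_nonneg _)
      have h00 := h2.2.1
      rw [h0, Real.log_zero] at h00
      linarith)
    linarith
  have hzK : 12 * K + 2 ≤ zz δ ℓ := by
    have : (12 * (K : ℝ) + 2) ≤ (zz δ ℓ : ℝ) := h2.2.1.trans hlogz
    exact_mod_cast this
  have hW0 : (0 : ℝ) < (((WW ℓ e).totient : ℕ) : ℝ) := by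
    exact_mod_cast Nat.totient_pos.mpr (WW_pos ℓ e)
  have hV0 := V1_pos δ ℓ e
  have hVle := V1_le_one δ ℓ e
  have hcl : 0 < c / (δ * ℓ) := by positivity
  have hXge : c₁ * Real.exp ℓ / (((WW ℓ e).totient : ℕ) : ℝ) ≤
      XT ℓ (zz υ ℓ) / (((WW ℓ e).totient : ℕ) : ℝ) := div_le_div_of_nonneg_right h4.1 hW0.le
  have hX0 : 0 ≤ XT ℓ (zz υ ℓ) / (((WW ℓ e).totient : ℕ) : ℝ) := le_trans (by positivity) hXge
  have hlogz0 : 0 ≤ Real.log (zz δ ℓ) := by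
    have := h2.2.2.1
    have h0 : 0 < δ * ℓ / 2 := by positivity
    linarith
  have hlev' : (zz δ ℓ : ℝ) ^ (4 * s + 5) * Real.exp (τ * ℓ) ^ 2 ≤ Real.exp (ℓ / 4) := by
    have ha : (zz δ ℓ : ℝ) ^ (4 * s + 5) ≤ Real.exp (δ * ℓ) ^ (4 * s + 5) :=
      pow_le_pow_left₀ (Nat.cast_nonneg _) h2.2.2.2.2.1 _
    calc (zz δ ℓ : ℝ) ^ (4 * s + 5) * Real.exp (τ * ℓ) ^ 2
        ≤ Real.exp (δ * ℓ) ^ (4 * s + 5) * Real.exp (τ * ℓ) ^ 2 :=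
          mul_le_mul_of_nonneg_right ha (by positivity)
      _ = Real.exp ((2 * τ + δ * (4 * (s : ℝ) + 5)) * ℓ) := by
          rw [← Real.exp_nat_mul, ← Real.exp_nat_mul, ← Real.exp_add]
          congr 1
          push_cast
          ring
      _ ≤ Real.exp (ℓ / 4) := by
          apply Real.exp_le_exp.mpr
          nlinarith
  have hRb := hM2 s (Real.exp (τ * ℓ)) hlev'
  have hremcond : (Ch * ℓ ^ κ) ^ 2 * ((1 + 2 * Real.log (zz δ ℓ)) *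
      (Real.exp ℓ * ℓ ^ (-(4 * (κ : ℝ) + 10)) / (((WW ℓ e).totient : ℕ) : ℝ))) ≤
      XT ℓ (zz υ ℓ) / (((WW ℓ e).totient : ℕ) : ℝ) * (V1 δ ℓ e ^ κ * (ε₁ / 2)) := by
    have ha : (1 + 2 * Real.log (zz δ ℓ)) ≤ (1 + 2 * δ) * ℓ := by
      have := h2.2.2.2.1
      nlinarith
    have hb : (c / (δ * ℓ)) ^ κ ≤ V1 δ ℓ e ^ κ := pow_le_pow_left₀ hcl.le (h5 e).2.2 κ
    have hrp : ℓ ^ (-(4 * (κ : ℝ) + 10)) = 1 / ℓ ^ (4 * κ + 10) := by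
      rw [Real.rpow_neg hℓ0.le, one_div]
      congr 1
      have : (4 * (κ : ℝ) + 10) = ((4 * κ + 10 : ℕ) : ℝ) := by push_cast; ring
      rw [this, Real.rpow_natCast]
    rw [hrp]
    have hlk : (0 : ℝ) < ℓ ^ κ := by positivity
    have hck : (0 : ℝ) < c ^ κ := by positivity
    have hdk : (0 : ℝ) < δ ^ κ := by positivity
    have hcc : (Ch * ℓ ^ κ) ^ 2 * ((1 + 2 * δ) * ℓ *
        (Real.exp ℓ * (1 / ℓ ^ (4 * κ + 10)) / (((WW ℓ e).totient : ℕ) : ℝ))) ≤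
        c₁ * Real.exp ℓ / (((WW ℓ e).totient : ℕ) : ℝ) * ((c / (δ * ℓ)) ^ κ * (ε₁ / 2)) := by
      have heq : (Ch * ℓ ^ κ) ^ 2 * ((1 + 2 * δ) * ℓ *
          (Real.exp ℓ * (1 / ℓ ^ (4 * κ + 10)) / (((WW ℓ e).totient : ℕ) : ℝ))) =
          (Ch ^ 2 * (1 + 2 * δ) * (δ ^ κ / c ^ κ) * (2 / ε₁) / c₁) * (1 / ℓ ^ (κ + 9)) *
            (c₁ * Real.exp ℓ / (((WW ℓ e).totient : ℕ) : ℝ) * ((c / (δ * ℓ)) ^ κ * (ε₁ / 2))) := by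
        rw [div_pow, mul_pow δ ℓ]
        field_simp
        ring
      rw [heq]
      have h12 : (Ch ^ 2 * (1 + 2 * δ) * (δ ^ κ / c ^ κ) * (2 / ε₁) / c₁) * (1 / ℓ ^ (κ + 9)) ≤ 1 := by
        have h13 : ℓ ≤ ℓ ^ (κ + 9) := by
          calc ℓ = ℓ ^ 1 := (pow_one ℓ).symm
            _ ≤ ℓ ^ (κ + 9) := pow_le_pow_right₀ hℓ (by omega)
        rw [mul_one_div, div_le_one (by positivity)]
        exact hp.trans h13
      calc (Ch ^ 2 * (1 + 2 * δ) * (δ ^ κ / c ^ κ) * (2 / ε₁) / c₁) * (1 / ℓ ^ (κ + 9)) *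
            (c₁ * Real.exp ℓ / (((WW ℓ e).totient : ℕ) : ℝ) * ((c / (δ * ℓ)) ^ κ * (ε₁ / 2)))
          ≤ 1 * (c₁ * Real.exp ℓ / (((WW ℓ e).totient : ℕ) : ℝ) * ((c / (δ * ℓ)) ^ κ * (ε₁ / 2))) := by
            apply mul_le_mul_of_nonneg_right h12; positivity
        _ = _ := one_mul _
    calc (Ch * ℓ ^ κ) ^ 2 * ((1 + 2 * Real.log (zz δ ℓ)) *
          (Real.exp ℓ * (1 / ℓ ^ (4 * κ + 10)) / (((WW ℓ e).totient : ℕ) : ℝ)))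
        ≤ (Ch * ℓ ^ κ) ^ 2 * ((1 + 2 * δ) * ℓ *
          (Real.exp ℓ * (1 / ℓ ^ (4 * κ + 10)) / (((WW ℓ e).totient : ℕ) : ℝ))) := by
          apply mul_le_mul_of_nonneg_left _ (by positivity)
          exact mul_le_mul_of_nonneg_right ha (by positivity)
      _ ≤ c₁ * Real.exp ℓ / (((WW ℓ e).totient : ℕ) : ℝ) * ((c / (δ * ℓ)) ^ κ * (ε₁ / 2)) := hcc
      _ ≤ XT ℓ (zz υ ℓ) / (((WW ℓ e).totient : ℕ) : ℝ) * (V1 δ ℓ e ^ κ * (ε₁ / 2)) := by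
          apply mul_le_mul hXge _ (by positivity) hX0
          exact mul_le_mul_of_nonneg_right hb (by linarith)
  have hdis : Disjoint ({i} : Finset ℕ) (Hb ∪ Po') := Finset.disjoint_singleton_left.mpr hiU
  have hcore := tp_core (K := K) (s := s) (κ := κ) hK hκ hFL (w := wz ℓ) (z := zz δ ℓ) h1.1 h1.2 h2.1 hzK
    (P := PP δ ℓ e) (Q := QQ δ υ ℓ e) (Z := {i}) (Po := Po') (Hb := Hb) (S := Sb ℓ e b)
    (Finset.erase_subset _ _) (fun q hq => ?_) (by simp) (fun h hh => ?_)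
    (fun h hh => h3 h (hPoIcc _ hPo' hh)) (fun h hh => h3 h (hPoIcc _ hHb hh)) hdis
    (a := fun n => aw ℓ (zz υ ℓ) (n + i)) (X := XT ℓ (zz υ ℓ) / (((WW ℓ e).totient : ℕ) : ℝ))
    (Lv := Real.exp (ℓ / 4)) (M := M)
    (hM1 b i hi) C (Real.exp_pos _).le hC hC2 hlev'
    (V := V1 δ ℓ e) (B := B) (r := r) (ε₁ := ε₁) hV0.le hB
    (h8 e b Po' Hb {i} hPo' hHb (Finset.singleton_subset_iff.mpr hi) (by simp) hdis)
    (fun E hE hCE => ?_) (h10 e) ?_ ?_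
  · have hXi : Xi K s κ Λ r = (1 / 2 : ℝ) ^ s * B * r ^ (6 * K) := by
      rw [Xi, hBdef]
    rw [hXi]
    exact hcore
  · have hq' := mem_primesIoc.mp (Finset.mem_of_mem_erase hq)
    exact ⟨hq'.2.2, hq'.1⟩
  · rw [Finset.mem_singleton] at hh
    rw [hh]
    exact h3 i hiIcc
  · have hU : pos E ⊆ Po' := by
      intro x hx
      obtain ⟨y, hy, rfl⟩ := Finset.mem_image.mp hx
      exact (Finset.mem_product.mp ((Finset.mem_powerset.mp hE) hy)).1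
    apply h7 e {i} (Hb ∪ pos E) (Finset.singleton_subset_iff.mpr hiIcc) _ (by simp) _ (hC2 E hE hCE).1
    · exact Finset.union_subset (hPoIcc _ hHb) (hU.trans (hPoIcc _ hPo'))
    · exact hdis.mono_right (Finset.union_subset_union_right hU)
  · have := hexp _ (h6 e)
    calc B * (r ^ K * (Real.exp (4 ^ K * ((K : ℝ) + 2) * ∑ p ∈ QQ δ υ ℓ e, 1 / ((p : ℝ) - 1) ^ 2) - 1))
        = B * r ^ K * (Real.exp (4 ^ K * ((K : ℝ) + 2) * ∑ p ∈ QQ δ υ ℓ e, 1 / ((p : ℝ) - 1) ^ 2) - 1) := by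
          ring
      _ ≤ ε₁ / 2 := this
  · refine rem_cond ?_ hX0 hV0.le hVle hε.le (h9 e b Po' Hb hPo') ?_
    · apply mul_nonneg (by linarith)
      apply Finset.sum_nonneg
      intro Q' hQ'
      apply mul_nonneg (by positivity)
      refine Finset.sum_nonneg (fun D hD => mul_nonneg (by positivity) ?_)
      apply (hM1 b i hi).M0
      exact Finset.union_subset
        ((Finset.mem_powerset.mp (Finset.mem_filter.mp hD).1).trans Finset.subset_union_left)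
        ((Finset.mem_powerset.mp (Finset.mem_filter.mp hQ').1).trans Finset.subset_union_right)
    · refine le_trans ?_ hremcond
      apply mul_le_mul_of_nonneg_left _ (by positivity)
      exact mul_le_mul_of_nonneg_left hRb (by linarith)

end Pool.Agent.H81.AS
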