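import Pool.Agent.H81.AS.Params
import Pool.Agent.H81.AS.TPP
import Pool.Agent.H81.AS.Tail
import Pool.Agent.H81.AS.Outer
import Pool.Agent.H81.AS.Inner
import Pool.Agent.H81.AS.InnerD
import Pool.Agent.H81.AS.M1
import Pool.Agent.H81.AS.M2
import Pool.Agent.H81.AS.M3
import Pool.Agent.H81.AS.PoCard
import Pool.Agent.H81.AS.FLU
import Pool.Agent.H81.AS.KPCore
import Pool.Agent.H81.AS.KPReal
import Pool.Agent.H81.AS.KPGen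

/-!
JOB AS-KP. The key proposition: for every `H0 ⊆ Po`, `#H0 = k`, the weighted count is large.

PROOF. Constants: `C0` (`flp_exists`), `c₁, C₁` (`xt_bounds`), `k, n₀, η₁, δ₁` from `inner_exists m (cT := c₁)`,
`Cp` (`po_card`), `A, CA, c₀` (`outer_exists`), `CQ` (`QQ_prod`), then `params`. `υ = 1/64`, `τ = 1/64`,
`T1 = T = e^{ℓ/64}`, `g = gst n₀ (η₁ℓ)`, `α` from `outer_exists`, `Λ = Cp lam/δ`, `r = CQ/(64 δ)`, `ε₁` with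
`ε₁ ((k+1)Λ+2) ≤ 1/16`. `X = e^ℓ/W`, `V = V1`. `A2 = ∑ g² pf ≥ 1`, `B = ∑ g pf`, `DI = DI Q H0 g T1 ∈ [1, A2^k]`,
`DO = DO Q (Po\H0) α V 0 T ≥ 1`. `nn E ≤ T1 T = e^{ℓ/32}`: apply `tpi`, `tpp` with exponent `1/32`
(`4/32 + δ(8s+10) < 1/2`, `2/32 + δ(4s+5) < 1/4`).
(S1) `tpi` with `Po' = Po`, `Hb = H0`, `Cf`: `∑ Psi² ≤ X V^k (DI DO (1+ε₁) + Xi + ε₁) ≤ (5/4) X V^k A2^k DO` (`dg_main`).
(S2) for `i ∈ H0`: `aw ℓ y (n+i) ≠ 0` implies that `n+i` is a prime `> y`, so `psi_erase`; `tpp` with `Po' = Po.erase i`,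
`Hb = H0.erase i`, `C = Cr/B` (`cr_abs_in`): `∑ aw Psi² ≥ (XT/φ) V^{k-1} B² ((1-ε₁) DI' DO - Xi - ε₁)`
(`dg_in` with `T1l = e^{15ℓ/1024}`, `Tg = e^{ℓ/1024}`), `DI' ≥ max(1, A2^{k-1}/2)` (`di_lower`, `log T1l ≥ ℓ/128`), so
`≥ (XT/φ) V^{k-1} B² (3/4) (A2^{k-1}/2) DO`. Sum over `i`, divide by `ℓ`, use `XT ≥ c₁ e^ℓ`,
`c₁ δ k B² ≥ 16 (m+1) A2` and `V φ/W ≤ 4/(δℓ)`: `≥ (3/2)(m+1) X V^k A2^k DO`.
(S3) `Xo Psi² ≤ ∑_{h0 ∈ Po\H0} Psi(Po.erase h0, insert h0 H0, Cr)²` (`psi_insert` when `n+h0` is free, else the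
indicator is `0` and the square is `≥ 0`); `tpi` and `dg_out` (`Tl = e^{(1/64-ε)ℓ}`, `Te = e^{εℓ}`), `do_tail`:
`≤ X V^k Λ (2·2e^{-τ/ε} DI DO + Xi + ε₁)`.
Total: `≥ X V^k (A2^k DO ((3/2)(m+1) - (5/4)(m-1) - 1/8) - 1/8) ≥ X V^k/2`.
-/

set_option autoImplicit false

open Finset Filter Topology

namespace Pool.Agent.H81.AS

open Pool.Agent.H16

theorem kp (m : ℕ) (hm : 1 ≤ m) : ∃ k : ℕ, m + 1 ≤ k ∧ ∀ lam : ℝ, 0 < lam → ∃ (δ υ : ℝ) (κ : ℕ),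
    0 < δ ∧ δ ≤ υ ∧ υ ≤ 1 / 4 ∧ ∀ᶠ ℓ : ℝ in atTop, ∃ (e : ℕ) (g α : ℕ → ℝ) (T1 T : ℝ),
      (∀ r, 0 ≤ g r) ∧ (∀ r, g r ≤ 1) ∧ (∀ r, 0 ≤ α r) ∧ (∀ r, α r ≤ 1) ∧
      (∀ b : ℕ, ∀ H0 ⊆ Po lam ℓ e b, #H0 = k → ∀ E ∈ (Po lam ℓ e b ×ˢ QQ δ υ ℓ e).powerset,
        Cf H0 g α T1 T E ≠ 0 → #(H0 ∪ pos E) ≤ κ) ∧
      ∀ b : ℕ, ∀ H0 ⊆ Po lam ℓ e b, #H0 = k →
        (1 / 2) * (Real.exp ℓ / (WW ℓ e : ℝ)) * V1 δ ℓ e ^ k ≤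
          ∑ n ∈ Sb ℓ e b,
            Psi (PP δ ℓ e) (QQ δ υ ℓ e) (Po lam ℓ e b) H0 (Cf H0 g α T1 T) n ^ 2 *
              ((∑ h ∈ H0, aw ℓ (zz υ ℓ) (n + h)) / ℓ - ((m : ℝ) - 1) -
                ((k : ℝ) + 1) * Xo (PP δ ℓ e) (QQ δ υ ℓ e) (Po lam ℓ e b) H0 n) := by
  obtain ⟨C0, hC0, hFLU⟩ := flp_exists
  obtain ⟨c₁, C₁, hc₁, hC₁, hXTall⟩ := xt_bounds
  obtain ⟨k, n₀, η₁, δ₁, hk, hn₀, hη₁, h1024, hδ₁, hinner⟩ := inner_exists m hc₁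
  refine ⟨k, hk, fun lam hlam => ?_⟩
  obtain ⟨Cp, hCp, hcardAll⟩ := po_card
  obtain ⟨A, CA, c₀, hA, hCA, hc₀, houter⟩ := outer_exists
  obtain ⟨CQ, hCQ, hQprod⟩ := QQ_prod
  obtain ⟨cV, hcV, hV1all⟩ := V1_bounds
  obtain ⟨J, κ₁, κ, K, s, ε, δ, hJ, hκ1, hκ, hK, hs, hε, hε256, hδ, hδδ₁, hδ64, hδc, hδs, hκ₁, hCpJ,
    hXi, hexp⟩ := params k C0 A hA hlam hCp hCA hc₀ hCQ hδ₁
  obtain ⟨Λ, hΛ⟩ : ∃ Λ : ℝ, Λ = Cp * lam / δ := ⟨_, rfl⟩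
  obtain ⟨r, hr⟩ : ∃ r : ℝ, r = CQ * (1 / 64) / δ := ⟨_, rfl⟩
  rw [← hΛ, ← hr] at hXi
  rw [← hΛ] at hexp
  have hΛ0 : 0 < Λ := by rw [hΛ]; positivity
  have hr1 : 1 ≤ r := by
    rw [hr, le_div_iff₀ hδ]
    nlinarith
  have hk1 : 1 ≤ k := by omega
  obtain ⟨ε₁, hε₁⟩ : ∃ ε₁ : ℝ, ε₁ = 1 / (16 * (((k : ℝ) + 1) * Λ + 1)) := ⟨_, rfl⟩
  have hden : 0 < ((k : ℝ) + 1) * Λ + 1 := by positivity
  have hε₁0 : 0 < ε₁ := by rw [hε₁]; positivity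
  have hε₁1 : ε₁ * (((k : ℝ) + 1) * Λ + 1) = 1 / 16 := by
    rw [hε₁]
    field_simp
  have hε₁2 : ε₁ ≤ 1 / 16 := by
    have : 0 ≤ ((k : ℝ) + 1) * Λ := by positivity
    nlinarith
  have hK1 : 1 ≤ K := by omega
  have hcard : ∀ᶠ ℓ : ℝ in atTop, ∀ e b : ℕ, (#(Po lam ℓ e b) : ℝ) * V1 δ ℓ e ≤ Λ := by
    rw [hΛ]
    exact hcardAll lam δ hlam hδ
  have hprod : ∀ᶠ ℓ : ℝ in atTop, ∀ e : ℕ,
      ∏ p ∈ QQ δ (1 / 64) ℓ e, (1 + 1 / ((p : ℝ) - 1)) ≤ r := by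
    rw [hr]
    exact hQprod δ (1 / 64) hδ hδ64
  have hFL : FLP (2 * K) s := hFLU (2 * K) s (by omega) hs
  have hΞ0 : 0 ≤ Xi K s κ Λ r := by
    unfold Xi
    positivity
  have TI := tpi hK1 (by omega : 2 * κ ≤ K) hFL hlam hδ hδ64 (by norm_num : (0 : ℝ) < 1 / 32)
    (by linarith) hΛ0.le hr1 hcard hprod hε₁0
  have TP := tpp hK1 (by omega : 2 * κ ≤ K) hFL hlam hδ hδ64 (by norm_num) (by norm_num : (0 : ℝ) < 1 / 32)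
    (by linarith) hΛ0.le hr1 hcard hprod hε₁0
  have IN := hinner δ (1 / 64) hδ hδδ₁ (by norm_num) (by norm_num)
  have OU := houter J ε (1 / 64) δ hJ hε (by linarith) hδ hδc
  have XB := hXTall (1 / 64) (by norm_num) (by norm_num)
  have VB := hV1all δ hδ
  have ZB := ev_zz hδ 1
  refine ⟨δ, 1 / 64, κ, hδ, hδ64, by norm_num, ?_⟩
  filter_upwards [TI, TP, IN, OU, XB, VB, ZB, hcard, eventually_ge_atTop (1 : ℝ)] with ℓ TI TP IN OU XB VB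
    ZB hcard hℓ1
  have hℓ0 : 0 < ℓ := by linarith
  obtain ⟨e, TP⟩ := TP
  obtain ⟨α, hα0, hα1, hαs, hαsum, hαlog⟩ := OU e
  have hαρ : ∀ r, α r ≠ 0 → Real.exp (ε / (A : ℝ) ^ J * ℓ) ≤ (r : ℝ) := fun r h => (hαs r h).1.le
  have hαTe : ∀ r, α r ≠ 0 → (r : ℝ) ≤ Real.exp (ε * ℓ) := fun r h => (hαs r h).2
  have hηℓ : 0 ≤ η₁ * ℓ := by positivity
  have hg0 : ∀ r, 0 ≤ gst n₀ (η₁ * ℓ) r := fun r => gst_nonneg _ _ _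
  have hg11 : gst n₀ (η₁ * ℓ) 1 = 1 := gst_one hn₀ hηℓ
  have hg00 : gst n₀ (η₁ * ℓ) 0 = 1 := gst_eq_one hn₀ hηℓ (by
    have := gY_ge_one hηℓ 0
    push_cast
    linarith)
  have hg1 : ∀ r, gst n₀ (η₁ * ℓ) r ≤ 1 := by
    intro r
    rw [← hg00]
    exact gst_anti n₀ (η₁ * ℓ) (Nat.zero_le r)
  have hTg : ∀ r, gst n₀ (η₁ * ℓ) r ≠ 0 → (r : ℝ) ≤ Real.exp (1 / 1024 * ℓ) := by
    intro r hr
    by_contra hc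
    push Not at hc
    apply hr
    apply gst_eq_zero hηℓ
    refine lt_of_le_of_lt ?_ hc
    unfold gY
    apply Real.exp_le_exp.mpr
    nlinarith
  have hρ1 : 1 < Real.exp (ε / (A : ℝ) ^ J * ℓ) := by
    rw [← Real.exp_zero]
    apply Real.exp_lt_exp.mpr
    have : (0 : ℝ) < (A : ℝ) ^ J := by positivity
    positivity
  have hTρ : Real.exp (1 / 64 * ℓ) < Real.exp (ε / (A : ℝ) ^ J * ℓ) ^ (κ₁ + 1) := by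
    rw [← Real.exp_nat_mul]
    apply Real.exp_lt_exp.mpr
    push_cast
    nlinarith
  have hQP : ∀ q ∈ QQ δ (1 / 64) ℓ e, q.Prime := fun q hq =>
    (PQ_coprime (ℓ := ℓ) (e := e) (δ := δ) (υ := 1 / 64) ZB.1 (Finset.mem_union_right _ hq)).1
  have hV0 : 0 < V1 δ ℓ e := V1_pos δ ℓ e
  have hW0 : (0 : ℝ) < (WW ℓ e : ℝ) := by exact_mod_cast WW_pos ℓ e
  have hφ0 : (0 : ℝ) < (((WW ℓ e).totient : ℕ) : ℝ) := by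
    exact_mod_cast Nat.totient_pos.2 (WW_pos ℓ e)
  have hX0 : 0 < Real.exp ℓ / (WW ℓ e : ℝ) := by positivity
  have hXT0 : 0 ≤ XT ℓ (zz (1 / 64) ℓ) := le_trans (by positivity) XB.1
  have hXP0 : 0 ≤ XT ℓ (zz (1 / 64) ℓ) / (((WW ℓ e).totient : ℕ) : ℝ) := by positivity
  have hR : Λ * (CA * δ * ℓ / J) ≤ 1 / (64 * 14) * ℓ := by
    have h2 : Λ * (CA * δ * ℓ / J) = (Cp * lam * CA / J) * ℓ := by
      rw [hΛ]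
      field_simp
    rw [h2]
    exact mul_le_mul_of_nonneg_right hCpJ hℓ0.le
  have hXi' : (Xi K s κ Λ r + ε₁) * (((k : ℝ) + 1) * Λ + 1) ≤ 1 / 8 := by
    have : (Xi K s κ Λ r + ε₁) * (((k : ℝ) + 1) * Λ + 1) = Xi K s κ Λ r * (((k : ℝ) + 1) * Λ + 1) +
      ε₁ * (((k : ℝ) + 1) * Λ + 1) := by ring
    rw [this, hε₁1]
    linarith
  have hXPX : c₁ * δ * V1 δ ℓ e * (Real.exp ℓ / (WW ℓ e : ℝ)) / 4 ≤
      XT ℓ (zz (1 / 64) ℓ) / (((WW ℓ e).totient : ℕ) : ℝ) / ℓ := by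
    have h1 := (VB e).2.1
    have h2 : δ * V1 δ ℓ e / (4 * (WW ℓ e : ℝ)) ≤ 1 / (ℓ * (((WW ℓ e).totient : ℕ) : ℝ)) := by
      rw [div_le_div_iff₀ (by positivity) (by positivity)]
      have h3 := mul_le_mul_of_nonneg_right h1 (by positivity : 0 ≤ δ * ℓ * (WW ℓ e : ℝ))
      have h4 : V1 δ ℓ e * ((((WW ℓ e).totient : ℕ) : ℝ) / (WW ℓ e : ℝ)) * (δ * ℓ * (WW ℓ e : ℝ)) =
          δ * V1 δ ℓ e * (ℓ * (((WW ℓ e).totient : ℕ) : ℝ)) := by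
        field_simp
      have h5 : 4 / (δ * ℓ) * (δ * ℓ * (WW ℓ e : ℝ)) = 1 * (4 * (WW ℓ e : ℝ)) := by
        field_simp
      linarith
    calc c₁ * δ * V1 δ ℓ e * (Real.exp ℓ / (WW ℓ e : ℝ)) / 4
        = c₁ * Real.exp ℓ * (δ * V1 δ ℓ e / (4 * (WW ℓ e : ℝ))) := by
          field_simp
      _ ≤ XT ℓ (zz (1 / 64) ℓ) * (1 / (ℓ * (((WW ℓ e).totient : ℕ) : ℝ))) :=
          mul_le_mul XB.1 h2 (by positivity) hXT0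
      _ = _ := by field_simp
  refine ⟨e, gst n₀ (η₁ * ℓ), α, Real.exp (1 / 64 * ℓ), Real.exp (1 / 64 * ℓ), hg0, hg1, hα0, hα1, ?_, ?_⟩
  · intro b H0 hH0 hc E hE hC
    have := (cf_supp hQP hH0 hρ1 hαρ hTρ hE hC).1
    omega
  intro b H0 hH0 hH0k
  have TPHI : TPH (PP δ ℓ e) (QQ δ (1 / 64) ℓ e) (Po lam ℓ e b) (Sb ℓ e b) κ (Real.exp (1 / 32 * ℓ))
      (V1 δ ℓ e) (Xi K s κ Λ r) ε₁ (fun _ => 1) (Real.exp ℓ / (WW ℓ e : ℝ)) (fun _ => True) := by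
    intro Po' Hb h1 h2 _ C h3 h4
    have := TI e b Po' Hb h1 h2 C h3 h4
    simpa only [one_mul] using this
  have TPHP : ∀ i ∈ H0, TPH (PP δ ℓ e) (QQ δ (1 / 64) ℓ e) (Po lam ℓ e b) (Sb ℓ e b) κ
      (Real.exp (1 / 32 * ℓ)) (V1 δ ℓ e) (Xi K s κ Λ r) ε₁ (fun n => aw ℓ (zz (1 / 64) ℓ) (n + i))
      (XT ℓ (zz (1 / 64) ℓ) / (((WW ℓ e).totient : ℕ) : ℝ)) (fun U => i ∉ U) := by
    intro i hi Po' Hb h1 h2 h5 C h3 h4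
    exact TP b i Po' Hb (hH0 hi) h1 h2 h5 C h3 h4
  have hap : ∀ i ∈ H0, ∀ n ∈ Sb ℓ e b, aw ℓ (zz (1 / 64) ℓ) (n + i) ≠ 0 →
      ∀ p ∈ PP δ ℓ e ∪ QQ δ (1 / 64) ℓ e, ¬ p ∣ n + i := by
    intro i _ n _ hne p hp hdvd
    obtain ⟨h1, h2, _⟩ := aw_ne_zero hne
    have h3 := (PQ_coprime (ℓ := ℓ) (e := e) (δ := δ) (υ := 1 / 64) ZB.1 hp).1
    have h4 : p = n + i := (Nat.prime_dvd_prime_iff_eq h3 h1).1 hdvd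
    have h5 : p ≤ zz (1 / 64) ℓ := by
      rcases Finset.mem_union.1 hp with h | h
      · unfold PP at h
        have := (mem_primesIoc.1 (Finset.mem_of_mem_erase h)).2.1
        exact this.trans (zz_mono hδ64 hℓ0.le)
      · unfold QQ at h
        exact (mem_primesIoc.1 (Finset.mem_of_mem_erase h)).2.1
    omega
  exact kp_gen (a := fun i n => aw ℓ (zz (1 / 64) ℓ) (n + i)) hm hk1 hQP hH0 hH0k hg0 hg1 hg11 hTg hα0 hα1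
    hρ1 hαρ hαTe hαsum hαlog hR hTρ (by omega) hε hε256 hℓ0 hV0 hX0 hXP0 hε₁0 hε₁2 hΞ0 hΛ0.le (hcard e b)
    hXi' hexp (IN e).1 (IN e).2 hap hXPX TPHI TPHP

end Pool.Agent.H81.AS
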