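import Pool.Agent.H81.AS.KPCore
import Pool.Agent.H81.AS.KPReal

/-!
The key proposition for abstract finite sets (all parameters as variables).
-/

set_option autoImplicit false

open Finset Filter Topology

namespace Pool.Agent.H81.AS

open Pool.Agent.H16

section
variable {P Q Pos H0 S : Finset ℕ} {κ κ₁ k m : ℕ} {g α : ℕ → ℝ} {T T2 V Ξ ε₁ X XP ρ ε ℓ Λ c₁ δ : ℝ}

/-- tail of the outer sum -/
lemma kp_tail (hQP : ∀ q ∈ Q, q.Prime) (hα0 : ∀ r, 0 ≤ α r) (hα11 : α 1 = 0) (hV0 : 0 < V) (hε : 0 < ε)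
    (hℓ0 : 0 < ℓ) (hε256 : ε ≤ 1 / 256) (hαTe : ∀ r, α r ≠ 0 → (r : ℝ) ≤ Real.exp (ε * ℓ))
    (hΛ0 : 0 ≤ Λ) {R : ℝ} (hΛ' : (#Pos : ℝ) * V ≤ Λ)
    (hαlog : ∑ D ∈ Q.powerset, α (pd D) ^ 2 * pf D * Real.log (pd D) ≤ R)
    (hR : Λ * R ≤ 1 / (64 * 14) * ℓ) :
    DO Q (Pos \ H0) α V (Real.exp ((1 / 64 - ε) * ℓ)) (Real.exp (1 / 64 * ℓ)) ≤
      2 * Real.exp (-(1 / 64 / ε)) * DO Q (Pos \ H0) α V 0 (Real.exp (1 / 64 * ℓ)) := by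
  have hsub : (#(Pos \ H0) : ℝ) ≤ #Pos := by
    exact_mod_cast Finset.card_le_card Finset.sdiff_subset
  apply do_tail hQP hα0 hα11 hV0.le hε hℓ0 (by linarith) hαTe
  have hlog0 : 0 ≤ ∑ D ∈ Q.powerset, α (pd D) ^ 2 * pf D * Real.log (pd D) := by
    apply Finset.sum_nonneg
    intro D hD
    apply mul_nonneg
    · apply mul_nonneg (by positivity)
      unfold pf
      apply Finset.prod_nonneg
      intro p hp
      have : (1 : ℝ) ≤ p := by exact_mod_cast (hQP p (Finset.mem_powerset.1 hD hp)).one_lt.le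
      exact div_nonneg zero_le_one (by linarith)
    · exact Real.log_natCast_nonneg _
  have h1 : (#(Pos \ H0) : ℝ) * V * ∑ D ∈ Q.powerset, α (pd D) ^ 2 * pf D * Real.log (pd D) ≤
      Λ * R := by
    apply mul_le_mul _ hαlog hlog0 hΛ0
    exact (mul_le_mul_of_nonneg_right hsub hV0.le).trans hΛ'
  refine h1.trans (hR.trans (le_of_eq ?_))
  ring

theorem kp_gen (hm : 1 ≤ m) (hk1 : 1 ≤ k) (hQP : ∀ q ∈ Q, q.Prime) (hH0 : H0 ⊆ Pos) (hH0k : #H0 = k)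
    (hg0 : ∀ r, 0 ≤ g r) (hg1 : ∀ r, g r ≤ 1) (hg11 : g 1 = 1)
    (hTg : ∀ r, g r ≠ 0 → (r : ℝ) ≤ Real.exp (1 / 1024 * ℓ))
    (hα0 : ∀ r, 0 ≤ α r) (hα1 : ∀ r, α r ≤ 1) (hρ1 : 1 < ρ) (hαρ : ∀ r, α r ≠ 0 → ρ ≤ (r : ℝ))
    (hαTe : ∀ r, α r ≠ 0 → (r : ℝ) ≤ Real.exp (ε * ℓ))
    (hαsum : ∑ D ∈ Q.powerset, α (pd D) * pf D = 1)
    {R : ℝ} (hαlog : ∑ D ∈ Q.powerset, α (pd D) ^ 2 * pf D * Real.log (pd D) ≤ R)
    (hR : Λ * R ≤ 1 / (64 * 14) * ℓ)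
    (hTρ : Real.exp (1 / 64 * ℓ) < ρ ^ (κ₁ + 1)) (hkκ : k + κ₁ + 1 ≤ κ)
    (hε : 0 < ε) (hε256 : ε ≤ 1 / 256) (hℓ0 : 0 < ℓ) (hV0 : 0 < V) (hX0 : 0 < X) (hXP0 : 0 ≤ XP)
    (hε₁0 : 0 < ε₁) (hε₁2 : ε₁ ≤ 1 / 16) (hΞ0 : 0 ≤ Ξ) (hΛ0 : 0 ≤ Λ) (hΛ' : (#Pos : ℝ) * V ≤ Λ)
    (hXi : (Ξ + ε₁) * (((k : ℝ) + 1) * Λ + 1) ≤ 1 / 8)
    (hexp : 4 * ((k : ℝ) + 1) * Λ * Real.exp (-(1 / 64 / ε)) ≤ 1 / 8)
    (hIN1 : 16 * ((m : ℝ) + 1) * ∑ D ∈ Q.powerset, g (pd D) ^ 2 * pf D ≤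
        c₁ * δ * k * (∑ D ∈ Q.powerset, g (pd D) * pf D) ^ 2)
    (hIN2 : 2 * ((k : ℝ) - 1) * ∑ D ∈ Q.powerset, g (pd D) ^ 2 * pf D * Real.log (pd D) ≤
        (∑ D ∈ Q.powerset, g (pd D) ^ 2 * pf D) * (ℓ / 128))
    {a : ℕ → ℕ → ℝ} (hap : ∀ i ∈ H0, ∀ n ∈ S, a i n ≠ 0 → ∀ p ∈ P ∪ Q, ¬ p ∣ n + i)
    (hXPX : c₁ * δ * V * X / 4 ≤ XP / ℓ)
    (TI : TPH P Q Pos S κ (Real.exp (1 / 32 * ℓ)) V Ξ ε₁ (fun _ => 1) X (fun _ => True))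
    (TP : ∀ i ∈ H0, TPH P Q Pos S κ (Real.exp (1 / 32 * ℓ)) V Ξ ε₁ (a i) XP (fun U => i ∉ U)) :
    (1 / 2) * X * V ^ k ≤
      ∑ n ∈ S, Psi P Q Pos H0 (Cf H0 g α (Real.exp (1 / 64 * ℓ)) (Real.exp (1 / 64 * ℓ))) n ^ 2 *
        ((∑ h ∈ H0, a h n) / ℓ - ((m : ℝ) - 1) - ((k : ℝ) + 1) * Xo P Q Pos H0 n) := by
  have hk' : (1 : ℝ) ≤ k := by exact_mod_cast hk1
  have hT2 : Real.exp (1 / 64 * ℓ) * Real.exp (1 / 64 * ℓ) ≤ Real.exp (1 / 32 * ℓ) := by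
    rw [← Real.exp_add]
    apply Real.exp_le_exp.mpr
    linarith
  have hT1lg : Real.exp (15 / 1024 * ℓ) * Real.exp (1 / 1024 * ℓ) ≤ Real.exp (1 / 64 * ℓ) := by
    rw [← Real.exp_add]
    apply Real.exp_le_exp.mpr
    linarith
  have hT1l1 : 1 < Real.exp (15 / 1024 * ℓ) := by
    rw [← Real.exp_zero]
    apply Real.exp_lt_exp.mpr
    positivity
  have he1 : 1 ≤ Real.exp (1 / 64 * ℓ) := Real.one_le_exp (by positivity)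
  have hA21 : 1 ≤ ∑ D ∈ Q.powerset, g (pd D) ^ 2 * pf D :=
    sum_gpf_ge (g := fun r => g r ^ 2) hQP (fun r => by positivity) (by simp [hg11])
  have hα11 : α 1 = 0 := by
    by_contra h0
    have := hαρ 1 h0
    push_cast at this
    linarith
  have hDI1 : 1 ≤ DI Q H0 g (Real.exp (1 / 64 * ℓ)) := one_le_di hQP hg11 he1
  have hDI2 : DI Q H0 g (Real.exp (1 / 64 * ℓ)) ≤ (∑ D ∈ Q.powerset, g (pd D) ^ 2 * pf D) ^ k := by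
    have := di_upper (H := H0) hQP hg0 (Real.exp (1 / 64 * ℓ))
    rwa [hH0k] at this
  have hDO1 : 1 ≤ DO Q (Pos \ H0) α V 0 (Real.exp (1 / 64 * ℓ)) := one_le_do hQP α hV0.le he1
  have hDI'i : ∀ i ∈ H0, max 1 ((∑ D ∈ Q.powerset, g (pd D) ^ 2 * pf D) ^ (k - 1) / 2) ≤
      DI Q (H0.erase i) g (Real.exp (15 / 1024 * ℓ)) := by
    intro i hi
    apply max_le
    · exact one_le_di hQP hg11 hT1l1.le
    · have hce : #(H0.erase i) = k - 1 := by rw [Finset.card_erase_of_mem hi, hH0k]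
      have hce' : (#(H0.erase i) : ℝ) = (k : ℝ) - 1 := by
        rw [hce]
        push_cast [Nat.cast_sub hk1]
        ring
      have := di_lower (H := H0.erase i) hQP hg0 hT1l1 (by
        rw [hce']
        refine hIN2.trans ?_
        apply mul_le_mul_of_nonneg_left _ (by linarith : 0 ≤ ∑ D ∈ Q.powerset, g (pd D) ^ 2 * pf D)
        rw [Real.log_exp]
        linarith)
      rwa [hce] at this
  have htail := kp_tail (H0 := H0) hQP hα0 hα11 hV0 hε hℓ0 hε256 hαTe hΛ0 hΛ' hαlog hR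
  have hTlTe : Real.exp ((1 / 64 - ε) * ℓ) * Real.exp (ε * ℓ) ≤ Real.exp (1 / 64 * ℓ) := by
    rw [← Real.exp_add]
    apply Real.exp_le_exp.mpr
    linarith
  have hkκ' : #H0 + κ₁ + 1 ≤ κ := by omega
  have hkκ'' : #H0 + κ₁ ≤ κ := by omega
  have hS1 := s1_le hQP hH0 hg0 hg1 hα0 hα1 hρ1 hαρ hTρ hkκ'' hT2 TI
  have hS3 := s3_le (Te := Real.exp (ε * ℓ)) hQP hH0 hg0 hg1 hα0 hα1 hρ1 hαρ hTρ hkκ' hT2 hV0.le hαsum hαTe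
    hTlTe (Real.exp_pos _).le htail hε₁0.le hX0.le hΞ0 (by positivity) hΛ' (by linarith) (by linarith) TI
  have hS2 : ∀ i ∈ H0, XP * (V ^ (k - 1) * (∑ D ∈ Q.powerset, g (pd D) * pf D) ^ 2 *
      ((1 - ε₁) * (max 1 ((∑ D ∈ Q.powerset, g (pd D) ^ 2 * pf D) ^ (k - 1) / 2) *
        DO Q (Pos \ H0) α V 0 (Real.exp (1 / 64 * ℓ))) - Ξ - ε₁)) ≤
      ∑ n ∈ S, a i n *
        Psi P Q Pos H0 (Cf H0 g α (Real.exp (1 / 64 * ℓ)) (Real.exp (1 / 64 * ℓ))) n ^ 2 := by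
    intro i hi
    have h6 := s2_ge (Tg := Real.exp (1 / 1024 * ℓ)) (T1l := Real.exp (15 / 1024 * ℓ)) hQP hH0 hg0 hg1 hg11
      hα0 hα1 hρ1 hαρ hTρ hkκ'' hT2 hV0.le hTg hT1lg (Real.exp_pos _).le (by linarith) hXP0
      hi (hap i hi) (TP i hi)
    refine le_trans ?_ h6
    rw [hH0k]
    apply mul_le_mul_of_nonneg_left _ hXP0
    apply mul_le_mul_of_nonneg_left _ (by positivity)
    have h7 := mul_le_mul_of_nonneg_right (hDI'i i hi)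
      (by linarith : 0 ≤ DO Q (Pos \ H0) α V 0 (Real.exp (1 / 64 * ℓ)))
    have h8 := mul_le_mul_of_nonneg_left h7 (by linarith : 0 ≤ 1 - ε₁)
    linarith
  rw [hH0k] at hS1 hS3
  have hfin := kp_real hm hH0k hk1 hX0 hV0 hε₁0 hΞ0 hΛ0 (by positivity) hA21 hDI1 hDI2 hDO1 (le_max_left _ _)
    (le_max_right _ _) hXi (by linarith) hε₁2 hIN1 hXPX hXP0 hℓ0 hS1 hS2 hS3
  refine hfin.trans (le_of_eq ?_)
  have e1 : (∑ i ∈ H0, ∑ n ∈ S, a i n *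
        Psi P Q Pos H0 (Cf H0 g α (Real.exp (1 / 64 * ℓ)) (Real.exp (1 / 64 * ℓ))) n ^ 2) =
      ∑ n ∈ S, (∑ i ∈ H0, a i n) *
        Psi P Q Pos H0 (Cf H0 g α (Real.exp (1 / 64 * ℓ)) (Real.exp (1 / 64 * ℓ))) n ^ 2 := by
    rw [Finset.sum_comm]
    exact Finset.sum_congr rfl fun n _ => by rw [Finset.sum_mul]
  rw [e1, Finset.sum_div, Finset.mul_sum, Finset.mul_sum, ← Finset.sum_sub_distrib,
    ← Finset.sum_sub_distrib]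
  exact Finset.sum_congr rfl fun n _ => by ring

end

end Pool.Agent.H81.AS
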