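import Pool.Agent.H81.AS.Defs

/-!
JOB AS-LOC. Local computations at one prime `p`: positions `U` and `Z` (at most one element), all `< p`,
disjoint. Hence for every residue `c` at most one `h ∈ U ∪ Z` has `p ∣ c + h`.
-/

set_option autoImplicit false

open Finset Filter Topology

namespace Pool.Agent.H81.AS

open Pool.Agent.H16

/-- existence of the residue hitting `h` -/
theorem loc_exists {p h : ℕ} (hh : h < p) : ∃ c, c < p ∧ p ∣ c + h := by
  rcases Nat.eq_zero_or_pos h with rfl | h0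
  · exact ⟨0, hh, by simp⟩
  · exact ⟨p - h, by omega, by rw [Nat.sub_add_cancel hh.le]⟩

/-- uniqueness of the residue -/
theorem loc_unique {p h c d : ℕ} (hc : c < p) (hd : d < p) (h1 : p ∣ c + h) (h2 : p ∣ d + h) :
    c = d := by
  have h3 : c + h ≡ d + h [MOD p] :=
    ((Nat.modEq_zero_iff_dvd.2 h1).trans (Nat.modEq_zero_iff_dvd.2 h2).symm)
  have h4 : c ≡ d [MOD p] := Nat.ModEq.add_right_cancel' h h3
  exact Nat.ModEq.eq_of_lt_of_lt h4 hc hd

/-- uniqueness of the position -/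
theorem loc_pos_unique {p h h' c : ℕ} (hh : h < p) (hh' : h' < p) (h1 : p ∣ c + h)
    (h2 : p ∣ c + h') : h = h' := by
  have h3 : c + h ≡ c + h' [MOD p] :=
    ((Nat.modEq_zero_iff_dvd.2 h1).trans (Nat.modEq_zero_iff_dvd.2 h2).symm)
  have h4 : h ≡ h' [MOD p] := Nat.ModEq.add_left_cancel' c h3
  exact Nat.ModEq.eq_of_lt_of_lt h4 hh hh'

theorem uu_hit {p m : ℕ} (h : p ∣ m) : uu p m = -1 := by simp [uu, h]

theorem uu_nhit {p m : ℕ} (h : ¬ p ∣ m) : uu p m = 1 / ((p : ℝ) - 1) := by simp [uu, h]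

section
variable {p : ℕ} (hp : p.Prime) {Z U : Finset ℕ} (hZ : #Z ≤ 1) (hZp : ∀ h ∈ Z, h < p)
  (hUp : ∀ h ∈ U, h < p) (hdis : Disjoint Z U)
include hp

theorem loc_p1 : (1 : ℝ) ≤ (p : ℝ) - 1 := by
  have : (2 : ℝ) ≤ p := by exact_mod_cast hp.two_le
  linarith

theorem loc_x0 : 0 < 1 / ((p : ℝ) - 1) := by
  have := loc_p1 hp
  positivity

theorem loc_x1 : 1 / ((p : ℝ) - 1) ≤ 1 := by
  have := loc_p1 hp
  rw [div_le_one (by linarith)]
  exact this

theorem loc_abs_uu (m : ℕ) : |uu p m| ≤ 1 := by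
  by_cases h : p ∣ m
  · rw [uu_hit h]; simp
  · rw [uu_nhit h, abs_of_pos (loc_x0 hp)]; exact loc_x1 hp

include hZ hZp

/-- `#(al Z p) = p - #Z`. -/
theorem card_al : (#(al Z p) : ℝ) = (p : ℝ) - #Z := by
  rcases Nat.lt_or_ge 0 (#Z) with h | h
  · have h1 : #Z = 1 := by omega
    obtain ⟨z, rfl⟩ := Finset.card_eq_one.1 h1
    have hz : z < p := hZp z (by simp)
    obtain ⟨c0, hc0, hd0⟩ := loc_exists hz
    have h2 : al {z} p = (range p).erase c0 := by
      ext c
      simp only [al, Finset.mem_filter, Finset.mem_range, Finset.mem_singleton, forall_eq,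
        Finset.mem_erase]
      constructor
      · rintro ⟨h3, h4⟩
        refine ⟨?_, h3⟩
        rintro rfl
        exact h4 hd0
      · rintro ⟨h3, h4⟩
        exact ⟨h4, fun h5 => h3 (loc_unique h4 hc0 h5 hd0)⟩
    rw [h2, Finset.card_erase_of_mem (Finset.mem_range.2 hc0), Finset.card_range]
    rw [Nat.cast_sub hp.one_lt.le]
    simp
  · have h1 : Z = ∅ := Finset.card_eq_zero.1 (by omega)
    subst h1
    simp [al]

theorem loc_q1 : (p : ℝ) - 1 ≤ (p : ℝ) - #Z := by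
  have : ((#Z : ℕ) : ℝ) ≤ 1 := by exact_mod_cast hZ
  linarith

theorem loc_q0 : 0 < (p : ℝ) - #Z := by
  have h1 := loc_q1 hp hZ hZp
  have h2 := loc_p1 hp
  linarith

/-- the local expectation of the empty product is `1` -/
theorem eloc_empty : eloc Z p ∅ ∅ = 1 := by
  have h1 := card_al hp hZ hZp
  have h2 := loc_q0 hp hZ hZp
  simp only [eloc, Finset.prod_empty, mul_one, Finset.sum_const, nsmul_eq_mul, gd, h1]
  field_simp

theorem aloc_empty : aloc Z p ∅ ∅ = 1 := by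
  have h1 := card_al hp hZ hZp
  have h2 := loc_q0 hp hZ hZp
  simp only [aloc, Finset.prod_empty, mul_one, Finset.sum_const, nsmul_eq_mul, gd, h1]
  field_simp

include hUp hdis

/-- the residue hitting `h` is in `al` -/
theorem loc_al {h : ℕ} (hh : h ∈ U) : ∃ c ∈ al Z p, p ∣ c + h := by
  obtain ⟨c, hc, hd⟩ := loc_exists (hUp h hh)
  refine ⟨c, ?_, hd⟩
  simp only [al, Finset.mem_filter, Finset.mem_range]
  refine ⟨hc, fun z hz hz2 => ?_⟩
  have h1 : z = h := loc_pos_unique (hZp z hz) (hUp h hh) hz2 hd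
  subst h1
  exact Finset.disjoint_left.1 hdis hz hh

/-- a sum over `al` of a function depending on whether `h` is hit -/
theorem loc_sum {h : ℕ} (hh : h ∈ U) (F : ℕ → ℝ) (u v : ℝ) (hu : ∀ c ∈ al Z p, p ∣ c + h → F c = u)
    (hv : ∀ c ∈ al Z p, ¬ p ∣ c + h → F c = v) :
    ∑ c ∈ al Z p, F c = u + ((p : ℝ) - #Z - 1) * v := by
  obtain ⟨c0, hc0, hd0⟩ := loc_al hp hZ hZp hUp hdis hh
  rw [← Finset.add_sum_erase _ _ hc0, hu c0 hc0 hd0]
  have h1 : ∑ c ∈ (al Z p).erase c0, F c = ∑ c ∈ (al Z p).erase c0, v := by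
    refine Finset.sum_congr rfl fun c hc => ?_
    have hc1 := Finset.mem_of_mem_erase hc
    refine hv c hc1 fun hd => ?_
    have h2 : c < p := by
      simp only [al, Finset.mem_filter, Finset.mem_range] at hc1; exact hc1.1
    have h3 : c0 < p := by
      simp only [al, Finset.mem_filter, Finset.mem_range] at hc0; exact hc0.1
    exact Finset.ne_of_mem_erase hc (loc_unique h2 h3 hd hd0)
  rw [h1, Finset.sum_const, nsmul_eq_mul, Finset.card_erase_of_mem hc0,
    Nat.cast_sub (Finset.card_pos.2 ⟨c0, hc0⟩), card_al hp hZ hZp]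
  simp

/-- number of residues hit -/
theorem loc_card_hit {A : Finset ℕ} (hA : A ⊆ U) :
    #((al Z p).filter (fun c => ∃ h ∈ A, p ∣ c + h)) ≤ #A := by
  classical
  have h1 : ∀ c ∈ (al Z p).filter (fun c => ∃ h ∈ A, p ∣ c + h), ∃ h, h ∈ A ∧ p ∣ c + h := by
    intro c hc
    obtain ⟨h, h1, h2⟩ := (Finset.mem_filter.1 hc).2
    exact ⟨h, h1, h2⟩
  choose! f hf using h1
  refine Finset.card_le_card_of_injOn f (fun c hc => (hf c hc).1) ?_
  intro c hc d hd hcd
  have hc' := Finset.mem_coe.1 hc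
  have hd' := Finset.mem_coe.1 hd
  have h2 := (hf c hc').2
  have h3 := (hf d hd').2
  rw [← hcd] at h3
  have h4 : c < p := by
    have := (Finset.mem_filter.1 hc').1
    simp only [al, Finset.mem_filter, Finset.mem_range] at this; exact this.1
  have h5 : d < p := by
    have := (Finset.mem_filter.1 hd').1
    simp only [al, Finset.mem_filter, Finset.mem_range] at this; exact this.1
  exact loc_unique h4 h5 h2 h3

omit hZ hZp hUp hdis in
theorem loc_prod_abs_le (A : Finset ℕ) (c : ℕ) : |∏ h ∈ A, uu p (c + h)| ≤ 1 := by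
  rw [Finset.abs_prod]
  exact Finset.prod_le_one (fun _ _ => abs_nonneg _) (fun h _ => loc_abs_uu hp _)

omit hZ hZp hUp hdis in
theorem loc_prod_abs_le_x {A : Finset ℕ} {c h : ℕ} (hh : h ∈ A) (hn : ¬ p ∣ c + h) :
    |∏ h ∈ A, uu p (c + h)| ≤ 1 / ((p : ℝ) - 1) := by
  rw [← Finset.mul_prod_erase _ _ hh, abs_mul, uu_nhit hn, abs_of_pos (loc_x0 hp)]
  have h1 := loc_prod_abs_le hp (A.erase h) c
  have h2 := loc_x0 hp
  nlinarith

omit hZ hZp hUp hdis in
/-- absolute product bound with two different non-hit positions of the union, or non-hit in both -/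
theorem loc_two {A B : Finset ℕ} {c : ℕ} (hn : ∀ h ∈ A ∪ B, ¬ p ∣ c + h) (h2 : 2 ≤ #(A ∪ B)) :
    |(∏ h ∈ A, uu p (c + h)) * ∏ h ∈ B, uu p (c + h)| ≤ (1 / ((p : ℝ) - 1)) ^ 2 := by
  have hx0 := loc_x0 hp
  have hx1 := loc_x1 hp
  have hA : ∏ h ∈ A, uu p (c + h) = (1 / ((p : ℝ) - 1)) ^ #A := by
    rw [Finset.prod_congr rfl (fun h hh => uu_nhit (hn h (Finset.mem_union_left _ hh))),
      Finset.prod_const]
  have hB : ∏ h ∈ B, uu p (c + h) = (1 / ((p : ℝ) - 1)) ^ #B := by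
    rw [Finset.prod_congr rfl (fun h hh => uu_nhit (hn h (Finset.mem_union_right _ hh))),
      Finset.prod_const]
  rw [hA, hB, ← pow_add, abs_of_pos (by positivity)]
  refine pow_le_pow_of_le_one hx0.le hx1 ?_
  have := Finset.card_union_le A B
  omega

/-- bound if at least two positions -/
theorem loc_many {K : ℕ} (hU : #U ≤ K) {A B : Finset ℕ} (hA : A ⊆ U) (hB : B ⊆ U)
    (h2 : 2 ≤ #(A ∪ B)) : |eloc Z p A B| ≤ ((K : ℝ) + 1) * (1 / ((p : ℝ) - 1)) ^ 2 := by
  classical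
  have hx0 := loc_x0 hp
  have hx1 := loc_x1 hp
  have hp1 := loc_p1 hp
  have hq1 := loc_q1 hp hZ hZp
  have hq0 := loc_q0 hp hZ hZp
  have hAB : A ∪ B ⊆ U := Finset.union_subset hA hB
  set x := 1 / ((p : ℝ) - 1) with hx
  have h3 : ∀ c ∈ al Z p, |(∏ h ∈ A, uu p (c + h)) * ∏ h ∈ B, uu p (c + h)| ≤
      (if ∃ h ∈ A ∪ B, p ∣ c + h then x else 0) + x ^ 2 := by
    intro c _
    split_ifs with h4
    · obtain ⟨h, hh, hd⟩ := h4
      obtain ⟨h', hh', hne⟩ := Finset.exists_mem_ne (by omega : 1 < #(A ∪ B)) h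
      have hn : ¬ p ∣ c + h' := fun hd' =>
        hne (loc_pos_unique (hUp h' (hAB hh')) (hUp h (hAB hh)) hd' hd)
      have h5 : |(∏ h ∈ A, uu p (c + h)) * ∏ h ∈ B, uu p (c + h)| ≤ x := by
        rw [abs_mul]
        rcases Finset.mem_union.1 hh' with h6 | h6
        · have h7 := loc_prod_abs_le_x hp h6 hn
          have h8 := loc_prod_abs_le hp B c
          calc _ ≤ x * 1 := mul_le_mul h7 h8 (abs_nonneg _) hx0.le
            _ = x := mul_one _
        · have h7 := loc_prod_abs_le_x hp h6 hn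
          have h8 := loc_prod_abs_le hp A c
          calc _ ≤ 1 * x := mul_le_mul h8 h7 (abs_nonneg _) zero_le_one
            _ = x := one_mul _
      nlinarith
    · push Not at h4
      have := loc_two hp h4 h2
      linarith
  have h4 : |∑ c ∈ al Z p, (∏ h ∈ A, uu p (c + h)) * ∏ h ∈ B, uu p (c + h)| ≤
      (K : ℝ) * x + ((p : ℝ) - #Z) * x ^ 2 := by
    refine (Finset.abs_sum_le_sum_abs _ _).trans ((Finset.sum_le_sum h3).trans ?_)
    rw [Finset.sum_add_distrib, Finset.sum_const, nsmul_eq_mul, card_al hp hZ hZp,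
      ← Finset.sum_filter, Finset.sum_const, nsmul_eq_mul]
    have h5 := loc_card_hit hp hZ hZp hUp hdis hAB
    have h6 : #((al Z p).filter (fun c => ∃ h ∈ A ∪ B, p ∣ c + h)) ≤ K :=
      h5.trans ((Finset.card_le_card hAB).trans hU)
    have h7 : (#((al Z p).filter (fun c => ∃ h ∈ A ∪ B, p ∣ c + h)) : ℝ) ≤ K := by
      exact_mod_cast h6
    nlinarith
  rw [eloc, abs_mul]
  have h5 : |gd Z p| = 1 / ((p : ℝ) - #Z) := by rw [gd, abs_of_pos (by positivity)]
  rw [h5]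
  have h6 : 1 / ((p : ℝ) - #Z) ≤ x := one_div_le_one_div_of_le (by linarith) hq1
  have h7 : 0 < 1 / ((p : ℝ) - #Z) := by positivity
  calc _ ≤ ((K : ℝ) * x + ((p : ℝ) - #Z) * x ^ 2) * (1 / ((p : ℝ) - #Z)) :=
        mul_le_mul_of_nonneg_right h4 h7.le
    _ = (K : ℝ) * x * (1 / ((p : ℝ) - #Z)) + x ^ 2 := by field_simp
    _ ≤ (K : ℝ) * x * x + x ^ 2 := by
        have : (K : ℝ) * x * (1 / ((p : ℝ) - #Z)) ≤ (K : ℝ) * x * x :=
          mul_le_mul_of_nonneg_left h6 (by positivity)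
        linarith
    _ = _ := by ring

/-- **Local second moments.** PROOF: write `q = p - #Z`. `A = B = ∅`: `eloc_empty`. `#A + #B = 1`: the sum
is `-1 + (q-1)/(p-1)`, so `eloc = 0` or `-1/(p-1)^2`. `A = B = {h}`: `(1 + (q-1)/(p-1)^2)/q`, which differs
from `1/(p-1)` by at most `1/(p-1)^2`. `#(A ∪ B) ≥ 2`: residues hitting some `h ∈ A ∪ B` contribute in
absolute value at most `#(A∪B)/(p-1)` in total (some other factor is `1/(p-1)`), the others at most
`q/(p-1)^2`; divide by `q ≥ p-1`; the model term is at most `1/(p-1)^2`. -/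
theorem eloc_model {K : ℕ} (hU : #U ≤ K) {A B : Finset ℕ} (hA : A ⊆ U) (hB : B ⊆ U) :
    |eloc Z p A B - (if A = B then ∏ _h ∈ A, 1 / ((p : ℝ) - 1) else 0)| ≤
      ((K : ℝ) + 2) / ((p : ℝ) - 1) ^ 2 := by
  classical
  have hx0 := loc_x0 hp
  have hx1 := loc_x1 hp
  have hp1 := loc_p1 hp
  have hq1 := loc_q1 hp hZ hZp
  have hq0 := loc_q0 hp hZ hZp
  have hrhs : ((K : ℝ) + 2) / ((p : ℝ) - 1) ^ 2 = ((K : ℝ) + 2) * (1 / ((p : ℝ) - 1)) ^ 2 := by
    field_simp
  rw [hrhs]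
  have hxx : ((p : ℝ) - 1) * (1 / ((p : ℝ) - 1)) = 1 := by field_simp
  have hK0 : (0 : ℝ) ≤ K := Nat.cast_nonneg K
  rcases Nat.lt_or_ge (#(A ∪ B)) 2 with h2 | h2
  · rcases Nat.eq_zero_or_pos (#(A ∪ B)) with h0 | h0
    · have h3 : A ∪ B = ∅ := Finset.card_eq_zero.1 h0
      have hA0 : A = ∅ := (Finset.union_eq_empty.1 h3).1
      have hB0 : B = ∅ := (Finset.union_eq_empty.1 h3).2
      subst hA0; subst hB0
      rw [eloc_empty hp hZ hZp]
      simp only [if_true, Finset.prod_empty, sub_self, abs_zero]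
      positivity
    · obtain ⟨h, hh⟩ := Finset.card_eq_one.1 (by omega : #(A ∪ B) = 1)
      have hhU : h ∈ U := by
        have : h ∈ A ∪ B := by rw [hh]; simp
        exact Finset.union_subset hA hB this
      have hA1 : A = ∅ ∨ A = {h} := Finset.subset_singleton_iff.1 (hh ▸ Finset.subset_union_left)
      have hB1 : B = ∅ ∨ B = {h} := Finset.subset_singleton_iff.1 (hh ▸ Finset.subset_union_right)
      have hZ01 : (#Z : ℝ) = 0 ∨ (#Z : ℝ) = 1 := by
        rcases Nat.lt_or_ge 0 (#Z) with h5 | h5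
        · right; have : #Z = 1 := by omega
          rw [this]; simp
        · left; have : #Z = 0 := by omega
          rw [this]; simp
      -- value for one factor
      have key1 : |(-1 + ((p : ℝ) - #Z - 1) * (1 / ((p : ℝ) - 1))) * gd Z p| ≤
          ((K : ℝ) + 2) * (1 / ((p : ℝ) - 1)) ^ 2 := by
        rcases hZ01 with h5 | h5
        · have h6 : (-1 + ((p : ℝ) - #Z - 1) * (1 / ((p : ℝ) - 1))) = 0 := by
            rw [h5]; rw [sub_zero, hxx]; ring
          rw [h6, zero_mul, abs_zero]; positivity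
        · have h6 : (-1 + ((p : ℝ) - #Z - 1) * (1 / ((p : ℝ) - 1))) = -(1 / ((p : ℝ) - 1)) := by
            rw [h5, sub_mul, hxx]; ring
          rw [h6, gd, h5]
          have h7 : -(1 / ((p : ℝ) - 1)) * (1 / ((p : ℝ) - 1)) = -(1 / ((p : ℝ) - 1)) ^ 2 := by ring
          rw [h7, abs_neg, abs_of_nonneg (by positivity)]
          nlinarith [sq_nonneg (1 / ((p : ℝ) - 1)), pow_pos hx0 2]
      rcases hA1 with hA1 | hA1 <;> rcases hB1 with hB1 | hB1
      · exfalso; rw [hA1, hB1] at h0; simp at h0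
      · rw [hA1, hB1]
        have hne : ¬ ((∅ : Finset ℕ) = {h}) := by
          intro h9; exact (Finset.singleton_ne_empty h) h9.symm
        rw [if_neg hne, sub_zero, eloc]
        rw [loc_sum hp hZ hZp hUp hdis hhU _ (-1) (1 / ((p : ℝ) - 1))]
        · exact key1
        · intro c _ hd; simp [uu_hit hd]
        · intro c _ hd; simp [uu_nhit hd]
      · rw [hA1, hB1]
        have hne : ¬ ({h} = (∅ : Finset ℕ)) := Finset.singleton_ne_empty h
        rw [if_neg hne, sub_zero, eloc]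
        rw [loc_sum hp hZ hZp hUp hdis hhU _ (-1) (1 / ((p : ℝ) - 1))]
        · exact key1
        · intro c _ hd; simp [uu_hit hd]
        · intro c _ hd; simp [uu_nhit hd]
      · rw [hA1, hB1, if_pos rfl, eloc]
        rw [loc_sum hp hZ hZp hUp hdis hhU _ 1 ((1 / ((p : ℝ) - 1)) ^ 2)]
        · rw [Finset.prod_singleton, gd]
          rcases hZ01 with h5 | h5
          · have h6 : (1 + ((p : ℝ) - #Z - 1) * (1 / ((p : ℝ) - 1)) ^ 2) * (1 / ((p : ℝ) - #Z)) -
                1 / ((p : ℝ) - 1) = 0 := by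
              rw [h5]
              have h7 : (p : ℝ) - 1 ≠ 0 := by linarith
              have h8 : (p : ℝ) ≠ 0 := by linarith
              field_simp
              ring
            rw [h6, abs_zero]; positivity
          · have h6 : (1 + ((p : ℝ) - #Z - 1) * (1 / ((p : ℝ) - 1)) ^ 2) * (1 / ((p : ℝ) - #Z)) -
                1 / ((p : ℝ) - 1) = ((p : ℝ) - 2) * (1 / ((p : ℝ) - 1)) * (1 / ((p : ℝ) - 1)) ^ 2 := by
              rw [h5]; ring
            rw [h6, abs_of_nonneg]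
            · have h9 : ((p : ℝ) - 2) * (1 / ((p : ℝ) - 1)) ≤ 1 := by
                have : ((p : ℝ) - 2) * (1 / ((p : ℝ) - 1)) =
                  ((p : ℝ) - 1) * (1 / ((p : ℝ) - 1)) - 1 / ((p : ℝ) - 1) := by ring
                rw [this, hxx]; linarith
              nlinarith [pow_pos hx0 2]
            · have : (0 : ℝ) ≤ (p : ℝ) - 2 := by linarith
              positivity
        · intro c _ hd; simp [uu_hit hd]
        · intro c _ hd; rw [Finset.prod_singleton, uu_nhit hd, sq]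
  · have h3 := loc_many hp hZ hZp hUp hdis hU hA hB h2
    have h4 : |(if A = B then ∏ _h ∈ A, 1 / ((p : ℝ) - 1) else 0)| ≤ (1 / ((p : ℝ) - 1)) ^ 2 := by
      split_ifs with h5
      · subst h5
        rw [Finset.union_self] at h2
        rw [Finset.prod_const, abs_of_pos (by positivity)]
        exact pow_le_pow_of_le_one hx0.le hx1 h2
      · rw [abs_zero]; positivity
    calc _ ≤ |eloc Z p A B| + |(if A = B then ∏ _h ∈ A, 1 / ((p : ℝ) - 1) else 0)| := abs_sub _ _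
      _ ≤ ((K : ℝ) + 1) * (1 / ((p : ℝ) - 1)) ^ 2 + (1 / ((p : ℝ) - 1)) ^ 2 := add_le_add h3 h4
      _ = _ := by ring

/-- **Sum of the absolute local expectations.** PROOF: the sum is
`(1/q) ∑_{c ∈ al} ∏_{h ∈ U} (1 + |u_p(c+h)|)^2` (`Finset.prod_add`/`prod_one_add`); a residue hitting no
`h ∈ U` gives `(1+1/(p-1))^{2#U}`, a residue hitting exactly one `h` at most `4 (1+1/(p-1))^{2#U}`, and there are at
most `#U` of the latter; so the sum is at most `(1+1/(p-1))^{2K} (1 + 4K/(p-1)) ≤ (1+1/(p-1))^{6K}`. -/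
theorem sum_aloc {K : ℕ} (hU : #U ≤ K) :
    ∑ A ∈ U.powerset, ∑ B ∈ U.powerset, aloc Z p A B ≤ (1 + 1 / ((p : ℝ) - 1)) ^ (6 * K) := by
  classical
  have hx0 := loc_x0 hp
  have hx1 := loc_x1 hp
  have hp1 := loc_p1 hp
  have hq1 := loc_q1 hp hZ hZp
  have hq0 := loc_q0 hp hZ hZp
  have hxx : ((p : ℝ) - 1) * (1 / ((p : ℝ) - 1)) = 1 := by field_simp
  set x := 1 / ((p : ℝ) - 1) with hx
  have h1 : ∑ A ∈ U.powerset, ∑ B ∈ U.powerset, aloc Z p A B =
      (∑ c ∈ al Z p, (∏ h ∈ U, (1 + |uu p (c + h)|)) ^ 2) * gd Z p := by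
    simp only [aloc]
    simp_rw [← Finset.sum_mul]
    congr 1
    rw [Finset.sum_congr rfl (fun A _ => Finset.sum_comm), Finset.sum_comm]
    refine Finset.sum_congr rfl fun c _ => ?_
    rw [sq, Finset.prod_one_add, Finset.sum_mul_sum]
  rw [h1]
  have h2 : ∀ c ∈ al Z p, (∏ h ∈ U, (1 + |uu p (c + h)|)) ^ 2 ≤
      (if ∃ h ∈ U, p ∣ c + h then 4 * (1 + x) ^ (2 * #U) else 0) + (1 + x) ^ (2 * #U) := by
    intro c _
    split_ifs with h3
    · obtain ⟨h, hh, hd⟩ := h3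
      have h4 : ∏ h ∈ U, (1 + |uu p (c + h)|) ≤ 2 * (1 + x) ^ #U := by
        rw [← Finset.mul_prod_erase _ _ hh, uu_hit hd]
        have h5 : ∏ h' ∈ U.erase h, (1 + |uu p (c + h')|) = (1 + x) ^ (#U - 1) := by
          rw [← Finset.card_erase_of_mem hh, ← Finset.prod_const]
          refine Finset.prod_congr rfl fun h' hh' => ?_
          have hn : ¬ p ∣ c + h' := fun hd' => Finset.ne_of_mem_erase hh'
            (loc_pos_unique (hUp h' (Finset.mem_of_mem_erase hh')) (hUp h hh) hd' hd)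
          rw [uu_nhit hn, abs_of_pos (loc_x0 hp)]
        rw [h5]
        have h6 : (1 + x) ^ (#U - 1) ≤ (1 + x) ^ #U :=
          pow_le_pow_right₀ (by linarith) (Nat.sub_le _ _)
        rw [abs_neg, abs_one]
        linarith
      have h5 : 0 ≤ ∏ h ∈ U, (1 + |uu p (c + h)|) :=
        Finset.prod_nonneg fun _ _ => by positivity
      have h6 : (∏ h ∈ U, (1 + |uu p (c + h)|)) ^ 2 ≤ (2 * (1 + x) ^ #U) ^ 2 :=
        pow_le_pow_left₀ h5 h4 2
      have h7 : (2 * (1 + x) ^ #U) ^ 2 = 4 * (1 + x) ^ (2 * #U) := by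
        rw [mul_pow, ← pow_mul, mul_comm (#U) 2]; norm_num
      have h8 : 0 < (1 + x) ^ (2 * #U) := by positivity
      linarith
    · push Not at h3
      have h4 : ∏ h ∈ U, (1 + |uu p (c + h)|) = (1 + x) ^ #U := by
        rw [← Finset.prod_const]
        refine Finset.prod_congr rfl fun h' hh' => ?_
        rw [uu_nhit (h3 h' hh'), abs_of_pos (loc_x0 hp)]
      rw [h4, ← pow_mul, mul_comm (#U) 2]
      linarith
  have hc1 : (#U : ℝ) ≤ K := by exact_mod_cast hU
  have h3 : ∑ c ∈ al Z p, (∏ h ∈ U, (1 + |uu p (c + h)|)) ^ 2 ≤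
      (K : ℝ) * (4 * (1 + x) ^ (2 * #U)) + ((p : ℝ) - #Z) * (1 + x) ^ (2 * #U) := by
    refine (Finset.sum_le_sum h2).trans ?_
    rw [Finset.sum_add_distrib, Finset.sum_const, nsmul_eq_mul, card_al hp hZ hZp,
      ← Finset.sum_filter, Finset.sum_const, nsmul_eq_mul]
    have h5 := loc_card_hit hp hZ hZp hUp hdis (Finset.Subset.refl U)
    have h7 : (#((al Z p).filter (fun c => ∃ h ∈ U, p ∣ c + h)) : ℝ) ≤ K := by
      exact_mod_cast h5.trans hU
    have h8 : 0 < (1 + x) ^ (2 * #U) := by positivity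
    nlinarith
  have h4 : (1 + x) ^ (2 * #U) ≤ (1 + x) ^ (2 * K) :=
    pow_le_pow_right₀ (by linarith) (by omega)
  have h6 : 1 / ((p : ℝ) - #Z) ≤ x := one_div_le_one_div_of_le (by linarith) hq1
  have h7 : 0 < 1 / ((p : ℝ) - #Z) := by positivity
  have h8 : 0 < (1 + x) ^ (2 * #U) := by positivity
  have h9 : 1 + 4 * (K : ℝ) * x ≤ (1 + x) ^ (4 * K) := by
    have := one_add_mul_le_pow (show (-2 : ℝ) ≤ x by linarith) (4 * K)
    push_cast at this
    linarith
  rw [gd]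
  calc _ ≤ ((K : ℝ) * (4 * (1 + x) ^ (2 * #U)) + ((p : ℝ) - #Z) * (1 + x) ^ (2 * #U)) *
        (1 / ((p : ℝ) - #Z)) := mul_le_mul_of_nonneg_right h3 h7.le
    _ = (1 + x) ^ (2 * #U) * (1 + 4 * K * (1 / ((p : ℝ) - #Z))) := by field_simp; ring
    _ ≤ (1 + x) ^ (2 * #U) * (1 + 4 * K * x) := by
        refine mul_le_mul_of_nonneg_left ?_ h8.le
        have : 4 * (K : ℝ) * (1 / ((p : ℝ) - #Z)) ≤ 4 * (K : ℝ) * x :=
          mul_le_mul_of_nonneg_left h6 (by positivity)
        linarith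
    _ ≤ (1 + x) ^ (2 * K) * (1 + x) ^ (4 * K) := by
        refine mul_le_mul h4 h9 (by positivity) (by positivity)
    _ = _ := by rw [← pow_add]; congr 1; ring

/-- the same without the term of the empty sets, multiplied by `q = p - #Z`: at most `24 K` if `p ≥ 12K+2`
(`(1+x)^{6K} - 1 ≤ 12 K x` for `6 K x ≤ 1`, `p ≤ 2 (p-1)`) -/
theorem sum_aloc_rem {K : ℕ} (hU : #U ≤ K) (hK : 1 ≤ K) (hpK : 12 * K + 2 ≤ p) :
    ∑ x ∈ (U.powerset ×ˢ U.powerset).erase (∅, ∅), ((p : ℝ) - #Z) * aloc Z p x.1 x.2 ≤ 24 * K := by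
  classical
  have hx0 := loc_x0 hp
  have hx1 := loc_x1 hp
  have hp1 := loc_p1 hp
  have hq1 := loc_q1 hp hZ hZp
  have hq0 := loc_q0 hp hZ hZp
  have hxx : ((p : ℝ) - 1) * (1 / ((p : ℝ) - 1)) = 1 := by field_simp
  set x := 1 / ((p : ℝ) - 1) with hx
  have h1 := sum_aloc hp hZ hZp hUp hdis hU
  rw [← hx] at h1
  have hmem : ((∅ : Finset ℕ), (∅ : Finset ℕ)) ∈ U.powerset ×ˢ U.powerset := by simp
  have h2 : ∑ x ∈ (U.powerset ×ˢ U.powerset).erase (∅, ∅), aloc Z p x.1 x.2 =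
      (∑ A ∈ U.powerset, ∑ B ∈ U.powerset, aloc Z p A B) - 1 := by
    rw [← Finset.sum_product', ← Finset.add_sum_erase _ _ hmem, aloc_empty hp hZ hZp]
    ring
  rw [← Finset.mul_sum, h2]
  have hKp : (12 : ℝ) * K + 2 ≤ p := by exact_mod_cast hpK
  have hK1 : (1 : ℝ) ≤ K := by exact_mod_cast hK
  have h3 : 6 * (K : ℝ) * x ≤ 1 := by
    rw [hx, mul_one_div, div_le_one (by linarith)]
    linarith
  have h4 : (1 + x) ^ (6 * K) ≤ 1 + 12 * K * x := by
    have h5 : (1 + x) ^ (6 * K) ≤ Real.exp (6 * K * x) := by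
      have h6 : 1 + x ≤ Real.exp x := by linarith [Real.add_one_le_exp x]
      calc (1 + x) ^ (6 * K) ≤ (Real.exp x) ^ (6 * K) := pow_le_pow_left₀ (by linarith) h6 _
        _ = Real.exp (6 * K * x) := by rw [← Real.exp_nat_mul]; push_cast; ring_nf
    have h6 : |Real.exp (6 * K * x) - 1 - 6 * K * x| ≤ (6 * K * x) ^ 2 :=
      Real.abs_exp_sub_one_sub_id_le (by rw [abs_of_nonneg (by positivity)]; exact h3)
    have h7 := (abs_le.1 h6).2
    have h8 : 0 ≤ 6 * (K : ℝ) * x := by positivity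
    nlinarith
  have h5 : (p : ℝ) - #Z ≤ p := by
    have : (0 : ℝ) ≤ #Z := Nat.cast_nonneg _
    linarith
  have h6 : (p : ℝ) * x ≤ 2 := by
    have : (p : ℝ) * x = ((p : ℝ) - 1) * x + x := by ring
    rw [this, hxx]; linarith
  calc ((p : ℝ) - #Z) * (∑ A ∈ U.powerset, ∑ B ∈ U.powerset, aloc Z p A B - 1)
      ≤ ((p : ℝ) - #Z) * (12 * K * x) := mul_le_mul_of_nonneg_left (by linarith) hq0.le
    _ ≤ (p : ℝ) * (12 * K * x) := mul_le_mul_of_nonneg_right h5 (by positivity)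
    _ = 12 * K * ((p : ℝ) * x) := by ring
    _ ≤ 12 * K * 2 := mul_le_mul_of_nonneg_left h6 (by positivity)
    _ = 24 * K := by ring

end

end Pool.Agent.H81.AS
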