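import Pool.Agent.H81.AS.Restr

/-!
Definitions of the diagonal sums. `DI` = sum over the positions of `H0` (inner), `DO` = sum over the other
positions (outer), `Dg` = the full diagonal sum, `Xi` = the constant of the error term.
-/

set_option autoImplicit false

open Finset Filter Topology

namespace Pool.Agent.H81.AS

open Pool.Agent.H16

/-- the constant of the error term -/
noncomputable def Xi (K s κ : ℕ) (Λ r : ℝ) : ℝ :=
  (1 / 2 : ℝ) ^ s * (2 * 4 ^ κ * (2 * (κ : ℝ) + 1) * (3 * Λ + 1) ^ (2 * κ)) * r ^ (6 * K)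

/-- the diagonal sum -/
noncomputable def Dg (Q Po Hb : Finset ℕ) (V : ℝ) (C : Finset (ℕ × ℕ) → ℝ) : ℝ :=
  ∑ E ∈ (Po ×ˢ Q).powerset, C E ^ 2 * (V ^ #(Hb ∪ pos E) * ph E)

/-- inner diagonal sum -/
noncomputable def DI (Q H : Finset ℕ) (g : ℕ → ℝ) (T : ℝ) : ℝ :=
  ∑ E ∈ (H ×ˢ Q).powerset.filter (fun E => (nn E : ℝ) ≤ T), (∏ h ∈ H, g (pd (fib E h)) ^ 2) * ph E

/-- outer diagonal sum over `Tl < nn E ≤ T` (`Tl = 0`: no lower bound) -/
noncomputable def DO (Q Po : Finset ℕ) (α : ℕ → ℝ) (V Tl T : ℝ) : ℝ :=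
  ∑ E ∈ (Po ×ˢ Q).powerset.filter (fun E => Tl < (nn E : ℝ) ∧ (nn E : ℝ) ≤ T),
    (∏ h ∈ pos E, (V * α (pd (fib E h)) ^ 2)) * ph E

end Pool.Agent.H81.AS
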