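import Pool.Agent.H81.AS.Env2
import Pool.Agent.H81.AS.Fib

/-!
JOB AS-PT. Pointwise bound for the sieve sum.

PROOF. For `n ≤ e^ℓ` and `h ∈ Po`, `n + h ≤ e^{2ℓ}`, so at most `2ℓ/log z ≤ 4/δ` primes of `Q` (all `> z`) divide `n + h`;
hence `∏_{p ∈ Q} (1 + |uu p (n+h)|) ≤ 2^{4/δ} ∏_{p∈Q} (1+1/(p-1)) ≤ C₁` (`QQ_prod`). Now
`|Psi| ≤ ∑_{H ⊆ Po, #H ≤ κ} ro P (H0 ∪ H) n ∑_{E : pos E = H} |gE E n|`, `∑_{E ⊆ H ×ˢ Q} |gE E n| = ∏_{h∈H} ∏_{p∈Q} (1+|uu p (n+h)|) ≤ C₁^κ`,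
`ro P (H0 ∪ H) n = ro P H0 n * ∏_{h ∈ H} ro P {h} n`, and with the set `R` of rough positions (`#R = Yr`),
`∑_{H ⊆ Po, #H ≤ κ} ∏_{h∈H} ro P {h} n = #{H ⊆ R : #H ≤ κ} ≤ (1 + #R)^κ` (for `κ ≥ 0`; each such `H` is the image of
a map from `Fin κ` to `Option R`).
-/

set_option autoImplicit false

open Finset Filter Topology

namespace Pool.Agent.H81.AS

open Pool.Agent.H16

/-- sums over the small subsets -/
lemma pt_small (a : ℕ → ℝ) (s : Finset ℕ) (ha : ∀ h ∈ s, 0 ≤ a h) : ∀ κ : ℕ,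
    ∑ H ∈ s.powerset, (if #H ≤ κ then ∏ h ∈ H, a h else 0) ≤ (1 + ∑ h ∈ s, a h) ^ κ := by
  classical
  induction s using Finset.induction_on with
  | empty => intro κ; simp
  | insert b s hb ih =>
    have ha' : ∀ h ∈ s, 0 ≤ a h := fun h hh => ha h (Finset.mem_insert_of_mem hh)
    have hab : 0 ≤ a b := ha b (Finset.mem_insert_self _ _)
    have hY : 0 ≤ ∑ h ∈ s, a h := Finset.sum_nonneg ha'
    intro κ
    rw [Finset.sum_powerset_insert hb, Finset.sum_insert hb]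
    cases κ with
    | zero =>
      have h1 := ih ha' 0
      have h2 : ∑ t ∈ s.powerset, (if #(insert b t) ≤ 0 then ∏ h ∈ insert b t, a h else 0) = 0 := by
        apply Finset.sum_eq_zero
        intro t _
        rw [if_neg]
        simp
      rw [h2]
      simp
    | succ k =>
      have h1 := ih ha' (k + 1)
      have h2 : ∑ t ∈ s.powerset, (if #(insert b t) ≤ k + 1 then ∏ h ∈ insert b t, a h else 0) =
          a b * ∑ t ∈ s.powerset, (if #t ≤ k then ∏ h ∈ t, a h else 0) := by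
        rw [Finset.mul_sum]
        apply Finset.sum_congr rfl
        intro t ht
        have hbt : b ∉ t := fun h => hb (Finset.mem_powerset.1 ht h)
        rw [Finset.card_insert_of_notMem hbt, Finset.prod_insert hbt]
        by_cases hk : #t ≤ k
        · rw [if_pos hk, if_pos (by omega)]
        · rw [if_neg hk, if_neg (by omega), mul_zero]
      rw [h2]
      have h3 := mul_le_mul_of_nonneg_left (ih ha' k) hab
      have h4 : (1 + ∑ h ∈ s, a h) ^ k ≤ (1 + (a b + ∑ h ∈ s, a h)) ^ k := by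
        apply pow_le_pow_left₀ (by linarith)
        linarith
      have h5 : 0 ≤ (1 + ∑ h ∈ s, a h) ^ k := by positivity
      calc _ ≤ (1 + ∑ h ∈ s, a h) ^ (k + 1) + a b * (1 + ∑ h ∈ s, a h) ^ k := add_le_add h1 h3
        _ = (1 + (a b + ∑ h ∈ s, a h)) * (1 + ∑ h ∈ s, a h) ^ k := by ring
        _ ≤ (1 + (a b + ∑ h ∈ s, a h)) * (1 + (a b + ∑ h ∈ s, a h)) ^ k :=
            mul_le_mul_of_nonneg_left h4 (by linarith)
        _ = _ := by ring

lemma pt_hit_mem (U : Finset ℕ) (n p : ℕ) : hit U n p = 0 ∨ hit U n p = 1 := by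
  unfold hit
  split_ifs <;> simp

lemma pt_hit_union (A B : Finset ℕ) (n p : ℕ) :
    1 - hit (A ∪ B) n p = (1 - hit A n p) * (1 - hit B n p) := by
  unfold hit
  by_cases h1 : ∃ h ∈ A, p ∣ n + h
  · have h3 : ∃ h ∈ A ∪ B, p ∣ n + h := by
      obtain ⟨h, hh, hd⟩ := h1
      exact ⟨h, Finset.mem_union_left _ hh, hd⟩
    rw [if_pos h1, if_pos h3]; ring
  · by_cases h2 : ∃ h ∈ B, p ∣ n + h
    · have h3 : ∃ h ∈ A ∪ B, p ∣ n + h := by
        obtain ⟨h, hh, hd⟩ := h2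
        exact ⟨h, Finset.mem_union_right _ hh, hd⟩
      rw [if_pos h2, if_pos h3]; ring
    · have h3 : ¬ ∃ h ∈ A ∪ B, p ∣ n + h := by
        rintro ⟨h, hh, hd⟩
        rcases Finset.mem_union.1 hh with hh | hh
        · exact h1 ⟨h, hh, hd⟩
        · exact h2 ⟨h, hh, hd⟩
      rw [if_neg h1, if_neg h2, if_neg h3]; ring

lemma pt_ro_union (P A B : Finset ℕ) (n : ℕ) : ro P (A ∪ B) n = ro P A n * ro P B n := by
  unfold ro
  rw [← Finset.prod_mul_distrib]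
  exact Finset.prod_congr rfl (fun p _ => pt_hit_union A B n p)

lemma pt_ro_empty (P : Finset ℕ) (n : ℕ) : ro P ∅ n = 1 := by
  unfold ro hit
  simp

lemma pt_ro_nonneg (P A : Finset ℕ) (n : ℕ) : 0 ≤ ro P A n := by
  unfold ro
  apply Finset.prod_nonneg
  intro p _
  rcases pt_hit_mem A n p with h | h <;> rw [h] <;> norm_num

lemma pt_ro_prod (P H : Finset ℕ) (n : ℕ) : ro P H n = ∏ h ∈ H, ro P {h} n := by
  classical
  induction H using Finset.induction_on with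
  | empty => simp [pt_ro_empty]
  | insert b s hb ih => rw [Finset.insert_eq, pt_ro_union, ih, ← Finset.insert_eq, Finset.prod_insert hb]

/-- the product over the large primes -/
lemma pt_Q {δ : ℝ} (hδ : 0 < δ) {ℓ : ℝ} (hℓ : 0 < ℓ) (υ : ℝ) (e : ℕ) {m : ℕ} (hm0 : 0 < m)
    (hm : (m : ℝ) ≤ Real.exp (2 * ℓ)) {K : ℝ}
    (hK : ∏ p ∈ QQ δ υ ℓ e, (1 + 1 / ((p : ℝ) - 1)) ≤ K) :
    ∏ p ∈ QQ δ υ ℓ e, (1 + |uu p m|) ≤ 2 ^ ⌈2 / δ⌉₊ * K := by
  classical
  have hp : ∀ p ∈ QQ δ υ ℓ e, p.Prime ∧ zz δ ℓ < p := by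
    intro p hp
    have := mem_primesIoc.1 (Finset.mem_of_mem_erase hp)
    exact ⟨this.2.2, this.1⟩
  have h1 : ∏ p ∈ QQ δ υ ℓ e, (1 + |uu p m|) ≤
      ∏ p ∈ QQ δ υ ℓ e, ((if p ∣ m then (2 : ℝ) else 1) * (1 + 1 / ((p : ℝ) - 1))) := by
    apply Finset.prod_le_prod
    · intro p _
      have := abs_nonneg (uu p m)
      linarith
    · intro p hpQ
      have hp2 : (2 : ℝ) ≤ p := by exact_mod_cast (hp p hpQ).1.two_le
      have hpos : 0 ≤ 1 / ((p : ℝ) - 1) := div_nonneg zero_le_one (by linarith)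
      unfold uu
      split_ifs with hd
      · rw [abs_neg, abs_one]; linarith
      · rw [abs_of_nonneg hpos]; linarith
  rw [Finset.prod_mul_distrib] at h1
  set s := (QQ δ υ ℓ e).filter (fun p => p ∣ m) with hs
  have h2 : ∏ p ∈ QQ δ υ ℓ e, (if p ∣ m then (2 : ℝ) else 1) = 2 ^ #s := by
    rw [← Finset.prod_filter, Finset.prod_const]
  have h3 : ∏ p ∈ s, p ∣ m := by
    apply Finset.prod_primes_dvd
    · intro p hps
      exact (hp p (Finset.mem_of_mem_filter p hps)).1.prime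
    · intro p hps
      exact (Finset.mem_filter.1 hps).2
  have h4 : ((∏ p ∈ s, p : ℕ) : ℝ) ≤ m := by exact_mod_cast Nat.le_of_dvd hm0 h3
  have h5 : Real.exp (δ * ℓ) ^ #s ≤ ((∏ p ∈ s, p : ℕ) : ℝ) := by
    push_cast
    rw [← Finset.prod_const]
    apply Finset.prod_le_prod
    · intro _ _; positivity
    · intro p hps
      have h6 := (hp p (Finset.mem_of_mem_filter p hps)).2
      have h7 : Real.exp (δ * ℓ) < zz δ ℓ + 1 := Nat.lt_floor_add_one _
      have h8 : (zz δ ℓ : ℝ) + 1 ≤ p := by exact_mod_cast h6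
      linarith
  have h6 : Real.exp ((#s : ℝ) * (δ * ℓ)) ≤ Real.exp (2 * ℓ) := by
    rw [Real.exp_nat_mul]
    linarith
  have h7 : (#s : ℝ) * (δ * ℓ) ≤ 2 * ℓ := Real.exp_le_exp.1 h6
  have h8 : (#s : ℝ) ≤ 2 / δ := by
    rw [le_div_iff₀ hδ]
    have h9 : (#s : ℝ) * δ * ℓ ≤ 2 * ℓ := by linarith
    exact le_of_mul_le_mul_right h9 hℓ
  have h9 : #s ≤ ⌈2 / δ⌉₊ := by
    have := h8.trans (Nat.le_ceil (2 / δ))
    exact_mod_cast this
  have h10 : (2 : ℝ) ^ #s ≤ 2 ^ ⌈2 / δ⌉₊ := pow_le_pow_right₀ (by norm_num) h9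
  rw [h2] at h1
  have h11 : 0 ≤ ∏ p ∈ QQ δ υ ℓ e, (1 + 1 / ((p : ℝ) - 1)) := by
    apply Finset.prod_nonneg
    intro p hpQ
    have hp2 : (2 : ℝ) ≤ p := by exact_mod_cast (hp p hpQ).1.two_le
    have hpos : 0 ≤ 1 / ((p : ℝ) - 1) := div_nonneg zero_le_one (by linarith)
    linarith
  exact h1.trans (mul_le_mul h10 hK h11 (by positivity))

/-- the finite part of the argument -/
lemma pt_fin (κ : ℕ) (P Q Po' H0 : Finset ℕ) (C' : Finset (ℕ × ℕ) → ℝ)
    (hC : ∀ E ∈ (Po' ×ˢ Q).powerset, |C' E| ≤ 1 ∧ (C' E ≠ 0 → #(H0 ∪ pos E) ≤ κ))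
    (n : ℕ) {C₁ : ℝ} (hC₁ : 1 ≤ C₁) (hQ : ∀ h ∈ Po', ∏ p ∈ Q, (1 + |uu p (n + h)|) ≤ C₁) :
    |Psi P Q Po' H0 C' n| ≤ ro P H0 n * (C₁ ^ κ * (1 + Yr P Po' n) ^ κ) := by
  classical
  set F : Finset ℕ → ℝ := fun H => if #H ≤ κ then ∏ h ∈ H, ro P {h} n else 0 with hF
  have hF0 : ∀ H, 0 ≤ F H := by
    intro H
    simp only [hF]
    split_ifs
    · exact Finset.prod_nonneg (fun h _ => pt_ro_nonneg _ _ _)
    · exact le_rfl
  set w : Finset (ℕ × ℕ) → ℝ := fun E => ∏ x ∈ E, |uu x.2 (n + x.1)| with hw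
  have hw0 : ∀ E, 0 ≤ w E := fun E => Finset.prod_nonneg (fun x _ => abs_nonneg _)
  have hro0 := pt_ro_nonneg P H0 n
  have h1 : |Psi P Q Po' H0 C' n| ≤ ∑ E ∈ (Po' ×ˢ Q).powerset, ro P H0 n * (F (pos E) * w E) := by
    unfold Psi
    refine (Finset.abs_sum_le_sum_abs _ _).trans (Finset.sum_le_sum ?_)
    intro E hE
    by_cases h0 : C' E = 0
    · rw [h0, zero_mul, abs_zero]
      exact mul_nonneg hro0 (mul_nonneg (hF0 _) (hw0 _))
    · have hcard : #(pos E) ≤ κ :=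
        (Finset.card_le_card Finset.subset_union_right).trans ((hC E hE).2 h0)
      rw [abs_mul, abs_mul, pt_ro_union, abs_mul, abs_of_nonneg hro0,
        abs_of_nonneg (pt_ro_nonneg P (pos E) n)]
      have h2 : |gE E n| = w E := by
        simp only [gE, hw]
        exact Finset.abs_prod _ _
      have h3 : F (pos E) = ro P (pos E) n := by
        simp only [hF]
        rw [if_pos hcard, ← pt_ro_prod]
      rw [h2, h3]
      have h4 := (hC E hE).1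
      have h5 : 0 ≤ ro P H0 n * ro P (pos E) n * w E :=
        mul_nonneg (mul_nonneg hro0 (pt_ro_nonneg _ _ _)) (hw0 _)
      calc |C' E| * (ro P H0 n * ro P (pos E) n * w E)
          ≤ 1 * (ro P H0 n * ro P (pos E) n * w E) := mul_le_mul_of_nonneg_right h4 h5
        _ = _ := by ring
  have hmaps : ∀ E ∈ (Po' ×ˢ Q).powerset, pos E ∈ Po'.powerset := by
    intro E hE
    rw [Finset.mem_powerset] at hE ⊢
    intro h hh
    obtain ⟨x, hx, rfl⟩ := Finset.mem_image.1 hh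
    exact (Finset.mem_product.1 (hE hx)).1
  have h2 : ∑ E ∈ (Po' ×ˢ Q).powerset, F (pos E) * w E ≤
      ∑ H ∈ Po'.powerset, F H * C₁ ^ κ := by
    rw [← Finset.sum_fiberwise_of_maps_to hmaps]
    apply Finset.sum_le_sum
    intro H hH
    have h3 : ∑ E ∈ (Po' ×ˢ Q).powerset.filter (fun E => pos E = H), F (pos E) * w E =
        F H * ∑ E ∈ (Po' ×ˢ Q).powerset.filter (fun E => pos E = H), w E := by
      rw [Finset.mul_sum]
      apply Finset.sum_congr rfl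
      intro E hE
      rw [(Finset.mem_filter.1 hE).2]
    rw [h3]
    by_cases hcard : #H ≤ κ
    · apply mul_le_mul_of_nonneg_left _ (hF0 H)
      have h4 : ∑ E ∈ (Po' ×ˢ Q).powerset.filter (fun E => pos E = H), w E ≤
          ∑ E ∈ (H ×ˢ Q).powerset, w E := by
        apply Finset.sum_le_sum_of_subset_of_nonneg
        · intro E hE
          rw [Finset.mem_filter, Finset.mem_powerset] at hE
          rw [Finset.mem_powerset]
          intro x hx
          rw [Finset.mem_product]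
          refine ⟨?_, (Finset.mem_product.1 (hE.1 hx)).2⟩
          rw [← hE.2]
          exact Finset.mem_image_of_mem Prod.fst hx
        · intro E _ _
          exact hw0 E
      refine h4.trans ?_
      have h5 : ∑ E ∈ (H ×ˢ Q).powerset, w E = ∏ h ∈ H, ∏ p ∈ Q, (1 + |uu p (n + h)|) := by
        rw [← Finset.prod_product' H Q (fun h p => (1 + |uu p (n + h)|)), Finset.prod_one_add]
      rw [h5]
      have h6 : ∏ h ∈ H, ∏ p ∈ Q, (1 + |uu p (n + h)|) ≤ ∏ h ∈ H, C₁ := by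
        apply Finset.prod_le_prod
        · intro h _
          apply Finset.prod_nonneg
          intro p _
          have := abs_nonneg (uu p (n + h))
          linarith
        · intro h hh
          exact hQ h (Finset.mem_powerset.1 hH hh)
      rw [Finset.prod_const] at h6
      exact h6.trans (pow_le_pow_right₀ hC₁ hcard)
    · have h7 : F H = 0 := by
        simp only [hF]
        rw [if_neg hcard]
      rw [h7, zero_mul, zero_mul]
  have h3 : ∑ H ∈ Po'.powerset, F H ≤ (1 + Yr P Po' n) ^ κ :=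
    pt_small (fun h => ro P {h} n) Po' (fun h _ => pt_ro_nonneg _ _ _) κ
  rw [← Finset.mul_sum] at h1
  refine h1.trans (mul_le_mul_of_nonneg_left ?_ hro0)
  refine h2.trans ?_
  rw [← Finset.sum_mul, mul_comm]
  exact mul_le_mul_of_nonneg_left h3 (by positivity)

theorem psi_le (κ : ℕ) {lam δ υ : ℝ} (hlam : 0 < lam) (hδ : 0 < δ) (hυ : δ ≤ υ) : ∃ C : ℝ, 1 ≤ C ∧
    ∀ᶠ ℓ : ℝ in atTop, ∀ e b : ℕ, ∀ H0 ⊆ Po lam ℓ e b, ∀ C' : Finset (ℕ × ℕ) → ℝ,
      (∀ E ∈ (Po lam ℓ e b ×ˢ QQ δ υ ℓ e).powerset, |C' E| ≤ 1 ∧ (C' E ≠ 0 → #(H0 ∪ pos E) ≤ κ)) →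
      ∀ n ∈ Sb ℓ e b,
        |Psi (PP δ ℓ e) (QQ δ υ ℓ e) (Po lam ℓ e b) H0 C' n| ≤
          ro (PP δ ℓ e) H0 n * (C * (1 + Yr (PP δ ℓ e) (Po lam ℓ e b) n) ^ κ) := by
  obtain ⟨C0, hC0, hQ⟩ := QQ_prod
  have hυδ : 1 ≤ υ / δ := by rwa [le_div_iff₀ hδ, one_mul]
  have hK : 1 ≤ C0 * υ / δ := by
    rw [mul_div_assoc]
    nlinarith
  have h2 : (1 : ℝ) ≤ 2 ^ ⌈2 / δ⌉₊ := one_le_pow₀ (by norm_num)
  have hC₁ : 1 ≤ 2 ^ ⌈2 / δ⌉₊ * (C0 * υ / δ) := by nlinarith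
  refine ⟨(2 ^ ⌈2 / δ⌉₊ * (C0 * υ / δ)) ^ κ, one_le_pow₀ hC₁, ?_⟩
  filter_upwards [hQ δ υ hδ hυ, ev_pos (δ := 1) one_pos hlam, eventually_ge_atTop (1 : ℝ)]
    with ℓ hq hpos hℓ e b H0 hH0 C' hC' n hn
  apply pt_fin κ _ _ _ _ C' hC' n hC₁
  intro h hh
  have hn' := (Finset.mem_filter.1 hn).1
  rw [Finset.mem_Ioc] at hn'
  have hh' := (Finset.mem_filter.1 hh).1
  have h3 := hpos h hh'
  have hm : ((n + h : ℕ) : ℝ) ≤ Real.exp (2 * ℓ) := by
    have h4 : (n : ℝ) ≤ Real.exp ℓ := by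
      have : (n : ℝ) ≤ (⌊Real.exp ℓ⌋₊ : ℕ) := by exact_mod_cast hn'.2
      exact this.trans (Nat.floor_le (Real.exp_pos _).le)
    have h5 : (h : ℝ) ≤ Real.exp ℓ := by
      have h6 : (h : ℝ) ≤ (zz 1 ℓ : ℕ) := by exact_mod_cast h3.le
      refine h6.trans ?_
      unfold zz
      rw [one_mul]
      exact Nat.floor_le (Real.exp_pos _).le
    have h6 : Real.exp (2 * ℓ) = Real.exp ℓ * Real.exp ℓ := by rw [← Real.exp_add]; ring_nf
    have h7 : 2 ≤ Real.exp ℓ := by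
      have := Real.add_one_le_exp ℓ
      linarith
    push_cast
    rw [h6]
    nlinarith
  exact pt_Q hδ (by linarith) υ e (by omega) hm (hq e)

end Pool.Agent.H81.AS
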