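import Pool.Agent.H81.AS.KP
import Pool.Agent.H81.AS.Pt
import Pool.Agent.H81.AS.Mom
import Pool.Agent.H81.AS.Adm

/-!
JOB AS-MASTER. The master theorem: for every dense family of `k`-sets of multiples of `k!` a positive
proportion of `n ≤ e^ℓ` has some `H` in the family with at least `m` primes in `n + H` and no other prime `n + h`,
`1 ≤ h ≤ lam ℓ`.

PROOF. Take `k`, `δ, υ, κ` from `kp`. For `n ∈ (0, e^ℓ]` let `b = n % W` (so `n ∈ Sb ℓ e b`; the sets `Sb ℓ e b`,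
`b ∈ range W`, partition `Ioc 0 ⌊e^ℓ⌋`). For `b < W` let `F_b = {H ∈ F : H ⊆ Po lam ℓ e b}` and
`B(n) = ∑_{H ∈ F_b} Psi_H(n)² ((∑ aw)/ℓ - (m-1) - (k+1) Xo)`. `kp`: `∑_{n ≤ e^ℓ} B(n) ≥ (1/2) X V^k ∑_b #F_b`,
`X = e^ℓ/W`, and `∑_b #F_b = ∑_{H∈F} #{b} ≥ c W (φ/W)^k #F ≥ c c0 W (φ/W)^k ℓ^k` (`adm_count`; `H ⊆ Icc 1 ⌊lam ℓ⌋`), so with
`V φ/W ≥ c/(δℓ)`: `∑ B ≥ c' e^ℓ`. Upper bound: `aw ≤ ℓ`, `Xo ≥ 0`, `m ≥ 1`, so
`B(n) ≤ k ∑_{H ∈ F_b} Psi_H(n)² ≤ k C² (1+Y)^{2κ} ∑_{H ⊆ Po, #H = k} ro P H n ≤ k C² (1+Y)^{2κ+k}` (`psi_le`, `cf_abs`; `ro² = ro`), and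
`∑_n B⁺(n)² ≤ C' e^ℓ` by `moment (4κ+2k)` summed over `b`. Cauchy-Schwarz: `#{n : B(n) > 0} ≥ c'' e^ℓ`. If `B(n) > 0`, some
`H ∈ F_b` has `(∑_{h∈H} aw(n+h))/ℓ > (m-1) + (k+1) Xo`; the left side is at most the number of primes in `n + H`
(`aw ℓ y q ≤ ℓ` and `aw = 0` unless `q` is prime), hence at most `k`, so `Xo = 0` and there are at least `m` primes in
`n + H`. For `n > e^{ℓ/4} ≥ y`: if `n + h` is prime, `1 ≤ h ≤ lam ℓ`, then it is not divisible by a prime of `P ∪ Q` (all `≤ y`)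
and is coprime to `W`, so `h ∈ Po`, and `Xo = 0` gives `h ∈ H`. Discard the `n ≤ e^{ℓ/4}`.
-/

set_option autoImplicit false

open Finset Filter Topology

namespace Pool.Agent.H81.AS

open Pool.Agent.H16

private lemma mro_of_dvd {P U : Finset ℕ} {n p h : ℕ} (hp : p ∈ P) (hh : h ∈ U) (hd : p ∣ n + h) :
    ro P U n = 0 := by
  unfold ro
  apply Finset.prod_eq_zero hp
  unfold hit
  rw [if_pos ⟨h, hh, hd⟩]
  ring

private lemma mro_of_not {P U : Finset ℕ} {n : ℕ} (hn : ∀ p ∈ P, ∀ h ∈ U, ¬ p ∣ n + h) :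
    ro P U n = 1 := by
  unfold ro
  apply Finset.prod_eq_one
  intro p hp
  unfold hit
  rw [if_neg]
  · ring
  · rintro ⟨h, hh, hd⟩
    exact hn p hp h hh hd

private lemma mro_01 (P U : Finset ℕ) (n : ℕ) : ro P U n = 0 ∨ ro P U n = 1 := by
  by_cases h : ∀ p ∈ P, ∀ h ∈ U, ¬ p ∣ n + h
  · exact Or.inr (mro_of_not h)
  · push Not at h
    obtain ⟨p, hp, h, hh, hd⟩ := h
    exact Or.inl (mro_of_dvd hp hh hd)

private lemma mYr_eq (P A : Finset ℕ) (n : ℕ) :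
    Yr P A n = (#(A.filter (fun h => ∀ p ∈ P, ¬ p ∣ n + h)) : ℝ) := by
  unfold Yr
  rw [Finset.card_filter]
  push_cast
  apply Finset.sum_congr rfl
  intro h _
  split_ifs with hd
  · exact mro_of_not (fun p hp h' hh' => by rw [Finset.mem_singleton.1 hh']; exact hd p hp)
  · push Not at hd
    obtain ⟨p, hp, hd⟩ := hd
    exact mro_of_dvd hp (Finset.mem_singleton_self h) hd

private lemma mYr_nonneg (P A : Finset ℕ) (n : ℕ) : 0 ≤ Yr P A n := by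
  rw [mYr_eq]
  positivity

private lemma mro_sum_le (P A : Finset ℕ) (n k : ℕ) (F : Finset (Finset ℕ))
    (hF : ∀ H ∈ F, #H = k ∧ H ⊆ A) : ∑ H ∈ F, ro P H n ≤ (1 + Yr P A n) ^ k := by
  classical
  rw [mYr_eq]
  set R := A.filter (fun h => ∀ p ∈ P, ¬ p ∣ n + h) with hR
  have h1 : ∑ H ∈ F, ro P H n ≤ ∑ H ∈ F, (if H ⊆ R then (1 : ℝ) else 0) := by
    apply Finset.sum_le_sum
    intro H hH
    by_cases hHR : H ⊆ R
    · rw [if_pos hHR]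
      rcases mro_01 P H n with h | h <;> rw [h]
      exact zero_le_one
    · rw [if_neg hHR]
      rw [Finset.not_subset] at hHR
      obtain ⟨h, hh, hhR⟩ := hHR
      have hA := (hF H hH).2 hh
      have : ¬ ∀ p ∈ P, ¬ p ∣ n + h := fun hc => hhR (Finset.mem_filter.2 ⟨hA, hc⟩)
      push Not at this
      obtain ⟨p, hp, hd⟩ := this
      rw [mro_of_dvd hp hh hd]
  have h2 : ∑ H ∈ F, (if H ⊆ R then (1 : ℝ) else 0) = (#(F.filter (fun H => H ⊆ R)) : ℝ) := by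
    rw [Finset.card_filter]
    push_cast
    rfl
  have h3 : #(F.filter (fun H => H ⊆ R)) ≤ (#R).choose k := by
    rw [← Finset.card_powersetCard]
    apply Finset.card_le_card
    intro H hH
    rw [Finset.mem_filter] at hH
    rw [Finset.mem_powersetCard]
    exact ⟨hH.2, (hF H hH.1).1⟩
  have h4 : (#R).choose k ≤ (#R) ^ k := Nat.choose_le_pow _ _
  calc ∑ H ∈ F, ro P H n ≤ (#(F.filter (fun H => H ⊆ R)) : ℝ) := h1.trans h2.le
    _ ≤ ((#R) ^ k : ℕ) := by exact_mod_cast h3.trans h4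
    _ = (#R : ℝ) ^ k := by push_cast; rfl
    _ ≤ (1 + (#R : ℝ)) ^ k := by
        apply pow_le_pow_left₀ (by positivity)
        linarith

private lemma msum_part (ℓ : ℝ) (e : ℕ) (f : ℕ → ℝ) :
    ∑ n ∈ Ioc 0 ⌊Real.exp ℓ⌋₊, f n = ∑ b ∈ range (WW ℓ e), ∑ n ∈ Sb ℓ e b, f n := by
  rw [← Finset.sum_fiberwise_of_maps_to (s := Ioc 0 ⌊Real.exp ℓ⌋₊) (t := range (WW ℓ e))
    (g := fun n => n % WW ℓ e) (fun n _ => Finset.mem_range.2 (Nat.mod_lt _ (WW_pos ℓ e)))]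
  apply Finset.sum_congr rfl
  intro b hb
  rw [Finset.mem_range] at hb
  apply Finset.sum_congr _ (fun _ _ => rfl)
  unfold Sb
  apply Finset.filter_congr
  intro n _
  unfold Nat.ModEq
  rw [Nat.mod_eq_of_lt hb]

private lemma mSb_mod {ℓ : ℝ} {e b n : ℕ} (hb : b < WW ℓ e) (hn : n ∈ Sb ℓ e b) :
    n % WW ℓ e = b := by
  unfold Sb at hn
  have := (Finset.mem_filter.1 hn).2
  unfold Nat.ModEq at this
  rw [this, Nat.mod_eq_of_lt hb]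

private lemma maw_sum_le {ℓ : ℝ} (hℓ : 0 < ℓ) (y n : ℕ) (H : Finset ℕ) :
    (∑ h ∈ H, aw ℓ y (n + h)) / ℓ ≤ (#(H.filter (fun h => (n + h).Prime)) : ℝ) := by
  rw [div_le_iff₀ hℓ, Finset.card_filter]
  push_cast
  rw [Finset.sum_mul]
  apply Finset.sum_le_sum
  intro h _
  refine (aw_le' hℓ.le y _).trans ?_
  split_ifs with h1 h2 h2
  · rw [one_mul]
  · exact absurd h1.1 h2
  · rw [one_mul]
    exact hℓ.le
  · rw [zero_mul]

private lemma mXo_nonneg (P Q A H : Finset ℕ) (n : ℕ) : 0 ≤ Xo P Q A H n := by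
  unfold Xo
  apply Finset.sum_nonneg
  intro h _
  split_ifs
  · exact zero_le_one
  · exact le_rfl

private lemma mXo_ge {P Q A H : Finset ℕ} {n h : ℕ} (hA : h ∈ A) (hH : h ∉ H)
    (hd : ∀ p ∈ P ∪ Q, ¬ p ∣ n + h) : 1 ≤ Xo P Q A H n := by
  unfold Xo
  have h1 : (if ∀ p ∈ P ∪ Q, ¬ p ∣ n + h then (1 : ℝ) else 0) ≤
      ∑ h ∈ A \ H, (if ∀ p ∈ P ∪ Q, ¬ p ∣ n + h then (1 : ℝ) else 0) := by
    refine Finset.single_le_sum (f := fun h => (if ∀ p ∈ P ∪ Q, ¬ p ∣ n + h then (1 : ℝ) else 0))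
      (fun h _ => ?_) (Finset.mem_sdiff.2 ⟨hA, hH⟩)
    split_ifs
    · exact zero_le_one
    · exact le_rfl
  rw [if_pos hd] at h1
  exact h1

private lemma mgood {lam υ δ ℓ : ℝ} {e m k n : ℕ} {H : Finset ℕ} (hℓ : 0 < ℓ) (hm : 1 ≤ m)
    (hwz : wz ℓ ≤ zz υ ℓ) (hzz : zz δ ℓ ≤ zz υ ℓ) (hn : zz υ ℓ < n) (hHk : #H = k)
    (hpos : 0 < (∑ h ∈ H, aw ℓ (zz υ ℓ) (n + h)) / ℓ - ((m : ℝ) - 1) - ((k : ℝ) + 1) *
      Xo (PP δ ℓ e) (QQ δ υ ℓ e) (Po lam ℓ e (n % WW ℓ e)) H n) :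
    m ≤ #(H.filter (fun h => (n + h).Prime)) ∧
      ∀ h ∈ Icc 1 ⌊lam * ℓ⌋₊, (n + h).Prime → h ∈ H := by
  have h1 := maw_sum_le hℓ (zz υ ℓ) n H
  have h2 := mXo_nonneg (PP δ ℓ e) (QQ δ υ ℓ e) (Po lam ℓ e (n % WW ℓ e)) H n
  have hk0 : (0 : ℝ) ≤ k := Nat.cast_nonneg k
  have hcard : (#(H.filter (fun h => (n + h).Prime)) : ℝ) ≤ k := by
    rw [← hHk]
    exact_mod_cast Finset.card_filter_le _ _
  constructor
  · have h3 : 0 ≤ ((k : ℝ) + 1) * Xo (PP δ ℓ e) (QQ δ υ ℓ e) (Po lam ℓ e (n % WW ℓ e)) H n := by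
      positivity
    have h4 : (m : ℝ) < (#(H.filter (fun h => (n + h).Prime)) : ℝ) + 1 := by linarith
    have h5 : m < #(H.filter (fun h => (n + h).Prime)) + 1 := by exact_mod_cast h4
    omega
  · intro h hh hp
    by_contra hH
    have hm1 : (1 : ℝ) ≤ m := by exact_mod_cast hm
    -- `n + h` is a prime larger than all the sieving primes
    have hbig : zz υ ℓ < n + h := by omega
    have hPo : h ∈ Po lam ℓ e (n % WW ℓ e) := by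
      unfold Po
      rw [Finset.mem_filter]
      refine ⟨hh, ?_⟩
      have hc : Nat.Coprime (n + h) (WW ℓ e) := by
        rw [Nat.Prime.coprime_iff_not_dvd hp, prime_dvd_WW hp]
        rintro ⟨h3, -⟩
        omega
      have hmod : (n % WW ℓ e + h) % WW ℓ e = (n + h) % WW ℓ e := by
        rw [Nat.mod_add_mod]
      rw [Nat.coprime_comm] at hc ⊢
      rw [Nat.Coprime, Nat.gcd_rec] at hc ⊢
      rw [hmod]
      exact hc
    have hd : ∀ p ∈ PP δ ℓ e ∪ QQ δ υ ℓ e, ¬ p ∣ n + h := by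
      intro p hpm hdvd
      have hpp : p.Prime ∧ p ≤ zz υ ℓ := by
        rw [Finset.mem_union] at hpm
        rcases hpm with hpm | hpm
        · unfold PP at hpm
          have := Finset.mem_of_mem_erase hpm
          rw [mem_primesIoc] at this
          exact ⟨this.2.2, this.2.1.trans hzz⟩
        · unfold QQ at hpm
          have := Finset.mem_of_mem_erase hpm
          rw [mem_primesIoc] at this
          exact ⟨this.2.2, this.2.1⟩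
      have := (Nat.prime_dvd_prime_iff_eq hpp.1 hp).1 hdvd
      omega
    have h3 := mXo_ge hPo hH hd
    have h4 : ((k : ℝ) + 1) * 1 ≤
        ((k : ℝ) + 1) * Xo (PP δ ℓ e) (QQ δ υ ℓ e) (Po lam ℓ e (n % WW ℓ e)) H n :=
      mul_le_mul_of_nonneg_left h3 (by positivity)
    linarith

private lemma mCS {G S : Finset ℕ} (hGS : G ⊆ S) (D : ℕ → ℝ) (x y : ℝ)
    (hx : 0 ≤ x) (hy : 0 < y) (h1 : x ≤ ∑ n ∈ G, D n) (h2 : ∑ n ∈ S, D n ^ 2 ≤ y) :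
    x ^ 2 / y ≤ (#G : ℝ) := by
  rw [div_le_iff₀ hy]
  have h3 : (∑ n ∈ G, D n) ^ 2 ≤ (#G : ℝ) * ∑ n ∈ G, D n ^ 2 := by
    have := Finset.sum_mul_sq_le_sq_mul_sq G (fun _ => (1 : ℝ)) D
    simpa using this
  have h4 : ∑ n ∈ G, D n ^ 2 ≤ ∑ n ∈ S, D n ^ 2 :=
    Finset.sum_le_sum_of_subset_of_nonneg hGS (fun _ _ _ => sq_nonneg _)
  calc x ^ 2 ≤ (∑ n ∈ G, D n) ^ 2 := pow_le_pow_left₀ hx h1 2
    _ ≤ (#G : ℝ) * ∑ n ∈ G, D n ^ 2 := h3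
    _ ≤ (#G : ℝ) * y := mul_le_mul_of_nonneg_left (h4.trans h2) (Nat.cast_nonneg _)

theorem master (m : ℕ) (hm : 1 ≤ m) : ∃ k : ℕ, m + 1 ≤ k ∧ ∀ lam c0 : ℝ, 0 < lam → 0 < c0 →
    ∃ c : ℝ, 0 < c ∧ ∀ᶠ ℓ : ℝ in atTop, ∀ F : Finset (Finset ℕ),
      (∀ H ∈ F, #H = k ∧ H ⊆ Icc 1 ⌊lam * ℓ⌋₊ ∧ ∀ h ∈ H, k.factorial ∣ h) → c0 * ℓ ^ k ≤ (#F : ℝ) →
      c * Real.exp ℓ ≤ (#((Ioc 0 ⌊Real.exp ℓ⌋₊).filter (fun n => ∃ H ∈ F,
        m ≤ #(H.filter (fun h => (n + h).Prime)) ∧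
          ∀ h ∈ Icc 1 ⌊lam * ℓ⌋₊, (n + h).Prime → h ∈ H)) : ℝ) := by
  classical
  obtain ⟨k, hk, hkp⟩ := kp m hm
  refine ⟨k, hk, fun lam c0 hlam hc0 => ?_⟩
  obtain ⟨δ, υ, κ, hδ, hδυ, hυ, hev⟩ := hkp lam hlam
  obtain ⟨cA, hcA, hadm⟩ := adm_count k (by omega)
  obtain ⟨cV, hcV, hV⟩ := V1_bounds
  obtain ⟨C, hC, hpsi⟩ := psi_le κ hlam hδ hδυ
  obtain ⟨CM, hCM, hmom⟩ := moment (4 * κ + 2 * k) hlam hδ
  have hk0 : (0 : ℝ) < k := by exact_mod_cast (show 0 < k by omega)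
  have hC0 : 0 < C := by linarith
  set c1 : ℝ := (1 / 2) * cA * c0 * (cV / δ) ^ k with hc1
  set C2 : ℝ := (k : ℝ) ^ 2 * C ^ 4 * CM with hC2
  have hc1p : 0 < c1 := by positivity
  have hC2p : 0 < C2 := by positivity
  set A : ℝ := c1 ^ 2 / C2 / 2 with hA
  have hAp : 0 < A := by positivity
  refine ⟨A, hAp, ?_⟩
  filter_upwards [hev, hV δ hδ, hpsi, hmom, ev_zz (hδ.trans_le hδυ) 0, eventually_gt_atTop 0,
    eventually_ge_atTop (4 / 3 * -Real.log A)] with ℓ h1 h2 h3 h4 h5 hℓ h6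
  intro F hF hFc
  obtain ⟨e, g, α, T1, T, hg, hg1, hα, hα1, hsupp, hmain⟩ := h1
  have hWp := WW_pos ℓ e
  have hWr : (0 : ℝ) < WW ℓ e := by exact_mod_cast hWp
  set PS : ℕ → ℕ → Finset ℕ → ℝ := fun b n H =>
    Psi (PP δ ℓ e) (QQ δ υ ℓ e) (Po lam ℓ e b) H (Cf H g α T1 T) n with hPS
  set BR : ℕ → ℕ → Finset ℕ → ℝ := fun b n H =>
    (∑ h ∈ H, aw ℓ (zz υ ℓ) (n + h)) / ℓ - ((m : ℝ) - 1) -
      ((k : ℝ) + 1) * Xo (PP δ ℓ e) (QQ δ υ ℓ e) (Po lam ℓ e b) H n with hBR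
  set Fb : ℕ → Finset (Finset ℕ) := fun b => F.filter (fun H => H ⊆ Po lam ℓ e b) with hFb
  set B : ℕ → ℝ := fun n => ∑ H ∈ Fb (n % WW ℓ e), PS (n % WW ℓ e) n H ^ 2 * BR (n % WW ℓ e) n H
    with hB
  set Y : ℕ → ℝ := fun n => 1 + Yr (PP δ ℓ e) (Po lam ℓ e (n % WW ℓ e)) n with hY
  set D : ℕ → ℝ := fun n => (k : ℝ) * C ^ 2 * Y n ^ (2 * κ + k) with hD
  have hFbmem : ∀ b, ∀ H ∈ Fb b, #H = k ∧ H ⊆ Po lam ℓ e b := by
    intro b H hH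
    rw [hFb, Finset.mem_filter] at hH
    exact ⟨(hF H hH.1).1, hH.2⟩
  have hYp : ∀ n, 1 ≤ Y n := by
    intro n
    have := mYr_nonneg (PP δ ℓ e) (Po lam ℓ e (n % WW ℓ e)) n
    simp only [hY]
    linarith
  -- Claim 1: lower bound for the sum of `B`
  have hclaim1 : c1 * Real.exp ℓ ≤ ∑ n ∈ Ioc 0 ⌊Real.exp ℓ⌋₊, B n := by
    rw [msum_part ℓ e]
    have hb1 : ∀ b ∈ range (WW ℓ e), (#(Fb b) : ℝ) *
        ((1 / 2) * (Real.exp ℓ / (WW ℓ e : ℝ)) * V1 δ ℓ e ^ k) ≤ ∑ n ∈ Sb ℓ e b, B n := by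
      intro b hb
      rw [Finset.mem_range] at hb
      have hBeq : ∑ n ∈ Sb ℓ e b, B n = ∑ n ∈ Sb ℓ e b, ∑ H ∈ Fb b, PS b n H ^ 2 * BR b n H := by
        apply Finset.sum_congr rfl
        intro n hn
        simp only [hB]
        rw [mSb_mod hb hn]
      rw [hBeq, Finset.sum_comm]
      calc (#(Fb b) : ℝ) * ((1 / 2) * (Real.exp ℓ / (WW ℓ e : ℝ)) * V1 δ ℓ e ^ k) =
          ∑ _H ∈ Fb b, ((1 / 2) * (Real.exp ℓ / (WW ℓ e : ℝ)) * V1 δ ℓ e ^ k) := by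
            rw [Finset.sum_const, nsmul_eq_mul]
        _ ≤ ∑ H ∈ Fb b, ∑ n ∈ Sb ℓ e b, PS b n H ^ 2 * BR b n H := by
            apply Finset.sum_le_sum
            intro H hH
            exact hmain b H (hFbmem b H hH).2 (hFbmem b H hH).1
    have hb2 : ∑ b ∈ range (WW ℓ e), (#(Fb b) : ℝ) =
        ∑ H ∈ F, (#((range (WW ℓ e)).filter (fun b => H ⊆ Po lam ℓ e b)) : ℝ) := by
      have e1 : ∀ b, (#(Fb b) : ℝ) = ∑ H ∈ F, (if H ⊆ Po lam ℓ e b then (1 : ℝ) else 0) := by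
        intro b
        rw [hFb]
        simp only
        rw [Finset.card_filter]
        push_cast
        rfl
      have e2 : ∀ H : Finset ℕ, (#((range (WW ℓ e)).filter (fun b => H ⊆ Po lam ℓ e b)) : ℝ) =
          ∑ b ∈ range (WW ℓ e), (if H ⊆ Po lam ℓ e b then (1 : ℝ) else 0) := by
        intro H
        rw [Finset.card_filter]
        push_cast
        rfl
      rw [Finset.sum_congr rfl (fun b _ => e1 b), Finset.sum_congr rfl (fun H _ => e2 H)]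
      exact Finset.sum_comm
    set R0 : ℝ := (((WW ℓ e).totient : ℕ) : ℝ) / (WW ℓ e : ℝ) with hR0
    have hR00 : 0 ≤ R0 := by positivity
    have hb3 : ∀ H ∈ F, cA * ((WW ℓ e : ℝ) * R0 ^ k) ≤
        (#((range (WW ℓ e)).filter (fun b => H ⊆ Po lam ℓ e b)) : ℝ) := by
      intro H hH
      obtain ⟨f1, f2, f3⟩ := hF H hH
      refine (hadm ℓ e H f1 f3).trans ?_
      have : (range (WW ℓ e)).filter (fun b => ∀ h ∈ H, Nat.Coprime (b + h) (WW ℓ e)) =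
          (range (WW ℓ e)).filter (fun b => H ⊆ Po lam ℓ e b) := by
        apply Finset.filter_congr
        intro b _
        unfold Po
        constructor
        · intro h' x hx
          exact Finset.mem_filter.2 ⟨f2 hx, h' x hx⟩
        · intro h' x hx
          exact (Finset.mem_filter.1 (h' hx)).2
      rw [this]
    have hV1 := V1_pos δ ℓ e
    have hX : 0 ≤ (1 / 2) * (Real.exp ℓ / (WW ℓ e : ℝ)) * V1 δ ℓ e ^ k := by positivity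
    have hVR : (cV / δ) ^ k ≤ ℓ ^ k * (R0 ^ k * V1 δ ℓ e ^ k) := by
      rw [← mul_pow, ← mul_pow]
      apply pow_le_pow_left₀ (by positivity)
      have := (h2 e).1
      calc cV / δ = ℓ * (cV / (δ * ℓ)) := by field_simp
        _ ≤ ℓ * (V1 δ ℓ e * R0) := mul_le_mul_of_nonneg_left this hℓ.le
        _ = ℓ * (R0 * V1 δ ℓ e) := by ring
    calc c1 * Real.exp ℓ = (1 / 2) * cA * c0 * Real.exp ℓ * (cV / δ) ^ k := by rw [hc1]; ring
      _ ≤ (1 / 2) * cA * c0 * Real.exp ℓ * (ℓ ^ k * (R0 ^ k * V1 δ ℓ e ^ k)) :=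
          mul_le_mul_of_nonneg_left hVR (by positivity)
      _ = (c0 * ℓ ^ k) * (cA * ((WW ℓ e : ℝ) * R0 ^ k)) *
          ((1 / 2) * (Real.exp ℓ / (WW ℓ e : ℝ)) * V1 δ ℓ e ^ k) := by
          field_simp
      _ ≤ (#F : ℝ) * (cA * ((WW ℓ e : ℝ) * R0 ^ k)) *
          ((1 / 2) * (Real.exp ℓ / (WW ℓ e : ℝ)) * V1 δ ℓ e ^ k) := by
          apply mul_le_mul_of_nonneg_right _ hX
          exact mul_le_mul_of_nonneg_right hFc (by positivity)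
      _ = (∑ _H ∈ F, cA * ((WW ℓ e : ℝ) * R0 ^ k)) *
          ((1 / 2) * (Real.exp ℓ / (WW ℓ e : ℝ)) * V1 δ ℓ e ^ k) := by
          rw [Finset.sum_const, nsmul_eq_mul]
      _ ≤ (∑ H ∈ F, (#((range (WW ℓ e)).filter (fun b => H ⊆ Po lam ℓ e b)) : ℝ)) *
          ((1 / 2) * (Real.exp ℓ / (WW ℓ e : ℝ)) * V1 δ ℓ e ^ k) :=
          mul_le_mul_of_nonneg_right (Finset.sum_le_sum hb3) hX
      _ = ∑ b ∈ range (WW ℓ e), (#(Fb b) : ℝ) *
          ((1 / 2) * (Real.exp ℓ / (WW ℓ e : ℝ)) * V1 δ ℓ e ^ k) := by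
          rw [← hb2, Finset.sum_mul]
      _ ≤ ∑ b ∈ range (WW ℓ e), ∑ n ∈ Sb ℓ e b, B n := Finset.sum_le_sum hb1
  -- Claim 2: pointwise upper bound
  have hclaim2 : ∀ n ∈ Ioc 0 ⌊Real.exp ℓ⌋₊, B n ≤ D n := by
    intro n hn
    have hnS : n ∈ Sb ℓ e (n % WW ℓ e) := by
      unfold Sb
      rw [Finset.mem_filter]
      exact ⟨hn, (Nat.mod_modEq n (WW ℓ e)).symm⟩
    have hY1 := hYp n
    have hY0 : 0 ≤ Y n := by linarith
    have hterm : ∀ H ∈ Fb (n % WW ℓ e), PS (n % WW ℓ e) n H ^ 2 * BR (n % WW ℓ e) n H ≤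
        (k : ℝ) * C ^ 2 * Y n ^ (2 * κ) * ro (PP δ ℓ e) H n := by
      intro H hH
      obtain ⟨hHk, hHP⟩ := hFbmem _ H hH
      have q1 : |PS (n % WW ℓ e) n H| ≤ ro (PP δ ℓ e) H n * (C * Y n ^ κ) := by
        refine h3 e (n % WW ℓ e) H hHP (Cf H g α T1 T) (fun E hE => ⟨?_, fun hne => ?_⟩) n hnS
        · exact cf_abs hg hg1 hα hα1 T1 T E
        · exact hsupp _ H hHP hHk E hE hne
      have q2 : PS (n % WW ℓ e) n H ^ 2 ≤ (ro (PP δ ℓ e) H n * (C * Y n ^ κ)) ^ 2 := by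
        rw [← sq_abs]
        exact pow_le_pow_left₀ (abs_nonneg _) q1 2
      have q3 : ro (PP δ ℓ e) H n ^ 2 = ro (PP δ ℓ e) H n := by
        rcases mro_01 (PP δ ℓ e) H n with h | h <;> rw [h] <;> norm_num
      have q4 : BR (n % WW ℓ e) n H ≤ k := by
        have r1 := maw_sum_le hℓ (zz υ ℓ) n H
        have r2 := mXo_nonneg (PP δ ℓ e) (QQ δ υ ℓ e) (Po lam ℓ e (n % WW ℓ e)) H n
        have r3 : (#(H.filter (fun h => (n + h).Prime)) : ℝ) ≤ k := by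
          rw [← hHk]
          exact_mod_cast Finset.card_filter_le _ _
        have r4 : (1 : ℝ) ≤ m := by exact_mod_cast hm
        have r5 : 0 ≤ ((k : ℝ) + 1) *
            Xo (PP δ ℓ e) (QQ δ υ ℓ e) (Po lam ℓ e (n % WW ℓ e)) H n := by positivity
        simp only [hBR]
        linarith
      calc PS (n % WW ℓ e) n H ^ 2 * BR (n % WW ℓ e) n H ≤ PS (n % WW ℓ e) n H ^ 2 * k :=
            mul_le_mul_of_nonneg_left q4 (sq_nonneg _)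
        _ ≤ (ro (PP δ ℓ e) H n * (C * Y n ^ κ)) ^ 2 * k := mul_le_mul_of_nonneg_right q2 hk0.le
        _ = (k : ℝ) * C ^ 2 * Y n ^ (2 * κ) * ro (PP δ ℓ e) H n ^ 2 := by ring
        _ = (k : ℝ) * C ^ 2 * Y n ^ (2 * κ) * ro (PP δ ℓ e) H n := by rw [q3]
    calc B n ≤ ∑ H ∈ Fb (n % WW ℓ e), (k : ℝ) * C ^ 2 * Y n ^ (2 * κ) * ro (PP δ ℓ e) H n :=
          Finset.sum_le_sum hterm
      _ = (k : ℝ) * C ^ 2 * Y n ^ (2 * κ) * ∑ H ∈ Fb (n % WW ℓ e), ro (PP δ ℓ e) H n := by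
          rw [Finset.mul_sum]
      _ ≤ (k : ℝ) * C ^ 2 * Y n ^ (2 * κ) * Y n ^ k := by
          apply mul_le_mul_of_nonneg_left _ (by positivity)
          exact mro_sum_le (PP δ ℓ e) (Po lam ℓ e (n % WW ℓ e)) n k _ (hFbmem _)
      _ = D n := by
          simp only [hD]
          rw [pow_add]
          ring
  -- Claim 3: the second moment
  have hclaim3 : ∑ n ∈ Ioc 0 ⌊Real.exp ℓ⌋₊, D n ^ 2 ≤ C2 * Real.exp ℓ := by
    rw [msum_part ℓ e]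
    have hb1 : ∀ b ∈ range (WW ℓ e), ∑ n ∈ Sb ℓ e b, D n ^ 2 ≤
        (k : ℝ) ^ 2 * C ^ 4 * (CM * (Real.exp ℓ / (WW ℓ e : ℝ))) := by
      intro b hb
      rw [Finset.mem_range] at hb
      have hDeq : ∑ n ∈ Sb ℓ e b, D n ^ 2 = (k : ℝ) ^ 2 * C ^ 4 *
          ∑ n ∈ Sb ℓ e b, (1 + Yr (PP δ ℓ e) (Po lam ℓ e b) n) ^ (4 * κ + 2 * k) := by
        rw [Finset.mul_sum]
        apply Finset.sum_congr rfl
        intro n hn
        simp only [hD, hY]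
        rw [mSb_mod hb hn]
        ring
      rw [hDeq]
      exact mul_le_mul_of_nonneg_left (h4 e b) (by positivity)
    calc ∑ b ∈ range (WW ℓ e), ∑ n ∈ Sb ℓ e b, D n ^ 2 ≤
        ∑ _b ∈ range (WW ℓ e), (k : ℝ) ^ 2 * C ^ 4 * (CM * (Real.exp ℓ / (WW ℓ e : ℝ))) :=
          Finset.sum_le_sum hb1
      _ = C2 * Real.exp ℓ := by
          rw [Finset.sum_const, Finset.card_range, nsmul_eq_mul, hC2]
          field_simp
  -- Cauchy-Schwarz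
  set G := (Ioc 0 ⌊Real.exp ℓ⌋₊).filter (fun n => 0 < B n) with hG
  have hGsub : G ⊆ Ioc 0 ⌊Real.exp ℓ⌋₊ := Finset.filter_subset _ _
  have hsumG : c1 * Real.exp ℓ ≤ ∑ n ∈ G, D n := by
    have s1 : ∑ n ∈ Ioc 0 ⌊Real.exp ℓ⌋₊, B n ≤ ∑ n ∈ G, B n := by
      rw [hG, Finset.sum_filter]
      apply Finset.sum_le_sum
      intro n _
      split_ifs with hp
      · exact le_rfl
      · exact not_lt.1 hp
    have s2 : ∑ n ∈ G, B n ≤ ∑ n ∈ G, D n :=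
      Finset.sum_le_sum (fun n hn => hclaim2 n (hGsub hn))
    linarith
  have hcardG := mCS hGsub D (c1 * Real.exp ℓ) (C2 * Real.exp ℓ) (by positivity) (by positivity)
    hsumG hclaim3
  have hcardG' : 2 * A * Real.exp ℓ ≤ (#G : ℝ) := by
    refine le_trans (le_of_eq ?_) hcardG
    rw [hA]
    have := Real.exp_pos ℓ
    field_simp
  -- the good numbers
  have hzzυ : zz δ ℓ ≤ zz υ ℓ := zz_mono hδυ hℓ.le
  have hsub : G \ Icc 1 (zz υ ℓ) ⊆ (Ioc 0 ⌊Real.exp ℓ⌋₊).filter (fun n => ∃ H ∈ F,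
        m ≤ #(H.filter (fun h => (n + h).Prime)) ∧
          ∀ h ∈ Icc 1 ⌊lam * ℓ⌋₊, (n + h).Prime → h ∈ H) := by
    intro n hn
    rw [Finset.mem_sdiff, hG, Finset.mem_filter, Finset.mem_Icc] at hn
    obtain ⟨⟨hn1, hn2⟩, hn3⟩ := hn
    rw [Finset.mem_filter]
    refine ⟨hn1, ?_⟩
    have hnpos : 0 < n := (Finset.mem_Ioc.1 hn1).1
    have hnb : zz υ ℓ < n := by
      by_contra hcon
      exact hn3 ⟨hnpos, not_lt.1 hcon⟩
    obtain ⟨H, hH, hHpos⟩ : ∃ H ∈ Fb (n % WW ℓ e),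
        0 < PS (n % WW ℓ e) n H ^ 2 * BR (n % WW ℓ e) n H := by
      by_contra hcon
      push Not at hcon
      exact absurd (Finset.sum_nonpos hcon) (not_le.2 hn2)
    have hBRpos : 0 < BR (n % WW ℓ e) n H := by
      by_contra hcon
      have := mul_nonpos_of_nonneg_of_nonpos (sq_nonneg (PS (n % WW ℓ e) n H)) (not_lt.1 hcon)
      linarith
    refine ⟨H, (Finset.mem_filter.1 hH).1, ?_⟩
    exact mgood hℓ hm h5.1 hzzυ hnb (hFbmem _ H hH).1 hBRpos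
  have hcard1 : (#G : ℝ) - (zz υ ℓ : ℝ) ≤ (#(G \ Icc 1 (zz υ ℓ)) : ℝ) := by
    have t1 : #G ≤ #(G \ Icc 1 (zz υ ℓ)) + #(Icc 1 (zz υ ℓ)) :=
      (Finset.card_le_card (by
        intro x hx
        by_cases hx' : x ∈ Icc 1 (zz υ ℓ)
        · exact Finset.mem_union_right _ hx'
        · exact Finset.mem_union_left _ (Finset.mem_sdiff.2 ⟨hx, hx'⟩))).trans
        (Finset.card_union_le _ _)
    rw [Nat.card_Icc, Nat.add_sub_cancel] at t1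
    have t2 : (#G : ℝ) ≤ (#(G \ Icc 1 (zz υ ℓ)) : ℝ) + (zz υ ℓ : ℝ) := by exact_mod_cast t1
    linarith
  have hzexp : (zz υ ℓ : ℝ) ≤ A * Real.exp ℓ := by
    have u1 : (zz υ ℓ : ℝ) ≤ Real.exp (υ * ℓ) := h5.2.2.2.2.1
    have u2 : Real.exp (υ * ℓ) ≤ A * Real.exp ℓ := by
      rw [← Real.exp_log hAp, ← Real.exp_add]
      apply Real.exp_le_exp.2
      have : υ * ℓ ≤ 1 / 4 * ℓ := mul_le_mul_of_nonneg_right hυ hℓ.le
      linarith
    exact u1.trans u2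
  calc A * Real.exp ℓ ≤ (#G : ℝ) - (zz υ ℓ : ℝ) := by linarith
    _ ≤ (#(G \ Icc 1 (zz υ ℓ)) : ℝ) := hcard1
    _ ≤ _ := by exact_mod_cast Finset.card_le_card hsub

end Pool.Agent.H81.AS
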