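import Pool.Agent.H81.AS.Loc
import Pool.Agent.H81.AS.Fib

/-!
JOB AS-PAIR. The sieve for one pair `(E, E')`: all positions in `U`.

PROOF. Put `q = prs E ∪ prs E'` (primes `> z`), and for a choice of residues
`b ∈ ∏_{p ∈ q} al Z p` (`Finset.pi` or `Fintype.piFinset`) let `S_b = {n ∈ S : n ≡ b_p mod p for p ∈ q}`. Every
`n ∈ S` with `a n ≠ 0` lies in exactly one `S_b` (residue of `n` mod `p`; by `cop` it is in `al Z p`). On `S_b`
`gE E n gE E' n` is the constant `G(b) = ∏_{p ∈ q} (∏_{h ∈ col E p} uu p (b_p+h)) (∏_{h ∈ col E' p} uu p (b_p + h))`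
(`uu p m` depends only on `m mod p`; `gE E n = ∏_{p ∈ prs E} ∏_{h ∈ col E p} uu p (n+h)`). Apply `hFL` to
`S_b`, `a`, `c = hit U`, `X_b = X ∏_{p∈q} gd Z p`, sieving range `(w, z]`, `g p = #(Rs Z U p) * gd Z p ≤ K/(p-1) ≤ 2K/p`
(each `h ∈ U` is hit by one residue). For `D ⊆ P` the remainder `RD S_b a (hit U) X_b g D` is the sum over the
choices `f ∈ ∏_{p ∈ D} Rs Z U p` of the remainders of `Dist.cnt` for `D ∪ q` (disjoint union) with the residues
`f` on `D` and `b` on `q`: indeed `a n * hit U n p = a n * ∑_{c ∈ Rs Z U p} [n ≡ c mod p]`, because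
`a n = 0` when the residue of `n` is not in `al Z p`. So `|RD| ≤ K^{#D} M(D ∪ q)` (level:
`∏ D ≤ z^{4s+5}`, `∏ q ≤ ...`). Summing over `b` with the weights `G(b)`:
`∑_b G(b) X_b = X ∏_{p∈q} eloc`, `∑_b |G(b)| X_b = X ∏ aloc`, `∑_b |G(b)| = ∏ ((p - #Z) aloc)`.
-/

set_option autoImplicit false

open Finset Filter Topology

namespace Pool.Agent.H81.AS

open Pool.Agent.H16

/-- extension of a dependent choice to a function -/
def pairExt (q : Finset ℕ) (b : ∀ p ∈ q, ℕ) (p : ℕ) : ℕ := if h : p ∈ q then b p h else 0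

theorem pairExt_mem {q : Finset ℕ} {T : ℕ → Finset ℕ} {b : ∀ p ∈ q, ℕ} (hb : b ∈ q.pi T) {p : ℕ}
    (hp : p ∈ q) : pairExt q b p ∈ T p := by
  rw [pairExt, dif_pos hp]
  exact Finset.mem_pi.1 hb p hp

theorem pair_prod_sum (q : Finset ℕ) (T : ℕ → Finset ℕ) (F : ℕ → ℕ → ℝ) :
    ∏ p ∈ q, ∑ c ∈ T p, F p c = ∑ b ∈ q.pi T, ∏ p ∈ q, F p (pairExt q b p) := by
  rw [Finset.prod_sum]
  refine Finset.sum_congr rfl fun b _ => ?_
  rw [← Finset.prod_attach q]
  refine Finset.prod_congr rfl fun x _ => ?_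
  rw [pairExt, dif_pos x.2]

/-- indicator of a residue class -/
noncomputable def pairInd (p c n : ℕ) : ℝ := if n ≡ c [MOD p] then 1 else 0

theorem pairInd_prod (D : Finset ℕ) (b : ℕ → ℕ) (n : ℕ) :
    ∏ p ∈ D, pairInd p (b p) n = if ∀ p ∈ D, n ≡ b p [MOD p] then 1 else 0 := by
  classical
  split_ifs with h
  · exact Finset.prod_eq_one fun p hp => by rw [pairInd, if_pos (h p hp)]
  · push Not at h
    obtain ⟨p, hp, h1⟩ := h
    exact Finset.prod_eq_zero hp (by rw [pairInd, if_neg h1])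

theorem pair_dvd_mod {p n h : ℕ} : p ∣ n % p + h ↔ p ∣ n + h := by
  have h1 : n % p + h ≡ n + h [MOD p] := (Nat.mod_modEq n p).add_right h
  rw [← Nat.modEq_zero_iff_dvd, ← Nat.modEq_zero_iff_dvd]
  exact ⟨fun h2 => h1.symm.trans h2, fun h2 => h1.trans h2⟩

theorem pair_uu_mod (p n h : ℕ) : uu p (n % p + h) = uu p (n + h) := by
  simp only [uu, pair_dvd_mod]

theorem pair_mod_al {Z : Finset ℕ} {p n : ℕ} (hp : 0 < p) (hn : ∀ z ∈ Z, ¬ p ∣ n + z) :
    n % p ∈ al Z p := by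
  simp only [al, Finset.mem_filter, Finset.mem_range]
  exact ⟨Nat.mod_lt _ hp, fun z hz h => hn z hz (pair_dvd_mod.1 h)⟩

/-- a sum over residues with the indicator -/
theorem pair_sum_ind {T : Finset ℕ} {p n : ℕ} (hp : 0 < p) (hT : ∀ c ∈ T, c < p) (Φ : ℕ → ℝ) :
    ∑ c ∈ T, pairInd p c n * Φ c = if n % p ∈ T then Φ (n % p) else 0 := by
  classical
  have h1 : ∀ c ∈ T, pairInd p c n * Φ c = if c = n % p then Φ (n % p) else 0 := by
    intro c hc
    by_cases h2 : c = n % p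
    · rw [if_pos h2, pairInd, if_pos, h2, one_mul]
      rw [h2]; exact (Nat.mod_modEq n p).symm
    · rw [if_neg h2, pairInd, if_neg, zero_mul]
      intro h3
      apply h2
      have h4 : n % p = c % p := h3
      rw [h4, Nat.mod_eq_of_lt (hT c hc)]
  rw [Finset.sum_congr rfl h1, Finset.sum_ite_eq']

theorem pair_al_lt {Z : Finset ℕ} {p c : ℕ} (hc : c ∈ al Z p) : c < p := by
  simp only [al, Finset.mem_filter, Finset.mem_range] at hc; exact hc.1

theorem pair_Rs_sub {Z U : Finset ℕ} {p c : ℕ} (hc : c ∈ Rs Z U p) : c ∈ al Z p :=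
  (Finset.mem_filter.1 hc).1

theorem pair_hit {Z U : Finset ℕ} {p n : ℕ} (hp : 0 < p) (hn : ∀ z ∈ Z, ¬ p ∣ n + z) :
    hit U n p = ∑ c ∈ Rs Z U p, pairInd p c n := by
  classical
  have h1 : ∑ c ∈ Rs Z U p, pairInd p c n = ∑ c ∈ Rs Z U p, pairInd p c n * 1 := by simp
  rw [h1, pair_sum_ind hp (fun c hc => pair_al_lt (pair_Rs_sub hc)) (fun _ => 1), hit]
  have h2 : (∃ h ∈ U, p ∣ n + h) ↔ n % p ∈ Rs Z U p := by
    simp only [Rs, Finset.mem_filter, pair_dvd_mod]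
    exact ⟨fun h3 => ⟨pair_mod_al hp hn, h3⟩, fun h3 => h3.2⟩
  simp only [h2]

theorem pair_card_Rs {Z U : Finset ℕ} {p : ℕ} : #(Rs Z U p) ≤ #U := by
  classical
  have h1 : ∀ c ∈ Rs Z U p, ∃ h, h ∈ U ∧ p ∣ c + h := by
    intro c hc
    obtain ⟨h, h1, h2⟩ := (Finset.mem_filter.1 hc).2
    exact ⟨h, h1, h2⟩
  choose! f hf using h1
  refine Finset.card_le_card_of_injOn f (fun c hc => (hf c hc).1) ?_
  intro c hc d hd hcd
  have hc' := Finset.mem_coe.1 hc
  have hd' := Finset.mem_coe.1 hd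
  have h2 := (hf c hc').2
  have h3 := (hf d hd').2
  rw [← hcd] at h3
  exact loc_unique (pair_al_lt (pair_Rs_sub hc')) (pair_al_lt (pair_Rs_sub hd')) h2 h3

/-- the value of the weights on a residue class -/
noncomputable def pairPhi (A B : Finset ℕ) (p c : ℕ) : ℝ :=
  (∏ h ∈ A, uu p (c + h)) * ∏ h ∈ B, uu p (c + h)

theorem pairPhi_mod (A B : Finset ℕ) (p n : ℕ) : pairPhi A B p (n % p) = pairPhi A B p n := by
  simp only [pairPhi, pair_uu_mod]

theorem pair_gE {E E' : Finset (ℕ × ℕ)} (n : ℕ) :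
    gE E n * gE E' n = ∏ p ∈ prs E ∪ prs E', pairPhi (col E p) (col E' p) p n := by
  simp only [gE, pairPhi]
  rw [prod_col (R := prs E ∪ prs E') Finset.subset_union_left (fun h p => uu p (n + h)),
    prod_col (E := E') (R := prs E ∪ prs E') Finset.subset_union_right (fun h p => uu p (n + h)),
    Finset.prod_mul_distrib]

section
variable {P Q Z S : Finset ℕ} {a : ℕ → ℝ} {X Lv : ℝ} {M : Finset ℕ → ℝ}

/-- a weighted sum of residue dependent functions splits over the classes -/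
theorem pair_split (hD : Dist P Q Z S a X Lv M) {q : Finset ℕ} (hq : q ⊆ P ∪ Q)
    (hq0 : ∀ p ∈ q, 0 < p) (Φ : ℕ → ℕ → ℝ) (hΦ : ∀ p n, Φ p (n % p) = Φ p n) (R : ℕ → ℝ) :
    ∑ n ∈ S, a n * (R n * ∏ p ∈ q, Φ p n) =
      ∑ b ∈ q.pi (fun p => al Z p), (∏ p ∈ q, Φ p (pairExt q b p)) *
        ∑ n ∈ S.filter (fun n => ∀ p ∈ q, n ≡ pairExt q b p [MOD p]), a n * R n := by
  classical
  have h1 : ∀ n ∈ S, a n * (R n * ∏ p ∈ q, Φ p n) =
      ∑ b ∈ q.pi (fun p => al Z p), (∏ p ∈ q, Φ p (pairExt q b p)) *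
        (if ∀ p ∈ q, n ≡ pairExt q b p [MOD p] then a n * R n else 0) := by
    intro n hn
    by_cases ha : a n = 0
    · simp [ha]
    · have h2 : ∏ p ∈ q, Φ p n = ∏ p ∈ q, ∑ c ∈ al Z p, pairInd p c n * Φ p c := by
        refine Finset.prod_congr rfl fun p hp => ?_
        have h3 : ∀ z ∈ Z, ¬ p ∣ n + z := fun z hz hd => ha (hD.cop n hn z hz p (hq hp) hd)
        rw [pair_sum_ind (hq0 p hp) (fun c hc => pair_al_lt hc), if_pos (pair_mod_al (hq0 p hp) h3), hΦ]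
      rw [h2, pair_prod_sum q (fun p => al Z p) (fun p c => pairInd p c n * Φ p c), Finset.mul_sum,
        Finset.mul_sum]
      refine Finset.sum_congr rfl fun b _ => ?_
      rw [Finset.prod_mul_distrib, pairInd_prod q (pairExt q b) n]
      split_ifs
      · ring
      · ring
  rw [Finset.sum_congr rfl h1, Finset.sum_comm]
  refine Finset.sum_congr rfl fun b _ => ?_
  rw [← Finset.mul_sum, Finset.sum_filter]

/-- the remainder terms -/
theorem pair_RD (hD : Dist P Q Z S a X Lv M) (hP0 : ∀ p ∈ P, 0 < p) {q : Finset ℕ} (hq : q ⊆ P ∪ Q)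
    {U : Finset ℕ} {K : ℕ} (hUK : #U ≤ K) {D : Finset ℕ} (hDP : D ⊆ P) (hDq : Disjoint D q)
    (hlev : ((∏ p ∈ D, p : ℕ) : ℝ) * ((∏ p ∈ q, p : ℕ) : ℝ) ≤ Lv) {b : ∀ p ∈ q, ℕ}
    (hb : b ∈ q.pi (fun p => al Z p)) :
    |RD (S.filter (fun n => ∀ p ∈ q, n ≡ pairExt q b p [MOD p])) a (fun n p => hit U n p)
      (X * ∏ p ∈ q, gd Z p) (fun p => (#(Rs Z U p) : ℝ) * gd Z p) D| ≤ (K : ℝ) ^ #D * M (D ∪ q) := by
  classical
  have hDq' : D ∪ q ⊆ P ∪ Q := Finset.union_subset (hDP.trans Finset.subset_union_left) hq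
  -- combined residues
  set bb : (∀ p ∈ D, ℕ) → ℕ → ℕ := fun f p => if p ∈ D then pairExt D f p else pairExt q b p with hbb
  have h1 : AD (S.filter (fun n => ∀ p ∈ q, n ≡ pairExt q b p [MOD p])) a (fun n p => hit U n p) D =
      ∑ f ∈ D.pi (fun p => Rs Z U p),
        ∑ n ∈ S.filter (fun n => ∀ p ∈ D ∪ q, n ≡ bb f p [MOD p]), a n := by
    rw [AD]
    have h2 : ∀ n ∈ S.filter (fun n => ∀ p ∈ q, n ≡ pairExt q b p [MOD p]),
        a n * ∏ p ∈ D, hit U n p =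
        ∑ f ∈ D.pi (fun p => Rs Z U p), (if ∀ p ∈ D, n ≡ pairExt D f p [MOD p] then a n else 0) := by
      intro n hn
      have hnS := (Finset.mem_filter.1 hn).1
      by_cases ha : a n = 0
      · simp [ha]
      · have h3 : ∏ p ∈ D, hit U n p = ∏ p ∈ D, ∑ c ∈ Rs Z U p, pairInd p c n := by
          refine Finset.prod_congr rfl fun p hp => ?_
          exact pair_hit (hP0 p (hDP hp)) (fun z hz hd =>
            ha (hD.cop n hnS z hz p (Finset.mem_union_left _ (hDP hp)) hd))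
        rw [h3, pair_prod_sum D (fun p => Rs Z U p) (fun p c => pairInd p c n), Finset.mul_sum]
        refine Finset.sum_congr rfl fun f _ => ?_
        rw [pairInd_prod D (pairExt D f) n]
        split_ifs
        · ring
        · ring
    rw [Finset.sum_congr rfl h2, Finset.sum_comm]
    refine Finset.sum_congr rfl fun f _ => ?_
    rw [← Finset.sum_filter, Finset.filter_filter]
    refine Finset.sum_congr ?_ fun _ _ => rfl
    refine Finset.filter_congr fun n _ => ?_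
    constructor
    · rintro ⟨h3, h4⟩ p hp
      simp only [hbb]
      by_cases h5 : p ∈ D
      · rw [if_pos h5]; exact h4 p h5
      · rw [if_neg h5]
        exact h3 p ((Finset.mem_union.1 hp).resolve_left h5)
    · intro h3
      refine ⟨fun p hp => ?_, fun p hp => ?_⟩
      · have h4 := h3 p (Finset.mem_union_right _ hp)
        have h5 : p ∉ D := fun h6 => Finset.disjoint_left.1 hDq h6 hp
        simp only [hbb, if_neg h5] at h4
        exact h4
      · have h4 := h3 p (Finset.mem_union_left _ hp)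
        simp only [hbb, if_pos hp] at h4
        exact h4
  have h2 : (X * ∏ p ∈ q, gd Z p) * ∏ p ∈ D, ((#(Rs Z U p) : ℝ) * gd Z p) =
      ∑ _f ∈ D.pi (fun p => Rs Z U p), X * ∏ p ∈ D ∪ q, gd Z p := by
    rw [Finset.sum_const, Finset.card_pi, nsmul_eq_mul, Finset.prod_union hDq,
      Finset.prod_mul_distrib]
    push_cast
    ring
  rw [RD, h1, h2, ← Finset.sum_sub_distrib]
  refine (Finset.abs_sum_le_sum_abs _ _).trans ?_
  have h3 : ∀ f ∈ D.pi (fun p => Rs Z U p),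
      |∑ n ∈ S.filter (fun n => ∀ p ∈ D ∪ q, n ≡ bb f p [MOD p]), a n -
        X * ∏ p ∈ D ∪ q, gd Z p| ≤ M (D ∪ q) := by
    intro f hf
    refine hD.cnt (D ∪ q) hDq' ?_ (bb f) ?_
    · rw [Finset.prod_union hDq]
      push_cast
      push_cast at hlev
      exact hlev
    · intro p hp z hz hd
      have h4 : bb f p ∈ al Z p := by
        simp only [hbb]
        by_cases h5 : p ∈ D
        · rw [if_pos h5]; exact pair_Rs_sub (pairExt_mem hf h5)
        · rw [if_neg h5]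
          exact pairExt_mem (T := fun p => al Z p) hb ((Finset.mem_union.1 hp).resolve_left h5)
      simp only [al, Finset.mem_filter] at h4
      exact h4.2 z hz hd
  refine (Finset.sum_le_sum h3).trans ?_
  rw [Finset.sum_const, Finset.card_pi, nsmul_eq_mul]
  refine mul_le_mul_of_nonneg_right ?_ (hD.M0 _ hDq')
  push_cast
  calc ∏ p ∈ D, (#(Rs Z U p) : ℝ) ≤ ∏ _p ∈ D, (K : ℝ) :=
        Finset.prod_le_prod (fun _ _ => Nat.cast_nonneg _)
          (fun p _ => by exact_mod_cast pair_card_Rs.trans hUK)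
    _ = (K : ℝ) ^ #D := by rw [Finset.prod_const]

end

theorem pair_bound {K s : ℕ} (hFL : FLP (2 * K) s) {w z : ℕ} (hw : 100 ≤ Real.log w)
    (hKw : 4 * (K : ℝ) ≤ w) (hwz : w ≤ z) {P Q Z U S : Finset ℕ} (hP : P ⊆ primesIoc w z)
    (hQ : ∀ q ∈ Q, q.Prime ∧ z < q) (hZ : #Z ≤ 1) (hZz : ∀ h ∈ Z, h < z) (hUz : ∀ h ∈ U, h < z)
    (hdis : Disjoint Z U) (hUK : #U ≤ K) {a : ℕ → ℝ} {X Lv : ℝ} {M : Finset ℕ → ℝ}
    (hD : Dist P Q Z S a X Lv M) {E E' : Finset (ℕ × ℕ)} (hE : E ⊆ U ×ˢ Q) (hE' : E' ⊆ U ×ˢ Q)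
    (hlev : (z : ℝ) ^ (4 * s + 5) * ((∏ p ∈ prs E ∪ prs E', p : ℕ) : ℝ) ≤ Lv) :
    |∑ n ∈ S, a n * (ro P U n * (gE E n * gE E' n)) -
        X * VV P Z U * ∏ p ∈ prs E ∪ prs E', eloc Z p (col E p) (col E' p)| ≤
      (1 / 2 : ℝ) ^ s * (X * VV P Z U * ∏ p ∈ prs E ∪ prs E', aloc Z p (col E p) (col E' p)) +
      (1 + 2 * Real.log z) * ((∏ p ∈ prs E ∪ prs E', (((p : ℝ) - #Z) * aloc Z p (col E p) (col E' p))) *
        ∑ D ∈ P.powerset.filter (fun D => (∏ p ∈ D, p) ≤ z ^ (4 * s + 5)),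
          (K : ℝ) ^ #D * M (D ∪ (prs E ∪ prs E'))) := by
  classical
  set q := prs E ∪ prs E' with hq
  have hqQ : q ⊆ Q := by
    rw [hq]
    refine Finset.union_subset ?_ ?_
    · intro p hp
      obtain ⟨x, hx, rfl⟩ := Finset.mem_image.1 hp
      exact (Finset.mem_product.1 (hE hx)).2
    · intro p hp
      obtain ⟨x, hx, rfl⟩ := Finset.mem_image.1 hp
      exact (Finset.mem_product.1 (hE' hx)).2
  have hqPQ : q ⊆ P ∪ Q := hqQ.trans Finset.subset_union_right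
  have hPp : ∀ p ∈ P, p.Prime := fun p hp => (mem_primesIoc.1 (hP hp)).2.2
  have hPw : ∀ p ∈ P, w < p := fun p hp => (mem_primesIoc.1 (hP hp)).1
  have hPz : ∀ p ∈ P, p ≤ z := fun p hp => (mem_primesIoc.1 (hP hp)).2.1
  have hqp : ∀ p ∈ q, p.Prime := fun p hp => (hQ p (hqQ hp)).1
  have hqz : ∀ p ∈ q, z < p := fun p hp => (hQ p (hqQ hp)).2
  have hz1 : 1 ≤ z := by
    rcases Nat.eq_zero_or_pos w with h | h
    · rw [h] at hw; norm_num at hw
    · omega
  have hcZ : ((#Z : ℕ) : ℝ) ≤ 1 := by exact_mod_cast hZ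
  have hgd0 : ∀ p : ℕ, p.Prime → 0 < gd Z p := by
    intro p hp
    have h2 : (2 : ℝ) ≤ p := by exact_mod_cast hp.two_le
    have : 0 < (p : ℝ) - #Z := by linarith
    rw [gd]; positivity
  have hpZ : ∀ p : ℕ, p.Prime → ((p : ℝ) - #Z) * gd Z p = 1 := by
    intro p hp
    have h2 : (2 : ℝ) ≤ p := by exact_mod_cast hp.two_le
    have : 0 < (p : ℝ) - #Z := by linarith
    rw [gd]; field_simp
  set Φ : ℕ → ℕ → ℝ := fun p c => pairPhi (col E p) (col E' p) p c with hΦ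
  set G : (∀ p ∈ q, ℕ) → ℝ := fun b => ∏ p ∈ q, Φ p (pairExt q b p) with hG
  set Sb : (∀ p ∈ q, ℕ) → Finset ℕ := fun b => S.filter (fun n => ∀ p ∈ q, n ≡ pairExt q b p [MOD p])
    with hSb
  set Xq : ℝ := X * ∏ p ∈ q, gd Z p with hXq
  have hXq0 : 0 ≤ Xq := mul_nonneg hD.X0 (Finset.prod_nonneg fun p hp => (hgd0 p (hqp p hp)).le)
  have hmain : ∑ n ∈ S, a n * (ro P U n * (gE E n * gE E' n)) =
      ∑ b ∈ q.pi (fun p => al Z p), G b * ∑ n ∈ Sb b, a n * ro P U n := by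
    have h1 := pair_split hD hqPQ (fun p hp => (hqp p hp).pos) Φ
      (fun p n => pairPhi_mod _ _ p n) (fun n => ro P U n)
    rw [← h1]
    refine Finset.sum_congr rfl fun n _ => ?_
    rw [pair_gE]
  have hGX : ∑ b ∈ q.pi (fun p => al Z p), G b * (Xq * VV P Z U) =
      X * VV P Z U * ∏ p ∈ q, eloc Z p (col E p) (col E' p) := by
    rw [← Finset.sum_mul]
    have h1 : ∑ b ∈ q.pi (fun p => al Z p), G b = ∏ p ∈ q, ∑ c ∈ al Z p, Φ p c :=
      (pair_prod_sum q (fun p => al Z p) Φ).symm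
    have h2 : ∏ p ∈ q, eloc Z p (col E p) (col E' p) =
        (∏ p ∈ q, ∑ c ∈ al Z p, Φ p c) * ∏ p ∈ q, gd Z p := by
      rw [← Finset.prod_mul_distrib]
      rfl
    rw [h1, h2, hXq]
    ring
  have hGa : ∑ b ∈ q.pi (fun p => al Z p), |G b| = ∏ p ∈ q, ∑ c ∈ al Z p, |Φ p c| := by
    rw [pair_prod_sum q (fun p => al Z p) (fun p c => |Φ p c|)]
    refine Finset.sum_congr rfl fun b _ => ?_
    rw [hG]
    exact Finset.abs_prod _ _
  have hal : ∀ p, (∑ c ∈ al Z p, |Φ p c|) * gd Z p = aloc Z p (col E p) (col E' p) := by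
    intro p
    rw [aloc]
    congr 1
    refine Finset.sum_congr rfl fun c _ => ?_
    simp only [hΦ, pairPhi]
    rw [abs_mul, Finset.abs_prod, Finset.abs_prod]
  have hGa2 : ∑ b ∈ q.pi (fun p => al Z p), |G b| =
      ∏ p ∈ q, (((p : ℝ) - #Z) * aloc Z p (col E p) (col E' p)) := by
    rw [hGa]
    refine Finset.prod_congr rfl fun p hp => ?_
    rw [← hal p]
    have h1 := hpZ p (hqp p hp)
    calc (∑ c ∈ al Z p, |Φ p c|) = (∑ c ∈ al Z p, |Φ p c|) * (((p : ℝ) - #Z) * gd Z p) := by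
          rw [h1, mul_one]
      _ = _ := by ring
  have hGa3 : (∑ b ∈ q.pi (fun p => al Z p), |G b|) * Xq =
      X * ∏ p ∈ q, aloc Z p (col E p) (col E' p) := by
    have h2 : ∏ p ∈ q, aloc Z p (col E p) (col E' p) =
        (∏ p ∈ q, ∑ c ∈ al Z p, |Φ p c|) * ∏ p ∈ q, gd Z p := by
      rw [← Finset.prod_mul_distrib]
      exact Finset.prod_congr rfl fun p _ => (hal p).symm
    rw [hGa, h2, hXq]
    ring
  set Rem : ℝ := ∑ D ∈ P.powerset.filter (fun D => (∏ p ∈ D, p) ≤ z ^ (4 * s + 5)),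
          (K : ℝ) ^ #D * M (D ∪ q) with hRem
  have hlogz : 0 ≤ Real.log z := Real.log_nonneg (by exact_mod_cast hz1)
  have hone : ∀ b ∈ q.pi (fun p => al Z p),
      |∑ n ∈ Sb b, a n * ro P U n - Xq * VV P Z U| ≤
        (1 / 2 : ℝ) ^ s * (Xq * VV P Z U) + (1 + 2 * Real.log z) * Rem := by
    intro b hb
    have h1 := hFL (Sb b) a (fun n p => hit U n p) Xq w z hw
      (by push_cast; linarith) hwz P hPp hPw hPz (fun p => (#(Rs Z U p) : ℝ) * gd Z p)
      (fun p hp => mul_nonneg (Nat.cast_nonneg _) (hgd0 p (hPp p hp)).le)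
      (fun p hp => by
        have hp2 : (2 : ℝ) ≤ p := by exact_mod_cast (hPp p hp).two_le
        have h2 : (#(Rs Z U p) : ℝ) ≤ K := by exact_mod_cast pair_card_Rs.trans hUK
        have h3 : gd Z p ≤ 2 / p := by
          rw [gd, div_le_div_iff₀ (by linarith) (by linarith)]
          linarith
        have h4 : (0 : ℝ) ≤ K := Nat.cast_nonneg K
        have h5 := (hgd0 p (hPp p hp)).le
        calc (#(Rs Z U p) : ℝ) * gd Z p ≤ K * (2 / p) := mul_le_mul h2 h3 h5 h4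
          _ = ((2 * K : ℕ) : ℝ) / p := by push_cast; ring)
      (fun n hn => hD.a0 n (Finset.mem_filter.1 hn).1)
      (fun n _ p _ => by simp only [hit]; split_ifs <;> norm_num)
      (fun n _ p _ => by simp only [hit]; split_ifs <;> norm_num) hXq0
    refine h1.trans ?_
    refine add_le_add le_rfl (mul_le_mul_of_nonneg_left ?_ (by linarith))
    refine Finset.sum_le_sum fun D hDm => ?_
    obtain ⟨hD1, hD2⟩ := Finset.mem_filter.1 hDm
    have hDP := Finset.mem_powerset.1 hD1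
    have hDq : Disjoint D q := by
      rw [Finset.disjoint_left]
      intro p h2 h3
      have h4 := hPz p (hDP h2)
      have h5 := hqz p h3
      omega
    refine pair_RD hD (fun p hp => (hPp p hp).pos) hqPQ hUK hDP hDq ?_ hb
    refine le_trans (mul_le_mul_of_nonneg_right ?_ (Nat.cast_nonneg _)) hlev
    have : ((∏ p ∈ D, p : ℕ) : ℝ) ≤ ((z ^ (4 * s + 5) : ℕ) : ℝ) := by exact_mod_cast hD2
    push_cast at this ⊢
    exact this
  rw [hmain, ← hGX, ← Finset.sum_sub_distrib]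
  refine (Finset.abs_sum_le_sum_abs _ _).trans ?_
  have h5 : ∀ b ∈ q.pi (fun p => al Z p),
      |G b * ∑ n ∈ Sb b, a n * ro P U n - G b * (Xq * VV P Z U)| ≤
        |G b| * ((1 / 2 : ℝ) ^ s * (Xq * VV P Z U) + (1 + 2 * Real.log z) * Rem) := by
    intro b hb
    rw [← mul_sub, abs_mul]
    exact mul_le_mul_of_nonneg_left (hone b hb) (abs_nonneg _)
  refine (Finset.sum_le_sum h5).trans (le_of_eq ?_)
  rw [← Finset.sum_mul, mul_add]
  congr 1
  · calc (∑ b ∈ q.pi (fun p => al Z p), |G b|) * ((1 / 2 : ℝ) ^ s * (Xq * VV P Z U))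
        = (1 / 2 : ℝ) ^ s * (((∑ b ∈ q.pi (fun p => al Z p), |G b|) * Xq) * VV P Z U) := by ring
      _ = _ := by rw [hGa3]; ring
  · rw [hGa2]; ring

end Pool.Agent.H81.AS
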