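import Pool.Agent.H81.AS.MDefs

/-!
JOB AS-PARAMS. Choice of the parameters (pure real analysis).

PROOF. `J ≥ 14*64*Cp*CA*lam + 1`. For `ε → 0`: `κ₁ = ⌊A^J/(64 ε)⌋`, `κ = k + κ₁ + 1 → ∞`, `K = 2κ`, `s = κ^3`
(`≥ C0 * (2K)` for large `κ`), `δ = 1/(64 s)`. `Λ = Cp lam/δ = 64 Cp lam κ^3`, `r = CQ (1/64)/δ = CQ κ^3`. Then
`Xi K s κ Λ r * ((k+1)Λ+1) = 2^{-κ^3} exp(O(κ log κ)) → 0` and
`4 (k+1) Λ e^{-1/(64ε)} ≤ C (A^J/ε + k + 2)^3 e^{-1/(64ε)} → 0` (as `ε → 0`). `δ ≤ c₀ ε/A^J` etc.: `κ^3 ≥ κ · κ₁²...`, `1/(64 κ^3) ≤ c₀ ε/A^J`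
because `κ ≥ A^J/(64ε)`, so `κ^3 ε/A^J ≥ κ²/64 → ∞`.
-/

set_option autoImplicit false

open Finset Filter Topology

namespace Pool.Agent.H81.AS

open Pool.Agent.H16

/-- growth of the error term -/
theorem params_aux (M : ℝ) (hM : 4 ≤ M) :
    ∀ᶠ x : ℝ in atTop, 18 * Real.log (M * x ^ 3) ≤ x := by
  have h1 : Tendsto (fun x : ℝ => Real.log x / x) atTop (𝓝 0) := by
    have := Real.isLittleO_log_id_atTop.tendsto_div_nhds_zero
    simpa using this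
  have h2 : ∀ᶠ x : ℝ in atTop, Real.log x / x < 1 / 108 :=
    (tendsto_order.1 h1).2 _ (by norm_num)
  filter_upwards [h2, eventually_ge_atTop (36 * Real.log M), eventually_gt_atTop (1 : ℝ)]
    with x hx1 hx2 hx3
  have hx0 : 0 < x := by linarith
  rw [div_lt_iff₀ hx0] at hx1
  rw [Real.log_mul (by linarith) (by positivity), Real.log_pow]
  push_cast
  nlinarith

theorem params_a1 {x C : ℝ} (h3 : 3 ≤ x) (h : 4 * C ≤ x) : 4 * C * x ≤ x ^ 3 := by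
  have h1 : x * x ≤ x ^ 3 := by
    have : x ^ 3 = x * x * x := by ring
    rw [this]
    exact le_mul_of_one_le_right (by nlinarith) (by linarith)
  have h2 : 4 * C * x ≤ x * x := mul_le_mul_of_nonneg_right h (by linarith)
  linarith

theorem params_a2 {x : ℝ} (h3 : 3 ≤ x) : 9 ≤ x ^ 2 ∧ 1 ≤ x ^ 3 ∧ x ≤ x ^ 3 := by
  refine ⟨by nlinarith, one_le_pow₀ (by linarith), ?_⟩
  calc x = x ^ 1 := (pow_one x).symm
    _ ≤ x ^ 3 := pow_le_pow_right₀ (by linarith) (by norm_num)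

theorem params_a3 {x c m : ℝ} (hc : 0 < c) (h3 : 3 ≤ x) (h : 1 / c ≤ x) (hm : m ≤ x) :
    1 * (32 * m) ≤ c * (64 * x ^ 3) := by
  have h1 : 1 ≤ c * x := by
    rw [div_le_iff₀ hc] at h
    linarith
  have h2 : x ≤ x ^ 2 := by nlinarith
  have h4 : 0 ≤ x ^ 2 := by positivity
  have h5 : 1 * x ^ 2 ≤ c * x * x ^ 2 := mul_le_mul_of_nonneg_right h1 h4
  have h6 : c * x * x ^ 2 = c * x ^ 3 := by ring
  linarith

theorem params_a4 {x d : ℝ} (hd : 0 < d) (h3 : 3 ≤ x) (h : 1 / d ≤ x) :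
    1 ≤ d * (64 * x ^ 3) := by
  have h1 : 1 ≤ d * x := by
    rw [div_le_iff₀ hd] at h
    linarith
  have h2 : d * x ≤ d * x ^ 3 := mul_le_mul_of_nonneg_left (params_a2 h3).2.2 hd.le
  linarith

theorem params_a5 {x m k1 C u a : ℝ} (hx : 1 ≤ x) (hm : m = 4 + C + 3 * (64 * u) + 1 + k1 * (64 * u))
    (ha : a = m * x) (hC : 0 < C) (hu : 0 < u) (hk : 0 < k1) :
    4 ≤ a ∧ 3 * (64 * u * x) + 1 ≤ a ∧ C * x ≤ a ∧ k1 * (64 * u * x) + 1 ≤ a ∧ x ≤ a := by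
  have h0 : 0 < x := by linarith
  have h1 : 0 < C * x := by positivity
  have h2 : 0 < u * x := by positivity
  have h3 : 0 < k1 * (u * x) := by positivity
  have ha' : a = 4 * x + C * x + 192 * (u * x) + x + 64 * (k1 * (u * x)) := by
    rw [ha, hm]
    ring
  refine ⟨by linarith, by linarith, by linarith, ?_, by linarith⟩
  have : k1 * (64 * u * x) = 64 * (k1 * (u * x)) := by ring
  linarith

theorem params (k C0 A : ℕ) (hA : 2 ≤ A) {lam Cp CA c₀ CQ δ₁ : ℝ} (hlam : 0 < lam) (hCp : 0 < Cp) (hCA : 0 < CA)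
    (hc₀ : 0 < c₀) (hCQ : 1 ≤ CQ) (hδ₁ : 0 < δ₁) :
    ∃ (J κ₁ κ K s : ℕ) (ε δ : ℝ), 1 ≤ J ∧ 1 ≤ κ ∧ κ = k + κ₁ + 1 ∧ K = 2 * κ ∧ C0 * (2 * K) ≤ s ∧
      0 < ε ∧ ε ≤ 1 / 256 ∧ 0 < δ ∧ δ ≤ δ₁ ∧ δ ≤ 1 / 64 ∧ δ ≤ c₀ * ε / (A : ℝ) ^ J ∧
      δ * (8 * (s : ℝ) + 10) < 3 / 8 ∧ (1 : ℝ) / 64 < ε / (A : ℝ) ^ J * (κ₁ + 1) ∧
      Cp * lam * CA / J ≤ 1 / (64 * 14) ∧
      Xi K s κ (Cp * lam / δ) (CQ * (1 / 64) / δ) * (((k : ℝ) + 1) * (Cp * lam / δ) + 1) ≤ 1 / 16 ∧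
      4 * ((k : ℝ) + 1) * (Cp * lam / δ) * Real.exp (-(1 / 64 / ε)) ≤ 1 / 8 := by
  obtain ⟨J, hJ⟩ := exists_nat_ge (14 * 64 * (Cp * lam * CA) + 1)
  have hP : 0 < Cp * lam * CA := by positivity
  have hJ1 : 1 ≤ J := by
    have : (1 : ℝ) ≤ J := by linarith
    exact_mod_cast this
  set B : ℝ := (A : ℝ) ^ J with hB
  have hA0 : (0 : ℝ) < A := by
    have : (2 : ℝ) ≤ A := by exact_mod_cast hA
    linarith
  have hB0 : 0 < B := by positivity
  set M : ℝ := 4 + CQ + 3 * (64 * (Cp * lam)) + 1 + ((k : ℝ) + 1) * (64 * (Cp * lam)) with hMd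
  have hCl : 0 < Cp * lam := by positivity
  have hM4 : 4 ≤ M := by
    rw [hMd]
    have : 0 < ((k : ℝ) + 1) * (64 * (Cp * lam)) := by positivity
    linarith
  have ht : Tendsto (fun n : ℕ => ((k + n + 1 : ℕ) : ℝ)) atTop atTop := by
    refine tendsto_natCast_atTop_atTop.comp ?_
    refine tendsto_atTop_mono (fun n => ?_) tendsto_id
    simp only [id]
    omega
  have e1 := ht.eventually (params_aux M hM4)
  have e2 := ht.eventually (eventually_ge_atTop (4 * (C0 : ℝ) + 3 + 1 / c₀ + 1 / δ₁))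
  have e3 : ∀ᶠ n : ℕ in atTop, (8 * B : ℝ) ≤ n :=
    tendsto_natCast_atTop_atTop.eventually (eventually_ge_atTop _)
  have e4 : ∀ᶠ n : ℕ in atTop,
      4 * ((k : ℝ) + 1) * (64 * (Cp * lam)) * (((k + n + 1 : ℕ) : ℝ) ^ 3 *
        Real.exp (-(1 / (2 * B) * ((k + n + 1 : ℕ) : ℝ)))) * Real.exp (k / (2 * B)) ≤ 1 / 8 := by
    have h1 : Tendsto (fun x : ℝ => x ^ 3 * Real.exp (-(1 / (2 * B) * x))) atTop (𝓝 0) := by
      have h := (Real.tendsto_pow_mul_exp_neg_atTop_nhds_zero 3)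
      have h' : Tendsto (fun x : ℝ => 1 / (2 * B) * x) atTop atTop :=
        Tendsto.const_mul_atTop (by positivity) tendsto_id
      have h2 := (h.comp h').const_mul ((2 * B) ^ 3)
      simp only [mul_zero] at h2
      refine h2.congr (fun x => ?_)
      simp only [Function.comp]
      field_simp
    have h2 := ((h1.comp ht).const_mul (4 * ((k : ℝ) + 1) * (64 * (Cp * lam)))).mul_const
      (Real.exp (k / (2 * B)))
    simp only [mul_zero, zero_mul] at h2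
    exact (tendsto_order.1 h2).2 _ (by norm_num) |>.mono (fun n hn => le_of_lt hn)
  obtain ⟨n, hn1, hn2, hn3, hn4⟩ := (e1.and (e2.and (e3.and e4))).exists
  set κ : ℕ := k + n + 1 with hκ
  have hκ1 : 1 ≤ κ := by omega
  have hC0 : (0 : ℝ) ≤ C0 := Nat.cast_nonneg _
  have hc1 : 0 < 1 / c₀ := by positivity
  have hd1 : 0 < 1 / δ₁ := by positivity
  have hx3 : (3 : ℝ) ≤ κ := by linarith
  have hx0 : (0 : ℝ) < κ := by linarith
  have hxC : 4 * (C0 : ℝ) ≤ κ := by linarith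
  have hxc : 1 / c₀ ≤ κ := by linarith
  have hxd : 1 / δ₁ ≤ κ := by linarith
  have hn0 : (0 : ℝ) ≤ n := Nat.cast_nonneg _
  have hκn : (κ : ℝ) = k + n + 1 := by rw [hκ]; push_cast; ring
  have hk0 : (0 : ℝ) ≤ k := Nat.cast_nonneg _
  obtain ⟨hx2, hx33, hxx⟩ := params_a2 hx3
  have hδ : Cp * lam / (1 / (64 * (κ : ℝ) ^ 3)) = 64 * (Cp * lam) * (κ : ℝ) ^ 3 := by
    field_simp
  have hδ2 : CQ * (1 / 64) / (1 / (64 * (κ : ℝ) ^ 3)) = CQ * (κ : ℝ) ^ 3 := by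
    field_simp
  refine ⟨J, n, κ, 2 * κ, κ ^ 3, B / (32 * (n + 1)), 1 / (64 * (κ : ℝ) ^ 3), hJ1, hκ1, hκ, rfl,
    ?_, by positivity, ?_, by positivity, ?_, ?_, ?_, ?_, ?_, ?_, ?_, ?_⟩
  · have h : (4 * (C0 : ℝ)) * κ ≤ (κ : ℝ) ^ 3 := params_a1 hx3 hxC
    have h' : ((C0 * (2 * (2 * κ)) : ℕ) : ℝ) ≤ ((κ ^ 3 : ℕ) : ℝ) := by
      push_cast
      linarith
    exact_mod_cast h'
  · rw [div_le_div_iff₀ (by positivity) (by norm_num)]
    linarith
  · rw [div_le_iff₀ (by positivity)]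
    exact params_a4 hδ₁ hx3 hxd
  · exact one_div_le_one_div_of_le (by norm_num) (by linarith)
  · have hq : c₀ * (B / (32 * ((n : ℝ) + 1))) / B = c₀ / (32 * ((n : ℝ) + 1)) := by
      field_simp
    rw [hq, div_le_div_iff₀ (by positivity) (by positivity)]
    exact params_a3 hc₀ hx3 hxc (by linarith)
  · push_cast
    rw [div_mul_eq_mul_div, div_lt_div_iff₀ (by positivity) (by norm_num)]
    linarith
  · have hq : B / (32 * ((n : ℝ) + 1)) / B * ((n : ℝ) + 1) = 1 / 32 := by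
      field_simp
    rw [hq]
    norm_num
  · have hJ0 : (0 : ℝ) < J := by exact_mod_cast hJ1
    rw [div_le_div_iff₀ hJ0 (by norm_num)]
    linarith
  · rw [hδ, hδ2]
    unfold Xi
    set x : ℝ := (κ : ℝ) with hx
    set a : ℝ := M * x ^ 3 with ha
    obtain ⟨ha4, b1, b2, b3, b5⟩ := params_a5 hx33 hMd ha (by linarith : 0 < CQ) hCl
      (by positivity : 0 < (k : ℝ) + 1)
    have ha0 : 0 < a := by linarith
    have b4 : 2 * (2 * x + 1) ≤ a ^ 2 := by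
      have h1 : x ≤ a := hxx.trans b5
      have h2 : 4 * a ≤ a ^ 2 := by
        rw [pow_two]
        exact mul_le_mul_of_nonneg_right ha4 ha0.le
      have h3 : 9 ≤ a ^ 2 := by
        have : x ^ 2 ≤ a ^ 2 := pow_le_pow_left₀ hx0.le h1 2
        linarith
      have h4 : 3 ≤ a := hx3.trans h1
      by_cases h5 : 4 ≤ a
      · have : 4 * x + 2 ≤ a ^ 2 := by
          have h27 : 27 ≤ x ^ 3 := by
            calc (27 : ℝ) = 3 ^ 3 := by norm_num
              _ ≤ x ^ 3 := pow_le_pow_left₀ (by norm_num) hx3 3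
          have h28 : 27 ≤ a := h27.trans b5
          have h29 : 27 * a ≤ a ^ 2 := by
            rw [pow_two]
            exact mul_le_mul_of_nonneg_right h28 ha0.le
          linarith
        linarith
      · linarith
    have p1 : (4 : ℝ) ^ κ ≤ a ^ κ := pow_le_pow_left₀ (by norm_num) ha4 _
    have p2 : (3 * (64 * (Cp * lam) * x ^ 3) + 1) ^ (2 * κ) ≤ a ^ (2 * κ) :=
      pow_le_pow_left₀ (by positivity) b1 _
    have p3 : (CQ * x ^ 3) ^ (6 * (2 * κ)) ≤ a ^ (6 * (2 * κ)) :=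
      pow_le_pow_left₀ (by positivity) b2 _
    have hmain : (2 * 4 ^ κ * (2 * x + 1) * (3 * (64 * (Cp * lam) * x ^ 3) + 1) ^ (2 * κ)) *
        (CQ * x ^ 3) ^ (6 * (2 * κ)) * (((k : ℝ) + 1) * (64 * (Cp * lam) * x ^ 3) + 1) ≤
        a ^ (18 * κ) := by
      calc (2 * 4 ^ κ * (2 * x + 1) * (3 * (64 * (Cp * lam) * x ^ 3) + 1) ^ (2 * κ)) *
            (CQ * x ^ 3) ^ (6 * (2 * κ)) * (((k : ℝ) + 1) * (64 * (Cp * lam) * x ^ 3) + 1)
          = (2 * (2 * x + 1)) * 4 ^ κ * (3 * (64 * (Cp * lam) * x ^ 3) + 1) ^ (2 * κ) *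
            (CQ * x ^ 3) ^ (6 * (2 * κ)) * (((k : ℝ) + 1) * (64 * (Cp * lam) * x ^ 3) + 1) := by ring
        _ ≤ a ^ 2 * a ^ κ * a ^ (2 * κ) * a ^ (6 * (2 * κ)) * a := by gcongr
        _ = a ^ (2 + κ + 2 * κ + 6 * (2 * κ) + 1) := by
            rw [← pow_add, ← pow_add, ← pow_add, ← pow_succ]
        _ ≤ a ^ (18 * κ) := pow_le_pow_right₀ (by linarith) (by omega)
    have hexp : a ^ (18 * κ) ≤ Real.exp (x ^ 2) := by
      have h0 : a ^ (18 * κ) = Real.exp (((18 * κ : ℕ) : ℝ) * Real.log a) := by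
        rw [Real.exp_nat_mul, Real.exp_log ha0]
      rw [h0]
      apply Real.exp_le_exp.2
      push_cast
      rw [← hx]
      have h5 : x * (18 * Real.log a) ≤ x * x := mul_le_mul_of_nonneg_left hn1 hx0.le
      have h6 : x * x = x ^ 2 := by ring
      linarith
    have hhalf : (1 / 2 : ℝ) ^ (κ ^ 3) = Real.exp (-(Real.log 2 * x ^ 3)) := by
      rw [← Real.rpow_natCast, Real.rpow_def_of_pos (by norm_num)]
      push_cast
      rw [Real.log_div one_ne_zero two_ne_zero, Real.log_one]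
      congr 1
      rw [hx]
      ring
    have hl2 : 2 / 3 < Real.log 2 := by
      have := Real.log_two_gt_d9
      linarith
    calc (1 / 2 : ℝ) ^ κ ^ 3 * (2 * 4 ^ κ * (2 * x + 1) * (3 * (64 * (Cp * lam) * x ^ 3) + 1) ^ (2 * κ)) *
          (CQ * x ^ 3) ^ (6 * (2 * κ)) * (((k : ℝ) + 1) * (64 * (Cp * lam) * x ^ 3) + 1)
        = (1 / 2 : ℝ) ^ κ ^ 3 * ((2 * 4 ^ κ * (2 * x + 1) *
          (3 * (64 * (Cp * lam) * x ^ 3) + 1) ^ (2 * κ)) *
          (CQ * x ^ 3) ^ (6 * (2 * κ)) * (((k : ℝ) + 1) * (64 * (Cp * lam) * x ^ 3) + 1)) := by ring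
      _ ≤ (1 / 2 : ℝ) ^ κ ^ 3 * Real.exp (x ^ 2) := by
          gcongr
          exact hmain.trans hexp
      _ = Real.exp (-(Real.log 2 * x ^ 3) + x ^ 2) := by rw [hhalf, ← Real.exp_add]
      _ ≤ Real.exp (-9) := by
          apply Real.exp_le_exp.2
          have h3 : 2 * x ^ 2 ≤ Real.log 2 * x ^ 3 := by
            have : x ^ 3 = x * x ^ 2 := by ring
            rw [this, ← mul_assoc]
            apply mul_le_mul_of_nonneg_right _ (by positivity)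
            have h7 : Real.log 2 * 3 ≤ Real.log 2 * x := mul_le_mul_of_nonneg_left hx3 (by linarith)
            linarith
          linarith
      _ ≤ 1 / 16 := by
          rw [Real.exp_neg, inv_eq_one_div]
          apply one_div_le_one_div_of_le (by norm_num)
          have := Real.add_one_le_exp (9 : ℝ)
          have h2 := Real.add_one_le_exp (3 : ℝ)
          have h4 : Real.exp 9 = Real.exp 3 * Real.exp 3 * Real.exp 3 := by
            rw [← Real.exp_add, ← Real.exp_add]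
            norm_num
          rw [h4]
          have h5 : (4 : ℝ) * 4 ≤ Real.exp 3 * Real.exp 3 :=
            mul_le_mul (by linarith) (by linarith) (by norm_num) (by linarith)
          have h6 : (4 : ℝ) * 4 * 4 ≤ Real.exp 3 * Real.exp 3 * Real.exp 3 :=
            mul_le_mul h5 (by linarith) (by norm_num) (by linarith)
          linarith
  · rw [hδ]
    have hq : 1 / 64 / (B / (32 * ((n : ℝ) + 1))) = 1 / (2 * B) * κ - k / (2 * B) := by
      rw [hκn]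
      field_simp
      ring
    have hq2 : -(1 / (2 * B) * (κ : ℝ) - k / (2 * B)) = -(1 / (2 * B) * κ) + k / (2 * B) := by ring
    rw [hq, hq2, Real.exp_add]
    calc 4 * ((k : ℝ) + 1) * (64 * (Cp * lam) * (κ : ℝ) ^ 3) *
          (Real.exp (-(1 / (2 * B) * κ)) * Real.exp (k / (2 * B)))
        = 4 * ((k : ℝ) + 1) * (64 * (Cp * lam)) * ((κ : ℝ) ^ 3 *
          Real.exp (-(1 / (2 * B) * κ))) * Real.exp (k / (2 * B)) := by ring
      _ ≤ 1 / 8 := hn4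

end Pool.Agent.H81.AS
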