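import Pool.Agent.H81.AS.Fib

/-!
JOB AS-RESTR. Restriction of the sieve sum to `n` with `n + h0` free of primes of `P ∪ Q`.

PROOF. `Po = insert h0 (Po.erase h0)` (if `h0 ∈ Po`); `sum_split` with `A = Po.erase h0`, `B = {h0}` writes the sum over
`E₁ ⊆ (Po.erase h0) ×ˢ Q` and `E₂ ⊆ {h0} ×ˢ Q`, `E₂ = D.image (fun p => (h0,p))`, `D ⊆ Q`. For `p ∈ D`, `uu p (n+h0) = 1/(p-1)`, so
`gE (E₁ ∪ E₂) n = gE E₁ n * pf D`. Since no prime of `P` divides `n + h0`, `ro P U n` does not change when `h0` is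
inserted into or erased from `U`: so `ro P (Hb ∪ pos (E₁ ∪ E₂)) n = ro P (insert h0 Hb ∪ pos E₁) n =
ro P (Hb.erase h0 ∪ pos E₁) n` (note `h0 ∉ pos E₁`).
-/

set_option autoImplicit false

open Finset Filter Topology

namespace Pool.Agent.H81.AS

open Pool.Agent.H16

/-- the restricted coefficients -/
noncomputable def Cr (C : Finset (ℕ × ℕ) → ℝ) (Q : Finset ℕ) (h0 : ℕ) (E : Finset (ℕ × ℕ)) : ℝ :=
  ∑ D ∈ Q.powerset, C (E ∪ D.image (fun p => (h0, p))) * pf D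

theorem mk_inj (h0 : ℕ) : Function.Injective (fun p : ℕ => (h0, p)) := by
  intro a b h
  exact (Prod.mk.inj h).2

theorem sum_single (h0 : ℕ) (Q : Finset ℕ) (F : Finset (ℕ × ℕ) → ℝ) :
    ∑ E ∈ (({h0} : Finset ℕ) ×ˢ Q).powerset, F E =
      ∑ D ∈ Q.powerset, F (D.image (fun p => (h0, p))) := by
  have h1 : (({h0} : Finset ℕ) ×ˢ Q) = Q.image (fun p => (h0, p)) := by
    ext x
    simp only [mem_product, mem_singleton, mem_image]
    constructor
    · rintro ⟨h1, h2⟩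
      exact ⟨x.2, h2, by rw [← h1]⟩
    · rintro ⟨p, hp, rfl⟩
      exact ⟨rfl, hp⟩
  rw [h1, Finset.powerset_image, Finset.sum_image]
  intro a _ b _ h
  exact Finset.image_injective (mk_inj h0) h

/-- `ro` does not see a position without primes of `P` -/
theorem ro_congr {P U U' : Finset ℕ} {h0 n : ℕ} (hfree : ∀ p ∈ P, ¬ p ∣ n + h0)
    (hU : ∀ h, h ≠ h0 → (h ∈ U ↔ h ∈ U')) : ro P U n = ro P U' n := by
  unfold ro
  refine Finset.prod_congr rfl fun p hp => ?_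
  have h1 : (∃ h ∈ U, p ∣ n + h) ↔ ∃ h ∈ U', p ∣ n + h := by
    constructor
    · rintro ⟨h, hh, hd⟩
      have hne : h ≠ h0 := by
        rintro rfl
        exact hfree p hp hd
      exact ⟨h, (hU h hne).1 hh, hd⟩
    · rintro ⟨h, hh, hd⟩
      have hne : h ≠ h0 := by
        rintro rfl
        exact hfree p hp hd
      exact ⟨h, (hU h hne).2 hh, hd⟩
  unfold hit
  by_cases h2 : ∃ h ∈ U, p ∣ n + h
  · rw [if_pos h2, if_pos (h1.1 h2)]
  · rw [if_neg h2, if_neg (fun h3 => h2 (h1.2 h3))]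

theorem gE_split {Q Po : Finset ℕ} {h0 n : ℕ} (hfree : ∀ p ∈ Q, ¬ p ∣ n + h0)
    {E : Finset (ℕ × ℕ)} (hE : E ⊆ (Po.erase h0) ×ˢ Q) {D : Finset ℕ} (hD : D ⊆ Q) :
    gE (E ∪ D.image (fun p => (h0, p))) n = gE E n * pf D := by
  unfold gE pf
  have hdis : Disjoint E (D.image (fun p => (h0, p))) := by
    rw [Finset.disjoint_left]
    intro x hx hx2
    rw [mem_image] at hx2
    obtain ⟨p, _, rfl⟩ := hx2
    have := hE hx
    rw [mem_product] at this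
    exact (mem_erase.1 this.1).1 rfl
  rw [Finset.prod_union hdis, Finset.prod_image (fun a _ b _ h => mk_inj h0 h)]
  congr 1
  refine Finset.prod_congr rfl fun p hp => ?_
  change uu p (n + h0) = _
  unfold uu
  rw [if_neg (hfree p (hD hp))]

theorem psi_aux {P Q Po Hb Hb' : Finset ℕ} (C : Finset (ℕ × ℕ) → ℝ) {h0 n : ℕ} (h0P : h0 ∈ Po)
    (hfree : ∀ p ∈ P ∪ Q, ¬ p ∣ n + h0) (hH : ∀ h, h ≠ h0 → (h ∈ Hb ↔ h ∈ Hb')) :
    Psi P Q Po Hb C n = Psi P Q (Po.erase h0) Hb' (Cr C Q h0) n := by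
  have hPo : Po = Po.erase h0 ∪ {h0} := by
    ext h
    simp only [mem_union, mem_erase, mem_singleton]
    constructor
    · intro hh
      by_cases h1 : h = h0
      · exact Or.inr h1
      · exact Or.inl ⟨h1, hh⟩
    · rintro (h1 | h1)
      · exact h1.2
      · rw [h1]; exact h0P
  have hdis : Disjoint (Po.erase h0) ({h0} : Finset ℕ) := by
    rw [Finset.disjoint_singleton_right]
    exact Finset.notMem_erase h0 Po
  unfold Psi
  have h1 : ∑ E ∈ (Po ×ˢ Q).powerset, C E * (ro P (Hb ∪ pos E) n * gE E n) =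
      ∑ E₁ ∈ ((Po.erase h0) ×ˢ Q).powerset, ∑ E₂ ∈ (({h0} : Finset ℕ) ×ˢ Q).powerset,
        C (E₁ ∪ E₂) * (ro P (Hb ∪ pos (E₁ ∪ E₂)) n * gE (E₁ ∪ E₂) n) := by
    have := sum_split (Po.erase h0) {h0} Q hdis
      (fun E => C E * (ro P (Hb ∪ pos E) n * gE E n))
    rw [← hPo] at this
    exact this
  rw [h1]
  refine Finset.sum_congr rfl fun E hE => ?_
  rw [mem_powerset] at hE
  rw [sum_single h0 Q (fun E₂ => C (E ∪ E₂) * (ro P (Hb ∪ pos (E ∪ E₂)) n * gE (E ∪ E₂) n))]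
  unfold Cr
  rw [Finset.sum_mul]
  refine Finset.sum_congr rfl fun D hD => ?_
  rw [mem_powerset] at hD
  rw [gE_split (fun p hp => hfree p (mem_union_right _ hp)) hE hD]
  have h2 : ro P (Hb ∪ pos (E ∪ D.image (fun p => (h0, p)))) n = ro P (Hb' ∪ pos E) n := by
    apply ro_congr (h0 := h0) (fun p hp => hfree p (mem_union_left _ hp))
    intro h hne
    simp only [mem_union, pos, mem_image]
    constructor
    · rintro (h3 | ⟨x, hx | ⟨p, hp, rfl⟩, rfl⟩)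
      · exact Or.inl ((hH h hne).1 h3)
      · exact Or.inr ⟨x, hx, rfl⟩
      · exact absurd rfl hne
    · rintro (h3 | ⟨x, hx, rfl⟩)
      · exact Or.inl ((hH h hne).2 h3)
      · exact Or.inr ⟨x, Or.inl hx, rfl⟩
  rw [h2]
  ring

theorem psi_insert {P Q Po Hb : Finset ℕ} (C : Finset (ℕ × ℕ) → ℝ) {h0 n : ℕ} (h0P : h0 ∈ Po)
    (hfree : ∀ p ∈ P ∪ Q, ¬ p ∣ n + h0) :
    Psi P Q Po Hb C n = Psi P Q (Po.erase h0) (insert h0 Hb) (Cr C Q h0) n := by
  refine psi_aux C h0P hfree fun h hne => ?_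
  rw [mem_insert]
  exact ⟨Or.inr, fun h1 => h1.resolve_left hne⟩

theorem psi_erase {P Q Po Hb : Finset ℕ} (C : Finset (ℕ × ℕ) → ℝ) {h0 n : ℕ} (h0P : h0 ∈ Po)
    (hfree : ∀ p ∈ P ∪ Q, ¬ p ∣ n + h0) :
    Psi P Q Po Hb C n = Psi P Q (Po.erase h0) (Hb.erase h0) (Cr C Q h0) n := by
  refine psi_aux C h0P hfree fun h hne => ?_
  rw [mem_erase]
  exact ⟨fun h1 => ⟨hne, h1⟩, fun h1 => h1.2⟩

end Pool.Agent.H81.AS
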