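import Pool.Agent.H81.AS.Loc
import Pool.Agent.H81.AS.Fib

/-!
Sums over all pairs `E, E' ⊆ U ×ˢ Q` of products of local quantities (uses the statements of
Loc.lean and Fib.lean only).
-/

set_option autoImplicit false

open Finset Filter Topology

namespace Pool.Agent.H81.AS

open Pool.Agent.H16

/-! ### Auxiliary lemmas -/

lemma col_eq_empty {E : Finset (ℕ × ℕ)} {p : ℕ} (h : p ∉ prs E) : col E p = ∅ := by
  unfold col
  rw [Finset.image_eq_empty, Finset.filter_eq_empty_iff]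
  intro x hx hxp
  exact h (Finset.mem_image.mpr ⟨x, hx, hxp⟩)

lemma col_nonempty_of_mem {E : Finset (ℕ × ℕ)} {p : ℕ} (h : p ∈ prs E) : col E p ≠ ∅ := by
  obtain ⟨x, hx, hxp⟩ := Finset.mem_image.mp h
  have : x.1 ∈ col E p := Finset.mem_image.mpr ⟨x, Finset.mem_filter.mpr ⟨hx, hxp⟩, rfl⟩
  exact Finset.ne_empty_of_mem this

lemma prs_subset {A Q : Finset ℕ} {E : Finset (ℕ × ℕ)} (hE : E ⊆ A ×ˢ Q) : prs E ⊆ Q := by
  intro p hp
  obtain ⟨x, hx, rfl⟩ := Finset.mem_image.mp hp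
  exact (Finset.mem_product.mp (hE hx)).2

/-- telescoping bound for the difference of two products -/
lemma abs_prod_sub_prod_le {ι : Type*} (s : Finset ι) (e m : ι → ℝ) (hm : ∀ i ∈ s, 0 ≤ m i) :
    |∏ i ∈ s, e i - ∏ i ∈ s, m i| ≤ ∏ i ∈ s, (m i + |e i - m i|) - ∏ i ∈ s, m i := by
  classical
  induction s using Finset.induction_on with
  | empty => simp
  | insert a s ha ih =>
    rw [Finset.prod_insert ha, Finset.prod_insert ha, Finset.prod_insert ha]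
    have ih' := ih fun i hi => hm i (Finset.mem_insert_of_mem hi)
    have hma := hm a (Finset.mem_insert_self a s)
    set P := ∏ i ∈ s, (m i + |e i - m i|) with hP
    set M := ∏ i ∈ s, m i with hM
    set E := ∏ i ∈ s, e i with hE
    have hEP : |E| ≤ P := by
      rw [hE, Finset.abs_prod]
      refine Finset.prod_le_prod (fun i _ => abs_nonneg _) fun i hi => ?_
      have h1 := abs_add_le (m i) (e i - m i)
      rw [add_sub_cancel] at h1
      rwa [abs_of_nonneg (hm i (Finset.mem_insert_of_mem hi))] at h1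
    have h1 : e a * E - m a * M = (e a - m a) * E + m a * (E - M) := by ring
    rw [h1]
    refine (abs_add_le _ _).trans ?_
    rw [abs_mul, abs_mul, abs_of_nonneg hma]
    have h2 : |e a - m a| * |E| ≤ |e a - m a| * P := mul_le_mul_of_nonneg_left hEP (abs_nonneg _)
    have h3 : m a * |E - M| ≤ m a * (P - M) := mul_le_mul_of_nonneg_left ih' hma
    linarith

lemma aloc_nonneg {p : ℕ} (hp : p.Prime) {Z : Finset ℕ} (hZ : #Z ≤ 1) (A B : Finset ℕ) :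
    0 ≤ aloc Z p A B := by
  unfold aloc gd
  have h1 : (0 : ℝ) ≤ (p : ℝ) - #Z := by
    have h2 : (1 : ℝ) ≤ p := by exact_mod_cast hp.one_lt.le
    have h3 : ((#Z : ℕ) : ℝ) ≤ 1 := by exact_mod_cast hZ
    linarith
  refine mul_nonneg (Finset.sum_nonneg fun c _ => mul_nonneg (Finset.prod_nonneg fun _ _ => abs_nonneg _)
    (Finset.prod_nonneg fun _ _ => abs_nonneg _)) (by positivity)

/-- the model term -/
noncomputable def mloc (p : ℕ) (A B : Finset ℕ) : ℝ := if A = B then ∏ _h ∈ A, 1 / ((p : ℝ) - 1) else 0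

lemma mloc_nonneg {p : ℕ} (hp : p.Prime) (A B : Finset ℕ) : 0 ≤ mloc p A B := by
  unfold mloc
  split_ifs
  · refine Finset.prod_nonneg fun _ _ => ?_
    have h2 : (1 : ℝ) ≤ p := by exact_mod_cast hp.one_lt.le
    exact div_nonneg zero_le_one (by linarith)
  · exact le_rfl

lemma sum_mloc (p : ℕ) (U : Finset ℕ) :
    ∑ A ∈ U.powerset, ∑ B ∈ U.powerset, mloc p A B = (1 + 1 / ((p : ℝ) - 1)) ^ #U := by
  have h1 : ∀ A ∈ U.powerset, ∑ B ∈ U.powerset, mloc p A B = (1 / ((p : ℝ) - 1)) ^ #A := by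
    intro A hA
    unfold mloc
    rw [Finset.sum_ite_eq, if_pos hA, Finset.prod_const]
  rw [Finset.sum_congr rfl h1]
  have h2 := Finset.sum_pow_mul_eq_add_pow (1 / ((p : ℝ) - 1)) 1 U
  simp only [one_pow, mul_one] at h2
  rw [h2, add_comm]

lemma prod_mloc {U Q : Finset ℕ} {E E' : Finset (ℕ × ℕ)} (hE : E ⊆ U ×ˢ Q) (hE' : E' ⊆ U ×ˢ Q) :
    ∏ p ∈ Q, mloc p (col E p) (col E' p) = if E = E' then ph E else 0 := by
  split_ifs with h
  · subst h
    unfold ph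
    rw [prod_col (prs_subset hE) (fun _ p => 1 / ((p : ℝ) - 1))]
    refine Finset.prod_congr rfl fun p _ => ?_
    unfold mloc
    rw [if_pos rfl]
  · have h1 : ∃ p ∈ Q, col E p ≠ col E' p := by
      by_contra hcon
      push Not at hcon
      exact h (eq_of_col (prs_subset hE) (prs_subset hE') hcon)
    obtain ⟨p, hp, hne⟩ := h1
    refine Finset.prod_eq_zero hp ?_
    unfold mloc
    rw [if_neg hne]

section
variable {z : ℕ} {Q Z U : Finset ℕ} (hQ : ∀ q ∈ Q, q.Prime ∧ z < q) (hZ : #Z ≤ 1)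
  (hZz : ∀ h ∈ Z, h < z) (hUz : ∀ h ∈ U, h < z) (hdis : Disjoint Z U) {K : ℕ} (hK : 1 ≤ K) (hUK : #U ≤ K)
include hQ hZ hZz hUz hdis hUK

/-- the products over `prs E ∪ prs E'` may be extended to all of `Q` (empty columns give `1`) -/
theorem prod_eloc_ext {E E' : Finset (ℕ × ℕ)} (hE : E ⊆ U ×ˢ Q) (hE' : E' ⊆ U ×ˢ Q) :
    ∏ p ∈ prs E ∪ prs E', eloc Z p (col E p) (col E' p) = ∏ p ∈ Q, eloc Z p (col E p) (col E' p) := by
  refine Finset.prod_subset (Finset.union_subset (prs_subset hE) (prs_subset hE')) fun p hp hnp => ?_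
  rw [Finset.mem_union, not_or] at hnp
  rw [col_eq_empty hnp.1, col_eq_empty hnp.2]
  exact eloc_empty (hQ p hp).1 hZ fun h hh => (hZz h hh).trans (hQ p hp).2

theorem prod_aloc_ext {E E' : Finset (ℕ × ℕ)} (hE : E ⊆ U ×ˢ Q) (hE' : E' ⊆ U ×ˢ Q) :
    ∏ p ∈ prs E ∪ prs E', aloc Z p (col E p) (col E' p) = ∏ p ∈ Q, aloc Z p (col E p) (col E' p) := by
  refine Finset.prod_subset (Finset.union_subset (prs_subset hE) (prs_subset hE')) fun p hp hnp => ?_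
  rw [Finset.mem_union, not_or] at hnp
  rw [col_eq_empty hnp.1, col_eq_empty hnp.2]
  exact aloc_empty (hQ p hp).1 hZ fun h hh => (hZz h hh).trans (hQ p hp).2

/-- PROOF: `prod_aloc_ext`, `sum_col2` and `sum_aloc`. -/
theorem sum_abs_le :
    ∑ E ∈ (U ×ˢ Q).powerset, ∑ E' ∈ (U ×ˢ Q).powerset,
      ∏ p ∈ prs E ∪ prs E', aloc Z p (col E p) (col E' p) ≤
      ∏ p ∈ Q, (1 + 1 / ((p : ℝ) - 1)) ^ (6 * K) := by
  have h1 : ∑ E ∈ (U ×ˢ Q).powerset, ∑ E' ∈ (U ×ˢ Q).powerset,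
      ∏ p ∈ prs E ∪ prs E', aloc Z p (col E p) (col E' p) =
      ∑ E ∈ (U ×ˢ Q).powerset, ∑ E' ∈ (U ×ˢ Q).powerset,
        ∏ p ∈ Q, aloc Z p (col E p) (col E' p) :=
    Finset.sum_congr rfl fun E hE => Finset.sum_congr rfl fun E' hE' =>
      prod_aloc_ext hQ hZ hZz hUz hdis hUK (Finset.mem_powerset.mp hE) (Finset.mem_powerset.mp hE')
  rw [h1, sum_col2 U Q (fun p A B => aloc Z p A B)]
  refine Finset.prod_le_prod (fun p hp => Finset.sum_nonneg fun A _ => Finset.sum_nonneg fun B _ =>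
    aloc_nonneg (hQ p hp).1 hZ A B) fun p hp => ?_
  exact sum_aloc (hQ p hp).1 hZ (fun h hh => (hZz h hh).trans (hQ p hp).2)
    (fun h hh => (hUz h hh).trans (hQ p hp).2) hdis hUK

/-- PROOF: put `m_p(A,B) = if A = B then ∏_{h∈A} 1/(p-1) else 0`. Then `if E = E' then ph E else 0 = ∏_{p∈Q} m_p(col E p, col E' p)`.
`|∏ e_p - ∏ m_p| ≤ ∏ (m_p + |e_p - m_p|) - ∏ m_p` (`m_p ≥ 0`). Sum over `E, E'` with `sum_col2`:
`∏_p (∑ m_p + ∑ |e_p - m_p|) - ∏_p ∑ m_p` with `∑_{A,B} m_p = (1+1/(p-1))^{#U} =: M_p ≥ 1` and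
`∑_{A,B} |e_p - m_p| ≤ 4^K (K+2)/(p-1)^2 =: ε_p` (`eloc_model`), so it is at most
`∏ M_p (∏ (1+ε_p) - 1) ≤ ∏ (1+1/(p-1))^K (exp (∑ ε_p) - 1)`. -/
theorem sum_tiny_le :
    ∑ E ∈ (U ×ˢ Q).powerset, ∑ E' ∈ (U ×ˢ Q).powerset,
      |∏ p ∈ prs E ∪ prs E', eloc Z p (col E p) (col E' p) - (if E = E' then ph E else 0)| ≤
      (∏ p ∈ Q, (1 + 1 / ((p : ℝ) - 1)) ^ K) *
        (Real.exp (4 ^ K * ((K : ℝ) + 2) * ∑ p ∈ Q, 1 / ((p : ℝ) - 1) ^ 2) - 1) := by
  set ε : ℕ → ℝ := fun p => 4 ^ K * ((K : ℝ) + 2) * (1 / ((p : ℝ) - 1) ^ 2) with hε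
  have hε0 : ∀ p, 0 ≤ ε p := fun p => by
    simp only [hε]
    positivity
  -- termwise bound
  have h1 : ∀ E ∈ (U ×ˢ Q).powerset, ∀ E' ∈ (U ×ˢ Q).powerset,
      |∏ p ∈ prs E ∪ prs E', eloc Z p (col E p) (col E' p) - (if E = E' then ph E else 0)| ≤
      ∏ p ∈ Q, (mloc p (col E p) (col E' p) +
        |eloc Z p (col E p) (col E' p) - mloc p (col E p) (col E' p)|) -
      ∏ p ∈ Q, mloc p (col E p) (col E' p) := by
    intro E hE E' hE'
    rw [Finset.mem_powerset] at hE hE'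
    rw [prod_eloc_ext hQ hZ hZz hUz hdis hUK hE hE', ← prod_mloc hE hE']
    exact abs_prod_sub_prod_le Q _ _ fun p hp => mloc_nonneg (hQ p hp).1 _ _
  refine (Finset.sum_le_sum fun E hE => Finset.sum_le_sum fun E' hE' => h1 E hE E' hE').trans ?_
  simp_rw [Finset.sum_sub_distrib]
  rw [sum_col2 U Q (fun p A B => mloc p A B + |eloc Z p A B - mloc p A B|),
    sum_col2 U Q (fun p A B => mloc p A B)]
  -- local sums
  have h2 : ∀ p ∈ Q, ∑ A ∈ U.powerset, ∑ B ∈ U.powerset,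
      (mloc p A B + |eloc Z p A B - mloc p A B|) ≤ (1 + 1 / ((p : ℝ) - 1)) ^ #U + ε p := by
    intro p hp
    simp_rw [Finset.sum_add_distrib]
    rw [sum_mloc]
    refine add_le_add le_rfl ?_
    have h3 : ∀ A ∈ U.powerset, ∀ B ∈ U.powerset,
        |eloc Z p A B - mloc p A B| ≤ ((K : ℝ) + 2) / ((p : ℝ) - 1) ^ 2 := by
      intro A hA B hB
      exact eloc_model (hQ p hp).1 hZ (fun h hh => (hZz h hh).trans (hQ p hp).2)
        (fun h hh => (hUz h hh).trans (hQ p hp).2) hdis hUK (Finset.mem_powerset.mp hA)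
        (Finset.mem_powerset.mp hB)
    refine (Finset.sum_le_sum fun A hA => Finset.sum_le_sum fun B hB => h3 A hA B hB).trans ?_
    rw [Finset.sum_const, Finset.sum_const, Finset.card_powerset, smul_smul, nsmul_eq_mul]
    have h4 : ((2 ^ #U * 2 ^ #U : ℕ) : ℝ) ≤ 4 ^ K := by
      have h5 : (2 ^ #U * 2 ^ #U : ℕ) = 4 ^ #U := by
        rw [← mul_pow]
        norm_num
      rw [h5]
      push_cast
      exact pow_le_pow_right₀ (by norm_num) hUK
    have h6 : (0 : ℝ) ≤ ((K : ℝ) + 2) / ((p : ℝ) - 1) ^ 2 := by positivity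
    refine (mul_le_mul_of_nonneg_right h4 h6).trans (le_of_eq ?_)
    simp only [hε]
    ring
  have hp1 : ∀ p ∈ Q, (0 : ℝ) ≤ 1 / ((p : ℝ) - 1) := fun p hp => by
    have h7 : (1 : ℝ) ≤ p := by exact_mod_cast (hQ p hp).1.one_lt.le
    exact div_nonneg zero_le_one (by linarith)
  have hM1 : ∀ p ∈ Q, (1 : ℝ) ≤ (1 + 1 / ((p : ℝ) - 1)) ^ #U := fun p hp =>
    one_le_pow₀ (by linarith [hp1 p hp])
  have h8 : ∏ p ∈ Q, ∑ A ∈ U.powerset, ∑ B ∈ U.powerset,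
      (mloc p A B + |eloc Z p A B - mloc p A B|) ≤
      (∏ p ∈ Q, (1 + 1 / ((p : ℝ) - 1)) ^ #U) * ∏ p ∈ Q, (1 + ε p) := by
    rw [← Finset.prod_mul_distrib]
    refine Finset.prod_le_prod (fun p hp => Finset.sum_nonneg fun A _ => Finset.sum_nonneg fun B _ =>
      add_nonneg (mloc_nonneg (hQ p hp).1 A B) (abs_nonneg _)) fun p hp => (h2 p hp).trans ?_
    have := mul_le_mul_of_nonneg_right (hM1 p hp) (hε0 p)
    linarith
  have h9 : ∏ p ∈ Q, (1 + ε p) ≤ Real.exp (4 ^ K * ((K : ℝ) + 2) * ∑ p ∈ Q, 1 / ((p : ℝ) - 1) ^ 2) := by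
    rw [Finset.mul_sum, Real.exp_sum]
    refine Finset.prod_le_prod (fun p _ => by linarith [hε0 p]) fun p _ => ?_
    have := Real.add_one_le_exp (ε p)
    simp only [hε] at this ⊢
    linarith
  have h10 : (1 : ℝ) ≤ ∏ p ∈ Q, (1 + 1 / ((p : ℝ) - 1)) ^ #U := by
    calc (1 : ℝ) = ∏ p ∈ Q, (1 : ℝ) := by rw [Finset.prod_const_one]
      _ ≤ _ := Finset.prod_le_prod (fun _ _ => zero_le_one) hM1
  have h11 : ∏ p ∈ Q, (1 + 1 / ((p : ℝ) - 1)) ^ #U ≤ ∏ p ∈ Q, (1 + 1 / ((p : ℝ) - 1)) ^ K :=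
    Finset.prod_le_prod (fun p hp => by linarith [hM1 p hp]) fun p hp =>
      pow_le_pow_right₀ (by linarith [hp1 p hp]) hUK
  have h12 : (0 : ℝ) ≤ Real.exp (4 ^ K * ((K : ℝ) + 2) * ∑ p ∈ Q, 1 / ((p : ℝ) - 1) ^ 2) - 1 := by
    have : (0 : ℝ) ≤ 4 ^ K * ((K : ℝ) + 2) * ∑ p ∈ Q, 1 / ((p : ℝ) - 1) ^ 2 :=
      mul_nonneg (by positivity) (Finset.sum_nonneg fun _ _ => by positivity)
    linarith [Real.one_le_exp this]
  have h13 : ∏ p ∈ Q, ∑ A ∈ U.powerset, ∑ B ∈ U.powerset, mloc p A B =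
      ∏ p ∈ Q, (1 + 1 / ((p : ℝ) - 1)) ^ #U := Finset.prod_congr rfl fun p _ => sum_mloc p U
  rw [h13]
  calc _ ≤ (∏ p ∈ Q, (1 + 1 / ((p : ℝ) - 1)) ^ #U) *
        Real.exp (4 ^ K * ((K : ℝ) + 2) * ∑ p ∈ Q, 1 / ((p : ℝ) - 1) ^ 2) -
        ∏ p ∈ Q, (1 + 1 / ((p : ℝ) - 1)) ^ #U := by
        have := mul_le_mul_of_nonneg_left h9 (zero_le_one.trans h10)
        linarith
    _ = (∏ p ∈ Q, (1 + 1 / ((p : ℝ) - 1)) ^ #U) *
        (Real.exp (4 ^ K * ((K : ℝ) + 2) * ∑ p ∈ Q, 1 / ((p : ℝ) - 1) ^ 2) - 1) := by ring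
    _ ≤ _ := mul_le_mul_of_nonneg_right h11 h12

include hK

/-- PROOF: group by `Q' = prs E ∪ prs E'`. For fixed `Q' ⊆ Q` the sum over the pairs with
`prs E ∪ prs E' = Q'` of `∏_{p∈Q'} (p - #Z) aloc` is at most
`∏_{p ∈ Q'} ∑_{(A,B) ≠ (∅,∅)} (p - #Z) aloc Z p A B ≤ (24K)^{#Q'}` (`sum_aloc_rem`; every `p ∈ Q'` has
`(col E p, col E' p) ≠ (∅,∅)`; inject pairs into `∏_{p∈Q'}`), and `∏ Q' ∣ nn E * nn E'` gives `∏ Q' ≤ T^2`. -/
theorem sum_rem_le (hKz : 12 * K + 2 ≤ z) {T : ℝ} (hT : 0 ≤ T) (R : Finset ℕ → ℝ)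
    (hR : ∀ Q' ⊆ Q, 0 ≤ R Q') :
    ∑ E ∈ (U ×ˢ Q).powerset.filter (fun E => (nn E : ℝ) ≤ T),
      ∑ E' ∈ (U ×ˢ Q).powerset.filter (fun E' => (nn E' : ℝ) ≤ T),
        (∏ p ∈ prs E ∪ prs E', (((p : ℝ) - #Z) * aloc Z p (col E p) (col E' p))) * R (prs E ∪ prs E') ≤
      ∑ Q' ∈ Q.powerset.filter (fun Q' => ((∏ p ∈ Q', p : ℕ) : ℝ) ≤ T ^ 2), (24 * (K : ℝ)) ^ #Q' * R Q' := by
  set S := (U ×ˢ Q).powerset.filter (fun E => (nn E : ℝ) ≤ T) with hS
  set w : ℕ → Finset ℕ → Finset ℕ → ℝ := fun p A B => ((p : ℝ) - #Z) * aloc Z p A B with hw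
  have hw0 : ∀ p ∈ Q, ∀ A B, 0 ≤ w p A B := by
    intro p hp A B
    refine mul_nonneg ?_ (aloc_nonneg (hQ p hp).1 hZ A B)
    have h2 : (1 : ℝ) ≤ p := by exact_mod_cast (hQ p hp).1.one_lt.le
    have h3 : ((#Z : ℕ) : ℝ) ≤ 1 := by exact_mod_cast hZ
    linarith
  have hprodle : ∀ E ∈ S, ((∏ p ∈ prs E, p : ℕ) : ℝ) ≤ T := by
    intro E hE
    rw [hS, Finset.mem_filter] at hE
    refine le_trans ?_ hE.2
    norm_cast
    unfold nn
    rw [prod_col (M := ℕ) (Finset.Subset.refl (prs E)) (fun _ p => p)]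
    refine Finset.prod_le_prod' fun p hp => ?_
    rw [Finset.prod_const]
    have h1 : 1 ≤ #(col E p) := Finset.card_pos.mpr (Finset.nonempty_iff_ne_empty.mpr (col_nonempty_of_mem hp))
    have h2 : 0 < p := (hQ p (prs_subset (Finset.mem_powerset.mp hE.1) hp)).1.pos
    calc p = p ^ 1 := (pow_one p).symm
      _ ≤ p ^ #(col E p) := Nat.pow_le_pow_right h2 h1
  rw [← Finset.sum_product']
  have hmaps : ∀ x ∈ S ×ˢ S, prs x.1 ∪ prs x.2 ∈
      Q.powerset.filter (fun Q' => ((∏ p ∈ Q', p : ℕ) : ℝ) ≤ T ^ 2) := by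
    intro x hx
    rw [Finset.mem_product] at hx
    have hx1 := hx.1
    have hx2 := hx.2
    rw [hS, Finset.mem_filter, Finset.mem_powerset] at hx1 hx2
    rw [Finset.mem_filter, Finset.mem_powerset]
    refine ⟨Finset.union_subset (prs_subset hx1.1) (prs_subset hx2.1), ?_⟩
    have h1 : (∏ p ∈ prs x.1 ∪ prs x.2, p) ≤ (∏ p ∈ prs x.1, p) * ∏ p ∈ prs x.2, p := by
      rw [← Finset.prod_union_inter]
      refine Nat.le_mul_of_pos_right _ (Finset.prod_pos fun p hp => ?_)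
      exact (hQ p (prs_subset hx1.1 (Finset.mem_inter.mp hp).1)).1.pos
    calc ((∏ p ∈ prs x.1 ∪ prs x.2, p : ℕ) : ℝ) ≤
        (((∏ p ∈ prs x.1, p) * ∏ p ∈ prs x.2, p : ℕ) : ℝ) := by exact_mod_cast h1
      _ = ((∏ p ∈ prs x.1, p : ℕ) : ℝ) * ((∏ p ∈ prs x.2, p : ℕ) : ℝ) := by push_cast; rfl
      _ ≤ T * T := mul_le_mul (hprodle _ hx.1) (hprodle _ hx.2) (Nat.cast_nonneg _) hT
      _ = T ^ 2 := (sq T).symm
  rw [← Finset.sum_fiberwise_of_maps_to hmaps]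
  refine Finset.sum_le_sum fun Q' hQ' => ?_
  rw [Finset.mem_filter, Finset.mem_powerset] at hQ'
  have hQQ := hQ'.1
  -- the sum over one fibre
  set w' : ℕ → Finset ℕ → Finset ℕ → ℝ := fun p A B => if A = ∅ ∧ B = ∅ then 0 else w p A B with hw'
  have hw'0 : ∀ p ∈ Q, ∀ A B, 0 ≤ w' p A B := by
    intro p hp A B
    simp only [hw']
    split_ifs
    · exact le_rfl
    · exact hw0 p hp A B
  have h1 : ∑ x ∈ (S ×ˢ S).filter (fun x => prs x.1 ∪ prs x.2 = Q'),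
      (∏ p ∈ prs x.1 ∪ prs x.2, (((p : ℝ) - #Z) * aloc Z p (col x.1 p) (col x.2 p))) *
        R (prs x.1 ∪ prs x.2) =
      (∑ x ∈ (S ×ˢ S).filter (fun x => prs x.1 ∪ prs x.2 = Q'),
        ∏ p ∈ Q', w' p (col x.1 p) (col x.2 p)) * R Q' := by
    rw [Finset.sum_mul]
    refine Finset.sum_congr rfl fun x hx => ?_
    rw [Finset.mem_filter] at hx
    rw [hx.2]
    congr 1
    refine Finset.prod_congr rfl fun p hp => ?_
    simp only [hw']
    rw [if_neg]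
    rintro ⟨ha, hb⟩
    rw [← hx.2, Finset.mem_union] at hp
    rcases hp with hp | hp
    · exact col_nonempty_of_mem hp ha
    · exact col_nonempty_of_mem hp hb
  rw [h1]
  refine mul_le_mul_of_nonneg_right ?_ (hR Q' hQQ)
  have h2 : ∑ x ∈ (S ×ˢ S).filter (fun x => prs x.1 ∪ prs x.2 = Q'),
        ∏ p ∈ Q', w' p (col x.1 p) (col x.2 p) ≤
      ∑ x ∈ (U ×ˢ Q').powerset ×ˢ (U ×ˢ Q').powerset, ∏ p ∈ Q', w' p (col x.1 p) (col x.2 p) := by
    refine Finset.sum_le_sum_of_subset_of_nonneg ?_ fun x _ _ =>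
      Finset.prod_nonneg fun p hp => hw'0 p (hQQ hp) _ _
    intro x hx
    rw [Finset.mem_filter, Finset.mem_product] at hx
    obtain ⟨⟨hx1, hx2⟩, hx3⟩ := hx
    rw [hS, Finset.mem_filter, Finset.mem_powerset] at hx1 hx2
    rw [Finset.mem_product, Finset.mem_powerset, Finset.mem_powerset]
    constructor
    · intro y hy
      rw [Finset.mem_product]
      refine ⟨(Finset.mem_product.mp (hx1.1 hy)).1, ?_⟩
      rw [← hx3]
      exact Finset.mem_union_left _ (Finset.mem_image_of_mem _ hy)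
    · intro y hy
      rw [Finset.mem_product]
      refine ⟨(Finset.mem_product.mp (hx2.1 hy)).1, ?_⟩
      rw [← hx3]
      exact Finset.mem_union_right _ (Finset.mem_image_of_mem _ hy)
  refine h2.trans ?_
  rw [Finset.sum_product' (f := fun E E' => ∏ p ∈ Q', w' p (col E p) (col E' p)), sum_col2 U Q' w']
  calc ∏ p ∈ Q', ∑ B ∈ U.powerset, ∑ B' ∈ U.powerset, w' p B B' ≤ ∏ p ∈ Q', (24 * (K : ℝ)) := by
        refine Finset.prod_le_prod (fun p hp => Finset.sum_nonneg fun A _ => Finset.sum_nonneg fun B _ =>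
          hw'0 p (hQQ hp) A B) fun p hp => ?_
        have hpQ := hQQ hp
        rw [← Finset.sum_product']
        have h3 : ∑ x ∈ U.powerset ×ˢ U.powerset, w' p x.1 x.2 =
            ∑ x ∈ (U.powerset ×ˢ U.powerset).erase (∅, ∅), ((p : ℝ) - #Z) * aloc Z p x.1 x.2 := by
          have hmem : ((∅, ∅) : Finset ℕ × Finset ℕ) ∈ U.powerset ×ˢ U.powerset := by simp
          rw [← Finset.add_sum_erase _ _ hmem]
          have h4 : w' p ((∅, ∅) : Finset ℕ × Finset ℕ).1 ((∅, ∅) : Finset ℕ × Finset ℕ).2 = 0 := by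
            simp [hw']
          rw [h4, zero_add]
          refine Finset.sum_congr rfl fun x hx => ?_
          rw [Finset.mem_erase] at hx
          simp only [hw']
          rw [if_neg]
          rintro ⟨ha, hb⟩
          exact hx.1 (Prod.ext ha hb)
        rw [h3]
        exact sum_aloc_rem (hQ p hpQ).1 hZ (fun h hh => (hZz h hh).trans (hQ p hpQ).2)
          (fun h hh => (hUz h hh).trans (hQ p hpQ).2) hdis hUK hK (hKz.trans (hQ p hpQ).2.le)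
    _ = (24 * (K : ℝ)) ^ #Q' := by rw [Finset.prod_const]

end

end Pool.Agent.H81.AS
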