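import Pool.Agent.H81.AS.Pair
import Pool.Agent.H81.AS.SumAbs

/-!
JOB AS-TPSUM. The transfer principle (abstract form): the sum of `a n Psi(n)^2` is the diagonal quadratic
form up to explicit errors. Uses the statements of Pair.lean and SumAbs.lean.

PROOF. Expand the square. `ro P U n * ro P U' n = ro P (U ∪ U') n` (each factor is `0` or `1`,
`(1 - hit U)(1 - hit U') = 1 - hit (U ∪ U')`). For a pair `(E,E')` with `C E ≠ 0`, `C E' ≠ 0` put
`U = Hb ∪ pos E ∪ pos E'`, so `#U ≤ 2κ ≤ K`, `E, E' ⊆ U ×ˢ Q`, and `∏ (prs E ∪ prs E') ≤ nn E * nn E' ≤ T^2`.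
`pair_bound` gives
`|∑ a ro gg - X VV(U) [E=E'] ph E| ≤ X VV(U) |∏ eloc - [E=E'] ph E| + 2^{-s} X VV(U) ∏ aloc + (1+2 log z) (..)`.
(On the diagonal `U = Hb ∪ pos E`.) Multiply by `|C E C E'| ≤ Mc^2`, sum over all pairs, group by
`(H, H') = (pos E, pos E') ∈ HH κ × HH κ` and bound for each `(H,H')` the sums over `E, E'` by
the sums over all `E, E' ⊆ (Hb ∪ H ∪ H') ×ˢ Q` (`sum_abs_le`, `sum_tiny_le`, `sum_rem_le` with
`R Q' = ∑_D K^{#D} M (D ∪ Q')`). `VV ≥ 0` because `#(Rs Z U p) ≤ p - #Z = #(al Z p)`.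
-/

set_option autoImplicit false

open Finset Filter Topology

namespace Pool.Agent.H81.AS

open Pool.Agent.H16

/-- the possible position sets -/
def HH (Po Hb : Finset ℕ) (κ : ℕ) : Finset (Finset ℕ) := Po.powerset.filter (fun H => #(Hb ∪ H) ≤ κ)

/-- at most `p - #Z` residues avoid the positions of `Z` -/
theorem card_al_le {Z : Finset ℕ} (hZ : #Z ≤ 1) {p : ℕ} (hp : 0 < p) :
    (#(al Z p) : ℝ) ≤ (p : ℝ) - #Z := by
  rcases Nat.eq_zero_or_pos (#Z) with h0 | h1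
  · rw [h0]
    simp only [Nat.cast_zero, sub_zero, Nat.cast_le]
    exact (card_filter_le _ _).trans (by simp)
  · have hc : #Z = 1 := le_antisymm hZ h1
    obtain ⟨h, rfl⟩ := Finset.card_eq_one.1 hc
    have hc0 : (p - h % p) % p < p := Nat.mod_lt _ hp
    have hsub : al {h} p ⊆ (range p).erase ((p - h % p) % p) := by
      intro c hcm
      rw [al, mem_filter] at hcm
      refine mem_erase.2 ⟨?_, hcm.1⟩
      rintro rfl
      refine hcm.2 h (mem_singleton_self h) ?_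
      have hh : h % p < p := Nat.mod_lt _ hp
      have h2 : ((p - h % p) % p + h) % p = 0 := by
        rw [Nat.mod_add_mod, ← Nat.add_mod_mod, Nat.sub_add_cancel hh.le, Nat.mod_self]
      exact Nat.dvd_of_mod_eq_zero h2
    have hcard := card_le_card hsub
    rw [card_erase_of_mem (mem_range.2 hc0), card_range] at hcard
    rw [hc]
    have : (#(al {h} p) : ℝ) ≤ ((p - 1 : ℕ) : ℝ) := by exact_mod_cast hcard
    rwa [Nat.cast_sub hp] at this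

theorem VV_nonneg {P Z U : Finset ℕ} (hZ : #Z ≤ 1) (hP : ∀ p ∈ P, 2 ≤ p) : 0 ≤ VV P Z U := by
  refine prod_nonneg fun p hp => ?_
  have h2 : 2 ≤ p := hP p hp
  have h2' : (2 : ℝ) ≤ p := by exact_mod_cast h2
  have hZ' : (#Z : ℝ) ≤ 1 := by exact_mod_cast hZ
  have h1 : (#(Rs Z U p) : ℝ) ≤ (p : ℝ) - #Z := by
    refine le_trans ?_ (card_al_le hZ (by omega))
    exact_mod_cast card_filter_le _ _
  rw [sub_nonneg, gd, mul_one_div, div_le_one (by linarith)]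
  exact h1

theorem hit_union (U U' : Finset ℕ) (n p : ℕ) :
    (1 - hit U n p) * (1 - hit U' n p) = 1 - hit (U ∪ U') n p := by
  have hiff : (∃ h ∈ U ∪ U', p ∣ n + h) ↔ (∃ h ∈ U, p ∣ n + h) ∨ (∃ h ∈ U', p ∣ n + h) := by
    constructor
    · rintro ⟨h, hh, hd⟩
      rcases mem_union.1 hh with h' | h'
      · exact Or.inl ⟨h, h', hd⟩
      · exact Or.inr ⟨h, h', hd⟩
    · rintro (⟨h, hh, hd⟩ | ⟨h, hh, hd⟩)
      · exact ⟨h, mem_union_left _ hh, hd⟩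
      · exact ⟨h, mem_union_right _ hh, hd⟩
  unfold hit
  by_cases h1 : ∃ h ∈ U, p ∣ n + h
  · rw [if_pos h1, if_pos (hiff.2 (Or.inl h1))]
    ring
  · by_cases h2 : ∃ h ∈ U', p ∣ n + h
    · rw [if_pos h2, if_pos (hiff.2 (Or.inr h2))]
      ring
    · rw [if_neg h1, if_neg h2, if_neg (fun h => (hiff.1 h).elim h1 h2)]
      ring

theorem ro_mul (P U U' : Finset ℕ) (n : ℕ) : ro P U n * ro P U' n = ro P (U ∪ U') n := by
  rw [ro, ro, ro, ← prod_mul_distrib]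
  exact prod_congr rfl fun p _ => hit_union U U' n p

theorem psi_sq (P Q Po Hb : Finset ℕ) (C : Finset (ℕ × ℕ) → ℝ) (n : ℕ) :
    Psi P Q Po Hb C n ^ 2 = ∑ E ∈ (Po ×ˢ Q).powerset, ∑ E' ∈ (Po ×ˢ Q).powerset,
      C E * C E' * (ro P (Hb ∪ pos E ∪ pos E') n * (gE E n * gE E' n)) := by
  rw [Psi, pow_two, Finset.sum_mul_sum]
  refine sum_congr rfl fun E _ => sum_congr rfl fun E' _ => ?_
  have h1 := ro_mul P (Hb ∪ pos E) (Hb ∪ pos E') n
  have h2 : (Hb ∪ pos E) ∪ (Hb ∪ pos E') = Hb ∪ pos E ∪ pos E' := by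
    ext x
    simp only [mem_union]
    tauto
  rw [h2] at h1
  rw [← h1]
  ring

/-- expansion of the quadratic form minus its diagonal -/
theorem expand (P Q Z Po Hb S : Finset ℕ) (a : ℕ → ℝ) (X : ℝ) (C : Finset (ℕ × ℕ) → ℝ) :
    ∑ n ∈ S, a n * Psi P Q Po Hb C n ^ 2 -
        X * ∑ E ∈ (Po ×ˢ Q).powerset, C E ^ 2 * (VV P Z (Hb ∪ pos E) * ph E) =
      ∑ E ∈ (Po ×ˢ Q).powerset, ∑ E' ∈ (Po ×ˢ Q).powerset, C E * C E' *
        (∑ n ∈ S, a n * (ro P (Hb ∪ pos E ∪ pos E') n * (gE E n * gE E' n)) -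
          X * VV P Z (Hb ∪ pos E ∪ pos E') * (if E = E' then ph E else 0)) := by
  simp only [mul_sub, sum_sub_distrib]
  congr 1
  · simp only [psi_sq, mul_sum]
    rw [sum_comm]
    refine sum_congr rfl fun E _ => ?_
    rw [sum_comm]
    refine sum_congr rfl fun E' _ => sum_congr rfl fun n _ => ?_
    ring
  · rw [mul_sum]
    refine sum_congr rfl fun E hE => ?_
    rw [sum_eq_single E]
    · have h2 : Hb ∪ pos E ∪ pos E = Hb ∪ pos E := by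
        ext x
        simp only [mem_union]
        tauto
      rw [if_pos rfl, h2]
      ring
    · intro E' _ hne
      rw [if_neg (Ne.symm hne)]
      ring
    · intro h
      exact absurd hE h

theorem prod_image_le (E : Finset (ℕ × ℕ)) (h1 : ∀ x ∈ E, 1 ≤ x.2) : ∏ p ∈ prs E, p ≤ nn E := by
  rw [nn, prs]
  rw [Finset.prod_comp (fun p => p) Prod.snd]
  refine prod_le_prod' fun p hp => ?_
  obtain ⟨x, hx, rfl⟩ := mem_image.1 hp
  have hc : 1 ≤ #{y ∈ E | y.2 = x.2} := card_pos.2 ⟨x, mem_filter.2 ⟨hx, rfl⟩⟩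
  calc x.2 = x.2 ^ 1 := (pow_one _).symm
    _ ≤ x.2 ^ #{y ∈ E | y.2 = x.2} := Nat.pow_le_pow_right (h1 x hx) hc

theorem prod_union_le (E E' : Finset (ℕ × ℕ)) (h1 : ∀ x ∈ E, 1 ≤ x.2) (h1' : ∀ x ∈ E', 1 ≤ x.2) :
    ∏ p ∈ prs E ∪ prs E', p ≤ nn E * nn E' := by
  have h2 : ∏ p ∈ prs E ∪ prs E', p ≤ (∏ p ∈ prs E, p) * ∏ p ∈ prs E', p := by
    rw [← Finset.prod_union_inter]
    refine Nat.le_mul_of_pos_right _ (prod_pos fun p hp => ?_)
    obtain ⟨x, hx, rfl⟩ := mem_image.1 (mem_inter.1 hp).1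
    exact h1 x hx
  exact h2.trans (Nat.mul_le_mul (prod_image_le E h1) (prod_image_le E' h1'))

theorem double_sum_le {ι : Type*} {A A' B B' : Finset ι} (hA : A ⊆ A') (hB : B ⊆ B')
    {f : ι → ι → ℝ} (hf : ∀ x ∈ A', ∀ y ∈ B', 0 ≤ f x y) :
    ∑ x ∈ A, ∑ y ∈ B, f x y ≤ ∑ x ∈ A', ∑ y ∈ B', f x y := by
  calc ∑ x ∈ A, ∑ y ∈ B, f x y ≤ ∑ x ∈ A, ∑ y ∈ B', f x y :=
        sum_le_sum fun x hx => sum_le_sum_of_subset_of_nonneg hB fun y hy _ => hf x (hA hx) y hy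
    _ ≤ ∑ x ∈ A', ∑ y ∈ B', f x y :=
        sum_le_sum_of_subset_of_nonneg hA fun x hx _ => sum_nonneg fun y hy => hf x hx y hy

theorem tps_aloc_nonneg {Z : Finset ℕ} {p : ℕ} (h : (#Z : ℝ) ≤ p) (A B : Finset ℕ) :
    0 ≤ aloc Z p A B := by
  rw [aloc]
  refine mul_nonneg (sum_nonneg fun c _ => mul_nonneg (prod_nonneg fun _ _ => abs_nonneg _)
    (prod_nonneg fun _ _ => abs_nonneg _)) ?_
  rw [gd]
  exact one_div_nonneg.2 (by linarith)

theorem tps_prs_subset {U Q : Finset ℕ} {E : Finset (ℕ × ℕ)} (hE : E ⊆ U ×ˢ Q) : prs E ⊆ Q := by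
  intro p hp
  obtain ⟨x, hx, rfl⟩ := mem_image.1 hp
  exact (mem_product.1 (hE hx)).2

theorem pos_subset {U Q : Finset ℕ} {E : Finset (ℕ × ℕ)} (hE : E ⊆ U ×ˢ Q) : pos E ⊆ U := by
  intro p hp
  obtain ⟨x, hx, rfl⟩ := mem_image.1 hp
  exact (mem_product.1 (hE hx)).1

theorem tp_sum {K s κ : ℕ} (hK : 1 ≤ K) (hκ : 2 * κ ≤ K) (hFL : FLP (2 * K) s) {w z : ℕ}
    (hw : 100 ≤ Real.log w)
    (hKw : 4 * (K : ℝ) ≤ w) (hwz : w ≤ z) (hKz : 12 * K + 2 ≤ z) {P Q Z Po Hb S : Finset ℕ}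
    (hP : P ⊆ primesIoc w z)
    (hQ : ∀ q ∈ Q, q.Prime ∧ z < q) (hZ : #Z ≤ 1) (hZz : ∀ h ∈ Z, h < z) (hPoz : ∀ h ∈ Po, h < z)
    (hHbz : ∀ h ∈ Hb, h < z) (hdis : Disjoint Z (Hb ∪ Po)) {a : ℕ → ℝ} {X Lv : ℝ} {M : Finset ℕ → ℝ}
    (hD : Dist P Q Z S a X Lv M) (C : Finset (ℕ × ℕ) → ℝ) {Mc T : ℝ} (hT : 0 ≤ T)
    (hMc : 0 ≤ Mc) (hC : ∀ E ∈ (Po ×ˢ Q).powerset, |C E| ≤ Mc)
    (hC2 : ∀ E ∈ (Po ×ˢ Q).powerset, C E ≠ 0 → #(Hb ∪ pos E) ≤ κ ∧ (nn E : ℝ) ≤ T)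
    (hlev : (z : ℝ) ^ (4 * s + 5) * T ^ 2 ≤ Lv) :
    |∑ n ∈ S, a n * Psi P Q Po Hb C n ^ 2 -
        X * ∑ E ∈ (Po ×ˢ Q).powerset, C E ^ 2 * (VV P Z (Hb ∪ pos E) * ph E)| ≤
      Mc ^ 2 * (X * (∑ H ∈ HH Po Hb κ, ∑ H' ∈ HH Po Hb κ, VV P Z (Hb ∪ H ∪ H')) *
          ((1 / 2 : ℝ) ^ s * ∏ p ∈ Q, (1 + 1 / ((p : ℝ) - 1)) ^ (6 * K) +
            (∏ p ∈ Q, (1 + 1 / ((p : ℝ) - 1)) ^ K) *
              (Real.exp (4 ^ K * ((K : ℝ) + 2) * ∑ p ∈ Q, 1 / ((p : ℝ) - 1) ^ 2) - 1)) +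
        (#(HH Po Hb κ) : ℝ) ^ 2 * ((1 + 2 * Real.log z) *
          ∑ Q' ∈ Q.powerset.filter (fun Q' => ((∏ p ∈ Q', p : ℕ) : ℝ) ≤ T ^ 2), (24 * (K : ℝ)) ^ #Q' *
            ∑ D ∈ P.powerset.filter (fun D => (∏ p ∈ D, p) ≤ z ^ (4 * s + 5)),
              (K : ℝ) ^ #D * M (D ∪ Q'))) := by
  classical
  have hX := hD.X0
  have hP2 : ∀ p ∈ P, 2 ≤ p := fun p hp => by
    have h1 := hP hp
    exact (mem_primesIoc.1 h1).2.2.two_le
  have hQz : ∀ q ∈ Q, z < q := fun q hq => (hQ q hq).2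
  have hZ' : (#Z : ℝ) ≤ 1 := by exact_mod_cast hZ
  have hQ1 : ∀ q ∈ Q, (#Z : ℝ) ≤ q := fun q hq => by
    have h1 : (1 : ℝ) ≤ q := by exact_mod_cast (hQ q hq).1.one_lt.le
    linarith
  have hz1 : (1 : ℝ) ≤ z := by
    have : 1 ≤ z := by omega
    exact_mod_cast this
  have hlogz : 0 ≤ Real.log z := Real.log_nonneg hz1
  set R : Finset ℕ → ℝ := fun Q' =>
    ∑ D ∈ P.powerset.filter (fun D => (∏ p ∈ D, p) ≤ z ^ (4 * s + 5)), (K : ℝ) ^ #D * M (D ∪ Q')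
    with hRdef
  have hR : ∀ Q' ⊆ Q, 0 ≤ R Q' := fun Q' hQ' => by
    refine sum_nonneg fun D hDm => mul_nonneg (by positivity) (hD.M0 _ ?_)
    exact union_subset_union (mem_powerset.1 (mem_filter.1 hDm).1) hQ'
  set c1 : ℝ := (1 / 2 : ℝ) ^ s * ∏ p ∈ Q, (1 + 1 / ((p : ℝ) - 1)) ^ (6 * K) with hc1
  set c2 : ℝ := (∏ p ∈ Q, (1 + 1 / ((p : ℝ) - 1)) ^ K) *
    (Real.exp (4 ^ K * ((K : ℝ) + 2) * ∑ p ∈ Q, 1 / ((p : ℝ) - 1) ^ 2) - 1) with hc2
  set c3 : ℝ := (1 + 2 * Real.log z) *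
    ∑ Q' ∈ Q.powerset.filter (fun Q' => ((∏ p ∈ Q', p : ℕ) : ℝ) ≤ T ^ 2), (24 * (K : ℝ)) ^ #Q' * R Q'
    with hc3
  set 𝓔 := (Po ×ˢ Q).powerset with h𝓔
  set 𝓔₀ := 𝓔.filter (fun E => C E ≠ 0) with h𝓔₀
  set Δ : Finset (ℕ × ℕ) → Finset (ℕ × ℕ) → ℝ := fun E E' =>
    (∑ n ∈ S, a n * (ro P (Hb ∪ pos E ∪ pos E') n * (gE E n * gE E' n)) -
          X * VV P Z (Hb ∪ pos E ∪ pos E') * (if E = E' then ph E else 0)) with hΔ
  rw [expand]
  have hstep1 : |∑ E ∈ 𝓔, ∑ E' ∈ 𝓔, C E * C E' * Δ E E'| ≤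
      ∑ E ∈ 𝓔₀, ∑ E' ∈ 𝓔₀, |C E * C E' * Δ E E'| := by
    have h1 : ∑ E ∈ 𝓔, ∑ E' ∈ 𝓔, C E * C E' * Δ E E' =
        ∑ E ∈ 𝓔₀, ∑ E' ∈ 𝓔₀, C E * C E' * Δ E E' := by
      rw [h𝓔₀, sum_filter_of_ne]
      · refine sum_congr rfl fun E _ => ?_
        rw [sum_filter_of_ne]
        intro E' _ hne h0
        exact hne (by rw [h0]; ring)
      · intro E _ hne h0
        exact hne (sum_eq_zero fun E' _ => by rw [h0]; ring)
    rw [h1]
    exact (abs_sum_le_sum_abs _ _).trans (sum_le_sum fun E _ => abs_sum_le_sum_abs _ _)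
  refine hstep1.trans ?_
  -- the fibres
  have hmaps : ∀ E ∈ 𝓔₀, pos E ∈ HH Po Hb κ := by
    intro E hE
    obtain ⟨hE1, hE2⟩ := mem_filter.1 hE
    refine mem_filter.2 ⟨mem_powerset.2 (pos_subset (mem_powerset.1 hE1)), (hC2 E hE1 hE2).1⟩
  have hfib : ∑ E ∈ 𝓔₀, ∑ E' ∈ 𝓔₀, |C E * C E' * Δ E E'| =
      ∑ H ∈ HH Po Hb κ, ∑ H' ∈ HH Po Hb κ, ∑ E ∈ 𝓔₀.filter (fun E => pos E = H),
        ∑ E' ∈ 𝓔₀.filter (fun E' => pos E' = H'), |C E * C E' * Δ E E'| := by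
    rw [← sum_fiberwise_of_maps_to hmaps]
    refine sum_congr rfl fun H _ => ?_
    have h1 : ∀ E ∈ 𝓔₀.filter (fun E => pos E = H), ∑ E' ∈ 𝓔₀, |C E * C E' * Δ E E'| =
        ∑ H' ∈ HH Po Hb κ, ∑ E' ∈ 𝓔₀.filter (fun E' => pos E' = H'), |C E * C E' * Δ E E'| :=
      fun E _ => (sum_fiberwise_of_maps_to hmaps _).symm
    rw [sum_congr rfl h1, sum_comm]
  rw [hfib]
  -- the bound for one pair of position sets
  have hpair : ∀ H ∈ HH Po Hb κ, ∀ H' ∈ HH Po Hb κ,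
      ∑ E ∈ 𝓔₀.filter (fun E => pos E = H), ∑ E' ∈ 𝓔₀.filter (fun E' => pos E' = H'),
        |C E * C E' * Δ E E'| ≤
      Mc ^ 2 * (X * VV P Z (Hb ∪ H ∪ H') * (c1 + c2) + c3) := by
    intro H hH H' hH'
    obtain ⟨hH1, hH2⟩ := mem_filter.1 hH
    obtain ⟨hH'1, hH'2⟩ := mem_filter.1 hH'
    set U := Hb ∪ H ∪ H' with hU
    have hUsub : U ⊆ Hb ∪ Po := by
      rw [hU]
      exact union_subset (union_subset_union subset_rfl (mem_powerset.1 hH1))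
        ((mem_powerset.1 hH'1).trans subset_union_right)
    have hUz : ∀ h ∈ U, h < z := fun h hh => by
      rcases mem_union.1 (hUsub hh) with h' | h'
      · exact hHbz h h'
      · exact hPoz h h'
    have hdisU : Disjoint Z U := disjoint_of_subset_right hUsub hdis
    have hUK : #U ≤ K := by
      have h1 : U = (Hb ∪ H) ∪ (Hb ∪ H') := by
        rw [hU]
        ext x
        simp only [mem_union]
        tauto
      rw [h1]
      refine (card_union_le _ _).trans ?_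
      omega
    have hVV : 0 ≤ VV P Z U := VV_nonneg hZ hP2
    have hXV : 0 ≤ X * VV P Z U := mul_nonneg hX hVV
    set 𝓤 := (U ×ˢ Q).powerset with h𝓤
    set F := 𝓔₀.filter (fun E => pos E = H) with hF
    set F' := 𝓔₀.filter (fun E' => pos E' = H') with hF'
    have hmemF : ∀ (J : Finset ℕ), J ⊆ U → ∀ E ∈ 𝓔₀.filter (fun E => pos E = J),
        E ∈ 𝓤 ∧ (nn E : ℝ) ≤ T ∧ E ∈ 𝓔 := by
      intro J hJ E hE
      obtain ⟨hE1, hE2⟩ := mem_filter.1 hE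
      obtain ⟨hE3, hE4⟩ := mem_filter.1 hE1
      refine ⟨mem_powerset.2 fun x hx => ?_, (hC2 E hE3 hE4).2, hE3⟩
      refine mem_product.2 ⟨hJ ?_, ?_⟩
      · rw [← hE2]
        exact mem_image_of_mem _ hx
      · exact (mem_product.1 (mem_powerset.1 hE3 hx)).2
    have hHU : H ⊆ U := subset_union_right.trans subset_union_left
    have hH'U : H' ⊆ U := subset_union_right
    have hFU : F ⊆ 𝓤 := fun E hE => (hmemF H hHU E hE).1
    have hF'U : F' ⊆ 𝓤 := fun E hE => (hmemF H' hH'U E hE).1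
    have hFT : F ⊆ 𝓤.filter (fun E => (nn E : ℝ) ≤ T) := fun E hE =>
      mem_filter.2 ⟨(hmemF H hHU E hE).1, (hmemF H hHU E hE).2.1⟩
    have hF'T : F' ⊆ 𝓤.filter (fun E => (nn E : ℝ) ≤ T) := fun E hE =>
      mem_filter.2 ⟨(hmemF H' hH'U E hE).1, (hmemF H' hH'U E hE).2.1⟩
    have hpow : ∀ E ∈ 𝓤, ∀ x ∈ E, x.2 ∈ Q := fun E hE x hx =>
      (mem_product.1 (mem_powerset.1 hE hx)).2
    have hone : ∀ E ∈ 𝓤, ∀ x ∈ E, 1 ≤ x.2 := fun E hE x hx =>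
      (hQ _ (hpow E hE x hx)).1.one_lt.le
    -- the bound of one term
    have hterm : ∀ E ∈ F, ∀ E' ∈ F', |C E * C E' * Δ E E'| ≤
        Mc ^ 2 * (X * VV P Z U * ((1 / 2 : ℝ) ^ s *
            ∏ p ∈ prs E ∪ prs E', aloc Z p (col E p) (col E' p)) +
          X * VV P Z U * |∏ p ∈ prs E ∪ prs E', eloc Z p (col E p) (col E' p) -
            (if E = E' then ph E else 0)| +
          (1 + 2 * Real.log z) *
            ((∏ p ∈ prs E ∪ prs E', (((p : ℝ) - #Z) * aloc Z p (col E p) (col E' p))) *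
              R (prs E ∪ prs E'))) := by
      intro E hE E' hE'
      obtain ⟨hEU, hET, hE𝓔⟩ := hmemF H hHU E hE
      obtain ⟨hE'U, hE'T, hE'𝓔⟩ := hmemF H' hH'U E' hE'
      have hpE : pos E = H := (mem_filter.1 hE).2
      have hpE' : pos E' = H' := (mem_filter.1 hE').2
      have hlev' : (z : ℝ) ^ (4 * s + 5) * ((∏ p ∈ prs E ∪ prs E', p : ℕ) : ℝ) ≤ Lv := by
        refine le_trans (mul_le_mul_of_nonneg_left ?_ (by positivity)) hlev
        have h1 := prod_union_le E E' (hone E hEU) (hone E' hE'U)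
        calc ((∏ p ∈ prs E ∪ prs E', p : ℕ) : ℝ) ≤ ((nn E * nn E' : ℕ) : ℝ) := by exact_mod_cast h1
          _ = (nn E : ℝ) * nn E' := by push_cast; ring
          _ ≤ T * T := mul_le_mul hET hE'T (Nat.cast_nonneg _) hT
          _ = T ^ 2 := by ring
      have hpb := pair_bound hFL hw hKw hwz hP hQ hZ hZz hUz hdisU hUK hD
        (mem_powerset.1 hEU) (mem_powerset.1 hE'U) hlev'
      have hCC : |C E * C E'| ≤ Mc ^ 2 := by
        rw [abs_mul, pow_two]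
        exact mul_le_mul (hC E hE𝓔) (hC E' hE'𝓔) (abs_nonneg _) hMc
      rw [abs_mul]
      have hΔle : |Δ E E'| ≤ X * VV P Z U * ((1 / 2 : ℝ) ^ s *
            ∏ p ∈ prs E ∪ prs E', aloc Z p (col E p) (col E' p)) +
          X * VV P Z U * |∏ p ∈ prs E ∪ prs E', eloc Z p (col E p) (col E' p) -
            (if E = E' then ph E else 0)| +
          (1 + 2 * Real.log z) *
            ((∏ p ∈ prs E ∪ prs E', (((p : ℝ) - #Z) * aloc Z p (col E p) (col E' p))) *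
              R (prs E ∪ prs E')) := by
        simp only [hΔ, hpE, hpE']
        rw [← hU]
        set A0 := ∑ n ∈ S, a n * (ro P U n * (gE E n * gE E' n)) with hA0
        set e0 := ∏ p ∈ prs E ∪ prs E', eloc Z p (col E p) (col E' p) with he0
        set i0 : ℝ := if E = E' then ph E else 0 with hi0
        have htri : |A0 - X * VV P Z U * i0| ≤ |A0 - X * VV P Z U * e0| +
            X * VV P Z U * |e0 - i0| := by
          have h1 : A0 - X * VV P Z U * i0 = (A0 - X * VV P Z U * e0) + X * VV P Z U * (e0 - i0) := by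
            ring
          rw [h1]
          refine (abs_add_le _ _).trans ?_
          rw [abs_mul (X * VV P Z U), abs_of_nonneg hXV]
        refine htri.trans ?_
        have h2 := hpb
        simp only [hRdef]
        linarith
      exact mul_le_mul hCC hΔle (abs_nonneg _) (by positivity)
    -- nonnegativity
    have hal0 : ∀ E ∈ 𝓤, ∀ E' ∈ 𝓤, ∀ p ∈ prs E ∪ prs E', 0 ≤ aloc Z p (col E p) (col E' p) := by
      intro E hE E' hE' p hp
      refine tps_aloc_nonneg (hQ1 p ?_) _ _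
      rcases mem_union.1 hp with h | h
      · exact tps_prs_subset (mem_powerset.1 hE) h
      · exact tps_prs_subset (mem_powerset.1 hE') h
    have hprsub : ∀ E ∈ 𝓤, ∀ E' ∈ 𝓤, prs E ∪ prs E' ⊆ Q := fun E hE E' hE' =>
      union_subset (tps_prs_subset (mem_powerset.1 hE)) (tps_prs_subset (mem_powerset.1 hE'))
    have hs1 : ∑ E ∈ F, ∑ E' ∈ F', ∏ p ∈ prs E ∪ prs E', aloc Z p (col E p) (col E' p) ≤
        ∏ p ∈ Q, (1 + 1 / ((p : ℝ) - 1)) ^ (6 * K) := by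
      refine (double_sum_le hFU hF'U (f := fun E E' =>
        ∏ p ∈ prs E ∪ prs E', aloc Z p (col E p) (col E' p)) ?_).trans
        (sum_abs_le hQ hZ hZz hUz hdisU hUK)
      exact fun E hE E' hE' => prod_nonneg fun p hp => hal0 E hE E' hE' p hp
    have hs2 : ∑ E ∈ F, ∑ E' ∈ F', |∏ p ∈ prs E ∪ prs E', eloc Z p (col E p) (col E' p) -
        (if E = E' then ph E else 0)| ≤ c2 := by
      refine (double_sum_le hFU hF'U (f := fun E E' =>
        |∏ p ∈ prs E ∪ prs E', eloc Z p (col E p) (col E' p) -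
        (if E = E' then ph E else 0)|) ?_).trans
        (sum_tiny_le hQ hZ hZz hUz hdisU hUK)
      exact fun E hE E' hE' => abs_nonneg _
    have hs3 : ∑ E ∈ F, ∑ E' ∈ F',
        (∏ p ∈ prs E ∪ prs E', (((p : ℝ) - #Z) * aloc Z p (col E p) (col E' p))) *
          R (prs E ∪ prs E') ≤
        ∑ Q' ∈ Q.powerset.filter (fun Q' => ((∏ p ∈ Q', p : ℕ) : ℝ) ≤ T ^ 2),
          (24 * (K : ℝ)) ^ #Q' * R Q' := by
      refine (double_sum_le hFT hF'T (f := fun E E' =>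
        (∏ p ∈ prs E ∪ prs E', (((p : ℝ) - #Z) * aloc Z p (col E p) (col E' p))) *
          R (prs E ∪ prs E')) ?_).trans
        (sum_rem_le hQ hZ hZz hUz hdisU hK hUK hKz hT R hR)
      intro E hE E' hE'
      have hE1 := (mem_filter.1 hE).1
      have hE'1 := (mem_filter.1 hE').1
      refine mul_nonneg (prod_nonneg fun p hp => mul_nonneg ?_ (hal0 E hE1 E' hE'1 p hp))
        (hR _ (hprsub E hE1 E' hE'1))
      have := hQ1 p (hprsub E hE1 E' hE'1 hp)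
      linarith
    refine (sum_le_sum fun E hE => sum_le_sum fun E' hE' => hterm E hE E' hE').trans ?_
    simp only [← mul_sum, sum_add_distrib]
    refine mul_le_mul_of_nonneg_left ?_ (by positivity)
    have e1 : X * VV P Z U * ((1 / 2 : ℝ) ^ s *
        ∑ E ∈ F, ∑ E' ∈ F', ∏ p ∈ prs E ∪ prs E', aloc Z p (col E p) (col E' p)) ≤
        X * VV P Z U * c1 := by
      refine mul_le_mul_of_nonneg_left ?_ hXV
      rw [hc1]
      exact mul_le_mul_of_nonneg_left hs1 (by positivity)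
    have e2 := mul_le_mul_of_nonneg_left hs2 hXV
    have e3 : (1 + 2 * Real.log z) * ∑ E ∈ F, ∑ E' ∈ F',
        (∏ p ∈ prs E ∪ prs E', (((p : ℝ) - #Z) * aloc Z p (col E p) (col E' p))) *
          R (prs E ∪ prs E') ≤ c3 := by
      rw [hc3]
      exact mul_le_mul_of_nonneg_left hs3 (by positivity)
    linarith
  refine (sum_le_sum fun H hH => sum_le_sum fun H' hH' => hpair H hH H' hH').trans ?_
  simp only [← mul_sum, sum_add_distrib, ← sum_mul, sum_const, nsmul_eq_mul]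
  apply le_of_eq
  ring

end Pool.Agent.H81.AS
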