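import Pool.Agent.H81.AS.Env2
import Pool.Agent.H81.AS.Loc

/-!
JOB AS-VCOMP. The sieve products `VV P Z U` are `V1^{#U} (1 + o(1))`, uniformly.

PROOF. Let `p ∈ PP`, `q = p - #Z`. `#(Rs Z U p) ≤ #U ≤ K`, with equality unless `p` divides a difference of two
distinct elements of `U ∪ Z` (then two elements of `U` share a residue, or a residue of `U` is not in
`al Z p`). For the other `p` (good), the factor is `1 - #U/q` with `q ∈ {p, p-1}` and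
`|(1 - #U/q) / (1-1/p)^{#U} - 1| ≤ C_K/p^2`. For bad `p` the factor is between `1 - K/q` and `1`, so the quotient by
`(1-1/p)^{#U}` is within `[1 - C_K/p, 1 + C_K/p]` (`p > wz ℓ` is large compared with `K`). The number of bad primes is at
most `(K+1)^2 log(lam ℓ)/log 2` (each difference is a nonzero integer `≤ lam ℓ`, and has at most
`log_2` of it prime factors), all of them `> wz ℓ ≥ (log ℓ)^2 - 1`, so `∑_{bad} C_K/p → 0`; and
`∑_{p > wz ℓ} C_K/p^2 ≤ C_K/(wz ℓ) → 0`. Products of `1 + x_p` with `∑ |x_p| ≤ ε/2` are within `1 ± ε`.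
-/

set_option autoImplicit false

open Finset Filter Topology

namespace Pool.Agent.H81.AS

open Pool.Agent.H16

/-! ### local facts -/

lemma vcRs_le {p : ℕ} (Z U : Finset ℕ) : #(Rs Z U p) ≤ #U := by
  classical
  have h1 : ∀ c ∈ Rs Z U p, ∃ h ∈ U, p ∣ c + h := fun c hc => (mem_filter.mp hc).2
  choose! f hf using h1
  refine card_le_card_of_injOn f (fun c hc => (hf c hc).1) ?_
  intro c hc c' hc' hcc
  have hcR : c < p := mem_range.mp (mem_filter.mp (mem_filter.mp hc).1).1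
  have hcR' : c' < p := mem_range.mp (mem_filter.mp (mem_filter.mp hc').1).1
  have h2 := (hf c hc).2
  have h3 := (hf c' hc').2
  rw [hcc] at h2
  have h4 : c + f c' ≡ c' + f c' [MOD p] :=
    ((Nat.modEq_zero_iff_dvd).mpr h2).trans ((Nat.modEq_zero_iff_dvd).mpr h3).symm
  have h5 : c ≡ c' [MOD p] := Nat.ModEq.add_right_cancel' _ h4
  exact Nat.ModEq.eq_of_lt_of_lt h5 hcR hcR'

/-- the residue `-h` -/
def vcNeg (p h : ℕ) : ℕ := (p - h % p) % p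

lemma vcNeg_lt {p : ℕ} (hp : 0 < p) (h : ℕ) : vcNeg p h < p := Nat.mod_lt _ hp

lemma vcNeg_dvd {p : ℕ} (hp : 0 < p) (h : ℕ) : p ∣ vcNeg p h + h := by
  rw [← Nat.modEq_zero_iff_dvd]
  have h1 : vcNeg p h ≡ p - h % p [MOD p] := Nat.mod_modEq _ _
  have h2 : h ≡ h % p [MOD p] := (Nat.mod_modEq _ _).symm
  have h3 := h1.add h2
  have h4 : p - h % p + h % p = p := Nat.sub_add_cancel (Nat.mod_lt _ hp).le
  rw [h4] at h3
  exact h3.trans ((Nat.modEq_zero_iff_dvd).mpr dvd_rfl)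

/-- if `p` divides `c + a` and `c + b`, `a < b`, then `p ∣ b - a` -/
lemma vcDvd_sub {p c a b : ℕ} (h1 : p ∣ c + a) (h2 : p ∣ c + b) : p ∣ b - a := by
  have h3 := Nat.dvd_sub h2 h1
  have h4 : c + b - (c + a) = b - a := by omega
  rwa [h4] at h3

/-- `p` divides no difference of two elements of `S` -/
def vcGood (S : Finset ℕ) (p : ℕ) : Prop := ∀ a ∈ S, ∀ b ∈ S, a < b → ¬ p ∣ b - a

lemma vcGood_eq {S : Finset ℕ} {p c a b : ℕ} (hS : vcGood S p) (ha : a ∈ S) (hb : b ∈ S)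
    (h1 : p ∣ c + a) (h2 : p ∣ c + b) : a = b := by
  rcases lt_trichotomy a b with h | h | h
  · exact absurd (vcDvd_sub h1 h2) (hS a ha b hb h)
  · exact h
  · exact absurd (vcDvd_sub h2 h1) (hS b hb a ha h)

lemma vcRs_ge {p : ℕ} (hp : 0 < p) {Z U : Finset ℕ} (hdis : Disjoint Z U) (hg : vcGood (U ∪ Z) p) :
    #U ≤ #(Rs Z U p) := by
  refine card_le_card_of_injOn (vcNeg p) ?_ ?_
  · intro h hh
    have hh' : h ∈ U := hh
    have h1 : vcNeg p h ∈ al Z p := by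
      refine mem_filter.mpr ⟨mem_range.mpr (vcNeg_lt hp h), ?_⟩
      intro z hz hd
      have h2 := vcGood_eq hg (mem_union_right _ hz) (mem_union_left _ hh') hd (vcNeg_dvd hp h)
      rw [h2] at hz
      exact (disjoint_left.mp hdis) hz hh'
    exact mem_coe.mpr (mem_filter.mpr ⟨h1, h, hh', vcNeg_dvd hp h⟩)
  · intro a ha b hb hab
    have h1 := vcNeg_dvd hp a
    have h2 := vcNeg_dvd hp b
    rw [hab] at h1
    exact vcGood_eq hg (mem_union_left _ ha) (mem_union_left _ hb) h1 h2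

/-! ### real estimates at one prime -/

lemma vcPow_bounds {x : ℝ} (hx0 : 0 ≤ x) (hx1 : x ≤ 1) (n : ℕ) :
    1 - n * x ≤ (1 - x) ^ n ∧ (1 - x) ^ n ≤ 1 - n * x + (n * x) ^ 2 := by
  have hB : 1 - (n : ℝ) * x ≤ (1 - x) ^ n := by
    have h := one_add_mul_le_pow (a := -x) (by linarith) n
    have h2 : (1 + -x) ^ n = (1 - x) ^ n := by ring
    rw [h2] at h
    linarith
  refine ⟨hB, ?_⟩
  induction n with
  | zero => simp
  | succ n ih =>
    have hB' : 1 - (n : ℝ) * x ≤ (1 - x) ^ n := by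
      have h := one_add_mul_le_pow (a := -x) (by linarith) n
      have h2 : (1 + -x) ^ n = (1 - x) ^ n := by ring
      rw [h2] at h
      linarith
    have ih' := ih hB'
    have h0 : 0 ≤ 1 - x := by linarith
    rw [pow_succ]
    have h1 : (1 - x) ^ n * (1 - x) ≤ (1 - n * x + (n * x) ^ 2) * (1 - x) :=
      mul_le_mul_of_nonneg_right ih' h0
    refine h1.trans ?_
    push_cast
    have hn : (0 : ℝ) ≤ n := Nat.cast_nonneg n
    have h3 : 0 ≤ (n : ℝ) * x ^ 2 := by positivity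
    have h4 : 0 ≤ (n : ℝ) ^ 2 * x ^ 3 := by positivity
    nlinarith

/-- good primes -/
lemma vc_good {K n s p : ℕ} (hn : n ≤ K) (hs : s ≤ 1) (hp : 2 * K + 2 ≤ p) :
    |(1 - (n : ℝ) * (1 / ((p : ℝ) - s))) / (1 - 1 / (p : ℝ)) ^ n - 1| ≤ 6 * ((K : ℝ) + 1) ^ 2 / p ^ 2 := by
  have hpK : 2 * (K : ℝ) + 2 ≤ p := by exact_mod_cast hp
  have hK0 : (0 : ℝ) ≤ K := Nat.cast_nonneg K
  have hnK : (n : ℝ) ≤ K := by exact_mod_cast hn
  have hn0 : (0 : ℝ) ≤ n := Nat.cast_nonneg n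
  have hs1 : (s : ℝ) ≤ 1 := by exact_mod_cast hs
  have hs0 : (0 : ℝ) ≤ s := Nat.cast_nonneg s
  have hp2 : (2 : ℝ) ≤ p := by linarith
  have hp0 : (0 : ℝ) < p := by linarith
  set x : ℝ := 1 / (p : ℝ) with hx
  have hxp : x * p = 1 := by rw [hx]; field_simp
  have hx0 : 0 < x := by rw [hx]; positivity
  have hx1 : x ≤ 1 / 2 := by
    rw [hx]
    exact one_div_le_one_div_of_le (by norm_num) hp2
  have hq1 : 0 < (p : ℝ) - s := by linarith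
  have hqx : x ≤ 1 / ((p : ℝ) - s) := by
    rw [hx]
    exact one_div_le_one_div_of_le hq1 (by linarith)
  have hqx2 : 1 / ((p : ℝ) - s) ≤ x + 2 * x ^ 2 := by
    rw [div_le_iff₀ hq1]
    have h1 : (x + 2 * x ^ 2) * ((p : ℝ) - s) = (x * p) + 2 * x * (x * p) - s * x - 2 * s * x ^ 2 := by ring
    rw [h1, hxp]
    have h2 : s * x ≤ 1 * x := mul_le_mul_of_nonneg_right hs1 hx0.le
    have h3 : s * x ^ 2 ≤ 1 * x ^ 2 := mul_le_mul_of_nonneg_right hs1 (by positivity)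
    nlinarith
  obtain ⟨hb1, hb2⟩ := vcPow_bounds hx0.le (by linarith) n
  have hnx : (n : ℝ) * x ≤ 1 / 2 := by
    have h1 : (n : ℝ) * x ≤ (K + 1) * x := mul_le_mul_of_nonneg_right (by linarith) hx0.le
    have h2 : (2 * (K : ℝ) + 2) * x ≤ p * x := mul_le_mul_of_nonneg_right hpK hx0.le
    nlinarith
  have hD : (1 / 2 : ℝ) ≤ (1 - x) ^ n := by linarith
  have hD0 : (0 : ℝ) < (1 - x) ^ n := by linarith
  have hN1 : (n : ℝ) * x ≤ n * (1 / ((p : ℝ) - s)) := mul_le_mul_of_nonneg_left hqx hn0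
  have hN2 : (n : ℝ) * (1 / ((p : ℝ) - s)) ≤ n * (x + 2 * x ^ 2) := mul_le_mul_of_nonneg_left hqx2 hn0
  have h1 : (1 - (n : ℝ) * (1 / ((p : ℝ) - s))) / (1 - x) ^ n - 1 =
      ((1 - (n : ℝ) * (1 / ((p : ℝ) - s))) - (1 - x) ^ n) / (1 - x) ^ n := by
    field_simp
  rw [h1, abs_div, abs_of_pos hD0, div_le_iff₀ hD0]
  have h2 : |(1 - (n : ℝ) * (1 / ((p : ℝ) - s))) - (1 - x) ^ n| ≤ 3 * ((K : ℝ) + 1) ^ 2 * x ^ 2 := by
    rw [abs_le]
    have hx2 : 0 ≤ x ^ 2 := by positivity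
    have h3 : 2 * (n : ℝ) + n ^ 2 ≤ 3 * ((K : ℝ) + 1) ^ 2 := by nlinarith
    have h4 : (2 * (n : ℝ) + n ^ 2) * x ^ 2 ≤ 3 * ((K : ℝ) + 1) ^ 2 * x ^ 2 := mul_le_mul_of_nonneg_right h3 hx2
    constructor
    · nlinarith
    · have h5 : 0 ≤ 3 * ((K : ℝ) + 1) ^ 2 * x ^ 2 := by positivity
      linarith
  have h6 : 6 * ((K : ℝ) + 1) ^ 2 / (p : ℝ) ^ 2 = 6 * ((K : ℝ) + 1) ^ 2 * x ^ 2 := by
    rw [hx]; field_simp
  rw [h6]
  have h7 : 6 * ((K : ℝ) + 1) ^ 2 * x ^ 2 * (1 / 2) ≤ 6 * ((K : ℝ) + 1) ^ 2 * x ^ 2 * (1 - x) ^ n :=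
    mul_le_mul_of_nonneg_left hD (by positivity)
  linarith

/-- bad primes -/
lemma vc_bad {K n s r p : ℕ} (hn : n ≤ K) (hs : s ≤ 1) (hr : r ≤ n) (hp : 2 * K + 2 ≤ p) :
    |(1 - (r : ℝ) * (1 / ((p : ℝ) - s))) / (1 - 1 / (p : ℝ)) ^ n - 1| ≤ 4 * ((K : ℝ) + 1) / p := by
  have hpK : 2 * (K : ℝ) + 2 ≤ p := by exact_mod_cast hp
  have hK0 : (0 : ℝ) ≤ K := Nat.cast_nonneg K
  have hnK : (n : ℝ) ≤ K := by exact_mod_cast hn
  have hn0 : (0 : ℝ) ≤ n := Nat.cast_nonneg n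
  have hrn : (r : ℝ) ≤ n := by exact_mod_cast hr
  have hr0 : (0 : ℝ) ≤ r := Nat.cast_nonneg r
  have hs1 : (s : ℝ) ≤ 1 := by exact_mod_cast hs
  have hs0 : (0 : ℝ) ≤ s := Nat.cast_nonneg s
  have hp2 : (2 : ℝ) ≤ p := by linarith
  have hp0 : (0 : ℝ) < p := by linarith
  set x : ℝ := 1 / (p : ℝ) with hx
  have hxp : x * p = 1 := by rw [hx]; field_simp
  have hx0 : 0 < x := by rw [hx]; positivity
  have hx1 : x ≤ 1 / 2 := by
    rw [hx]
    exact one_div_le_one_div_of_le (by norm_num) hp2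
  have hq1 : 0 < (p : ℝ) - s := by linarith
  have hqx2 : 1 / ((p : ℝ) - s) ≤ 2 * x := by
    rw [div_le_iff₀ hq1]
    have h1 : 2 * x * ((p : ℝ) - s) = 2 * (x * p) - 2 * (s * x) := by ring
    rw [h1, hxp]
    have h2 : s * x ≤ 1 * x := mul_le_mul_of_nonneg_right hs1 hx0.le
    linarith
  have hq0 : 0 < 1 / ((p : ℝ) - s) := by positivity
  obtain ⟨hb1, hb2⟩ := vcPow_bounds hx0.le (by linarith) n
  have hb3 : (1 - x) ^ n ≤ 1 := pow_le_one₀ (by linarith) (by linarith)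
  have hnx0 : (n : ℝ) * x ≤ (K + 1) * x := mul_le_mul_of_nonneg_right (by linarith) hx0.le
  have hnx : (n : ℝ) * x ≤ 1 / 2 := by
    have h2 : (2 * (K : ℝ) + 2) * x ≤ p * x := mul_le_mul_of_nonneg_right hpK hx0.le
    nlinarith
  have hD : (1 / 2 : ℝ) ≤ (1 - x) ^ n := by linarith
  have hD0 : (0 : ℝ) < (1 - x) ^ n := by linarith
  have hr1 : (r : ℝ) * (1 / ((p : ℝ) - s)) ≤ (K + 1) * (2 * x) :=
    mul_le_mul (by linarith) hqx2 hq0.le (by linarith)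
  have hr2 : 0 ≤ (r : ℝ) * (1 / ((p : ℝ) - s)) := mul_nonneg hr0 hq0.le
  have h1 : (1 - (r : ℝ) * (1 / ((p : ℝ) - s))) / (1 - x) ^ n - 1 =
      ((1 - (r : ℝ) * (1 / ((p : ℝ) - s))) - (1 - x) ^ n) / (1 - x) ^ n := by
    field_simp
  rw [h1, abs_div, abs_of_pos hD0, div_le_iff₀ hD0]
  have h2 : |(1 - (r : ℝ) * (1 / ((p : ℝ) - s))) - (1 - x) ^ n| ≤ 2 * ((K : ℝ) + 1) * x := by
    rw [abs_le]
    have h5 : 0 ≤ ((K : ℝ) + 1) * x := by positivity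
    constructor <;> linarith
  have h6 : 4 * ((K : ℝ) + 1) / (p : ℝ) = 4 * ((K : ℝ) + 1) * x := by
    rw [hx]; field_simp
  rw [h6]
  have h7 : 4 * ((K : ℝ) + 1) * x * (1 / 2) ≤ 4 * ((K : ℝ) + 1) * x * (1 - x) ^ n :=
    mul_le_mul_of_nonneg_left hD (by positivity)
  linarith

/-! ### the number of bad primes -/

lemma vc_primeFactors (n : ℕ) (hn : n ≠ 0) : 2 ^ #n.primeFactors ≤ n := by
  have h1 : ∏ _p ∈ n.primeFactors, 2 ≤ ∏ p ∈ n.primeFactors, p :=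
    Finset.prod_le_prod' (fun p hp => (Nat.prime_of_mem_primeFactors hp).two_le)
  rw [prod_const] at h1
  exact h1.trans (Nat.le_of_dvd (Nat.pos_of_ne_zero hn) (Nat.prod_primeFactors_dvd n))

lemma vc_primeFactors_log (n : ℕ) (hn : n ≠ 0) : (#n.primeFactors : ℝ) ≤ 2 * Real.log n := by
  have h1 : ((2 : ℝ)) ^ #n.primeFactors ≤ n := by exact_mod_cast vc_primeFactors n hn
  have h2 := Real.log_le_log (by positivity) h1
  rw [Real.log_pow] at h2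
  have h3 : (1 / 2 : ℝ) ≤ Real.log 2 := by linarith [Real.log_two_gt_d9]
  have h4 : (#n.primeFactors : ℝ) * (1 / 2) ≤ #n.primeFactors * Real.log 2 :=
    mul_le_mul_of_nonneg_left h3 (Nat.cast_nonneg _)
  linarith

lemma vc_card_bad (P S : Finset ℕ) (hP : ∀ p ∈ P, p.Prime) {K L : ℕ} (hS : #S ≤ K) (hL : 1 ≤ L)
    (hSL : S ⊆ Icc 1 L) :
    (#(P.filter (fun p => ∃ a ∈ S, ∃ b ∈ S, a < b ∧ p ∣ b - a)) : ℝ) ≤ (K : ℝ) ^ 2 * (2 * Real.log L) := by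
  classical
  have hsub : P.filter (fun p => ∃ a ∈ S, ∃ b ∈ S, a < b ∧ p ∣ b - a) ⊆
      (S ×ˢ S).biUnion (fun q => (q.2 - q.1).primeFactors) := by
    intro p hp
    obtain ⟨hpP, a, ha, b, hb, hab, hd⟩ := mem_filter.mp hp
    refine mem_biUnion.mpr ⟨(a, b), mem_product.mpr ⟨ha, hb⟩, ?_⟩
    exact Nat.mem_primeFactors.mpr ⟨hP p hpP, hd, by simp only; omega⟩
  have hlog : 0 ≤ Real.log L := Real.log_natCast_nonneg L
  have h1 : (#((S ×ˢ S).biUnion (fun q => (q.2 - q.1).primeFactors)) : ℝ) ≤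
      ∑ q ∈ S ×ˢ S, (#(q.2 - q.1).primeFactors : ℝ) := by
    exact_mod_cast card_biUnion_le
  have h2 : ∑ q ∈ S ×ˢ S, (#(q.2 - q.1).primeFactors : ℝ) ≤ ∑ _q ∈ S ×ˢ S, 2 * Real.log L := by
    refine sum_le_sum ?_
    intro q hq
    rcases Nat.eq_zero_or_pos (q.2 - q.1) with h | h
    · rw [h]; simp; exact hlog
    · refine (vc_primeFactors_log _ h.ne').trans ?_
      have h3 : q.2 ≤ L := (mem_Icc.mp (hSL (mem_product.mp hq).2)).2
      have h4 : ((q.2 - q.1 : ℕ) : ℝ) ≤ L := by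
        exact_mod_cast (Nat.sub_le _ _).trans h3
      have h5 : (0 : ℝ) < ((q.2 - q.1 : ℕ) : ℝ) := by exact_mod_cast h
      have h6 := Real.log_le_log h5 h4
      linarith
  rw [sum_const, nsmul_eq_mul] at h2
  have h3 : (#(S ×ˢ S) : ℝ) ≤ (K : ℝ) ^ 2 := by
    rw [card_product]
    push_cast
    have h4 : (#S : ℝ) ≤ K := by exact_mod_cast hS
    have h5 : (0 : ℝ) ≤ #S := Nat.cast_nonneg _
    nlinarith
  have h4 : (#(P.filter (fun p => ∃ a ∈ S, ∃ b ∈ S, a < b ∧ p ∣ b - a)) : ℝ) ≤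
      #((S ×ˢ S).biUnion (fun q => (q.2 - q.1).primeFactors)) := by
    exact_mod_cast card_le_card hsub
  have h5 : (#(S ×ˢ S) : ℝ) * (2 * Real.log L) ≤ (K : ℝ) ^ 2 * (2 * Real.log L) :=
    mul_le_mul_of_nonneg_right h3 (by linarith)
  linarith

/-! ### the sum of the errors -/

lemma vc_sum_sq {w z : ℕ} (hw : 1 ≤ w) (P : Finset ℕ) (hP : P ⊆ primesIoc w z) :
    ∑ p ∈ P, 1 / (p : ℝ) ^ 2 ≤ 1 / (w : ℝ) := by
  rcases le_total w z with h | h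
  · have h1 : P ⊆ Ioc w z := by
      intro p hp
      have := mem_primesIoc.mp (hP hp)
      exact mem_Ioc.mpr ⟨this.1, this.2.1⟩
    have h2 : ∑ p ∈ P, 1 / (p : ℝ) ^ 2 ≤ ∑ p ∈ Ioc w z, 1 / (p : ℝ) ^ 2 :=
      sum_le_sum_of_subset_of_nonneg h1 (fun i _ _ => by positivity)
    have h3 := sum_Ioc_inv_sq_le_sub (α := ℝ) (k := w) (n := z) (by omega) h
    have h4 : ∑ p ∈ Ioc w z, 1 / (p : ℝ) ^ 2 = ∑ i ∈ Ioc w z, ((i : ℝ) ^ 2)⁻¹ :=
      sum_congr rfl (fun i _ => by rw [one_div])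
    rw [h4] at h2
    have h5 : (0 : ℝ) ≤ (z : ℝ)⁻¹ := by positivity
    rw [one_div]
    linarith
  · have h1 : P = ∅ := by
      rw [eq_empty_iff_forall_notMem]
      intro p hp
      have := mem_primesIoc.mp (hP hp)
      omega
    rw [h1, sum_empty]
    positivity

lemma vc_prod {P : Finset ℕ} {F G : ℕ → ℝ} (hG : ∀ p ∈ P, 0 < G p) {η : ℝ} (hη1 : η ≤ 1)
    (hs : ∑ p ∈ P, |F p / G p - 1| ≤ η) :
    |∏ p ∈ P, F p - ∏ p ∈ P, G p| ≤ 2 * η * ∏ p ∈ P, G p := by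
  have hG0 : 0 < ∏ p ∈ P, G p := prod_pos hG
  have h1 : ∏ p ∈ P, F p = (∏ p ∈ P, G p) * ∏ p ∈ P, (1 + (F p / G p - 1)) := by
    rw [← prod_mul_distrib]
    refine prod_congr rfl ?_
    intro p hp
    have := (hG p hp).ne'
    field_simp
    ring
  have h2 := Finset.norm_prod_one_add_sub_one_le P (fun p => F p / G p - 1)
  simp only [Real.norm_eq_abs] at h2
  have h3 : Real.exp (∑ p ∈ P, |F p / G p - 1|) - 1 ≤ 2 * ∑ p ∈ P, |F p / G p - 1| := by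
    have h0 : 0 ≤ ∑ p ∈ P, |F p / G p - 1| := sum_nonneg (fun _ _ => abs_nonneg _)
    have h4 := Real.abs_exp_sub_one_le (x := ∑ p ∈ P, |F p / G p - 1|) (by
      rw [abs_of_nonneg h0]; linarith)
    rw [abs_of_nonneg h0] at h4
    exact (le_abs_self _).trans h4
  have h5 : ∏ p ∈ P, F p - ∏ p ∈ P, G p = (∏ p ∈ P, G p) * (∏ p ∈ P, (1 + (F p / G p - 1)) - 1) := by
    rw [h1]; ring
  rw [h5, abs_mul, abs_of_pos hG0]
  have h6 : |∏ p ∈ P, (1 + (F p / G p - 1)) - 1| ≤ 2 * η := by linarith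
  calc (∏ p ∈ P, G p) * |∏ p ∈ P, (1 + (F p / G p - 1)) - 1| ≤ (∏ p ∈ P, G p) * (2 * η) :=
        mul_le_mul_of_nonneg_left h6 hG0.le
    _ = 2 * η * ∏ p ∈ P, G p := by ring

/-- the error tends to `0` -/
lemma vc_tendsto (C D : ℝ) {lam ε : ℝ} (hlam : 0 < lam) (hε : 0 < ε) : ∀ᶠ ℓ : ℝ in atTop,
    (C + D * Real.log (⌊lam * ℓ⌋₊ : ℕ)) / (wz ℓ : ℝ) ≤ ε := by
  have hlog := Real.tendsto_log_atTop
  have h1 : Tendsto (fun t : ℝ => (|C| + |D| * (|Real.log lam| + t)) / (t ^ 2 - 1)) atTop (𝓝 0) := by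
    have h2 : Tendsto (fun t : ℝ => ((|C| + |D| * |Real.log lam|) * t⁻¹ ^ 2 + |D| * t⁻¹) / (1 - t⁻¹ ^ 2)) atTop
        (𝓝 (((|C| + |D| * |Real.log lam|) * 0 ^ 2 + |D| * 0) / (1 - 0 ^ 2))) := by
      have h3 : Tendsto (fun t : ℝ => t⁻¹) atTop (𝓝 0) := tendsto_inv_atTop_zero
      refine Tendsto.div ?_ ?_ (by norm_num)
      · exact ((h3.pow 2).const_mul _).add (h3.const_mul _)
      · exact tendsto_const_nhds.sub (h3.pow 2)
    have h4 : ((|C| + |D| * |Real.log lam|) * 0 ^ 2 + |D| * 0) / (1 - 0 ^ 2) = (0 : ℝ) := by norm_num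
    rw [h4] at h2
    refine h2.congr' ?_
    filter_upwards [eventually_gt_atTop (1 : ℝ)] with t ht
    have ht0 : t ≠ 0 := by positivity
    have ht1 : t ^ 2 - 1 ≠ 0 := by nlinarith
    have ht2 : 1 - t⁻¹ ^ 2 ≠ 0 := by
      have : t⁻¹ < 1 := inv_lt_one_of_one_lt₀ ht
      have h0 : 0 < t⁻¹ := by positivity
      nlinarith
    rw [div_eq_div_iff ht2 ht1]
    field_simp
    ring
  have h5 := (h1.comp hlog).eventually (eventually_le_nhds hε)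
  filter_upwards [h5, hlog.eventually (eventually_ge_atTop (2 : ℝ)), eventually_ge_atTop (1 : ℝ)]
    with ℓ h6 h7 h8
  simp only [Function.comp] at h6
  refine le_trans ?_ h6
  have hw1 : (Real.log ℓ) ^ 2 - 1 ≤ (wz ℓ : ℝ) := by
    unfold wz
    exact (Nat.sub_one_lt_floor _).le
  have hw0 : 0 < (Real.log ℓ) ^ 2 - 1 := by nlinarith
  have hL : Real.log (⌊lam * ℓ⌋₊ : ℕ) ≤ |Real.log lam| + Real.log ℓ := by
    have h9 : Real.log (lam * ℓ) = Real.log lam + Real.log ℓ := Real.log_mul hlam.ne' (by linarith)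
    rcases Nat.eq_zero_or_pos ⌊lam * ℓ⌋₊ with h | h
    · rw [h]
      simp
      positivity
    · have h10 : Real.log (⌊lam * ℓ⌋₊ : ℕ) ≤ Real.log (lam * ℓ) :=
        Real.log_le_log (by exact_mod_cast h) (Nat.floor_le (by positivity))
      rw [h9] at h10
      linarith [le_abs_self (Real.log lam)]
  have hL0 : 0 ≤ Real.log (⌊lam * ℓ⌋₊ : ℕ) := Real.log_natCast_nonneg _
  have hnum : C + D * Real.log (⌊lam * ℓ⌋₊ : ℕ) ≤ |C| + |D| * (|Real.log lam| + Real.log ℓ) := by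
    have h11 : D * Real.log (⌊lam * ℓ⌋₊ : ℕ) ≤ |D| * Real.log (⌊lam * ℓ⌋₊ : ℕ) :=
      mul_le_mul_of_nonneg_right (le_abs_self D) hL0
    have h12 : |D| * Real.log (⌊lam * ℓ⌋₊ : ℕ) ≤ |D| * (|Real.log lam| + Real.log ℓ) :=
      mul_le_mul_of_nonneg_left hL (abs_nonneg D)
    linarith [le_abs_self C]
  have hnum0 : 0 ≤ |C| + |D| * (|Real.log lam| + Real.log ℓ) := by
    have : 0 ≤ Real.log ℓ := by linarith
    positivity
  exact div_le_div₀ hnum0 hnum hw0 hw1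

/-- the whole estimate with explicit constants -/
lemma vc_main (K : ℕ) {w z L e : ℕ} (hw : 2 * K + 2 ≤ w) (hL : 1 ≤ L) {Z U : Finset ℕ}
    (hZ : Z ⊆ Icc 1 L) (hU : U ⊆ Icc 1 L) (hZ1 : #Z ≤ 1) (hdis : Disjoint Z U) (hUK : #U ≤ K) :
    ∑ p ∈ (primesIoc w z).erase e, |(1 - (#(Rs Z U p) : ℝ) * gd Z p) / (1 - 1 / (p : ℝ)) ^ #U - 1| ≤
      (6 * ((K : ℝ) + 1) ^ 2 + 8 * ((K : ℝ) + 1) ^ 3 * Real.log L) / w := by
  classical
  set P := (primesIoc w z).erase e with hP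
  have hPsub : P ⊆ primesIoc w z := erase_subset _ _
  have hPp : ∀ p ∈ P, p.Prime := fun p hp => (mem_primesIoc.mp (hPsub hp)).2.2
  have hPw : ∀ p ∈ P, w < p := fun p hp => (mem_primesIoc.mp (hPsub hp)).1
  have hw0 : (0 : ℝ) < w := by
    have : 0 < w := by omega
    exact_mod_cast this
  set S := U ∪ Z with hS
  set Q := P.filter (fun p => ∃ a ∈ S, ∃ b ∈ S, a < b ∧ p ∣ b - a) with hQ
  have hterm : ∀ p ∈ P, |(1 - (#(Rs Z U p) : ℝ) * gd Z p) / (1 - 1 / (p : ℝ)) ^ #U - 1| ≤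
      6 * ((K : ℝ) + 1) ^ 2 * (1 / (p : ℝ) ^ 2) + (if p ∈ Q then 4 * ((K : ℝ) + 1) / w else 0) := by
    intro p hp
    have hpp := hPp p hp
    have hpw := hPw p hp
    have hwp : (w : ℝ) ≤ p := by exact_mod_cast hpw.le
    have hp0 : (0 : ℝ) < p := lt_of_lt_of_le hw0 hwp
    by_cases hpQ : p ∈ Q
    · rw [if_pos hpQ]
      have h1 := vc_bad (K := K) (n := #U) (s := #Z) (r := #(Rs Z U p)) (p := p) hUK hZ1
        (vcRs_le Z U) (by omega)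
      have h2 : 4 * ((K : ℝ) + 1) / p ≤ 4 * ((K : ℝ) + 1) / w :=
        div_le_div_of_nonneg_left (by positivity) hw0 hwp
      have h3 : 0 ≤ 6 * ((K : ℝ) + 1) ^ 2 * (1 / (p : ℝ) ^ 2) := by positivity
      unfold gd
      linarith
    · rw [if_neg hpQ, add_zero]
      have hg : vcGood (U ∪ Z) p := by
        intro a ha b hb hab hd
        exact hpQ (mem_filter.mpr ⟨hp, a, ha, b, hb, hab, hd⟩)
      have h1 : #(Rs Z U p) = #U := le_antisymm (vcRs_le Z U) (vcRs_ge hpp.pos hdis hg)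
      rw [h1]
      have h2 := vc_good (K := K) (n := #U) (s := #Z) (p := p) hUK hZ1 (by omega)
      unfold gd
      have h3 : 6 * ((K : ℝ) + 1) ^ 2 / (p : ℝ) ^ 2 = 6 * ((K : ℝ) + 1) ^ 2 * (1 / (p : ℝ) ^ 2) := by
        rw [mul_one_div]
      linarith
  have hsum := sum_le_sum hterm
  rw [sum_add_distrib, ← mul_sum] at hsum
  have h1 : ∑ p ∈ P, (if p ∈ Q then 4 * ((K : ℝ) + 1) / w else 0) = #Q * (4 * ((K : ℝ) + 1) / w) := by
    rw [← sum_filter, sum_const, nsmul_eq_mul]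
    have h2 : P.filter (fun p => p ∈ Q) = Q := by
      ext p
      rw [mem_filter]
      constructor
      · exact fun h => h.2
      · exact fun h => ⟨(mem_filter.mp h).1, h⟩
    rw [h2]
  rw [h1] at hsum
  have hScard : #S ≤ K + 1 := (card_union_le _ _).trans (by omega)
  have hSL : S ⊆ Icc 1 L := union_subset hU hZ
  have h2 := vc_card_bad P S hPp hScard hL hSL
  rw [← hQ] at h2
  have h3 := vc_sum_sq (w := w) (z := z) (by omega) P hPsub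
  have h4 : 6 * ((K : ℝ) + 1) ^ 2 * ∑ p ∈ P, 1 / (p : ℝ) ^ 2 ≤ 6 * ((K : ℝ) + 1) ^ 2 * (1 / w) :=
    mul_le_mul_of_nonneg_left h3 (by positivity)
  push_cast at h2
  have h5 : (#Q : ℝ) * (4 * ((K : ℝ) + 1) / w) ≤ ((K : ℝ) + 1) ^ 2 * (2 * Real.log L) * (4 * ((K : ℝ) + 1) / w) :=
    mul_le_mul_of_nonneg_right h2 (by positivity)
  have h6 : (6 * ((K : ℝ) + 1) ^ 2 + 8 * ((K : ℝ) + 1) ^ 3 * Real.log L) / w =
      6 * ((K : ℝ) + 1) ^ 2 * (1 / w) + ((K : ℝ) + 1) ^ 2 * (2 * Real.log L) * (4 * ((K : ℝ) + 1) / w) := by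
    field_simp
    ring
  rw [h6]
  linarith

theorem vv_comp (K : ℕ) {lam δ ε : ℝ} (hlam : 0 < lam) (hδ : 0 < δ) (hε : 0 < ε) :
    ∀ᶠ ℓ : ℝ in atTop, ∀ e : ℕ, ∀ Z U : Finset ℕ, Z ⊆ Icc 1 ⌊lam * ℓ⌋₊ → U ⊆ Icc 1 ⌊lam * ℓ⌋₊ → #Z ≤ 1 →
      Disjoint Z U → #U ≤ K →
      |VV (PP δ ℓ e) Z U - V1 δ ℓ e ^ #U| ≤ ε * V1 δ ℓ e ^ #U := by
  obtain ⟨η, hη0, hη1, hηε⟩ : ∃ η : ℝ, 0 < η ∧ η ≤ 1 ∧ 2 * η ≤ ε := by
    refine ⟨min 1 (ε / 2), by positivity, min_le_left _ _, ?_⟩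
    have := min_le_right 1 (ε / 2)
    linarith
  have hL1 : ∀ᶠ ℓ : ℝ in atTop, 1 ≤ ⌊lam * ℓ⌋₊ := by
    filter_upwards [eventually_ge_atTop (1 / lam)] with ℓ hℓ
    rw [Nat.one_le_floor_iff]
    rw [div_le_iff₀ hlam] at hℓ
    linarith
  filter_upwards [vc_tendsto (6 * ((K : ℝ) + 1) ^ 2) (8 * ((K : ℝ) + 1) ^ 3) hlam hη0,
    ev_wz (2 * (K : ℝ) + 2), hL1] with ℓ h1 h2 h3
  intro e Z U hZ hU hZ1 hdis hUK
  have hw : 2 * K + 2 ≤ wz ℓ := by exact_mod_cast h2.2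
  have h4 := vc_main K (z := zz δ ℓ) (e := e) hw h3 hZ hU hZ1 hdis hUK
  have hG : ∀ p ∈ PP δ ℓ e, 0 < (1 - 1 / (p : ℝ)) ^ #U := by
    intro p hp
    have hp2 := (mem_primesIoc.mp (mem_of_mem_erase hp)).2.2.two_le
    have hp2' : (2 : ℝ) ≤ p := by exact_mod_cast hp2
    have h5 : 1 / (p : ℝ) ≤ 1 / 2 := one_div_le_one_div_of_le (by norm_num) hp2'
    have h6 : 0 < 1 - 1 / (p : ℝ) := by linarith
    positivity
  have h5 := vc_prod (P := PP δ ℓ e) (F := fun p => 1 - (#(Rs Z U p) : ℝ) * gd Z p)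
    (G := fun p => (1 - 1 / (p : ℝ)) ^ #U) hG hη1 (h4.trans h1)
  have h6 : ∏ p ∈ PP δ ℓ e, (1 - 1 / (p : ℝ)) ^ #U = V1 δ ℓ e ^ #U := by
    rw [prod_pow]
    rfl
  rw [h6] at h5
  have h7 : 0 < V1 δ ℓ e ^ #U := pow_pos (V1_pos δ ℓ e) _
  have h8 : VV (PP δ ℓ e) Z U = ∏ p ∈ PP δ ℓ e, (1 - (#(Rs Z U p) : ℝ) * gd Z p) := rfl
  rw [h8]
  exact h5.trans (mul_le_mul_of_nonneg_right hηε h7.le)

end Pool.Agent.H81.AS
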